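import Mathlib

set_option autoImplicit false

noncomputable section

namespace Pool.Agent.H859R3

open unitInterval

/-- Ordered configurations of `n` distinct points of the open unit disc. -/
abbrev Cfg (n : ℕ) : Type := {f : Fin n → ℂ // Function.Injective f ∧ ∀ m, ‖f m‖ < 1}

variable {n : ℕ}

def IsCfg (f : Fin n → ℂ) : Prop := Function.Injective f ∧ ∀ m, ‖f m‖ < 1

/-- Two paths inside a star-convex set of configurations are homotopic. -/
theorem homotopic_of_star {S : Set (Fin n → ℂ)} {c : Fin n → ℂ} (hS : StarConvex ℝ c S)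
    (hsub : ∀ f ∈ S, IsCfg f) {x y : Cfg n} (p q : Path x y)
    (hp : ∀ t, (p t).1 ∈ S) (hq : ∀ t, (q t).1 ∈ S) : p.Homotopic q := by
  have hne : S.Nonempty := ⟨_, hp 0⟩
  have := hS.contractibleSpace hne
  let ι : C(S, Cfg n) := ⟨fun z => ⟨z.1, hsub z.1 z.2⟩, by fun_prop⟩
  have hx : x.1 ∈ S := by simpa using hp 0
  have hy : y.1 ∈ S := by simpa using hp 1
  let p' : Path (⟨x.1, hx⟩ : S) ⟨y.1, hy⟩ :=
    { toFun := fun t => ⟨(p t).1, hp t⟩
      continuous_toFun := by fun_prop
      source' := by simp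
      target' := by simp }
  let q' : Path (⟨x.1, hx⟩ : S) ⟨y.1, hy⟩ :=
    { toFun := fun t => ⟨(q t).1, hq t⟩
      continuous_toFun := by fun_prop
      source' := by simp
      target' := by simp }
  have h := (SimplyConnectedSpace.paths_homotopic p' q').map ι
  exact h

theorem homotopic_of_convex {S : Set (Fin n → ℂ)} (hS : Convex ℝ S)
    (hsub : ∀ f ∈ S, IsCfg f) {x y : Cfg n} (p q : Path x y)
    (hp : ∀ t, (p t).1 ∈ S) (hq : ∀ t, (q t).1 ∈ S) : p.Homotopic q :=
  homotopic_of_star (hS.starConvex (hp 0)) hsub p q hp hq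

/-- straight segments which stay in the configuration space -/
def SegOK (x y : Cfg n) : Prop := ∀ t : I, IsCfg ((1 - (t : ℝ)) • x.1 + (t : ℝ) • y.1)

/-- the straight path -/
def sp (x y : Cfg n) (h : SegOK x y) : Path x y where
  toFun t := ⟨(1 - (t : ℝ)) • x.1 + (t : ℝ) • y.1, h t⟩
  continuous_toFun := by fun_prop
  source' := by simp
  target' := by simp

/-- its class -/
def sc (x y : Cfg n) (h : SegOK x y) : Path.Homotopic.Quotient x y := .mk (sp x y h)

theorem segOK_of_convex {S : Set (Fin n → ℂ)} (hS : Convex ℝ S) (hsub : ∀ f ∈ S, IsCfg f)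
    {x y : Cfg n} (hx : x.1 ∈ S) (hy : y.1 ∈ S) : SegOK x y := by
  intro t
  exact hsub _ (hS hx hy (by linarith [t.2.2]) t.2.1 (by ring))

theorem sp_mem {S : Set (Fin n → ℂ)} (hS : Convex ℝ S)
    {x y : Cfg n} (hx : x.1 ∈ S) (hy : y.1 ∈ S) (h : SegOK x y) (t : I) :
    (sp x y h t).1 ∈ S :=
  hS hx hy (by linarith [t.2.2]) t.2.1 (by ring)

theorem mk_eq_sc {S : Set (Fin n → ℂ)} (hS : Convex ℝ S) (hsub : ∀ f ∈ S, IsCfg f)
    {x y : Cfg n} (p : Path x y) (hp : ∀ t, (p t).1 ∈ S) (h : SegOK x y) :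
    Path.Homotopic.Quotient.mk p = sc x y h := by
  have hx : x.1 ∈ S := by simpa using hp 0
  have hy : y.1 ∈ S := by simpa using hp 1
  exact Path.Homotopic.Quotient.eq.2
    (homotopic_of_convex hS hsub p _ hp (sp_mem hS hx hy h))

theorem trans_mem {S : Set (Fin n → ℂ)} {x y z : Cfg n} (p : Path x y) (q : Path y z)
    (hp : ∀ t, (p t).1 ∈ S) (hq : ∀ t, (q t).1 ∈ S) (t : I) : ((p.trans q) t).1 ∈ S := by
  rw [Path.trans_apply]
  split_ifs
  · exact hp _
  · exact hq _

theorem sc_trans {S : Set (Fin n → ℂ)} (hS : Convex ℝ S) (hsub : ∀ f ∈ S, IsCfg f)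
    {x y z : Cfg n} (hx : x.1 ∈ S) (hy : y.1 ∈ S) (hz : z.1 ∈ S)
    (h1 : SegOK x y) (h2 : SegOK y z) (h3 : SegOK x z) :
    (sc x y h1).trans (sc y z h2) = sc x z h3 := by
  unfold sc
  rw [← Path.Homotopic.Quotient.mk_trans]
  exact mk_eq_sc hS hsub _ (trans_mem _ _ (sp_mem hS hx hy h1) (sp_mem hS hy hz h2)) h3

theorem sc_self (x : Cfg n) (h : SegOK x x) : sc x x h = Path.Homotopic.Quotient.refl x := by
  unfold sc
  rw [← Path.Homotopic.Quotient.mk_refl]
  congr 1
  ext t m
  simp [sp, ← add_smul]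

/-- strict lexicographic order: real part increasing, ties by decreasing imaginary part -/
def lx (u w : ℂ) : Prop := u.re < w.re ∨ (u.re = w.re ∧ w.im < u.im)

theorem lx_combo {u w u' w' : ℂ} {s t : ℝ} (hs : 0 ≤ s) (ht : 0 ≤ t) (hst : s + t = 1)
    (h : lx u w) (h' : lx u' w') :
    lx (s • u + t • u') (s • w + t • w') := by
  unfold lx at *
  simp only [Complex.add_re, Complex.real_smul, Complex.mul_re, Complex.ofReal_re,
    Complex.ofReal_im, zero_mul, sub_zero, Complex.add_im, Complex.mul_im, add_zero]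
  rcases hs.eq_or_lt with rfl | hs'
  · have : t = 1 := by linarith
    subst this
    simpa using h'
  rcases ht.eq_or_lt with rfl | ht'
  · have : s = 1 := by linarith
    subst this
    simpa using h
  rcases h with h | ⟨h1, h2⟩
  · left
    have h3 : u'.re ≤ w'.re := by
      rcases h' with h' | ⟨h', -⟩
      · exact h'.le
      · exact h'.le
    nlinarith
  · rcases h' with h' | ⟨h3, h4⟩
    · left
      rw [h1]
      nlinarith
    · right
      rw [h1, h3]
      exact ⟨rfl, by nlinarith⟩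

theorem lx_irrefl (u : ℂ) : ¬ lx u u := by
  unfold lx; simp

theorem lx_asymm {u w : ℂ} (h : lx u w) : ¬ lx w u := by
  unfold lx at *
  rcases h with h | ⟨h1, h2⟩ <;> rintro (h' | ⟨h3, h4⟩) <;> linarith

theorem lx_total {u w : ℂ} (h : u ≠ w) : lx u w ∨ lx w u := by
  unfold lx
  rcases lt_trichotomy u.re w.re with h1 | h1 | h1
  · exact Or.inl (Or.inl h1)
  · rcases lt_trichotomy u.im w.im with h2 | h2 | h2
    · exact Or.inr (Or.inr ⟨h1.symm, h2⟩)
    · exact absurd (Complex.ext h1 h2) h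
    · exact Or.inl (Or.inr ⟨h1, h2⟩)
  · exact Or.inr (Or.inl h1)

/-- The convex set of configurations adapted to a pair of orders. -/
def U (ρ ρ' : Equiv.Perm (Fin n)) : Set (Fin n → ℂ) :=
  {f | (∀ m, ‖f m‖ < 1) ∧ (∀ a b, ρ a < ρ b → ρ' a < ρ' b → lx (f a) (f b)) ∧
    (∀ a b, ρ a < ρ b → ρ' b < ρ' a → (f a).im < (f b).im)}

theorem norm_combo {u w : ℂ} {s t : ℝ} (hs : 0 ≤ s) (ht : 0 ≤ t) (hst : s + t = 1)
    (hu : ‖u‖ < 1) (hw : ‖w‖ < 1) : ‖s • u + t • w‖ < 1 := by
  have := (convex_ball (0 : ℂ) 1) (x := u) (by simpa using hu) (y := w) (by simpa using hw) hs ht hst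
  simpa using this

theorem U_convex (ρ ρ' : Equiv.Perm (Fin n)) : Convex ℝ (U ρ ρ') := by
  intro f hf g hg s t hs ht hst
  refine ⟨fun m => ?_, fun a b h1 h2 => ?_, fun a b h1 h2 => ?_⟩
  · exact norm_combo hs ht hst (hf.1 m) (hg.1 m)
  · exact lx_combo hs ht hst (hf.2.1 a b h1 h2) (hg.2.1 a b h1 h2)
  · have h3 := hf.2.2 a b h1 h2
    have h4 := hg.2.2 a b h1 h2
    have : (s • f + t • g) a = s • f a + t • g a := rfl
    have h5 : (s • f + t • g) b = s • f b + t • g b := rfl
    rw [this, h5]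
    simp only [Complex.add_im, Complex.real_smul, Complex.mul_im, Complex.ofReal_re,
      Complex.ofReal_im, zero_mul, add_zero]
    rcases hs.eq_or_lt with rfl | hs'
    · have : t = 1 := by linarith
      subst this
      simpa using h4
    · nlinarith

theorem U_sub (ρ ρ' : Equiv.Perm (Fin n)) : ∀ f ∈ U ρ ρ', IsCfg f := by
  intro f hf
  refine ⟨?_, hf.1⟩
  intro a b hab
  by_contra hne
  have key : ∀ a b : Fin n, f a = f b → ρ a < ρ b → False := by
    intro a b hab h
    rcases lt_trichotomy (ρ' a) (ρ' b) with h' | h' | h'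
    · have := hf.2.1 a b h h'
      rw [hab] at this
      exact lx_irrefl _ this
    · rw [ρ'.injective h'] at h
      exact lt_irrefl _ h
    · have := hf.2.2 a b h h'
      rw [hab] at this
      exact lt_irrefl _ this
  rcases lt_trichotomy (ρ a) (ρ b) with h | h | h
  · exact key a b hab h
  · exact hne (ρ.injective h)
  · exact key b a hab.symm h

end Pool.Agent.H859R3

end
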