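import Mathlib
import Pool.Agent.H859R3.BraidTop

set_option autoImplicit false

noncomputable section

namespace Pool.Agent.H859R3

open unitInterval

variable {n : ℕ}

/-- base abscissas -/
def bx (n : ℕ) (j : ℕ) : ℝ := (2 * (j : ℝ) + 1) / (n : ℝ) - 1

/-- centre of the i-th half twist -/
def cx (n : ℕ) (i : ℕ) : ℝ := (2 * (i : ℝ) + 2) / (n : ℝ) - 1

theorem bx_lt {n : ℕ} (hn : 2 ≤ n) {i j : ℕ} (h : i < j) : bx n i < bx n j := by
  have hn' : (0 : ℝ) < n := by positivity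
  have h' : (i : ℝ) < j := by exact_mod_cast h
  unfold bx
  have : (2 * (i : ℝ) + 1) / (n : ℝ) < (2 * (j : ℝ) + 1) / (n : ℝ) := by
    apply div_lt_div_of_pos_right _ hn'
    linarith
  linarith

theorem bx_sub {n : ℕ} (hn : 2 ≤ n) {i j : ℕ} (h : i < j) : bx n i + 2 / n ≤ bx n j := by
  have hn' : (0 : ℝ) < n := by positivity
  have h' : (i : ℝ) + 1 ≤ j := by exact_mod_cast h
  have : bx n j - (bx n i + 2 / n) = (2 * ((j : ℝ) - (i + 1))) / n := by
    unfold bx
    field_simp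
    ring
  have h2 : 0 ≤ (2 * ((j : ℝ) - (i + 1))) / n := by
    apply div_nonneg _ hn'.le
    linarith
  linarith

theorem abs_bx {n : ℕ} (hn : 2 ≤ n) {j : ℕ} (h : j < n) : |bx n j| ≤ 1 - 1 / n := by
  have hn' : (0 : ℝ) < n := by positivity
  have h' : (j : ℝ) + 1 ≤ n := by exact_mod_cast h
  have h0 : (0 : ℝ) ≤ j := by positivity
  unfold bx
  rw [abs_le]
  have e1 : (2 * (j : ℝ) + 1) / n - 1 - (-(1 - 1 / n)) = (2 * (j : ℝ)) / n := by
    field_simp; ring
  have e2 : (1 - 1 / n) - ((2 * (j : ℝ) + 1) / n - 1) = (2 * ((n : ℝ) - (j + 1))) / n := by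
    field_simp; ring
  have p1 : 0 ≤ (2 * (j : ℝ)) / n := by positivity
  have p2 : 0 ≤ (2 * ((n : ℝ) - (j + 1))) / n := by
    apply div_nonneg _ hn'.le
    linarith
  constructor <;> linarith

theorem cx_eq {n : ℕ} (hn : 2 ≤ n) (i : ℕ) : cx n i = bx n i + 1 / n := by
  have hn' : (0 : ℝ) < n := by positivity
  unfold cx bx
  field_simp; ring

theorem cx_eq' {n : ℕ} (hn : 2 ≤ n) (i : ℕ) : cx n i = bx n (i + 1) - 1 / n := by
  have hn' : (0 : ℝ) < n := by positivity
  unfold cx bx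
  push_cast
  field_simp; ring

theorem abs_cx {n : ℕ} (hn : 2 ≤ n) {i : ℕ} (h : i + 1 < n) : |cx n i| ≤ 1 - 2 / n := by
  have hn' : (0 : ℝ) < n := by positivity
  have h1 := cx_eq hn i
  have h2 := cx_eq' hn i
  have h3 := abs_le.1 (abs_bx hn (j := i) (by omega))
  have h4 := abs_le.1 (abs_bx hn (j := i + 1) (by omega))
  rw [abs_le]
  have : (2 : ℝ) / n = 1 / n + 1 / n := by ring
  constructor <;> linarith

/-- The base configuration, labelled by `ρ`. -/
def base [hn : Fact (2 ≤ n)] (ρ : Equiv.Perm (Fin n)) : Cfg n :=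
  ⟨fun m => ((bx n (ρ m : ℕ) : ℝ) : ℂ), by
    constructor
    · intro a b hab
      have h1 : bx n (ρ a : ℕ) = bx n (ρ b : ℕ) := Complex.ofReal_injective hab
      rcases lt_trichotomy (ρ a) (ρ b) with h | h | h
      · exact absurd h1 (bx_lt hn.1 h).ne
      · exact ρ.injective h
      · exact absurd h1 (bx_lt hn.1 h).ne'
    · intro m
      rw [Complex.norm_real, Real.norm_eq_abs]
      have hn' : (0 : ℝ) < n := by have := hn.1; positivity
      have := abs_bx hn.1 (ρ m).2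
      have h2 : (0 : ℝ) < 1 / n := by positivity
      linarith⟩

theorem base_re [hn : Fact (2 ≤ n)] (ρ : Equiv.Perm (Fin n)) (m : Fin n) :
    ((base ρ).1 m).re = bx n (ρ m : ℕ) := by simp [base]

theorem base_im [hn : Fact (2 ≤ n)] (ρ : Equiv.Perm (Fin n)) (m : Fin n) :
    ((base ρ).1 m).im = 0 := by simp [base]

/-- the configuration with standard abscissas and shrunken ordinates -/
def Nf (ρ : Equiv.Perm (Fin n)) (y : Fin n → ℝ) : Fin n → ℂ :=
  fun m => ⟨bx n (ρ m : ℕ), y m / n⟩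

theorem Nf_norm (hn : 2 ≤ n) (ρ : Equiv.Perm (Fin n)) (y : Fin n → ℝ)
    (hy : ∀ m, |y m| < 1) (m : Fin n) : ‖Nf ρ y m‖ < 1 := by
  have hn' : (2 : ℝ) ≤ n := by exact_mod_cast hn
  have h0 : (0 : ℝ) < n := by linarith
  have h1 := abs_bx hn (ρ m).2
  have h2 : ‖Nf ρ y m‖ ≤ |bx n (ρ m : ℕ)| + |y m / n| := by
    have := Complex.norm_le_abs_re_add_abs_im (Nf ρ y m)
    simpa [Nf] using this
  have h3 : |y m / n| < 1 / n := by
    rw [abs_div, abs_of_pos h0]
    exact div_lt_div_of_pos_right (hy m) h0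
  linarith

/-- The half twist of the points at positions `i, i+1` (relative to `ρ`) at time `s`. -/
def htf (ρ : Equiv.Perm (Fin n)) (i : ℕ) (s : ℝ) : Fin n → ℂ := fun m =>
  if ((ρ m : ℕ)) = i then
    (((2 * (i : ℝ) + 2) / (n : ℝ) - 1 : ℝ) : ℂ)
      - ((1 / (n : ℝ) : ℝ) : ℂ) *
        Complex.exp ((Real.pi : ℂ) * (s : ℂ) * Complex.I)
  else if ((ρ m : ℕ)) = i + 1 then
    (((2 * (i : ℝ) + 2) / (n : ℝ) - 1 : ℝ) : ℂ)
      + ((1 / (n : ℝ) : ℝ) : ℂ) *
        Complex.exp ((Real.pi : ℂ) * (s : ℂ) * Complex.I)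
  else (((2 * ((ρ m : ℕ) : ℝ) + 1) / (n : ℝ) - 1 : ℝ) : ℂ)

theorem exp_re (s : ℝ) : (Complex.exp ((Real.pi : ℂ) * (s : ℂ) * Complex.I)).re
    = Real.cos (Real.pi * s) := by
  rw [← Complex.ofReal_mul, Complex.exp_ofReal_mul_I_re]

theorem exp_im (s : ℝ) : (Complex.exp ((Real.pi : ℂ) * (s : ℂ) * Complex.I)).im
    = Real.sin (Real.pi * s) := by
  rw [← Complex.ofReal_mul, Complex.exp_ofReal_mul_I_im]

theorem htf_re (ρ : Equiv.Perm (Fin n)) (i : ℕ) (s : ℝ) (m : Fin n) :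
    (htf ρ i s m).re = if ((ρ m : ℕ)) = i then cx n i - 1 / n * Real.cos (Real.pi * s)
      else if ((ρ m : ℕ)) = i + 1 then cx n i + 1 / n * Real.cos (Real.pi * s)
      else bx n (ρ m : ℕ) := by
  unfold htf
  split_ifs
  · rw [Complex.sub_re, Complex.ofReal_re, Complex.re_ofReal_mul, exp_re]; rfl
  · rw [Complex.add_re, Complex.ofReal_re, Complex.re_ofReal_mul, exp_re]; rfl
  · rw [Complex.ofReal_re]; rfl

theorem htf_im (ρ : Equiv.Perm (Fin n)) (i : ℕ) (s : ℝ) (m : Fin n) :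
    (htf ρ i s m).im = if ((ρ m : ℕ)) = i then - (1 / n * Real.sin (Real.pi * s))
      else if ((ρ m : ℕ)) = i + 1 then 1 / n * Real.sin (Real.pi * s)
      else 0 := by
  unfold htf
  split_ifs
  · rw [Complex.sub_im, Complex.ofReal_im, Complex.im_ofReal_mul, exp_im]; ring
  · rw [Complex.add_im, Complex.ofReal_im, Complex.im_ofReal_mul, exp_im]; ring
  · rw [Complex.ofReal_im]

theorem htf_norm (hn : 2 ≤ n) (ρ : Equiv.Perm (Fin n)) {i : ℕ} (hi : i + 1 < n) (s : ℝ)
    (m : Fin n) : ‖htf ρ i s m‖ < 1 := by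
  have h0 : (0 : ℝ) < n := by positivity
  have hc := abs_cx hn hi
  have hpos : (0 : ℝ) < 1 / n := by positivity
  have he : ‖((1 / (n : ℝ) : ℝ) : ℂ) * Complex.exp ((Real.pi : ℂ) * (s : ℂ) * Complex.I)‖
      = 1 / n := by
    rw [norm_mul, ← Complex.ofReal_mul, Complex.norm_exp_ofReal_mul_I, Complex.norm_real,
      Real.norm_eq_abs, abs_of_pos hpos, mul_one]
  have hcn : ‖(((2 * (i : ℝ) + 2) / (n : ℝ) - 1 : ℝ) : ℂ)‖ ≤ 1 - 2 / n := by
    rw [Complex.norm_real, Real.norm_eq_abs]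
    exact hc
  have h22 : (2 : ℝ) / n = 1 / n + 1 / n := by ring
  unfold htf
  split_ifs
  · refine lt_of_le_of_lt (norm_sub_le _ _) ?_
    rw [he]
    linarith
  · refine lt_of_le_of_lt (norm_add_le _ _) ?_
    rw [he]
    linarith
  · rw [Complex.norm_real, Real.norm_eq_abs]
    have := abs_bx hn (ρ m).2
    unfold bx at this
    linarith

/-- the adjacent transposition of positions applied to `ρ` -/
def adj (ρ : Equiv.Perm (Fin n)) (i : ℕ) (hi : i + 1 < n) : Equiv.Perm (Fin n) :=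
  Equiv.swap (⟨i, by omega⟩ : Fin n) ⟨i + 1, hi⟩ * ρ

theorem adj_val (ρ : Equiv.Perm (Fin n)) (i : ℕ) (hi : i + 1 < n) (m : Fin n) :
    ((adj ρ i hi m : Fin n) : ℕ) = if (ρ m : ℕ) = i then i + 1
      else if (ρ m : ℕ) = i + 1 then i else (ρ m : ℕ) := by
  unfold adj
  rw [Equiv.Perm.mul_apply, Equiv.swap_apply_def]
  simp only [Fin.ext_iff]
  split_ifs <;> rfl

/-- pairs inverted by `adj` -/
theorem adj_inv (ρ : Equiv.Perm (Fin n)) (i : ℕ) (hi : i + 1 < n) {a b : Fin n}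
    (h : ρ a < ρ b) (h' : adj ρ i hi b < adj ρ i hi a) : (ρ a : ℕ) = i ∧ (ρ b : ℕ) = i + 1 := by
  rw [Fin.lt_def, adj_val, adj_val] at h'
  rw [Fin.lt_def] at h
  split_ifs at h' <;> omega

theorem adj_keep (ρ : Equiv.Perm (Fin n)) (i : ℕ) (hi : i + 1 < n) {a b : Fin n}
    (h : ρ a < ρ b) (h' : adj ρ i hi a < adj ρ i hi b) :
    ¬ ((ρ a : ℕ) = i ∧ (ρ b : ℕ) = i + 1) := by
  rw [Fin.lt_def, adj_val, adj_val] at h'
  rw [Fin.lt_def] at h
  split_ifs at h' <;> omega

theorem adj_keep' (ρ : Equiv.Perm (Fin n)) (i : ℕ) (hi : i + 1 < n) {a b : Fin n}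
    (h : ρ a < ρ b) (h' : ¬ ((ρ a : ℕ) = i ∧ (ρ b : ℕ) = i + 1)) :
    adj ρ i hi a < adj ρ i hi b := by
  rw [Fin.lt_def, adj_val, adj_val]
  rw [Fin.lt_def] at h
  split_ifs <;> omega

theorem adj_swap (ρ : Equiv.Perm (Fin n)) (i : ℕ) (hi : i + 1 < n) {a b : Fin n}
    (h : (ρ a : ℕ) = i ∧ (ρ b : ℕ) = i + 1) :
    adj ρ i hi b < adj ρ i hi a := by
  rw [Fin.lt_def, adj_val, adj_val]
  split_ifs <;> omega

/-- abscissas of non-adjacent pairs stay apart along the half twist -/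
theorem htf_sep (hn : 2 ≤ n) (ρ : Equiv.Perm (Fin n)) {i : ℕ} (hi : i + 1 < n) (s : ℝ)
    {a b : Fin n} (h : ρ a < ρ b) (h' : ¬ ((ρ a : ℕ) = i ∧ (ρ b : ℕ) = i + 1)) :
    (htf ρ i s a).re + 2 / n ≤ (htf ρ i s b).re := by
  have h0 : (0 : ℝ) < n := by positivity
  have hpos : (0 : ℝ) < 1 / n := by positivity
  have hc1 := Real.cos_le_one (Real.pi * s)
  have hc2 := Real.neg_one_le_cos (Real.pi * s)
  have hb1 : 1 / (n : ℝ) * Real.cos (Real.pi * s) ≤ 1 / n := by nlinarith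
  have hb2 : -(1 / (n : ℝ)) ≤ 1 / (n : ℝ) * Real.cos (Real.pi * s) := by nlinarith
  have e1 := cx_eq hn i
  have e2 := cx_eq' hn i
  have h22 : (2 : ℝ) / n = 1 / n + 1 / n := by ring
  rw [htf_re, htf_re]
  rw [Fin.lt_def] at h
  split_ifs with h1 h2 h3 h4 h5 h6 h7 h8
  · omega
  · omega
  · have := bx_sub hn (i := i + 1) (j := (ρ b : ℕ)) (by omega)
    linarith
  · omega
  · omega
  · have := bx_sub hn (i := i + 1) (j := (ρ b : ℕ)) (by omega)
    linarith
  · have := bx_sub hn (i := (ρ a : ℕ)) (j := i) (by omega)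
    linarith
  · have := bx_sub hn (i := (ρ a : ℕ)) (j := i) (by omega)
    linarith
  · exact bx_sub hn h

theorem htf_inj (hn : 2 ≤ n) (ρ : Equiv.Perm (Fin n)) {i : ℕ} (hi : i + 1 < n) (s : ℝ) :
    Function.Injective (htf ρ i s) := by
  have h0 : (0 : ℝ) < n := by positivity
  have hpos : (0 : ℝ) < 2 / n := by positivity
  have key : ∀ a b : Fin n, htf ρ i s a = htf ρ i s b → ρ a < ρ b → False := by
    intro a b hab h
    by_cases h' : (ρ a : ℕ) = i ∧ (ρ b : ℕ) = i + 1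
    · have h1 := congrArg Complex.re hab
      have h2 := congrArg Complex.im hab
      rw [htf_re, htf_re] at h1
      rw [htf_im, htf_im] at h2
      simp only [h'.1, h'.2, if_true] at h1 h2
      rw [if_neg (by omega)] at h1 h2
      have hp : (0 : ℝ) < 1 / n := by positivity
      have h3 : 1 / (n : ℝ) * Real.cos (Real.pi * s) = 0 := by linarith
      have h4 : 1 / (n : ℝ) * Real.sin (Real.pi * s) = 0 := by linarith
      have h5 : Real.cos (Real.pi * s) = 0 := by
        rcases mul_eq_zero.1 h3 with h | h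
        · linarith
        · exact h
      have h6 : Real.sin (Real.pi * s) = 0 := by
        rcases mul_eq_zero.1 h4 with h | h
        · linarith
        · exact h
      have := Real.sin_sq_add_cos_sq (Real.pi * s)
      rw [h5, h6] at this
      norm_num at this
    · have := htf_sep hn ρ hi s h h'
      rw [hab] at this
      linarith
  intro a b hab
  rcases lt_trichotomy (ρ a) (ρ b) with h | h | h
  · exact (key a b hab h).elim
  · exact ρ.injective h
  · exact (key b a hab.symm h).elim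

theorem htf_zero [hn : Fact (2 ≤ n)] (ρ : Equiv.Perm (Fin n)) {i : ℕ} (hi : i + 1 < n) :
    htf ρ i 0 = (base ρ).1 := by
  have h0 : (0 : ℝ) < n := by have := hn.1; positivity
  have e1 := cx_eq hn.1 i
  have e2 := cx_eq' hn.1 i
  ext m
  apply Complex.ext
  · rw [htf_re, base_re]
    simp only [mul_zero, Real.cos_zero, mul_one]
    split_ifs with h1 h2
    · rw [h1]; linarith
    · rw [h2]; linarith
    · rfl
  · rw [htf_im, base_im]
    simp

theorem htf_one [hn : Fact (2 ≤ n)] (ρ : Equiv.Perm (Fin n)) {i : ℕ} (hi : i + 1 < n) :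
    htf ρ i 1 = (base (adj ρ i hi)).1 := by
  have h0 : (0 : ℝ) < n := by have := hn.1; positivity
  have e1 := cx_eq hn.1 i
  have e2 := cx_eq' hn.1 i
  ext m
  apply Complex.ext
  · rw [htf_re, base_re, adj_val]
    simp only [mul_one, Real.cos_pi]
    split_ifs with h1 h2
    · linarith
    · linarith
    · rfl
  · rw [htf_im, base_im]
    simp

theorem htf_continuous (ρ : Equiv.Perm (Fin n)) (i : ℕ) : Continuous (htf ρ i) := by
  apply continuous_pi
  intro m
  unfold htf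
  split_ifs <;> fun_prop

/-- the half twist path -/
def ht [hn : Fact (2 ≤ n)] (ρ : Equiv.Perm (Fin n)) (i : ℕ) (hi : i + 1 < n) :
    Path (base ρ) (base (adj ρ i hi)) where
  toFun t := ⟨htf ρ i t, htf_inj hn.1 ρ hi t, htf_norm hn.1 ρ hi t⟩
  continuous_toFun := by
    apply Continuous.subtype_mk
    exact (htf_continuous ρ i).comp continuous_subtype_val
  source' := by
    apply Subtype.ext
    exact htf_zero ρ hi
  target' := by
    apply Subtype.ext
    exact htf_one ρ hi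

/-- star shaped set around the middle of the half twist -/
def V (ρ ρ' : Equiv.Perm (Fin n)) : Set (Fin n → ℂ) :=
  {f | (∀ m, ‖f m‖ < 1) ∧ (∀ a b, ρ a < ρ b → ρ' a < ρ' b → lx (f a) (f b)) ∧
    (∀ a b, ρ a < ρ b → ρ' b < ρ' a → ¬ ((f a).re = (f b).re ∧ (f b).im ≤ (f a).im))}

theorem V_sub (ρ ρ' : Equiv.Perm (Fin n)) : ∀ f ∈ V ρ ρ', IsCfg f := by
  intro f hf
  refine ⟨?_, hf.1⟩
  intro a b hab
  by_contra hne
  have key : ∀ a b : Fin n, f a = f b → ρ a < ρ b → False := by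
    intro a b hab h
    rcases lt_trichotomy (ρ' a) (ρ' b) with h' | h' | h'
    · have := hf.2.1 a b h h'
      rw [hab] at this
      exact lx_irrefl _ this
    · rw [ρ'.injective h'] at h
      exact lt_irrefl _ h
    · have := hf.2.2 a b h h'
      rw [hab] at this
      exact this ⟨rfl, le_rfl⟩
  rcases lt_trichotomy (ρ a) (ρ b) with h | h | h
  · exact key a b hab h
  · exact hne (ρ.injective h)
  · exact key b a hab.symm h

theorem V_star (ρ ρ' : Equiv.Perm (Fin n)) (c : Fin n → ℂ) (h1 : ∀ m, ‖c m‖ < 1)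
    (h2 : ∀ a b, ρ a < ρ b → ρ' a < ρ' b → lx (c a) (c b))
    (h3 : ∀ a b, ρ a < ρ b → ρ' b < ρ' a → (c a).re = (c b).re ∧ (c a).im < (c b).im) :
    StarConvex ℝ c (V ρ ρ') := by
  intro f hf s t hs ht hst
  refine ⟨fun m => ?_, fun a b h4 h5 => ?_, fun a b h4 h5 => ?_⟩
  · exact norm_combo hs ht hst (h1 m) (hf.1 m)
  · exact lx_combo hs ht hst (h2 a b h4 h5) (hf.2.1 a b h4 h5)
  · obtain ⟨h6, h7⟩ := h3 a b h4 h5
    have h8 := hf.2.2 a b h4 h5
    have ea : (s • c + t • f) a = s • c a + t • f a := rfl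
    have eb : (s • c + t • f) b = s • c b + t • f b := rfl
    rw [ea, eb]
    simp only [Complex.add_im, Complex.real_smul, Complex.mul_im, Complex.ofReal_re,
      Complex.ofReal_im, zero_mul, add_zero, Complex.add_re, Complex.mul_re, sub_zero]
    rintro ⟨h9, h10⟩
    rcases ht.eq_or_lt with rfl | ht'
    · have : s = 1 := by linarith
      subst this
      simp at h10
      linarith
    · rw [h6] at h9
      have h11 : (f a).re = (f b).re := by
        have : t * (f a).re = t * (f b).re := by linarith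
        exact mul_left_cancel₀ ht'.ne' this
      have h12 : (f a).im < (f b).im := by
        by_contra h13
        exact h8 ⟨h11, not_lt.1 h13⟩
      nlinarith

theorem U_sub_V (ρ ρ' : Equiv.Perm (Fin n)) : U ρ ρ' ⊆ V ρ ρ' := by
  intro f hf
  refine ⟨hf.1, hf.2.1, ?_⟩
  intro a b h1 h2 h3
  have := hf.2.2 a b h1 h2
  linarith [h3.2]

theorem U'_sub_V (ρ ρ' : Equiv.Perm (Fin n)) : U ρ' ρ' ⊆ V ρ ρ' := by
  intro f hf
  refine ⟨hf.1, fun a b h1 h2 => hf.2.1 a b h2 h2, ?_⟩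
  intro a b h1 h2 h3
  have := hf.2.1 b a h2 h2
  unfold lx at this
  rcases this with h | ⟨h, h'⟩
  · linarith [h3.1]
  · linarith [h3.2]

end Pool.Agent.H859R3

end
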