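import Mathlib
import Pool.Agent.H859R3.BraidWord

set_option autoImplicit false

noncomputable section

namespace Pool.Agent.H859R3

open unitInterval

variable {n : ℕ}

theorem base_mem [hn : Fact (2 ≤ n)] (ρ : Equiv.Perm (Fin n)) : (base ρ).1 ∈ U ρ ρ := by
  refine ⟨(base ρ).2.2, fun a b h _ => ?_, fun a b h h' => absurd h' (lt_asymm h)⟩
  left
  rw [base_re, base_re]
  exact bx_lt hn.1 h

theorem half_twist_class [hn : Fact (2 ≤ n)] (ρ : Equiv.Perm (Fin n)) (i : ℕ) (hi : i + 1 < n)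
    (w1 w2 : Cfg n)
    (h1 : w1.1 ∈ U ρ ρ) (h1' : w1.1 ∈ U ρ (adj ρ i hi))
    (h2 : w2.1 ∈ U (adj ρ i hi) (adj ρ i hi)) (h2' : w2.1 ∈ U ρ (adj ρ i hi))
    (s1 : SegOK (base ρ) w1) (s2 : SegOK w1 w2) (s3 : SegOK w2 (base (adj ρ i hi))) :
    ((sc _ _ s1).trans (sc _ _ s2)).trans (sc _ _ s3) = .mk (ht ρ i hi) := by
  unfold sc
  rw [← Path.Homotopic.Quotient.mk_trans, ← Path.Homotopic.Quotient.mk_trans]
  apply Path.Homotopic.Quotient.eq.2
  have hn' : (0 : ℝ) < n := by have := hn.1; positivity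
  have hp : (0 : ℝ) < 1 / n := by positivity
  have hp2 : (0 : ℝ) < 2 / n := by positivity
  have hstar : StarConvex ℝ (htf ρ i (1 / 2)) (V ρ (adj ρ i hi)) := by
    apply V_star
    · exact htf_norm hn.1 ρ hi _
    · intro a b h h'
      left
      have := htf_sep hn.1 ρ hi (1 / 2) h (adj_keep ρ i hi h h')
      linarith
    · intro a b h h'
      obtain ⟨ha, hb⟩ := adj_inv ρ i hi h h'
      rw [htf_re, htf_re, htf_im, htf_im]
      have e : Real.pi * (1 / 2) = Real.pi / 2 := by ring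
      simp only [ha, hb, if_true]
      rw [if_neg (by omega), if_neg (by omega), e, Real.cos_pi_div_two, Real.sin_pi_div_two]
      constructor
      · ring
      · linarith
  refine homotopic_of_star hstar (V_sub _ _) _ _ ?_ ?_
  · apply trans_mem
    · apply trans_mem
      · intro t
        have hU := sp_mem (U_convex ρ ρ) (base_mem ρ) h1 s1 t
        refine ⟨hU.1, fun a b h h' => hU.2.1 a b h h, ?_⟩
        intro a b h h'
        rintro ⟨h3, -⟩
        have h4 : (w1.1 a).re < (w1.1 b).re := by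
          rcases h1.2.1 a b h h with h5 | ⟨-, h5⟩
          · exact h5
          · have := h1'.2.2 a b h h'
            linarith
        have h5 : ((base ρ).1 a).re < ((base ρ).1 b).re := by
          rw [base_re, base_re]; exact bx_lt hn.1 h
        have ea : ((sp (base ρ) w1 s1) t).1 a = (1 - (t : ℝ)) • (base ρ).1 a + (t : ℝ) • w1.1 a := rfl
        have eb : ((sp (base ρ) w1 s1) t).1 b = (1 - (t : ℝ)) • (base ρ).1 b + (t : ℝ) • w1.1 b := rfl
        rw [ea, eb] at h3
        simp only [Complex.add_re, Complex.real_smul, Complex.mul_re, Complex.ofReal_re,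
          Complex.ofReal_im, zero_mul, sub_zero] at h3
        have ht0 := t.2.1
        have ht1 := t.2.2
        rcases ht0.eq_or_lt with h0 | h0
        · rw [← h0] at h3
          simp at h3
          linarith
        · nlinarith
      · intro t
        exact U_sub_V _ _ (sp_mem (U_convex _ _) h1' h2' s2 t)
    · intro t
      exact U'_sub_V _ _ (sp_mem (U_convex _ _) h2 (base_mem _) s3 t)
  · intro t
    refine ⟨htf_norm hn.1 ρ hi _, ?_, ?_⟩
    · intro a b h h'
      left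
      have := htf_sep hn.1 ρ hi t h (adj_keep ρ i hi h h')
      have e1 : ((ht ρ i hi) t).1 a = htf ρ i t a := rfl
      have e2 : ((ht ρ i hi) t).1 b = htf ρ i t b := rfl
      rw [e1, e2]
      linarith
    · intro a b h h'
      obtain ⟨ha, hb⟩ := adj_inv ρ i hi h h'
      have e1 : ((ht ρ i hi) t).1 a = htf ρ i t a := rfl
      have e2 : ((ht ρ i hi) t).1 b = htf ρ i t b := rfl
      rw [e1, e2, htf_re, htf_re, htf_im, htf_im]
      simp only [ha, hb, if_true]
      rw [if_neg (by omega), if_neg (by omega)]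
      rintro ⟨h3, h4⟩
      have h5 : Real.cos (Real.pi * t) = 0 := by
        have : 1 / (n : ℝ) * Real.cos (Real.pi * t) = 0 := by linarith
        rcases mul_eq_zero.1 this with h | h
        · linarith
        · exact h
      have h6 : 0 ≤ Real.sin (Real.pi * t) := by
        apply Real.sin_nonneg_of_nonneg_of_le_pi
        · exact mul_nonneg Real.pi_pos.le t.2.1
        · nlinarith [Real.pi_pos, t.2.2]
      have h7 : Real.sin (Real.pi * t) ≤ 0 := by
        by_contra h8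
        push Not at h8
        have := mul_pos hp h8
        linarith
      have h8 : Real.sin (Real.pi * t) = 0 := le_antisymm h7 h6
      have := Real.sin_sq_add_cos_sq (Real.pi * t)
      rw [h5, h8] at this
      norm_num at this

/-- classes of products of half twists -/
inductive Pos [Fact (2 ≤ n)] (ρ : Equiv.Perm (Fin n)) :
    ∀ ρ' : Equiv.Perm (Fin n), Path.Homotopic.Quotient (base ρ) (base ρ') → Prop
  | nil : Pos ρ ρ (Path.Homotopic.Quotient.refl _)
  | snoc (ρ' : Equiv.Perm (Fin n)) (q : Path.Homotopic.Quotient (base ρ) (base ρ'))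
      (h : Pos ρ ρ' q) (i : ℕ) (hi : i + 1 < n) :
      Pos ρ (adj ρ' i hi) (q.trans (.mk (ht ρ' i hi)))

theorem Pos.trans [Fact (2 ≤ n)] {ρ ρ' ρ'' : Equiv.Perm (Fin n)}
    {p : Path.Homotopic.Quotient (base ρ) (base ρ')}
    {q : Path.Homotopic.Quotient (base ρ') (base ρ'')} (hp : Pos ρ ρ' p) (hq : Pos ρ' ρ'' q) :
    Pos ρ ρ'' (p.trans q) := by
  induction hq with
  | nil => rwa [Path.Homotopic.Quotient.trans_refl]
  | snoc ρ₁ q h i hi ih =>
    rw [← Path.Homotopic.Quotient.trans_assoc]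
    exact Pos.snoc _ _ ih i hi

theorem Pos.single [Fact (2 ≤ n)] (ρ : Equiv.Perm (Fin n)) (i : ℕ) (hi : i + 1 < n) :
    Pos ρ (adj ρ i hi) (.mk (ht ρ i hi)) := by
  have := Pos.snoc ρ _ (Pos.nil (ρ := ρ)) i hi
  rwa [Path.Homotopic.Quotient.refl_trans] at this

/-- inversions between two orders -/
def invs (ρ ρ' : Equiv.Perm (Fin n)) : Finset (Fin n × Fin n) :=
  Finset.univ.filter (fun p => ρ p.1 < ρ p.2 ∧ ρ' p.2 < ρ' p.1)

theorem exists_adj {ρ ρ' : Equiv.Perm (Fin n)} (h : ρ ≠ ρ') :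
    ∃ (i : ℕ) (_ : i + 1 < n) (a b : Fin n), (ρ a : ℕ) = i ∧ (ρ b : ℕ) = i + 1 ∧
      ρ' b < ρ' a := by
  by_contra hcon
  push Not at hcon
  apply h
  cases n with
  | zero => exact Subsingleton.elim _ _
  | succ k =>
    let f : Fin (k + 1) → Fin (k + 1) := fun j => ρ' (ρ.symm j)
    have hf : StrictMono f := by
      rw [Fin.strictMono_iff_lt_succ]
      intro j
      have h1 := hcon j (by omega) (ρ.symm j.castSucc) (ρ.symm j.succ) (by simp) (by simp)
      refine lt_of_le_of_ne h1 ?_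
      intro h2
      have h3 := ρ.symm.injective (ρ'.injective h2)
      simp [Fin.ext_iff] at h3
    have hsurj : Function.Surjective f := (ρ'.surjective).comp ρ.symm.surjective
    have he : hf.orderIsoOfSurjective f hsurj = OrderIso.refl _ := Subsingleton.elim _ _
    ext a
    have h4 : hf.orderIsoOfSurjective f hsurj (ρ a) = ρ a := by rw [he]; rfl
    have h5 : f (ρ a) = ρ a := h4
    have h6 : f (ρ a) = ρ' a := by simp [f]
    rw [← h6, h5]

theorem uniq_order {f : Fin n → ℂ} {ρ ρ' : Equiv.Perm (Fin n)} (h : f ∈ U ρ ρ)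
    (h' : f ∈ U ρ' ρ') : ρ = ρ' := by
  by_contra hne
  obtain ⟨i, hi, a, b, ha, hb, hab⟩ := exists_adj hne
  have h1 : ρ a < ρ b := by rw [Fin.lt_def]; omega
  exact lx_asymm (h.2.1 a b h1 h1) (h'.2.1 b a hab hab)

theorem invs_lt {ρ ρ' : Equiv.Perm (Fin n)} {i : ℕ} (hi : i + 1 < n) {a b : Fin n}
    (ha : (ρ a : ℕ) = i) (hb : (ρ b : ℕ) = i + 1) (hab : ρ' b < ρ' a) :
    (invs (adj ρ i hi) ρ').card < (invs ρ ρ').card := by
  apply Finset.card_lt_card
  rw [Finset.ssubset_iff_of_subset]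
  · refine ⟨(a, b), ?_, ?_⟩
    · simp only [invs, Finset.mem_filter, Finset.mem_univ, true_and]
      exact ⟨by rw [Fin.lt_def]; omega, hab⟩
    · simp only [invs, Finset.mem_filter, Finset.mem_univ, true_and]
      rintro ⟨h, -⟩
      exact lt_asymm h (adj_swap ρ i hi ⟨ha, hb⟩)
  · rintro ⟨c, d⟩ h
    simp only [invs, Finset.mem_filter, Finset.mem_univ, true_and] at h ⊢
    refine ⟨?_, h.2⟩
    rcases lt_trichotomy (ρ c) (ρ d) with h1 | h1 | h1
    · exact h1
    · rw [ρ.injective h1] at h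
      exact absurd h.1 (lt_irrefl _)
    · obtain ⟨h3, h4⟩ := adj_inv ρ i hi h1 h.1
      have e1 : d = a := ρ.injective (Fin.ext (by omega))
      have e2 : c = b := ρ.injective (Fin.ext (by omega))
      rw [e1, e2] at h
      exact absurd h.2 (lt_asymm hab)

theorem Nf_mem (hn : 2 ≤ n) (τ α β : Equiv.Perm (Fin n)) (y : Fin n → ℝ)
    (hy : ∀ m, |y m| < 1)
    (h1 : ∀ a b, α a < α b → β a < β b → τ a < τ b)
    (h2 : ∀ a b, α a < α b → β b < β a → y a < y b) : Nf τ y ∈ U α β := by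
  have hn' : (0 : ℝ) < n := by positivity
  refine ⟨Nf_norm hn τ y hy, fun a b h h' => ?_, fun a b h h' => ?_⟩
  · left
    exact bx_lt hn (h1 a b h h')
  · exact div_lt_div_of_pos_right (h2 a b h h') hn'

theorem main_pos [hn : Fact (2 ≤ n)] : ∀ (k : ℕ) (ρ ρ' : Equiv.Perm (Fin n)),
    (invs ρ ρ').card = k → ∀ z z' : Cfg n, z.1 ∈ U ρ ρ → z.1 ∈ U ρ ρ' → z'.1 ∈ U ρ' ρ' →
    z'.1 ∈ U ρ ρ' → ∀ (s1 : SegOK (base ρ) z) (s2 : SegOK z z') (s3 : SegOK z' (base ρ')),
    Pos ρ ρ' (((sc _ _ s1).trans (sc _ _ s2)).trans (sc _ _ s3)) := by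
  intro k
  induction k using Nat.strong_induction_on with
  | _ k ih =>
    intro ρ ρ' hk z z' hz hzU hz' hz'U s1 s2 s3
    by_cases heq : ρ = ρ'
    · subst heq
      have hB := base_mem ρ
      rw [sc_trans (U_convex ρ ρ) (U_sub _ _) hB hz hz' s1 s2
        (segOK_of_convex (U_convex ρ ρ) (U_sub _ _) hB hz'),
        sc_trans (U_convex ρ ρ) (U_sub _ _) hB hz' hB _ s3
        (segOK_of_convex (U_convex ρ ρ) (U_sub _ _) hB hB), sc_self]
      exact Pos.nil
    · obtain ⟨i, hi, a, b, ha, hb, hab⟩ := exists_adj heq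
      have hρab : ρ a < ρ b := by rw [Fin.lt_def]; omega
      set ρ'' := adj ρ i hi with hρ''
      -- the ordinates of z
      let y : Fin n → ℝ := fun m => (z.1 m).im
      have hy : ∀ m, |y m| < 1 := fun m =>
        lt_of_le_of_lt (Complex.abs_im_le_norm _) (z.2.2 m)
      have hpair : ∀ c d : Fin n, (ρ c : ℕ) = i → (ρ d : ℕ) = i + 1 → c = a ∧ d = b := by
        intro c d hc hd
        exact ⟨ρ.injective (Fin.ext (by omega)), ρ.injective (Fin.ext (by omega))⟩
      have hback : ∀ c d : Fin n, ρ'' c < ρ'' d → ρ' d < ρ' c → ρ c < ρ d := by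
        intro c d h1 h2
        rcases lt_trichotomy (ρ c) (ρ d) with h3 | h3 | h3
        · exact h3
        · rw [ρ.injective h3] at h2
          exact absurd h2 (lt_irrefl _)
        · obtain ⟨h4, h5⟩ := adj_inv ρ i hi h3 h1
          obtain ⟨e1, e2⟩ := hpair d c h4 h5
          rw [e1, e2] at h2
          exact absurd h2 (lt_asymm hab)
      have hinv'' : ∀ c d : Fin n, ρ c < ρ d → ρ'' d < ρ'' c → y c < y d := by
        intro c d h1 h2
        obtain ⟨h4, h5⟩ := adj_inv ρ i hi h1 h2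
        obtain ⟨e1, e2⟩ := hpair c d h4 h5
        rw [e1, e2]
        exact hzU.2.2 a b hρab hab
      have hinv' : ∀ c d : Fin n, ρ c < ρ d → ρ' d < ρ' c → y c < y d :=
        fun c d h1 h2 => hzU.2.2 c d h1 h2
      have m1 : Nf ρ y ∈ U ρ ρ := Nf_mem hn.1 _ _ _ y hy (fun _ _ h _ => h)
        (fun _ _ h h' => absurd h' (lt_asymm h))
      have m1' : Nf ρ y ∈ U ρ ρ' := Nf_mem hn.1 _ _ _ y hy (fun _ _ h _ => h) hinv'
      have m1'' : Nf ρ y ∈ U ρ ρ'' := Nf_mem hn.1 _ _ _ y hy (fun _ _ h _ => h) hinv''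
      have m2 : Nf ρ'' y ∈ U ρ'' ρ'' := Nf_mem hn.1 _ _ _ y hy (fun _ _ h _ => h)
        (fun _ _ h h' => absurd h' (lt_asymm h))
      have m2'' : Nf ρ'' y ∈ U ρ ρ'' := Nf_mem hn.1 _ _ _ y hy (fun _ _ _ h => h) hinv''
      have m2' : Nf ρ'' y ∈ U ρ ρ' := Nf_mem hn.1 _ _ _ y hy
        (fun c d h h' => adj_keep' ρ i hi h (by
          rintro ⟨h4, h5⟩
          obtain ⟨e1, e2⟩ := hpair c d h4 h5
          rw [e1, e2] at h'
          exact absurd h' (lt_asymm hab))) hinv'
      have m2''' : Nf ρ'' y ∈ U ρ'' ρ' := Nf_mem hn.1 _ _ _ y hy (fun _ _ h _ => h)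
        (fun c d h h' => hinv' c d (hback c d h h') h')
      have mz' : z'.1 ∈ U ρ'' ρ' := ⟨hz'.1, fun c d _ h' => hz'.2.1 c d h' h',
        fun c d h h' => hz'U.2.2 c d (hback c d h h') h'⟩
      let w1 : Cfg n := ⟨Nf ρ y, U_sub _ _ _ m1⟩
      let w2 : Cfg n := ⟨Nf ρ'' y, U_sub _ _ _ m2⟩
      have t1 : SegOK (base ρ) w1 := segOK_of_convex (U_convex ρ ρ) (U_sub _ _) (base_mem ρ) m1
      have tz1 : SegOK z w1 := segOK_of_convex (U_convex ρ ρ) (U_sub _ _) hz m1
      have t12 : SegOK w1 w2 := segOK_of_convex (U_convex ρ ρ') (U_sub _ _) m1' m2'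
      have tz2 : SegOK z w2 := segOK_of_convex (U_convex ρ ρ') (U_sub _ _) hzU m2'
      have t2z' : SegOK w2 z' := segOK_of_convex (U_convex ρ'' ρ') (U_sub _ _) m2''' mz'
      have t2B : SegOK w2 (base ρ'') :=
        segOK_of_convex (U_convex ρ'' ρ'') (U_sub _ _) m2 (base_mem ρ'')
      have tB2 : SegOK (base ρ'') w2 :=
        segOK_of_convex (U_convex ρ'' ρ'') (U_sub _ _) (base_mem ρ'') m2
      have t22 : SegOK w2 w2 := segOK_of_convex (U_convex ρ'' ρ'') (U_sub _ _) m2 m2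
      have hP1 := half_twist_class ρ i hi w1 w2 m1 m1'' m2 m2'' t1 t12 t2B
      have hP2 := ih (invs ρ'' ρ').card (by rw [← hk]; exact invs_lt hi ha hb hab) ρ'' ρ' rfl
        w2 z' m2 m2''' hz' mz' tB2 t2z' s3
      have hP := (Pos.single ρ i hi).trans hP2
      rw [← hP1] at hP
      have e1 : (sc _ _ s1).trans (sc _ _ tz1) = sc _ _ t1 :=
        sc_trans (U_convex ρ ρ) (U_sub _ _) (base_mem ρ) hz m1 _ _ _
      have e2 : (sc _ _ tz1).trans (sc _ _ t12) = sc _ _ tz2 :=
        sc_trans (U_convex ρ ρ') (U_sub _ _) hzU m1' m2' _ _ _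
      have e3 : (sc _ _ tz2).trans (sc _ _ t2z') = sc _ _ s2 :=
        sc_trans (U_convex ρ ρ') (U_sub _ _) hzU m2' hz'U _ _ _
      have e4 : (sc _ _ t2B).trans (sc _ _ tB2) = Path.Homotopic.Quotient.refl w2 := by
        rw [sc_trans (U_convex ρ'' ρ'') (U_sub _ _) m2 (base_mem ρ'') m2 _ _ t22, sc_self]
      have e5 : ((sc _ _ s1).trans (sc _ _ s2)).trans (sc _ _ s3) =
          (((sc _ _ t1).trans (sc _ _ t12)).trans (sc _ _ t2B)).trans
            (((sc _ _ tB2).trans (sc _ _ t2z')).trans (sc _ _ s3)) := by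
        have e6 : (((sc _ _ t1).trans (sc _ _ t12)).trans (sc _ _ t2B)).trans
            (((sc _ _ tB2).trans (sc _ _ t2z')).trans (sc _ _ s3)) =
            ((sc _ _ t1).trans (sc _ _ t12)).trans
            ((((sc _ _ t2B).trans (sc _ _ tB2)).trans (sc _ _ t2z')).trans (sc _ _ s3)) := by
          simp only [Path.Homotopic.Quotient.trans_assoc]
        rw [e6, e4, Path.Homotopic.Quotient.refl_trans, ← e1, ← e3, ← e2]
        simp only [Path.Homotopic.Quotient.trans_assoc]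
      rw [e5]
      exact hP

theorem exists_order (z : Cfg n) : ∃ ρ : Equiv.Perm (Fin n), z.1 ∈ U ρ ρ := by
  let key : Fin n → ℝ ×ₗ ℝ := fun m => toLex ((z.1 m).re, -(z.1 m).im)
  have hmono := Tuple.monotone_sort key
  refine ⟨(Tuple.sort key).symm, z.2.2, ?_, fun a b h h' => absurd h' (lt_asymm h)⟩
  intro a b h _
  have h1 := hmono h.le
  simp only [Function.comp, Equiv.apply_symm_apply] at h1
  have h2 : a ≠ b := by
    rintro rfl
    exact lt_irrefl _ h
  rcases lx_total (z.2.1.ne h2) with h3 | h3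
  · exact h3
  · exfalso
    have h4 : key b < key a := by
      rw [Prod.Lex.toLex_lt_toLex]
      rcases h3 with h3 | ⟨h3, h4⟩
      · left; exact h3
      · right; exact ⟨h3, by simpa using h4⟩
    exact absurd h1 (not_le.2 h4)

theorem cast_class {x y : Cfg n} (d : Path x y) {x' y' : Cfg n} (hx : x' = x) (hy : y' = y)
    (h1 : SegOK x x') (h2 : SegOK y' y) :
    ((sc x x' h1).trans (.mk (d.cast hx hy))).trans (sc y' y h2) = .mk d := by
  subst hx hy
  rw [sc_self, sc_self, Path.Homotopic.Quotient.refl_trans, Path.Homotopic.Quotient.trans_refl]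
  rfl

/-- local structure of a positively crossing path -/
def LocPos {x y : Cfg n} (d : Path x y) : Prop :=
  ∀ t0 : I, ∃ W : Set I, IsOpen W ∧ t0 ∈ W ∧ ∀ s ∈ W, ∀ s' ∈ W, ∀ t ∈ W, s ≤ t → t ≤ s' →
    ∀ ρ ρ' : Equiv.Perm (Fin n), (d s).1 ∈ U ρ ρ → (d s').1 ∈ U ρ' ρ' → (d t).1 ∈ U ρ ρ'

theorem pos_of_locPos [hn : Fact (2 ≤ n)] {ρ₀ ρ₁ : Equiv.Perm (Fin n)}
    (d : Path (base ρ₀) (base ρ₁)) (hd : LocPos d) : Pos ρ₀ ρ₁ (.mk d) := by
  choose W hWo hWm hW using hd
  obtain ⟨t, ht0, hmono, ⟨N, hN⟩, hcov⟩ := exists_monotone_Icc_subset_open_cover_unitInterval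
    hWo (fun x _ => Set.mem_iUnion.2 ⟨x, hWm x⟩)
  have h00 : d 0 = base ρ₀ := d.source
  have h11 : d 1 = base ρ₁ := d.target
  have hB0 := base_mem ρ₀
  have hd0 : (d 0).1 ∈ U ρ₀ ρ₀ := by rw [h00]; exact hB0
  have s0 : SegOK (base ρ₀) (d 0) := segOK_of_convex (U_convex ρ₀ ρ₀) (U_sub _ _) hB0 hd0
  have key : ∀ k : ℕ, ∀ ρ' : Equiv.Perm (Fin n), ∀ h' : (d (t k)).1 ∈ U ρ' ρ',
      Pos ρ₀ ρ' (((sc _ _ s0).trans (.mk (d.subpath 0 (t k)))).trans (sc (d (t k)) (base ρ')
        (segOK_of_convex (U_convex ρ' ρ') (U_sub _ _) h' (base_mem ρ')))) := by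
    intro k
    induction k with
    | zero =>
      intro ρ' h'
      have h'' := h'
      rw [ht0] at h''
      have : ρ₀ = ρ' := uniq_order hd0 h''
      subst this
      have e : ∀ (u : I) (hu : u = 0) (h' : (d u).1 ∈ U ρ₀ ρ₀),
          ((sc _ _ s0).trans (.mk (d.subpath 0 u))).trans (sc (d u) (base ρ₀)
        (segOK_of_convex (U_convex ρ₀ ρ₀) (U_sub _ _) h' (base_mem ρ₀))) =
          Path.Homotopic.Quotient.refl _ := by
        intro u hu h'
        subst hu
        rw [Path.subpath_self, Path.Homotopic.Quotient.mk_refl,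
          Path.Homotopic.Quotient.trans_refl,
          sc_trans (U_convex ρ₀ ρ₀) (U_sub _ _) hB0 hd0 hB0 _ _
            (segOK_of_convex (U_convex ρ₀ ρ₀) (U_sub _ _) hB0 hB0), sc_self]
      rw [e (t 0) ht0 h']
      exact Pos.nil
    | succ k ih =>
      intro ρ'' h''
      obtain ⟨ρ', h'⟩ := exists_order (d (t k))
      have hP1 := ih ρ' h'
      obtain ⟨j, hj⟩ := hcov k
      have hle : t k ≤ t (k + 1) := hmono (Nat.le_succ k)
      have hmem : ∀ u : I, t k ≤ u → u ≤ t (k + 1) → (d u).1 ∈ U ρ' ρ'' := by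
        intro u h1 h2
        exact hW j (t k) (hj ⟨le_rfl, hle⟩) (t (k + 1)) (hj ⟨hle, le_rfl⟩) u (hj ⟨h1, h2⟩) h1 h2
          ρ' ρ'' h' h''
      have hk1 := hmem (t k) le_rfl hle
      have hk2 := hmem (t (k + 1)) hle le_rfl
      have s2 : SegOK (d (t k)) (d (t (k + 1))) :=
        segOK_of_convex (U_convex ρ' ρ'') (U_sub _ _) hk1 hk2
      have s1 : SegOK (base ρ') (d (t k)) :=
        segOK_of_convex (U_convex ρ' ρ') (U_sub _ _) (base_mem ρ') h'
      have s3 : SegOK (d (t (k + 1))) (base ρ'') :=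
        segOK_of_convex (U_convex ρ'' ρ'') (U_sub _ _) h'' (base_mem ρ'')
      have skk : SegOK (d (t k)) (d (t k)) :=
        segOK_of_convex (U_convex ρ' ρ') (U_sub _ _) h' h'
      have s1' : SegOK (d (t k)) (base ρ') :=
        segOK_of_convex (U_convex ρ' ρ') (U_sub _ _) h' (base_mem ρ')
      have hP2 := main_pos _ ρ' ρ'' rfl (d (t k)) (d (t (k + 1))) h' hk1 h'' hk2 s1 s2 s3
      have hP := hP1.trans hP2
      have e1 : Path.Homotopic.Quotient.mk (d.subpath (t k) (t (k + 1))) = sc _ _ s2 := by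
        apply mk_eq_sc (U_convex ρ' ρ'') (U_sub _ _)
        intro u
        have hr : d.subpath (t k) (t (k + 1)) u ∈ Set.range (d.subpath (t k) (t (k + 1))) :=
          ⟨u, rfl⟩
        rw [Path.range_subpath_of_le _ _ _ hle] at hr
        obtain ⟨v, hv, hv'⟩ := hr
        rw [← hv']
        exact hmem v hv.1 hv.2
      have e2 : Path.Homotopic.Quotient.mk (d.subpath 0 (t (k + 1))) =
          (Path.Homotopic.Quotient.mk (d.subpath 0 (t k))).trans
            (Path.Homotopic.Quotient.mk (d.subpath (t k) (t (k + 1)))) := by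
        rw [← Path.Homotopic.Quotient.mk_trans]
        exact (Path.Homotopic.Quotient.eq.2 ⟨Path.Homotopy.subpathTransSubpath d _ _ _⟩).symm
      have e3 : (sc _ _ s1').trans (sc _ _ s1) = Path.Homotopic.Quotient.refl _ := by
        rw [sc_trans (U_convex ρ' ρ') (U_sub _ _) h' (base_mem ρ') h' _ _ skk, sc_self]
      have e4 : ((sc _ _ s0).trans (.mk (d.subpath 0 (t (k + 1))))).trans (sc _ _ s3) =
          (((sc _ _ s0).trans (.mk (d.subpath 0 (t k)))).trans (sc _ _ s1')).trans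
            (((sc _ _ s1).trans (sc _ _ s2)).trans (sc _ _ s3)) := by
        have e5 : (((sc _ _ s0).trans (.mk (d.subpath 0 (t k)))).trans (sc _ _ s1')).trans
            (((sc _ _ s1).trans (sc _ _ s2)).trans (sc _ _ s3)) =
            ((sc _ _ s0).trans (.mk (d.subpath 0 (t k)))).trans
            ((((sc _ _ s1').trans (sc _ _ s1)).trans (sc _ _ s2)).trans (sc _ _ s3)) := by
          simp only [Path.Homotopic.Quotient.trans_assoc]
        rw [e5, e3, Path.Homotopic.Quotient.refl_trans, e2, e1]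
        simp only [Path.Homotopic.Quotient.trans_assoc]
      rw [e4]
      exact hP
  have hd1 : (d (t N)).1 ∈ U ρ₁ ρ₁ := by
    rw [hN N le_rfl, h11]
    exact base_mem ρ₁
  have hfin := key N ρ₁ hd1
  have e : ∀ (u : I) (hu : u = 1) (h' : (d u).1 ∈ U ρ₁ ρ₁),
      ((sc _ _ s0).trans (.mk (d.subpath 0 u))).trans (sc (d u) (base ρ₁)
        (segOK_of_convex (U_convex ρ₁ ρ₁) (U_sub _ _) h' (base_mem ρ₁))) = .mk d := by
    intro u hu h'
    subst hu
    rw [Path.subpath_zero_one]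
    exact cast_class d _ _ _ _
  rw [e (t N) (hN N le_rfl) hd1] at hfin
  exact hfin

end Pool.Agent.H859R3

end
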