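import Mathlib
import Pool.Agent.H859R3.BraidWord

set_option autoImplicit false

noncomputable section

namespace Pool.Agent.H859R3

variable {n : ℕ}

def kk (n : ℕ) : ℝ := 1 / (n : ℝ) ^ 3

def psi (z : Fin n → ℂ) : ℝ := ∑ m, ((z m).im ^ 2 + kk n * (z m).re ^ 2)

def sig (z v : Fin n → ℂ) : ℝ := ∑ m, ((z m).re * (v m).im - (z m).im * (v m).re)

def DD (z : Fin n → ℂ) (a b : Fin n) : ℝ :=
  ((z a).im - (z b).im) ^ 2 + (n : ℝ) ^ 2 * ((z a).re - (z b).re) ^ 2

def lam (z : Fin n → ℂ) : ℝ := ∑ a, ∑ b, if a = b then 0 else (DD z a b)⁻¹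

def ee (z v : Fin n → ℂ) (m : Fin n) : ℝ := psi z * (v m).re + sig z v * (z m).im

def GG (z v w : Fin n → ℂ) : ℝ :=
  lam z * ∑ m, ee z v m * ee z w m + (1 / 4) * psi z ^ 2 * ∑ m, (v m).im * (w m).im
    - sig z v * sig z w

def TT (z : Fin n → ℂ) : Fin n → ℂ := fun m => ⟨-(z m).im, kk n * (z m).re⟩

/-! ### the continuous linear versions -/

def reL (m : Fin n) : (Fin n → ℂ) →L[ℝ] ℝ :=
  Complex.reCLM.comp (ContinuousLinearMap.proj (R := ℝ) (φ := fun _ : Fin n => ℂ) m)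

def imL (m : Fin n) : (Fin n → ℂ) →L[ℝ] ℝ :=
  Complex.imCLM.comp (ContinuousLinearMap.proj (R := ℝ) (φ := fun _ : Fin n => ℂ) m)

def sigL (z : Fin n → ℂ) : (Fin n → ℂ) →L[ℝ] ℝ :=
  ∑ m, (reL m z • imL m - imL m z • reL m)

def eL (z : Fin n → ℂ) (m : Fin n) : (Fin n → ℂ) →L[ℝ] ℝ :=
  psi z • reL m + imL m z • sigL z

def gL (z : Fin n → ℂ) : (Fin n → ℂ) →L[ℝ] (Fin n → ℂ) →L[ℝ] ℝ :=
  ∑ m, (lam z • eL z m).smulRight (eL z m)
    + ∑ m, (((1 / 4) * psi z ^ 2) • (imL m : (Fin n → ℂ) →L[ℝ] ℝ)).smulRight (imL m)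
    - (sigL z).smulRight (sigL z)

theorem reL_apply (m : Fin n) (v : Fin n → ℂ) : reL m v = (v m).re := rfl
theorem imL_apply (m : Fin n) (v : Fin n → ℂ) : imL m v = (v m).im := rfl

theorem sigL_apply (z v : Fin n → ℂ) : sigL z v = sig z v := by
  simp [sigL, sig, reL_apply, imL_apply]

theorem eL_apply (z v : Fin n → ℂ) (m : Fin n) : eL z m v = ee z v m := by
  simp only [eL, ee, ContinuousLinearMap.add_apply, ContinuousLinearMap.smul_apply,
    sigL_apply, reL_apply, imL_apply, smul_eq_mul]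
  ring

theorem gL_apply (z v w : Fin n → ℂ) : gL z v w = GG z v w := by
  simp only [gL, GG, ContinuousLinearMap.sub_apply, ContinuousLinearMap.add_apply,
    ContinuousLinearMap.smul_apply, ContinuousLinearMap.sum_apply,
    ContinuousLinearMap.smulRight_apply, eL_apply, sigL_apply, imL_apply, smul_eq_mul,
    Finset.mul_sum, mul_assoc]

theorem psi_contDiff : ContDiff ℝ ((⊤ : ℕ∞) : WithTop ℕ∞) (psi : (Fin n → ℂ) → ℝ) := by
  have : (psi : (Fin n → ℂ) → ℝ) = fun z => ∑ m, ((imL m z) ^ 2 + kk n * (reL m z) ^ 2) := rfl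
  rw [this]
  fun_prop

theorem sigL_contDiff : ContDiff ℝ ((⊤ : ℕ∞) : WithTop ℕ∞)
    (sigL : (Fin n → ℂ) → (Fin n → ℂ) →L[ℝ] ℝ) := by
  have : (sigL : (Fin n → ℂ) → (Fin n → ℂ) →L[ℝ] ℝ) =
    fun z => ∑ m, (reL m z • imL m - imL m z • reL m) := rfl
  rw [this]
  fun_prop

theorem DD_pos (hn : 2 ≤ n) {z : Fin n → ℂ} (hz : Function.Injective z) {a b : Fin n}
    (h : a ≠ b) : 0 < DD z a b := by
  have hn' : (0 : ℝ) < n := by positivity
  unfold DD
  by_contra hcon
  push Not at hcon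
  have h1 : ((z a).im - (z b).im) ^ 2 = 0 := by
    have := sq_nonneg ((z a).im - (z b).im)
    have : 0 ≤ (n : ℝ) ^ 2 * ((z a).re - (z b).re) ^ 2 := by positivity
    linarith
  have h2 : (n : ℝ) ^ 2 * ((z a).re - (z b).re) ^ 2 = 0 := by
    have := sq_nonneg ((z a).im - (z b).im)
    have : 0 ≤ (n : ℝ) ^ 2 * ((z a).re - (z b).re) ^ 2 := by positivity
    linarith
  have h3 : (z a).im = (z b).im := by
    have := pow_eq_zero_iff (two_ne_zero) |>.1 h1
    linarith
  have h4 : (z a).re = (z b).re := by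
    rcases mul_eq_zero.1 h2 with h | h
    · have : (n : ℝ) ^ 2 ≠ 0 := by positivity
      exact absurd h this
    · have := pow_eq_zero_iff (two_ne_zero) |>.1 h
      linarith
  exact h (hz (Complex.ext h4 h3))

theorem lam_contDiffOn (hn : 2 ≤ n) : ContDiffOn ℝ ((⊤ : ℕ∞) : WithTop ℕ∞)
    (lam : (Fin n → ℂ) → ℝ) {f : Fin n → ℂ | Function.Injective f ∧ ∀ m, ‖f m‖ < 1} := by
  unfold lam
  apply ContDiffOn.sum
  intro a _
  apply ContDiffOn.sum
  intro b _
  split_ifs with h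
  · exact contDiffOn_const
  · apply ContDiffOn.inv
    · apply ContDiff.contDiffOn
      have : (fun z : Fin n → ℂ => DD z a b) = fun z => (imL a z - imL b z) ^ 2
        + (n : ℝ) ^ 2 * (reL a z - reL b z) ^ 2 := rfl
      rw [this]
      fun_prop
    · intro z hz
      exact (DD_pos hn hz.1 h).ne'

theorem gL_contDiffOn (hn : 2 ≤ n) : ContDiffOn ℝ ((⊤ : ℕ∞) : WithTop ℕ∞)
    (gL : (Fin n → ℂ) → (Fin n → ℂ) →L[ℝ] (Fin n → ℂ) →L[ℝ] ℝ)
    {f : Fin n → ℂ | Function.Injective f ∧ ∀ m, ‖f m‖ < 1} := by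
  have he : ∀ m : Fin n, ContDiff ℝ ((⊤ : ℕ∞) : WithTop ℕ∞)
      (fun z : Fin n → ℂ => eL z m) := by
    intro m
    unfold eL
    apply ContDiff.add
    · exact psi_contDiff.smul contDiff_const
    · exact (imL m).contDiff.smul sigL_contDiff
  unfold gL
  apply ContDiffOn.sub
  · apply ContDiffOn.add
    · apply ContDiffOn.sum
      intro m _
      exact ((lam_contDiffOn hn).smul (he m).contDiffOn).smulRight (he m).contDiffOn
    · apply ContDiff.contDiffOn
      apply ContDiff.sum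
      intro m _
      exact ((contDiff_const.mul (psi_contDiff.pow 2)).smul contDiff_const).smulRight contDiff_const
  · exact (sigL_contDiff.smulRight sigL_contDiff).contDiffOn

theorem TT_continuous : Continuous (TT : (Fin n → ℂ) → (Fin n → ℂ)) := by
  apply continuous_pi
  intro m
  have : (fun z : Fin n → ℂ => TT z m) =
      fun z => ((-(z m).im : ℝ) : ℂ) + ((kk n * (z m).re : ℝ) : ℂ) * Complex.I := by
    ext z
    unfold TT
    apply Complex.ext <;> simp
  rw [this]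
  fun_prop

/-! ### symmetry -/

theorem GG_symm (z v w : Fin n → ℂ) : GG z v w = GG z w v := by
  unfold GG
  have h1 : ∑ m, ee z v m * ee z w m = ∑ m, ee z w m * ee z v m :=
    Finset.sum_congr rfl (fun m _ => mul_comm _ _)
  have h2 : ∑ m, (v m).im * (w m).im = ∑ m, (w m).im * (v m).im :=
    Finset.sum_congr rfl (fun m _ => mul_comm _ _)
  rw [h1, h2]
  ring

theorem psi_perm (z : Fin n → ℂ) (ρ : Equiv.Perm (Fin n)) :
    psi (fun m => z (ρ m)) = psi z := by
  unfold psi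
  exact Equiv.sum_comp ρ (fun m => (z m).im ^ 2 + kk n * (z m).re ^ 2)

theorem sig_perm (z v : Fin n → ℂ) (ρ : Equiv.Perm (Fin n)) :
    sig (fun m => z (ρ m)) (fun m => v (ρ m)) = sig z v := by
  unfold sig
  exact Equiv.sum_comp ρ (fun m => (z m).re * (v m).im - (z m).im * (v m).re)

theorem lam_perm (z : Fin n → ℂ) (ρ : Equiv.Perm (Fin n)) :
    lam (fun m => z (ρ m)) = lam z := by
  unfold lam
  rw [← Equiv.sum_comp ρ (fun a => ∑ b, if a = b then 0 else (DD z a b)⁻¹)]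
  apply Finset.sum_congr rfl
  intro a _
  rw [← Equiv.sum_comp ρ (fun b => if ρ a = b then 0 else (DD z (ρ a) b)⁻¹)]
  apply Finset.sum_congr rfl
  intro b _
  by_cases h : a = b
  · subst h; simp
  · rw [if_neg h, if_neg (fun h' => h (ρ.injective h'))]
    rfl

theorem GG_perm (z v w : Fin n → ℂ) (ρ : Equiv.Perm (Fin n)) :
    GG (fun m => z (ρ m)) (fun m => v (ρ m)) (fun m => w (ρ m)) = GG z v w := by
  unfold GG ee
  rw [psi_perm, sig_perm, sig_perm, lam_perm]
  rw [Equiv.sum_comp ρ (fun m => (psi z * (v m).re + sig z v * (z m).im) *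
    (psi z * (w m).re + sig z w * (z m).im)), Equiv.sum_comp ρ (fun m => (v m).im * (w m).im)]

/-! ### inequalities -/

theorem kk_pos (hn : 2 ≤ n) : 0 < kk n := by
  unfold kk; positivity

theorem psi_pos (hn : 2 ≤ n) {z : Fin n → ℂ} (hz : Function.Injective z) : 0 < psi z := by
  have hk := kk_pos hn
  have hnn : ∀ m ∈ Finset.univ, 0 ≤ ((z m).im ^ 2 + kk n * (z m).re ^ 2) := by
    intro m _; positivity
  rcases (Finset.sum_nonneg hnn).eq_or_lt with h | h
  · exfalso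
    have h0 := (Finset.sum_eq_zero_iff_of_nonneg hnn).1 h.symm
    have hall : ∀ m, z m = 0 := by
      intro m
      have h1 := h0 m (Finset.mem_univ m)
      have h2 : (z m).im ^ 2 = 0 := by
        have : 0 ≤ kk n * (z m).re ^ 2 := by positivity
        have := sq_nonneg (z m).im
        linarith
      have h3 : kk n * (z m).re ^ 2 = 0 := by
        have := sq_nonneg (z m).im
        linarith
      have h4 : (z m).im = 0 := by simpa using h2
      have h5 : (z m).re = 0 := by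
        rcases mul_eq_zero.1 h3 with h | h
        · exact absurd h hk.ne'
        · simpa using h
      exact Complex.ext h5 h4
    have : (⟨0, by omega⟩ : Fin n) = ⟨1, by omega⟩ := hz (by rw [hall, hall])
    simp at this
  · exact h

theorem lam_ge (hn : 2 ≤ n) {z : Fin n → ℂ} (hz : Function.Injective z) {a b : Fin n}
    (h : a ≠ b) : 2 * (DD z a b)⁻¹ ≤ lam z := by
  have hnn : ∀ c d : Fin n, 0 ≤ (if c = d then 0 else (DD z c d)⁻¹ : ℝ) := by
    intro c d
    split_ifs with h'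
    · exact le_rfl
    · exact inv_nonneg.2 (DD_pos hn hz h').le
  have hsymm : DD z b a = DD z a b := by unfold DD; ring
  have h1 : (DD z a b)⁻¹ ≤ ∑ d, if a = d then 0 else (DD z a d)⁻¹ := by
    have := Finset.single_le_sum (f := fun d => if a = d then 0 else (DD z a d)⁻¹)
      (fun d _ => hnn a d) (Finset.mem_univ b)
    simpa [h] using this
  have h2 : (DD z a b)⁻¹ ≤ ∑ d, if b = d then 0 else (DD z b d)⁻¹ := by
    have := Finset.single_le_sum (f := fun d => if b = d then 0 else (DD z b d)⁻¹)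
      (fun d _ => hnn b d) (Finset.mem_univ a)
    rw [← hsymm]
    simpa [h.symm] using this
  have h3 : (∑ d, if a = d then 0 else (DD z a d)⁻¹) + (∑ d, if b = d then 0 else (DD z b d)⁻¹)
      ≤ lam z := by
    unfold lam
    have : ∑ c ∈ {a, b}, (∑ d, if c = d then 0 else (DD z c d)⁻¹) ≤
        ∑ c, (∑ d, if c = d then 0 else (DD z c d)⁻¹) :=
      Finset.sum_le_sum_of_subset_of_nonneg (Finset.subset_univ _)
        (fun c _ _ => Finset.sum_nonneg (fun d _ => hnn c d))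
    rwa [Finset.sum_pair h] at this
  linarith

theorem lam_pos (hn : 2 ≤ n) {z : Fin n → ℂ} (hz : Function.Injective z) : 0 < lam z := by
  have hne : (⟨0, by omega⟩ : Fin n) ≠ ⟨1, by omega⟩ := by simp
  have h1 := lam_ge hn hz hne
  have h2 := inv_pos.2 (DD_pos hn hz hne)
  linarith

theorem sumre_le {z : Fin n → ℂ} (hz : ∀ m, ‖z m‖ < 1) : ∑ m, (z m).re ^ 2 ≤ n := by
  have : ∑ m, (z m).re ^ 2 ≤ ∑ m : Fin n, (1 : ℝ) := by
    apply Finset.sum_le_sum
    intro m _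
    have h1 := Complex.abs_re_le_norm (z m)
    have h2 : |(z m).re| < 1 := lt_of_le_of_lt h1 (hz m)
    exact (sq_le_one_iff_abs_le_one _).2 h2.le
  simpa using this

theorem kk_sum (hn : 2 ≤ n) {z : Fin n → ℂ} (hz : ∀ m, ‖z m‖ < 1) :
    kk n * ∑ m, (z m).re ^ 2 ≤ 1 / (n : ℝ) ^ 2 := by
  have hn' : (0 : ℝ) < n := by positivity
  calc kk n * ∑ m, (z m).re ^ 2 ≤ kk n * n :=
        mul_le_mul_of_nonneg_left (sumre_le hz) (kk_pos hn).le
    _ = 1 / (n : ℝ) ^ 2 := by unfold kk; field_simp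

theorem inv_sq_le (hn : 2 ≤ n) : 1 / (n : ℝ) ^ 2 ≤ 1 / 4 := by
  have hn' : (2 : ℝ) ≤ n := by exact_mod_cast hn
  apply one_div_le_one_div_of_le (by norm_num)
  nlinarith

theorem kk_le (hn : 2 ≤ n) : kk n ≤ 1 / 8 := by
  have hn' : (2 : ℝ) ≤ n := by exact_mod_cast hn
  unfold kk
  apply one_div_le_one_div_of_le (by norm_num)
  have h1 : (4 : ℝ) ≤ (n : ℝ) ^ 2 := by nlinarith
  nlinarith

theorem kk2_sum (hn : 2 ≤ n) {z : Fin n → ℂ} (hz : ∀ m, ‖z m‖ < 1) :
    kk n ^ 2 * ∑ m, (z m).re ^ 2 ≤ 1 := by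
  have h1 := kk_sum hn hz
  have h2 := inv_sq_le hn
  have h3 := kk_le hn
  have h4 := kk_pos hn
  have h5 : 0 ≤ ∑ m, (z m).re ^ 2 := Finset.sum_nonneg (fun _ _ => sq_nonneg _)
  nlinarith [mul_nonneg h4.le h5]

theorem sig_TT (z : Fin n → ℂ) : sig z (TT z) = psi z := by
  unfold sig psi TT
  apply Finset.sum_congr rfl
  intro m _
  simp only
  ring

theorem ee_TT (z : Fin n → ℂ) (m : Fin n) : ee z (TT z) m = 0 := by
  unfold ee
  rw [sig_TT]
  simp only [TT]
  ring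

theorem GG_T (z w : Fin n → ℂ) : GG z w (TT z) =
    (1 / 4) * psi z ^ 2 * (kk n * ∑ m, (z m).re * (w m).im) - sig z w * psi z := by
  unfold GG
  simp only [ee_TT, mul_zero, Finset.sum_const_zero, sig_TT, zero_add]
  have h : ∑ m, (w m).im * (TT z m).im = kk n * ∑ m, (z m).re * (w m).im := by
    rw [Finset.mul_sum]
    apply Finset.sum_congr rfl
    intro m _
    simp only [TT]
    ring
  rw [h]

theorem GG_TT_neg (hn : 2 ≤ n) {z : Fin n → ℂ} (hz : Function.Injective z)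
    (hz' : ∀ m, ‖z m‖ < 1) : GG z (TT z) (TT z) < 0 := by
  rw [GG_T, sig_TT]
  have hp := psi_pos hn hz
  have h1 := kk2_sum hn hz'
  have h2 : kk n * ∑ m, (z m).re * (TT z m).im = kk n ^ 2 * ∑ m, (z m).re ^ 2 := by
    rw [Finset.mul_sum, Finset.mul_sum]
    apply Finset.sum_congr rfl
    intro m _
    simp only [TT]
    ring
  rw [h2]
  have h3 : 0 < psi z ^ 2 := by positivity
  nlinarith

theorem cauchy (z w : Fin n → ℂ) : (∑ m, (z m).re * (w m).im) ^ 2 ≤
    (∑ m, (z m).re ^ 2) * ∑ m, (w m).im ^ 2 :=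
  Finset.sum_mul_sq_le_sq_mul_sq _ _ _

theorem key_cauchy (hn : 2 ≤ n) {z : Fin n → ℂ} (hz' : ∀ m, ‖z m‖ < 1) (w : Fin n → ℂ) :
    ((1 / 4) * psi z * (kk n * ∑ m, (z m).re * (w m).im)) ^ 2 ≤
      (1 / 16) * psi z ^ 2 * ∑ m, (w m).im ^ 2 := by
  have h1 := cauchy z w
  have h2 := kk2_sum hn hz'
  have h3 : 0 ≤ ∑ m, (w m).im ^ 2 := Finset.sum_nonneg (fun _ _ => sq_nonneg _)
  have h4 : 0 ≤ psi z ^ 2 := sq_nonneg _
  have h5 : kk n ^ 2 * (∑ m, (z m).re * (w m).im) ^ 2 ≤ ∑ m, (w m).im ^ 2 := by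
    calc kk n ^ 2 * (∑ m, (z m).re * (w m).im) ^ 2 ≤
        kk n ^ 2 * ((∑ m, (z m).re ^ 2) * ∑ m, (w m).im ^ 2) :=
          mul_le_mul_of_nonneg_left h1 (sq_nonneg _)
      _ = (kk n ^ 2 * ∑ m, (z m).re ^ 2) * ∑ m, (w m).im ^ 2 := by ring
      _ ≤ 1 * ∑ m, (w m).im ^ 2 := mul_le_mul_of_nonneg_right h2 h3
      _ = _ := one_mul _
  have h6 : ((1 / 4) * psi z * (kk n * ∑ m, (z m).re * (w m).im)) ^ 2 =
      (1 / 16) * psi z ^ 2 * (kk n ^ 2 * (∑ m, (z m).re * (w m).im) ^ 2) := by ring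
  rw [h6]
  exact mul_le_mul_of_nonneg_left h5 (by positivity)

theorem GG_self (z w : Fin n → ℂ) : GG z w w =
    lam z * ∑ m, ee z w m ^ 2 + (1 / 4) * psi z ^ 2 * ∑ m, (w m).im ^ 2 - sig z w ^ 2 := by
  unfold GG
  have h1 : ∑ m, ee z w m * ee z w m = ∑ m, ee z w m ^ 2 :=
    Finset.sum_congr rfl (fun m _ => by ring)
  have h2 : ∑ m, (w m).im * (w m).im = ∑ m, (w m).im ^ 2 :=
    Finset.sum_congr rfl (fun m _ => by ring)
  rw [h1, h2]
  ring

theorem GG_pos_perp (hn : 2 ≤ n) {z : Fin n → ℂ} (hz : Function.Injective z)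
    (hz' : ∀ m, ‖z m‖ < 1) {w : Fin n → ℂ} (hw : w ≠ 0) (h : GG z (TT z) w = 0) :
    0 < GG z w w := by
  rw [GG_symm, GG_T] at h
  have hp := psi_pos hn hz
  have hl := lam_pos hn hz
  have hc := key_cauchy hn hz' w
  have hs : sig z w = (1 / 4) * psi z * (kk n * ∑ m, (z m).re * (w m).im) := by
    have : psi z * (sig z w) = psi z * ((1 / 4) * psi z * (kk n * ∑ m, (z m).re * (w m).im)) := by
      linarith
    exact mul_left_cancel₀ hp.ne' this
  rw [← hs] at hc
  rw [GG_self]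
  have hB : 0 ≤ ∑ m, (w m).im ^ 2 := Finset.sum_nonneg (fun _ _ => sq_nonneg _)
  have hE : 0 ≤ ∑ m, ee z w m ^ 2 := Finset.sum_nonneg (fun _ _ => sq_nonneg _)
  rcases hB.eq_or_lt with hB0 | hB0
  · have him : ∀ m, (w m).im = 0 := by
      intro m
      have := (Finset.sum_eq_zero_iff_of_nonneg (fun m _ => sq_nonneg ((w m).im))).1 hB0.symm m
        (Finset.mem_univ m)
      simpa using this
    have hs0 : sig z w = 0 := by
      rw [hs]
      simp [him]
    rw [hs0, ← hB0]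
    have : 0 < ∑ m, ee z w m ^ 2 := by
      rcases hE.eq_or_lt with hE0 | hE0
      · exfalso
        apply hw
        ext m
        have h3 := (Finset.sum_eq_zero_iff_of_nonneg (fun m _ => sq_nonneg (ee z w m))).1
          hE0.symm m (Finset.mem_univ m)
        have h4 : ee z w m = 0 := by simpa using h3
        unfold ee at h4
        rw [hs0, zero_mul, add_zero] at h4
        have h5 : (w m).re = 0 := by
          rcases mul_eq_zero.1 h4 with h | h
          · exact absurd h hp.ne'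
          · exact h
        exact Complex.ext h5 (him m)
      · exact hE0
    have := mul_pos hl this
    simpa using this
  · have h1 : 0 ≤ lam z * ∑ m, ee z w m ^ 2 := mul_nonneg hl.le hE
    have h2 : 0 < psi z ^ 2 * ∑ m, (w m).im ^ 2 := mul_pos (by positivity) hB0
    nlinarith

theorem sig_pos_of_timelike (hn : 2 ≤ n) {z : Fin n → ℂ} (hz : Function.Injective z)
    (hz' : ∀ m, ‖z m‖ < 1) {v : Fin n → ℂ} (h1 : GG z v v < 0) (h2 : GG z v (TT z) < 0) :
    0 < sig z v := by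
  by_contra hcon
  push Not at hcon
  rw [GG_T] at h2
  rw [GG_self] at h1
  have hp := psi_pos hn hz
  have hl := lam_pos hn hz
  have hc := key_cauchy hn hz' v
  have hB : 0 ≤ ∑ m, (v m).im ^ 2 := Finset.sum_nonneg (fun _ _ => sq_nonneg _)
  have hE : 0 ≤ ∑ m, ee z v m ^ 2 := Finset.sum_nonneg (fun _ _ => sq_nonneg _)
  have h3 : (1 / 4) * psi z * (kk n * ∑ m, (z m).re * (v m).im) < sig z v := by
    have : psi z * ((1 / 4) * psi z * (kk n * ∑ m, (z m).re * (v m).im)) < psi z * sig z v := by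
      linarith
    exact lt_of_mul_lt_mul_left this hp.le
  have h4 : sig z v ^ 2 ≤ ((1 / 4) * psi z * (kk n * ∑ m, (z m).re * (v m).im)) ^ 2 := by
    nlinarith
  have h5 : 0 ≤ lam z * ∑ m, ee z v m ^ 2 := mul_nonneg hl.le hE
  have h6 : 0 ≤ psi z ^ 2 * ∑ m, (v m).im ^ 2 := by positivity
  nlinarith

theorem wall (hn : 2 ≤ n) {z : Fin n → ℂ} (hz : Function.Injective z)
    (hz' : ∀ m, ‖z m‖ < 1) {v : Fin n → ℂ} (h1 : GG z v v < 0) (h2 : GG z v (TT z) < 0)
    {a b : Fin n} (hab : a ≠ b) (hre : (z a).re = (z b).re) :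
    ((v a).re - (v b).re) * ((z a).im - (z b).im) < 0 := by
  have hs := sig_pos_of_timelike hn hz hz' h1 h2
  have hp := psi_pos hn hz
  have hl := lam_pos hn hz
  have hge := lam_ge hn hz hab
  have hD := DD_pos hn hz hab
  rw [GG_self] at h1
  have hB : 0 ≤ psi z ^ 2 * ∑ m, (v m).im ^ 2 :=
    mul_nonneg (sq_nonneg _) (Finset.sum_nonneg (fun _ _ => sq_nonneg _))
  have hE : lam z * ∑ m, ee z v m ^ 2 < sig z v ^ 2 := by linarith
  have hpair : ee z v a ^ 2 + ee z v b ^ 2 ≤ ∑ m, ee z v m ^ 2 := by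
    have : ∑ c ∈ {a, b}, ee z v c ^ 2 ≤ ∑ c, ee z v c ^ 2 :=
      Finset.sum_le_sum_of_subset_of_nonneg (Finset.subset_univ _) (fun c _ _ => sq_nonneg _)
    rwa [Finset.sum_pair hab] at this
  have hDeq : DD z a b = ((z a).im - (z b).im) ^ 2 := by
    unfold DD; rw [hre]; ring
  set Y := (z a).im - (z b).im with hY
  set X := (v a).re - (v b).re with hX
  have hdiff : ee z v a - ee z v b = psi z * X + sig z v * Y := by
    unfold ee; rw [hX, hY]; ring
  have h3 : (psi z * X + sig z v * Y) ^ 2 ≤ 2 * ∑ m, ee z v m ^ 2 := by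
    rw [← hdiff]
    nlinarith [sq_nonneg (ee z v a + ee z v b)]
  have hEn : 0 ≤ ∑ m, ee z v m ^ 2 := Finset.sum_nonneg (fun _ _ => sq_nonneg _)
  have h4 : (2 * (DD z a b)⁻¹) * ∑ m, ee z v m ^ 2 < sig z v ^ 2 :=
    lt_of_le_of_lt (mul_le_mul_of_nonneg_right hge hEn) hE
  have h5 : 2 * ∑ m, ee z v m ^ 2 < sig z v ^ 2 * DD z a b := by
    have h6 : DD z a b * ((2 * (DD z a b)⁻¹) * ∑ m, ee z v m ^ 2) < DD z a b * sig z v ^ 2 :=
      mul_lt_mul_of_pos_left h4 hD
    have h7 : DD z a b * ((2 * (DD z a b)⁻¹) * ∑ m, ee z v m ^ 2) = 2 * ∑ m, ee z v m ^ 2 := by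
      field_simp
    linarith
  rw [hDeq] at h5
  have h8 : (psi z * X + sig z v * Y) ^ 2 < (sig z v * Y) ^ 2 := by
    calc (psi z * X + sig z v * Y) ^ 2 ≤ 2 * ∑ m, ee z v m ^ 2 := h3
      _ < sig z v ^ 2 * Y ^ 2 := h5
      _ = _ := by ring
  have h9 : 2 * (psi z * sig z v) * (X * Y) < 0 := by
    nlinarith [sq_nonneg (psi z * X)]
  have h10 : 0 < 2 * (psi z * sig z v) := by positivity
  by_contra hcon
  push Not at hcon
  have := mul_nonneg h10.le hcon
  linarith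

end Pool.Agent.H859R3

end
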