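import Mathlib
import Pool.Agent.H859R3.LorentzMetric

set_option autoImplicit false

noncomputable section

namespace Pool.Agent.H859R3

variable {n : ℕ}

/-- unit angular velocity of the half twist -/
def hv (ρ : Equiv.Perm (Fin n)) (i : ℕ) (s : ℝ) : Fin n → ℂ := fun m =>
  if ((ρ m : ℕ)) = i then
    - (((1 / (n : ℝ) : ℝ) : ℂ) * (Complex.I * Complex.exp ((Real.pi : ℂ) * (s : ℂ) * Complex.I)))
  else if ((ρ m : ℕ)) = i + 1 then
    ((1 / (n : ℝ) : ℝ) : ℂ) * (Complex.I * Complex.exp ((Real.pi : ℂ) * (s : ℂ) * Complex.I))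
  else 0

theorem hv_re (ρ : Equiv.Perm (Fin n)) (i : ℕ) (s : ℝ) (m : Fin n) :
    (hv ρ i s m).re = if ((ρ m : ℕ)) = i then 1 / n * Real.sin (Real.pi * s)
      else if ((ρ m : ℕ)) = i + 1 then -(1 / n * Real.sin (Real.pi * s))
      else 0 := by
  unfold hv
  split_ifs
  · rw [Complex.neg_re, Complex.re_ofReal_mul, Complex.I_mul_re, exp_im]; ring
  · rw [Complex.re_ofReal_mul, Complex.I_mul_re, exp_im]; ring
  · rfl

theorem hv_im (ρ : Equiv.Perm (Fin n)) (i : ℕ) (s : ℝ) (m : Fin n) :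
    (hv ρ i s m).im = if ((ρ m : ℕ)) = i then - (1 / n * Real.cos (Real.pi * s))
      else if ((ρ m : ℕ)) = i + 1 then 1 / n * Real.cos (Real.pi * s)
      else 0 := by
  unfold hv
  split_ifs
  · rw [Complex.neg_im, Complex.im_ofReal_mul, Complex.I_mul_im, exp_re]
  · rw [Complex.im_ofReal_mul, Complex.I_mul_im, exp_re]
  · rfl

theorem htf_hasDerivAt (ρ : Equiv.Perm (Fin n)) (i : ℕ) (s : ℝ) :
    HasDerivAt (htf ρ i) (Real.pi • hv ρ i s) s := by
  rw [hasDerivAt_pi]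
  intro m
  have hexp : HasDerivAt (fun s : ℝ => Complex.exp ((Real.pi : ℂ) * (s : ℂ) * Complex.I))
      (Complex.exp ((Real.pi : ℂ) * (s : ℂ) * Complex.I) * ((Real.pi : ℂ) * 1 * Complex.I)) s := by
    have h1 : HasDerivAt (fun s : ℝ => ((s : ℝ) : ℂ)) 1 s := Complex.ofRealCLM.hasDerivAt
    exact ((h1.const_mul (Real.pi : ℂ)).mul_const Complex.I).cexp
  unfold htf hv
  simp only [Pi.smul_apply]
  split_ifs
  · have := (hexp.const_mul ((1 / (n : ℝ) : ℝ) : ℂ)).const_sub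
      (((2 * (i : ℝ) + 2) / (n : ℝ) - 1 : ℝ) : ℂ)
    convert this using 1
    rw [Complex.real_smul]; ring
  · have := (hexp.const_mul ((1 / (n : ℝ) : ℝ) : ℂ)).const_add
      (((2 * (i : ℝ) + 2) / (n : ℝ) - 1 : ℝ) : ℂ)
    convert this using 1
    rw [Complex.real_smul]; ring
  · simpa using hasDerivAt_const s (((2 * ((ρ m : ℕ) : ℝ) + 1) / (n : ℝ) - 1 : ℝ) : ℂ)

theorem htf_contDiff (ρ : Equiv.Perm (Fin n)) (i : ℕ) :
    ContDiff ℝ ((⊤ : ℕ∞) : WithTop ℕ∞) (htf ρ i) := by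
  rw [contDiff_pi]
  intro m
  have hexp : ContDiff ℝ ((⊤ : ℕ∞) : WithTop ℕ∞)
      (fun s : ℝ => Complex.exp ((Real.pi : ℂ) * (s : ℂ) * Complex.I)) := by
    have h1 : ContDiff ℝ ((⊤ : ℕ∞) : WithTop ℕ∞) (fun s : ℝ => ((s : ℝ) : ℂ)) :=
      Complex.ofRealCLM.contDiff
    exact ((contDiff_const.mul h1).mul contDiff_const).cexp
  unfold htf
  split_ifs
  · exact contDiff_const.sub (contDiff_const.mul hexp)
  · exact contDiff_const.add (contDiff_const.mul hexp)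
  · exact contDiff_const

theorem p3 (t q : ℝ) (hq0 : 0 ≤ q) (hq1 : q ≤ 1) : (2 * t + q - 2) ^ 2 ≤ (1 - q) * (2 - 2 * t) ^ 2 + q * (2 * t - 1) ^ 2 := by
  have h : (1 - q) * (2 - 2 * t) ^ 2 + q * (2 * t - 1) ^ 2 - (2 * t + q - 2) ^ 2 = q * (1 - q) := by ring
  have := mul_nonneg hq0 (sub_nonneg.2 hq1)
  linarith
theorem p4 (t : ℝ) (h0 : 0 ≤ t) (h1 : t ≤ 1) : t * (2 - 2 * t) ^ 2 ≤ 1 := by
  have e : 4 * (t * (1 - t)) ≤ 1 := by nlinarith [sq_nonneg (2 * t - 1)]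
  have e2 : 0 ≤ t * (1 - t) := mul_nonneg h0 (by linarith)
  have e3 : t * (2 - 2 * t) ^ 2 = 4 * (t * (1 - t)) * (1 - t) := by ring
  rw [e3]
  have e4 : 0 ≤ 1 - t := by linarith
  have : 4 * (t * (1 - t)) * (1 - t) ≤ 1 * (1 - t) := mul_le_mul_of_nonneg_right e e4
  linarith
theorem p5 (t : ℝ) (h0 : 0 ≤ t) (h1 : t ≤ 1) : t * (2 * t - 1) ^ 2 ≤ 1 := by
  have e : (2 * t - 1) ^ 2 ≤ 1 := by nlinarith
  have := mul_le_mul_of_nonneg_left e h0
  linarith
theorem p6 (t q : ℝ) (h0 : 0 ≤ t) (h1 : t ≤ 1) (hq0 : 0 ≤ q) (hq1 : q ≤ 1) : t * (2 * t + q - 2) ^ 2 ≤ 1 := by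
  have h3 := mul_le_mul_of_nonneg_left (p3 t q hq0 hq1) h0
  have h4 := mul_le_mul_of_nonneg_left (p4 t h0 h1) (sub_nonneg.2 hq1)
  have h5 := mul_le_mul_of_nonneg_left (p5 t h0 h1) hq0
  nlinarith
theorem p7 (t q : ℝ) (h0 : 0 ≤ t) (h1 : t ≤ 1) (hq0 : 0 ≤ q) (hq1 : q ≤ 1) : (1 - t) * (2 * t + q) ^ 2 ≤ 9 := by
  have h8 : 2 * t + q ≤ 3 := by linarith
  have h9 : 0 ≤ 2 * t + q := by linarith
  have : (2 * t + q) ^ 2 ≤ 9 := by nlinarith
  have h10 := sq_nonneg (2 * t + q)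
  have h11 : (1 - t) * (2 * t + q) ^ 2 ≤ 1 * (2 * t + q) ^ 2 := mul_le_mul_of_nonneg_right (by linarith) h10
  linarith

section
variable (hn : 2 ≤ n) (ρ : Equiv.Perm (Fin n)) {i : ℕ} (hi : i + 1 < n) (s : ℝ)
include hn hi

/-- evaluation of sums supported on the two moving points -/
theorem sum_two (F : Fin n → ℝ) (hF : ∀ m, (ρ m : ℕ) ≠ i → (ρ m : ℕ) ≠ i + 1 → F m = 0) :
    ∑ m, F m = F (ρ.symm ⟨i, by omega⟩) + F (ρ.symm ⟨i + 1, hi⟩) := by
  apply Fintype.sum_eq_add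
  · intro h
    have := ρ.symm.injective h
    simp at this
  · rintro x ⟨h1, h2⟩
    apply hF
    · intro h
      apply h1
      rw [Equiv.eq_symm_apply]
      exact Fin.ext h
    · intro h
      apply h2
      rw [Equiv.eq_symm_apply]
      exact Fin.ext h

theorem sumim_htf : ∑ m, (htf ρ i s m).im ^ 2 = 2 * (1 / n) ^ 2 * Real.sin (Real.pi * s) ^ 2 := by
  rw [sum_two hn ρ hi]
  · rw [htf_im, htf_im]
    simp
    ring
  · intro m h1 h2
    rw [htf_im, if_neg h1, if_neg h2]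
    ring

theorem sumim_hv : ∑ m, (hv ρ i s m).im ^ 2 = 2 * (1 / n) ^ 2 * Real.cos (Real.pi * s) ^ 2 := by
  rw [sum_two hn ρ hi]
  · rw [hv_im, hv_im]
    simp
    ring
  · intro m h1 h2
    rw [hv_im, if_neg h1, if_neg h2]
    ring

theorem sum_re_im : ∑ m, (htf ρ i s m).re * (hv ρ i s m).im =
    2 * (1 / n) ^ 2 * Real.cos (Real.pi * s) ^ 2 := by
  rw [sum_two hn ρ hi]
  · rw [hv_im, hv_im, htf_re, htf_re]
    simp
    ring
  · intro m h1 h2
    rw [hv_im, if_neg h1, if_neg h2]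
    ring

theorem sig_hv : sig (htf ρ i s) (hv ρ i s) = 2 * (1 / n) ^ 2 := by
  unfold sig
  rw [sum_two hn ρ hi]
  · rw [hv_im, hv_im, htf_re, htf_re, hv_re, hv_re, htf_im, htf_im]
    simp
    have := Real.sin_sq_add_cos_sq (Real.pi * s)
    have h2 : Real.sin (Real.pi * s) ^ 2 = 1 - Real.cos (Real.pi * s) ^ 2 := by linarith
    ring_nf
    rw [h2]
    ring
  · intro m h1 h2
    rw [hv_im, if_neg h1, if_neg h2, hv_re, if_neg h1, if_neg h2]
    ring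

theorem sumee_hv : ∑ m, ee (htf ρ i s) (hv ρ i s) m ^ 2 =
    2 * (1 / n) ^ 2 * Real.sin (Real.pi * s) ^ 2 *
      (psi (htf ρ i s) - 2 * (1 / n) ^ 2) ^ 2 := by
  unfold ee
  rw [sig_hv hn ρ hi, sum_two hn ρ hi]
  · rw [hv_re, hv_re, htf_im, htf_im]
    simp
    ring
  · intro m h1 h2
    rw [hv_re, if_neg h1, if_neg h2, htf_im, if_neg h1, if_neg h2]
    ring

theorem psi_htf : ∃ κ : ℝ, 0 ≤ κ ∧ κ ≤ (1 / n) ^ 2 ∧
    psi (htf ρ i s) = 2 * (1 / n) ^ 2 * Real.sin (Real.pi * s) ^ 2 + κ := by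
  refine ⟨kk n * ∑ m, (htf ρ i s m).re ^ 2, ?_, ?_, ?_⟩
  · exact mul_nonneg (kk_pos hn).le (Finset.sum_nonneg (fun _ _ => sq_nonneg _))
  · have := kk_sum hn (htf_norm hn ρ hi s)
    have e : (1 / (n : ℝ)) ^ 2 = 1 / (n : ℝ) ^ 2 := by ring
    rw [e]
    exact this
  · unfold psi
    rw [Finset.sum_add_distrib, sumim_htf hn ρ hi, Finset.mul_sum]

theorem lam_htf : lam (htf ρ i s) ≤ 3 / 4 * (n : ℝ) ^ 2 := by
  have hn' : (0 : ℝ) < n := by positivity
  set a := ρ.symm ⟨i, by omega⟩ with ha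
  set b := ρ.symm ⟨i + 1, hi⟩ with hb
  have hρa : (ρ a : ℕ) = i := by rw [ha]; simp
  have hρb : (ρ b : ℕ) = i + 1 := by rw [hb]; simp
  have hne : a ≠ b := by
    intro h
    rw [h] at hρa
    omega
  have hsep : ∀ x y : Fin n, ρ x < ρ y → ¬ ((ρ x : ℕ) = i ∧ (ρ y : ℕ) = i + 1) →
      (DD (htf ρ i s) x y)⁻¹ ≤ 1 / 4 := by
    intro x y h h'
    have h1 := htf_sep hn ρ hi s h h'
    have h2 : 4 ≤ DD (htf ρ i s) x y := by
      unfold DD
      have h3 : (2 / (n : ℝ)) ^ 2 ≤ ((htf ρ i s x).re - (htf ρ i s y).re) ^ 2 := by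
        have h4 : 2 / (n : ℝ) ≤ (htf ρ i s y).re - (htf ρ i s x).re := by linarith
        have h5 : 0 ≤ 2 / (n : ℝ) := by positivity
        nlinarith
      have h6 : (n : ℝ) ^ 2 * (2 / (n : ℝ)) ^ 2 = 4 := by field_simp; norm_num
      have h7 := mul_le_mul_of_nonneg_left h3 (sq_nonneg (n : ℝ))
      have h8 := sq_nonneg ((htf ρ i s x).im - (htf ρ i s y).im)
      linarith
    rw [one_div]
    exact inv_anti₀ (by norm_num) h2
  have hDsymm : ∀ x y : Fin n, DD (htf ρ i s) x y = DD (htf ρ i s) y x := by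
    intro x y; unfold DD; ring
  have hpair : (DD (htf ρ i s) a b)⁻¹ ≤ (n : ℝ) ^ 2 / 4 := by
    have h1 : 4 * (1 / (n : ℝ)) ^ 2 ≤ DD (htf ρ i s) a b := by
      unfold DD
      rw [htf_re, htf_re, htf_im, htf_im]
      simp only [hρa, hρb, if_true]
      rw [if_neg (by omega), if_neg (by omega)]
      have h2 := Real.sin_sq_add_cos_sq (Real.pi * s)
      have e : (-(1 / (n : ℝ) * Real.sin (Real.pi * s)) - 1 / n * Real.sin (Real.pi * s)) ^ 2
          + (n : ℝ) ^ 2 * (cx n i - 1 / n * Real.cos (Real.pi * s)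
            - (cx n i + 1 / n * Real.cos (Real.pi * s))) ^ 2 =
          4 * (1 / (n : ℝ)) ^ 2 * (Real.sin (Real.pi * s) ^ 2
            + (n : ℝ) ^ 2 * Real.cos (Real.pi * s) ^ 2) := by ring
      rw [e]
      have h3 : (1 : ℝ) ≤ (n : ℝ) ^ 2 := by
        have : (2 : ℝ) ≤ n := by exact_mod_cast hn
        nlinarith
      have h4 : 1 ≤ Real.sin (Real.pi * s) ^ 2 + (n : ℝ) ^ 2 * Real.cos (Real.pi * s) ^ 2 := by
        nlinarith [sq_nonneg (Real.cos (Real.pi * s))]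
      have h5 : 0 ≤ 4 * (1 / (n : ℝ)) ^ 2 := by positivity
      nlinarith
    have h2 : 0 < 4 * (1 / (n : ℝ)) ^ 2 := by positivity
    have h3 := inv_anti₀ h2 h1
    have h4 : (4 * (1 / (n : ℝ)) ^ 2)⁻¹ = (n : ℝ) ^ 2 / 4 := by field_simp
    rwa [h4] at h3
  have hterm : ∀ x y : Fin n, (if x = y then 0 else (DD (htf ρ i s) x y)⁻¹ : ℝ) ≤
      1 / 4 + ((if x = a then (if y = b then (n : ℝ) ^ 2 / 4 else 0) else 0)
        + (if x = b then (if y = a then (n : ℝ) ^ 2 / 4 else 0) else 0)) := by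
    intro x y
    have hnn : (0 : ℝ) ≤ (n : ℝ) ^ 2 / 4 := by positivity
    have hex : (0 : ℝ) ≤ ((if x = a then (if y = b then (n : ℝ) ^ 2 / 4 else 0) else 0)
        + (if x = b then (if y = a then (n : ℝ) ^ 2 / 4 else 0) else 0)) := by
      split_ifs <;> linarith
    by_cases hxy : x = y
    · rw [if_pos hxy]
      linarith
    · rw [if_neg hxy]
      by_cases h1 : x = a ∧ y = b
      · rw [h1.1, h1.2, if_pos rfl, if_pos rfl, if_neg hne]
        linarith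
      · by_cases h2 : x = b ∧ y = a
        · rw [h2.1, h2.2, if_pos rfl, if_pos rfl, if_neg hne.symm, hDsymm]
          linarith
        · have hbound : (DD (htf ρ i s) x y)⁻¹ ≤ 1 / 4 := by
            rcases lt_trichotomy (ρ x) (ρ y) with h | h | h
            · apply hsep x y h
              rintro ⟨h3, h4⟩
              exact h1 ⟨ρ.injective (Fin.ext (by omega)), ρ.injective (Fin.ext (by omega))⟩
            · exact absurd (ρ.injective h) hxy
            · rw [hDsymm]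
              apply hsep y x h
              rintro ⟨h3, h4⟩
              exact h2 ⟨ρ.injective (Fin.ext (by omega)), ρ.injective (Fin.ext (by omega))⟩
          linarith
  calc lam (htf ρ i s) ≤ ∑ x : Fin n, ∑ y : Fin n,
      (1 / 4 + ((if x = a then (if y = b then (n : ℝ) ^ 2 / 4 else 0) else 0)
        + (if x = b then (if y = a then (n : ℝ) ^ 2 / 4 else 0) else 0))) := by
        unfold lam
        exact Finset.sum_le_sum (fun x _ => Finset.sum_le_sum (fun y _ => hterm x y))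
    _ = 3 / 4 * (n : ℝ) ^ 2 := by
        simp only [Finset.sum_add_distrib]
        have e1 : ∑ x : Fin n, ∑ y : Fin n, (if x = a then (if y = b then (n : ℝ) ^ 2 / 4 else 0)
            else 0) = (n : ℝ) ^ 2 / 4 := by
          rw [Finset.sum_eq_single a, Finset.sum_eq_single b]
          · simp
          · intro y _ hy; simp [hy]
          · simp
          · intro x _ hx
            simp [hx]
          · simp
        have e2 : ∑ x : Fin n, ∑ y : Fin n, (if x = b then (if y = a then (n : ℝ) ^ 2 / 4 else 0)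
            else 0) = (n : ℝ) ^ 2 / 4 := by
          rw [Finset.sum_eq_single b, Finset.sum_eq_single a]
          · simp
          · intro y _ hy; simp [hy]
          · simp
          · intro x _ hx
            simp [hx]
          · simp
        rw [e1, e2]
        simp
        ring

theorem twist_neg : GG (htf ρ i s) (hv ρ i s) (hv ρ i s) < 0 := by
  have hn' : (0 : ℝ) < n := by positivity
  rw [GG_self, sumee_hv hn ρ hi, sumim_hv hn ρ hi, sig_hv hn ρ hi]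
  obtain ⟨κ, hκ0, hκ1, hpsi⟩ := psi_htf hn ρ hi s
  rw [hpsi]
  have hl := lam_htf hn ρ hi s
  have hR : (1 / (n : ℝ)) ^ 2 ≤ 1 / 4 := by
    have := inv_sq_le hn
    have e : (1 / (n : ℝ)) ^ 2 = 1 / (n : ℝ) ^ 2 := by ring
    rw [e]; exact this
  have hRpos : 0 < (1 / (n : ℝ)) ^ 2 := by positivity
  have hRn : (1 / (n : ℝ)) ^ 2 * (n : ℝ) ^ 2 = 1 := by field_simp
  have hcs := Real.sin_sq_add_cos_sq (Real.pi * s)
  have hs0 := sq_nonneg (Real.sin (Real.pi * s))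
  have hc0 := sq_nonneg (Real.cos (Real.pi * s))
  set R := (1 / (n : ℝ)) ^ 2 with hRdef
  set t := Real.sin (Real.pi * s) ^ 2 with ht
  have hc : Real.cos (Real.pi * s) ^ 2 = 1 - t := by linarith
  rw [hc]
  have ht1 : t ≤ 1 := by linarith
  -- q = κ / R
  obtain ⟨q, hq0, hq1, hq⟩ : ∃ q : ℝ, 0 ≤ q ∧ q ≤ 1 ∧ κ = R * q :=
    ⟨κ / R, div_nonneg hκ0 hRpos.le, (div_le_one hRpos).2 hκ1, by field_simp⟩
  rw [hq]
  have hA : 0 ≤ 2 * R * t * (2 * R * t + R * q - 2 * R) ^ 2 := by positivity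
  have h1 : lam (htf ρ i s) * (2 * R * t * (2 * R * t + R * q - 2 * R) ^ 2) ≤
      3 / 4 * (n : ℝ) ^ 2 * (2 * R * t * (2 * R * t + R * q - 2 * R) ^ 2) :=
    mul_le_mul_of_nonneg_right hl hA
  have h2 : 3 / 4 * (n : ℝ) ^ 2 * (2 * R * t * (2 * R * t + R * q - 2 * R) ^ 2) =
      3 / 2 * R ^ 2 * (t * (2 * t + q - 2) ^ 2) := by
    have : 3 / 4 * (n : ℝ) ^ 2 * (2 * R * t * (2 * R * t + R * q - 2 * R) ^ 2) =
      3 / 2 * (R * (n : ℝ) ^ 2) * R ^ 2 * (t * (2 * t + q - 2) ^ 2) := by ring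
    rw [this, hRn]; ring
  have h6 : t * (2 * t + q - 2) ^ 2 ≤ 1 := p6 t q hs0 ht1 hq0 hq1
  have h7 : (1 - t) * (2 * t + q) ^ 2 ≤ 9 := p7 t q hs0 ht1 hq0 hq1
  have h8 : 1 / 4 * (2 * R * t + R * q) ^ 2 * (2 * R * (1 - t)) =
      1 / 2 * R ^ 2 * (R * ((1 - t) * (2 * t + q) ^ 2)) := by ring
  have h9 : R * ((1 - t) * (2 * t + q) ^ 2) ≤ 1 / 4 * 9 := by
    have h12 : 0 ≤ (1 - t) * (2 * t + q) ^ 2 := mul_nonneg (by linarith) (sq_nonneg _)
    calc R * ((1 - t) * (2 * t + q) ^ 2) ≤ 1 / 4 * ((1 - t) * (2 * t + q) ^ 2) :=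
          mul_le_mul_of_nonneg_right hR h12
      _ ≤ 1 / 4 * 9 := by linarith
  have hR2 : 0 < R ^ 2 := by positivity
  rw [h8]
  have h10 : 3 / 2 * R ^ 2 * (t * (2 * t + q - 2) ^ 2) ≤ 3 / 2 * R ^ 2 * 1 :=
    mul_le_mul_of_nonneg_left h6 (by positivity)
  have h11 : 1 / 2 * R ^ 2 * (R * ((1 - t) * (2 * t + q) ^ 2)) ≤ 1 / 2 * R ^ 2 * (1 / 4 * 9) :=
    mul_le_mul_of_nonneg_left h9 (by positivity)
  have h13 : lam (htf ρ i s) * (2 * R * t * (2 * R * t + R * q - 2 * R) ^ 2) ≤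
      3 / 2 * R ^ 2 * 1 := by linarith
  have h14 : (2 * R) ^ 2 = 4 * R ^ 2 := by ring
  rw [h14]
  linarith

theorem twist_T_neg : GG (htf ρ i s) (hv ρ i s) (TT (htf ρ i s)) < 0 := by
  have hn' : (0 : ℝ) < n := by positivity
  rw [GG_T, sum_re_im hn ρ hi, sig_hv hn ρ hi]
  have hp := psi_pos hn (htf_inj hn ρ hi s)
  obtain ⟨κ, hκ0, hκ1, hpsi⟩ := psi_htf hn ρ hi s
  have hR : (1 / (n : ℝ)) ^ 2 ≤ 1 / 4 := by
    have := inv_sq_le hn
    have e : (1 / (n : ℝ)) ^ 2 = 1 / (n : ℝ) ^ 2 := by ring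
    rw [e]; exact this
  have hRpos : 0 < (1 / (n : ℝ)) ^ 2 := by positivity
  have hcs := Real.sin_sq_add_cos_sq (Real.pi * s)
  have hs0 := sq_nonneg (Real.sin (Real.pi * s))
  have hc0 := sq_nonneg (Real.cos (Real.pi * s))
  have hk := kk_pos hn
  have hk8 := kk_le hn
  have hpsi1 : psi (htf ρ i s) ≤ 3 / 4 := by
    rw [hpsi]
    nlinarith
  set P := psi (htf ρ i s) with hP
  set R := (1 / (n : ℝ)) ^ 2 with hRdef
  have e : 1 / 4 * P ^ 2 * (kk n * (2 * R * Real.cos (Real.pi * s) ^ 2)) - 2 * R * P =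
      2 * R * P * (1 / 4 * P * kk n * Real.cos (Real.pi * s) ^ 2 - 1) := by ring
  rw [e]
  have h1 : 0 < 2 * R * P := by positivity
  have h2 : P * kk n ≤ 1 := by nlinarith
  have h3 : 0 ≤ P * kk n := by positivity
  have h4 : P * kk n * Real.cos (Real.pi * s) ^ 2 ≤ 1 := by nlinarith
  nlinarith

end

end Pool.Agent.H859R3

end
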