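import Mathlib
import Pool.Agent.H859R3.LorentzTwist
import Pool.Agent.H859R3.BraidPos

set_option autoImplicit false

noncomputable section

namespace Pool.Agent.H859R3

open unitInterval Filter Topology

variable {n : ℕ}

/-! ### from classes of words to explicit words -/

/-- explicit words with `k` letters in uniform parametrisation -/
def IsWord [Fact (2 ≤ n)] {ρ₀ ρ₁ : Equiv.Perm (Fin n)} (k : ℕ)
    (Γ : Path (base ρ₀) (base ρ₁)) : Prop :=
  1 ≤ k ∧ ∀ j : ℕ, j < k → ∃ i : ℕ, i + 1 < n ∧ ∃ ρ : Equiv.Perm (Fin n),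
    ∀ (t : unitInterval) (s : ℝ), 0 ≤ s → s ≤ 1 → (t : ℝ) = ((j : ℝ) + s) / (k : ℝ) →
      (Γ t).1 = htf ρ i s

/-- the reparametrisation -/
def repG (k : ℕ) (hk : 1 ≤ k) (t : I) : I :=
  ⟨max ((t : ℝ) * (k + 1) / (2 * k)) (((k + 1) * (t : ℝ) - k + 1) / 2), by
    have hk' : (1 : ℝ) ≤ k := by exact_mod_cast hk
    have h0 := t.2.1
    have h1 := t.2.2
    constructor
    · apply le_max_of_le_left
      positivity
    · apply max_le
      · rw [div_le_one (by linarith)]
        nlinarith
      · nlinarith⟩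

theorem repG_continuous (k : ℕ) (hk : 1 ≤ k) : Continuous (repG k hk) := by
  unfold repG
  fun_prop

theorem repG_zero (k : ℕ) (hk : 1 ≤ k) : repG k hk 0 = 0 := by
  have hk' : (1 : ℝ) ≤ k := by exact_mod_cast hk
  apply Subtype.ext
  simp only [repG, Set.Icc.coe_zero, zero_mul, zero_div, mul_zero]
  apply max_eq_left
  linarith

theorem repG_one (k : ℕ) (hk : 1 ≤ k) : repG k hk 1 = 1 := by
  have hk' : (1 : ℝ) ≤ k := by exact_mod_cast hk
  apply Subtype.ext
  simp only [repG, Set.Icc.coe_one, one_mul, mul_one]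
  have : ((k : ℝ) + 1 - k + 1) / 2 = 1 := by ring
  rw [this]
  apply max_eq_right
  rw [div_le_one (by linarith)]
  linarith

theorem repG_left (k : ℕ) (hk : 1 ≤ k) (t : I) (h : (t : ℝ) * (k + 1) ≤ k) :
    ((repG k hk t : I) : ℝ) = (t : ℝ) * (k + 1) / (2 * k) := by
  have hk' : (1 : ℝ) ≤ k := by exact_mod_cast hk
  unfold repG
  simp only
  apply max_eq_left
  rw [le_div_iff₀ (by linarith)]
  nlinarith

theorem repG_right (k : ℕ) (hk : 1 ≤ k) (t : I) (h : (k : ℝ) ≤ (t : ℝ) * (k + 1)) :
    ((repG k hk t : I) : ℝ) = ((k + 1) * (t : ℝ) - k + 1) / 2 := by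
  have hk' : (1 : ℝ) ≤ k := by exact_mod_cast hk
  unfold repG
  simp only
  apply max_eq_right
  rw [div_le_iff₀ (by linarith)]
  nlinarith

theorem Pos.word [hn : Fact (2 ≤ n)] {ρ₀ ρ₁ : Equiv.Perm (Fin n)}
    {q : Path.Homotopic.Quotient (base ρ₀) (base ρ₁)} (h : Pos ρ₀ ρ₁ q) :
    (∃ Γ : Path (base ρ₀) (base ρ₁), Path.Homotopic.Quotient.mk Γ = q ∧
      ∀ t, Γ t = base ρ₀) ∨
    (∃ Γ : Path (base ρ₀) (base ρ₁), Path.Homotopic.Quotient.mk Γ = q ∧ ∃ k, IsWord k Γ) := by
  induction h with
  | nil => exact Or.inl ⟨Path.refl _, rfl, fun _ => rfl⟩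
  | snoc ρ' q h i hi ih =>
    right
    rcases ih with ⟨Γ, hΓ, hconst⟩ | ⟨Γ, hΓ, k, hk, hw⟩
    · have h1 : base ρ' = base ρ₀ := by
        have := hconst 1
        rwa [Γ.target] at this
      have h2 : ρ₀ = ρ' := by
        apply uniq_order (base_mem ρ₀)
        rw [← h1]
        exact base_mem ρ'
      subst h2
      have h3 : Γ = Path.refl _ := Path.ext (funext hconst)
      refine ⟨ht ρ₀ i hi, ?_, 1, le_rfl, ?_⟩
      · rw [← hΓ, h3, Path.Homotopic.Quotient.mk_refl, Path.Homotopic.Quotient.refl_trans]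
      · intro j hj
        have hj0 : j = 0 := by omega
        subst hj0
        refine ⟨i, hi, ρ₀, ?_⟩
        intro t s _ _ hts
        have : (t : ℝ) = s := by rw [hts]; simp
        change htf ρ₀ i (t : ℝ) = _
        rw [this]
    · have hk' : (1 : ℝ) ≤ k := by exact_mod_cast hk
      refine ⟨(Γ.trans (ht ρ' i hi)).reparam (repG k hk) (repG_continuous k hk)
        (repG_zero k hk) (repG_one k hk), ?_, k + 1, by omega, ?_⟩
      · rw [← hΓ, ← Path.Homotopic.Quotient.mk_trans]
        exact (Path.Homotopic.Quotient.eq.2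
          ⟨Path.Homotopy.reparam _ _ (repG_continuous k hk) (repG_zero k hk)
            (repG_one k hk)⟩).symm
      · intro j hj
        rcases Nat.lt_succ_iff_lt_or_eq.1 hj with hj' | rfl
        · obtain ⟨i', hi', ρ, hρ⟩ := hw j hj'
          refine ⟨i', hi', ρ, ?_⟩
          intro t s hs0 hs1 hts
          have hjk : (j : ℝ) + 1 ≤ k := by exact_mod_cast hj'
          have ht1 : (t : ℝ) * (k + 1) = j + s := by
            rw [hts]; push_cast; field_simp
          have hle : (t : ℝ) * (k + 1) ≤ k := by linarith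
          have hg := repG_left k hk t hle
          rw [Path.coe_reparam, Function.comp_apply, Path.trans_apply]
          have hhalf : ((repG k hk t : I) : ℝ) ≤ 1 / 2 := by
            rw [hg, ht1, div_le_div_iff₀ (by linarith) (by norm_num)]
            linarith
          rw [dif_pos hhalf]
          apply hρ _ s hs0 hs1
          simp only
          rw [hg, ht1]
          field_simp
        · refine ⟨i, hi, ρ', ?_⟩
          intro t s hs0 hs1 hts
          have ht1 : (t : ℝ) * (j + 1) = j + s := by
            rw [hts]; push_cast; field_simp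
          have hle : (j : ℝ) ≤ (t : ℝ) * (j + 1) := by linarith
          have hg := repG_right j hk t hle
          have hg' : ((repG j hk t : I) : ℝ) = (1 + s) / 2 := by
            rw [hg]
            linarith
          rw [Path.coe_reparam, Function.comp_apply, Path.trans_apply]
          rcases hs0.eq_or_lt with hs | hs
          · have hhalf : ((repG j hk t : I) : ℝ) ≤ 1 / 2 := by
              rw [hg', ← hs]; norm_num
            rw [dif_pos hhalf]
            have e1 : (⟨2 * ((repG j hk t : I) : ℝ), (unitInterval.mul_pos_mem_iff zero_lt_two).2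
              ⟨(repG j hk t).2.1, hhalf⟩⟩ : I) = 1 := by
              apply Subtype.ext
              simp only [Set.Icc.coe_one]
              rw [hg', ← hs]; norm_num
            have e2 : Γ (⟨2 * ((repG j hk t : I) : ℝ), (unitInterval.mul_pos_mem_iff zero_lt_two).2
              ⟨(repG j hk t).2.1, hhalf⟩⟩ : I) = base ρ' := by
              rw [e1, Γ.target]
            rw [e2, ← hs, htf_zero ρ' hi]
          · have hhalf : ¬ ((repG j hk t : I) : ℝ) ≤ 1 / 2 := by
              rw [hg']
              push Not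
              linarith
            rw [dif_neg hhalf]
            change htf ρ' i (2 * ((repG j hk t : I) : ℝ) - 1) = _
            rw [hg']
            congr 1
            ring

/-! ### time-like paths cross positively -/

theorem neg_right {X : ℝ → ℝ} {D α β t0 : ℝ} (h : HasDerivWithinAt X D (Set.Icc α β) t0)
    (h1 : α ≤ t0) (h2 : t0 < β) (h0 : X t0 = 0) (hD : D < 0) :
    ∀ᶠ t in 𝓝[>] t0, X t < 0 := by
  have h3 : HasDerivWithinAt X D (Set.Ioi t0) t0 := by
    apply h.mono_of_mem_nhdsWithin
    apply mem_of_superset (Ioc_mem_nhdsGT h2)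
    intro x hx
    exact ⟨h1.trans hx.1.le, hx.2⟩
  rw [hasDerivWithinAt_iff_tendsto_slope' (by simp)] at h3
  have h4 := h3.eventually (gt_mem_nhds hD)
  filter_upwards [h4, self_mem_nhdsWithin] with t ht ht'
  rw [slope_def_field, h0, sub_zero] at ht
  have h5 : 0 < t - t0 := sub_pos.2 ht'
  by_contra hcon
  push Not at hcon
  exact absurd ht (not_lt.2 (div_nonneg hcon h5.le))

theorem pos_left {X : ℝ → ℝ} {D α β t0 : ℝ} (h : HasDerivWithinAt X D (Set.Icc α β) t0)
    (h1 : α < t0) (h2 : t0 ≤ β) (h0 : X t0 = 0) (hD : D < 0) :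
    ∀ᶠ t in 𝓝[<] t0, 0 < X t := by
  have h3 : HasDerivWithinAt X D (Set.Iio t0) t0 := by
    apply h.mono_of_mem_nhdsWithin
    apply mem_of_superset (Ico_mem_nhdsLT h1)
    intro x hx
    exact ⟨hx.1, hx.2.le.trans h2⟩
  rw [hasDerivWithinAt_iff_tendsto_slope' (by simp)] at h3
  have h4 := h3.eventually (gt_mem_nhds hD)
  filter_upwards [h4, self_mem_nhdsWithin] with t ht ht'
  rw [slope_def_field, h0, sub_zero] at ht
  have h5 : t - t0 < 0 := sub_neg.2 ht'
  by_contra hcon
  push Not at hcon
  exact absurd ht (not_lt.2 (div_nonneg_of_nonpos hcon h5.le))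

theorem locPos_of_cross {x y : Cfg n} (d : Path x y)
    (hR : ∀ t0 : I, ∀ a b : Fin n, a ≠ b → ((d t0).1 a).re = ((d t0).1 b).re →
      ∀ᶠ t : I in 𝓝 t0,
        (t0 < t → (((d t).1 a).re - ((d t).1 b).re) * (((d t0).1 a).im - ((d t0).1 b).im) < 0) ∧
        (t < t0 → 0 < (((d t).1 a).re - ((d t).1 b).re) * (((d t0).1 a).im - ((d t0).1 b).im))) :
    LocPos d := by
  intro t0
  have hcr : ∀ a : Fin n, Continuous (fun t : I => ((d t).1 a).re) := fun a =>
    Complex.continuous_re.comp ((continuous_apply a).comp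
      (continuous_subtype_val.comp d.continuous))
  have hci : ∀ a : Fin n, Continuous (fun t : I => ((d t).1 a).im) := fun a =>
    Complex.continuous_im.comp ((continuous_apply a).comp
      (continuous_subtype_val.comp d.continuous))
  have hall : ∀ᶠ t : I in 𝓝 t0, ∀ a b : Fin n,
      (((d t0).1 a).re < ((d t0).1 b).re → ((d t).1 a).re < ((d t).1 b).re) ∧
      (((d t0).1 a).re = ((d t0).1 b).re → ((d t0).1 a).im < ((d t0).1 b).im →
        ((d t).1 a).im < ((d t).1 b).im ∧ (t < t0 → ((d t).1 a).re < ((d t).1 b).re) ∧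
        (t0 < t → ((d t).1 b).re < ((d t).1 a).re)) := by
    rw [eventually_all]
    intro a
    rw [eventually_all]
    intro b
    apply Eventually.and
    · by_cases h : ((d t0).1 a).re < ((d t0).1 b).re
      · have := (isOpen_lt (hcr a) (hcr b)).mem_nhds h
        filter_upwards [this] with t ht _
        exact ht
      · exact Eventually.of_forall (fun t h' => absurd h' h)
    · by_cases h : ((d t0).1 a).re = ((d t0).1 b).re
      · by_cases h' : ((d t0).1 a).im < ((d t0).1 b).im
        · have h1 := (isOpen_lt (hci a) (hci b)).mem_nhds h'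
          have hne : a ≠ b := by
            rintro rfl
            exact lt_irrefl _ h'
          filter_upwards [h1, hR t0 a b hne h] with t ht ht2 _ _
          refine ⟨ht, fun h3 => ?_, fun h3 => ?_⟩
          · have := ht2.2 h3
            by_contra hcon
            push Not at hcon
            nlinarith
          · have := ht2.1 h3
            by_contra hcon
            push Not at hcon
            nlinarith
        · exact Eventually.of_forall (fun t _ h2 => absurd h2 h')
      · exact Eventually.of_forall (fun t h2 => absurd h2 h)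
  rw [eventually_iff_exists_mem] at hall
  obtain ⟨W', hW', hprop⟩ := hall
  obtain ⟨W, hWW', hWo, hW0⟩ := mem_nhds_iff.1 hW'
  refine ⟨W, hWo, hW0, ?_⟩
  intro s hs s' hs' t ht hst hts' ρ ρ' hρ hρ'
  have ps := hprop s (hWW' hs)
  have ps' := hprop s' (hWW' hs')
  have pt := hprop t (hWW' ht)
  have hne : ∀ a b : Fin n, ρ a < ρ b → a ≠ b := by
    rintro a b h rfl
    exact lt_irrefl _ h
  refine ⟨(d t).2.2, ?_, ?_⟩
  · intro a b h h'
    have l1 := hρ.2.1 a b h h
    have l2 := hρ'.2.1 a b h' h'
    rcases lt_trichotomy ((d t0).1 a).re ((d t0).1 b).re with hx | hx | hx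
    · exact Or.inl ((pt a b).1 hx)
    · rcases lt_trichotomy ((d t0).1 a).im ((d t0).1 b).im with hy | hy | hy
      · -- a below b : s' < t0
        have hs't0 : s' < t0 := by
          rcases lt_trichotomy s' t0 with h1 | h1 | h1
          · exact h1
          · exfalso
            rw [h1] at l2
            rcases l2 with l2 | ⟨_, l2⟩
            · exact absurd hx l2.ne
            · exact absurd hy (lt_asymm l2)
          · exfalso
            have h2 := ((ps' a b).2 hx hy).2.2 h1
            rcases l2 with l2 | ⟨l2, _⟩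
            · exact absurd h2 (lt_asymm l2)
            · exact absurd l2.symm h2.ne
        exact Or.inl (((pt a b).2 hx hy).2.1 (lt_of_le_of_lt hts' hs't0))
      · exact absurd ((d t0).2.1 (Complex.ext hx hy)) (hne a b h)
      · -- b below a : t0 ≤ s
        have hst0 : t0 ≤ s := by
          by_contra hcon
          push Not at hcon
          have h2 := ((ps b a).2 hx.symm hy).2.1 hcon
          rcases l1 with l1 | ⟨l1, _⟩
          · exact absurd h2 (lt_asymm l1)
          · exact absurd l1.symm h2.ne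
        rcases (hst0.trans hst).eq_or_lt with h3 | h3
        · rw [← h3]
          exact Or.inr ⟨hx, hy⟩
        · exact Or.inl (((pt b a).2 hx.symm hy).2.2 h3)
    · exfalso
      have h2 := (ps b a).1 hx
      rcases l1 with l1 | ⟨l1, _⟩
      · exact absurd h2 (lt_asymm l1)
      · exact absurd l1.symm h2.ne
  · intro a b h h'
    have l1 := hρ.2.1 a b h h
    have l2 := hρ'.2.1 b a h' h'
    rcases lt_trichotomy ((d t0).1 a).re ((d t0).1 b).re with hx | hx | hx
    · exfalso
      have h2 := (ps' a b).1 hx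
      rcases l2 with l2 | ⟨l2, _⟩
      · exact absurd h2 (lt_asymm l2)
      · exact absurd l2.symm h2.ne
    · rcases lt_trichotomy ((d t0).1 a).im ((d t0).1 b).im with hy | hy | hy
      · exact ((pt a b).2 hx hy).1
      · exact absurd ((d t0).2.1 (Complex.ext hx hy)) (hne a b h)
      · exfalso
        have hst0 : t0 ≤ s := by
          by_contra hcon
          push Not at hcon
          have h2 := ((ps b a).2 hx.symm hy).2.1 hcon
          rcases l1 with l1 | ⟨l1, _⟩
          · exact absurd h2 (lt_asymm l1)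
          · exact absurd l1.symm h2.ne
        rcases (hst0.trans (hst.trans hts')).eq_or_lt with h3 | h3
        · rw [← h3] at l2
          rcases l2 with l2 | ⟨_, l2⟩
          · exact absurd hx.symm l2.ne
          · exact absurd hy (lt_asymm l2)
        · have h2 := ((ps' b a).2 hx.symm hy).2.2 h3
          rcases l2 with l2 | ⟨l2, _⟩
          · exact absurd h2 (lt_asymm l2)
          · exact absurd l2.symm h2.ne
    · exfalso
      have h2 := (ps b a).1 hx
      rcases l1 with l1 | ⟨l1, _⟩
      · exact absurd h2 (lt_asymm l1)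
      · exact absurd l1.symm h2.ne

theorem exists_piece_right {k : ℕ} {τ : ℕ → ℝ} {t0 : ℝ} (h0 : τ 0 ≤ t0) (h1 : t0 < τ k) :
    ∃ j < k, τ j ≤ t0 ∧ t0 < τ (j + 1) := by
  by_contra hcon
  push Not at hcon
  have : ∀ j ≤ k, τ j ≤ t0 := by
    intro j
    induction j with
    | zero => intro _; exact h0
    | succ j ih => intro hj; exact hcon j (by omega) (ih (by omega))
  exact absurd h1 (not_lt.2 (this k le_rfl))

theorem exists_piece_left {k : ℕ} {τ : ℕ → ℝ} {t0 : ℝ} (h0 : τ 0 < t0) (h1 : t0 ≤ τ k) :
    ∃ j < k, τ j < t0 ∧ t0 ≤ τ (j + 1) := by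
  by_contra hcon
  push Not at hcon
  have : ∀ j ≤ k, τ j < t0 := by
    intro j
    induction j with
    | zero => intro _; exact h0
    | succ j ih => intro hj; exact hcon j (by omega) (ih (by omega))
  exact absurd h1 (not_le.2 (this k le_rfl))

theorem locPos_of_timelike (hn : 2 ≤ n) {x y : Cfg n} (d : Path x y) {k : ℕ} {τ : ℕ → ℝ}
    (h0 : τ 0 = 0) (h1 : τ k = 1)
    (hj : ∀ j : ℕ, j < k →
      τ j < τ (j + 1) ∧
      ContDiffOn ℝ ((⊤ : ℕ∞) : WithTop ℕ∞) (fun t : ℝ => (d.extend t).1)
        (Set.Icc (τ j) (τ (j + 1))) ∧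
      ∀ t ∈ Set.Icc (τ j) (τ (j + 1)),
        gL ((d.extend t).1)
          (derivWithin (fun t : ℝ => (d.extend t).1) (Set.Icc (τ j) (τ (j + 1))) t)
          (derivWithin (fun t : ℝ => (d.extend t).1) (Set.Icc (τ j) (τ (j + 1))) t) < 0 ∧
        gL ((d.extend t).1)
          (derivWithin (fun t : ℝ => (d.extend t).1) (Set.Icc (τ j) (τ (j + 1))) t)
          (TT ((d.extend t).1)) < 0) : LocPos d := by
  apply locPos_of_cross
  intro t0 a b hab hre
  have hext : ∀ t : I, d.extend (t : ℝ) = d t := fun t => by simp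
  -- derivative statement on a piece
  have hderiv : ∀ j < k, (t0 : ℝ) ∈ Set.Icc (τ j) (τ (j + 1)) → ∃ D < 0,
      HasDerivWithinAt (fun t : ℝ => (((d.extend t).1 a).re - ((d.extend t).1 b).re) *
        (((d t0).1 a).im - ((d t0).1 b).im)) D (Set.Icc (τ j) (τ (j + 1))) t0 := by
    intro j hjk ht
    obtain ⟨_, hcd, htl⟩ := hj j hjk
    have hd := (hcd.differentiableOn (by simp) t0 ht).hasDerivWithinAt
    obtain ⟨g1, g2⟩ := htl t0 ht
    set v := derivWithin (fun t : ℝ => (d.extend t).1) (Set.Icc (τ j) (τ (j + 1))) t0 with hv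
    rw [gL_apply, hext] at g1 g2
    refine ⟨((v a).re - (v b).re) * (((d t0).1 a).im - ((d t0).1 b).im),
      wall hn (d t0).2.1 (d t0).2.2 g1 g2 hab hre, ?_⟩
    have e1 : HasDerivWithinAt (fun t : ℝ => ((d.extend t).1 a).re) ((v a).re)
        (Set.Icc (τ j) (τ (j + 1))) t0 := (reL a).hasFDerivAt.comp_hasDerivWithinAt _ hd
    have e2 : HasDerivWithinAt (fun t : ℝ => ((d.extend t).1 b).re) ((v b).re)
        (Set.Icc (τ j) (τ (j + 1))) t0 := (reL b).hasFDerivAt.comp_hasDerivWithinAt _ hd
    exact (e1.sub e2).mul_const _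
  have hX0 : (((d.extend (t0 : ℝ)).1 a).re - ((d.extend (t0 : ℝ)).1 b).re) *
        (((d t0).1 a).im - ((d t0).1 b).im) = 0 := by
    rw [hext, hre]; ring
  apply Eventually.and
  · rcases t0.2.2.eq_or_lt with ht1 | ht1
    · apply Eventually.of_forall
      intro t ht
      exfalso
      have h2 : (t0 : ℝ) < t := ht
      have := t.2.2
      linarith
    · obtain ⟨j, hjk, h2, h3⟩ := exists_piece_right (k := k) (τ := τ) (t0 := (t0 : ℝ))
        (by rw [h0]; exact t0.2.1) (by rw [h1]; exact ht1)
      obtain ⟨D, hD, hder⟩ := hderiv j hjk ⟨h2, h3.le⟩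
      have h4 := neg_right hder h2 h3 hX0 hD
      rw [eventually_nhdsWithin_iff] at h4
      have h5 := (continuous_subtype_val.tendsto t0).eventually h4
      filter_upwards [h5] with t ht ht'
      have := ht ht'
      rwa [hext] at this
  · rcases t0.2.1.eq_or_lt with ht1 | ht1
    · apply Eventually.of_forall
      intro t ht
      exfalso
      have h2 : (t : ℝ) < t0 := ht
      have := t.2.1
      linarith
    · obtain ⟨j, hjk, h2, h3⟩ := exists_piece_left (k := k) (τ := τ) (t0 := (t0 : ℝ))
        (by rw [h0]; exact ht1) (by rw [h1]; exact t0.2.2)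
      obtain ⟨D, hD, hder⟩ := hderiv j hjk ⟨h2.le, h3⟩
      have h4 := pos_left hder h2 h3 hX0 hD
      rw [eventually_nhdsWithin_iff] at h4
      have h5 := (continuous_subtype_val.tendsto t0).eventually h4
      filter_upwards [h5] with t ht ht'
      have := ht ht'
      rwa [hext] at this

end Pool.Agent.H859R3

end
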