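import Pool.Agent.H859R3.CircSys

set_option autoImplicit false

noncomputable section

namespace Pool.Agent.H859R3

open Filter Topology MeasureTheory

/-! ### a maximal separated family of blocks -/

def cfgOK (S : Set (ℚ × ℝ)) : Prop :=
  (∀ x ∈ S, 0 < x.2 ∧ x.2 ≤ (1 / 2 : ℝ) ^ (Encodable.encode x.1 + 4)) ∧
    S.Pairwise (fun x y => x.2 + y.2 + 20 * min x.2 y.2 ≤ |(x.1 : ℝ) - (y.1 : ℝ)|)

theorem exists_cfg : ∃ S : Set (ℚ × ℝ), cfgOK S ∧
    ∀ a b : ℝ, a < b → ∃ x ∈ S, ∃ y : ℝ, a < y ∧ y < b ∧ |y - (x.1 : ℝ)| < x.2 := by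
  obtain ⟨S, hS⟩ := zorn_subset {S : Set (ℚ × ℝ) | cfgOK S} (by
    intro C hC hchain
    refine ⟨⋃₀ C, ⟨?_, ?_⟩, fun s hs => Set.subset_sUnion_of_mem hs⟩
    · rintro x ⟨s, hs, hx⟩
      exact (hC hs).1 x hx
    · rintro x ⟨s, hs, hx⟩ y ⟨t, ht, hy⟩ hxy
      rcases hchain.total hs ht with h | h
      · exact (hC ht).2 (h hx) hy hxy
      · exact (hC hs).2 hx (h hy) hxy)
  have hok : cfgOK S := hS.1
  refine ⟨S, hok, ?_⟩
  intro a b hab
  by_contra hcon
  push Not at hcon
  obtain ⟨q, hq1, hq2⟩ := exists_rat_btwn (show a + (b - a) / 3 < b - (b - a) / 3 by linarith)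
  set η : ℝ := (b - a) / 3 with hη
  have hη0 : 0 < η := by rw [hη]; linarith
  set ρ : ℝ := min (η / 21) ((1 / 2 : ℝ) ^ (Encodable.encode q + 4)) with hρ
  have hρ0 : 0 < ρ := lt_min (by linarith) (by positivity)
  have hρ1 : ρ ≤ η / 21 := min_le_left _ _
  have hρ2 : ρ ≤ (1 / 2 : ℝ) ^ (Encodable.encode q + 4) := min_le_right _ _
  have hnot : (q, ρ) ∉ S := by
    intro h
    have := hcon (q, ρ) h (q : ℝ) (by linarith) (by linarith)
    simp only [sub_self, abs_zero] at this
    linarith
  have hdist : ∀ x ∈ S, x.2 + η ≤ |(q : ℝ) - (x.1 : ℝ)| := by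
    intro x hx
    by_contra hlt
    push Not at hlt
    have hx0 := (hok.1 x hx).1
    rw [abs_lt] at hlt
    obtain ⟨y, hy1, hy2⟩ := exists_between
      (show max ((x.1 : ℝ) - x.2) ((q : ℝ) - η) < min ((x.1 : ℝ) + x.2) ((q : ℝ) + η) by
        rw [lt_min_iff, max_lt_iff, max_lt_iff]
        refine ⟨⟨by linarith, by linarith⟩, ⟨by linarith, by linarith⟩⟩)
    rw [max_lt_iff] at hy1
    rw [lt_min_iff] at hy2
    have := hcon x hx y (by linarith) (by linarith)
    have h2 : |y - (x.1 : ℝ)| < x.2 := by rw [abs_lt]; constructor <;> linarith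
    linarith
  have hins : cfgOK (insert (q, ρ) S) := by
    refine ⟨?_, ?_⟩
    · intro x hx
      rcases Set.mem_insert_iff.1 hx with h | h
      · rw [h]; exact ⟨hρ0, hρ2⟩
      · exact hok.1 x h
    · apply hok.2.insert
      intro x hx hne
      have h1 := hdist x hx
      have h2 : min ρ x.2 ≤ ρ := min_le_left _ _
      have h3 : min x.2 ρ ≤ ρ := min_le_right _ _
      constructor
      · simp only
        linarith
      · simp only
        rw [abs_sub_comm]
        linarith
  have := hS.2 hins (Set.subset_insert _ _) (Set.mem_insert _ _)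
  exact hnot this

/-! ### the strip removing map -/

section
variable (K : Set ℝ)

def mfun (x : ℝ) : ℝ := (volume (K ∩ Set.Iic x)).toReal

variable (hK : MeasurableSet K) (hfin : volume K ≤ ENNReal.ofReal (1 / 4))

include hfin in
theorem mfin (s : Set ℝ) : volume (K ∩ s) ≠ ⊤ := by
  have h1 : volume (K ∩ s) ≤ ENNReal.ofReal (1 / 4) := (measure_mono Set.inter_subset_left).trans hfin
  exact ne_top_of_le_ne_top ENNReal.ofReal_ne_top h1

include hK hfin in
theorem mfun_sub {x y : ℝ} (h : x ≤ y) :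
    mfun K y - mfun K x = (volume (K ∩ Set.Ioc x y)).toReal := by
  have h1 : K ∩ Set.Iic y = (K ∩ Set.Iic x) ∪ (K ∩ Set.Ioc x y) := by
    rw [← Set.inter_union_distrib_left, Set.Iic_union_Ioc_eq_Iic h]
  have h2 : Disjoint (K ∩ Set.Iic x) (K ∩ Set.Ioc x y) := by
    rw [Set.disjoint_left]
    rintro z ⟨_, hz⟩ ⟨_, hz'⟩
    exact absurd hz (not_le.2 hz'.1)
  unfold mfun
  rw [h1, measure_union h2 (hK.inter measurableSet_Ioc),
    ENNReal.toReal_add (mfin K hfin _) (mfin K hfin _)]
  ring

include hK hfin in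
theorem mfun_mono {x y : ℝ} (h : x ≤ y) : 0 ≤ mfun K y - mfun K x := by
  rw [mfun_sub K hK hfin h]
  exact ENNReal.toReal_nonneg

include hK hfin in
theorem mfun_lip {x y : ℝ} (h : x ≤ y) : mfun K y - mfun K x ≤ y - x := by
  rw [mfun_sub K hK hfin h]
  have h1 : volume (K ∩ Set.Ioc x y) ≤ ENNReal.ofReal (y - x) := by
    rw [← Real.volume_Ioc]
    exact measure_mono Set.inter_subset_right
  exact ENNReal.toReal_le_of_le_ofReal (by linarith) h1

include hK hfin in
theorem mfun_bdd {x y : ℝ} (h : x ≤ y) : mfun K y - mfun K x ≤ 1 / 4 := by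
  rw [mfun_sub K hK hfin h]
  exact ENNReal.toReal_le_of_le_ofReal (by norm_num)
    ((measure_mono Set.inter_subset_left).trans hfin)

include hfin in
theorem mfun_nonneg (x : ℝ) : 0 ≤ mfun K x ∧ mfun K x ≤ 1 / 4 :=
  ⟨ENNReal.toReal_nonneg, ENNReal.toReal_le_of_le_ofReal (by norm_num)
    ((measure_mono Set.inter_subset_left).trans hfin)⟩

include hK hfin in
theorem mfun_full {x y : ℝ} (h : x ≤ y) (hs : Set.Ioo x y ⊆ K) : mfun K y - mfun K x = y - x := by
  apply le_antisymm (mfun_lip K hK hfin h)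
  rw [mfun_sub K hK hfin h]
  have h1 : ENNReal.ofReal (y - x) ≤ volume (K ∩ Set.Ioc x y) := by
    rw [← Real.volume_Ioo]
    exact measure_mono (fun z hz => ⟨hs hz, ⟨hz.1, hz.2.le⟩⟩)
  exact (ENNReal.ofReal_le_iff_le_toReal (mfin K hfin _)).1 h1

def phi (x : ℝ) : ℝ := x / 2 + mfun K x / 2

include hK hfin in
theorem phi_lipl {x y : ℝ} (h : x ≤ y) : (y - x) / 2 ≤ phi K y - phi K x := by
  have := mfun_mono K hK hfin h
  unfold phi
  linarith

include hK hfin in
theorem phi_lipu {x y : ℝ} (h : x ≤ y) : phi K y - phi K x ≤ y - x := by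
  have := mfun_lip K hK hfin h
  unfold phi
  linarith

include hK hfin in
theorem phi_bdd {x y : ℝ} (h : x ≤ y) : phi K y - phi K x ≤ (y - x) / 2 + 1 / 8 := by
  have := mfun_bdd K hK hfin h
  unfold phi
  linarith

include hK hfin in
theorem phi_full {x y : ℝ} (h : x ≤ y) (hs : Set.Ioo x y ⊆ K) : phi K y - phi K x = y - x := by
  have := mfun_full K hK hfin h hs
  unfold phi
  linarith

include hK hfin in
theorem phi_strictMono : StrictMono (phi K) := by
  intro x y h
  have := phi_lipl K hK hfin h.le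
  linarith

include hK hfin in
theorem phi_surj : Function.Surjective (phi K) := by
  have hc : Continuous (phi K) := by
    have : LipschitzWith 1 (phi K) := by
      apply LipschitzWith.of_dist_le_mul
      intro x y
      rw [Real.dist_eq, Real.dist_eq, NNReal.coe_one, one_mul]
      rcases le_total x y with h | h
      · have h1 := phi_lipl K hK hfin h
        have h2 := phi_lipu K hK hfin h
        rw [abs_of_nonpos (by linarith), abs_of_nonpos (by linarith)]
        linarith
      · have h1 := phi_lipl K hK hfin h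
        have h2 := phi_lipu K hK hfin h
        rw [abs_of_nonneg (by linarith), abs_of_nonneg (by linarith)]
        linarith
    exact this.continuous
  apply hc.surjective
  · have : ∀ x, x / 2 ≤ phi K x := by
      intro x
      have := (mfun_nonneg K hfin x).1
      unfold phi
      linarith
    exact tendsto_atTop_mono this (tendsto_id.atTop_div_const (by norm_num))
  · have : ∀ x, phi K x ≤ x / 2 + 1 / 8 := by
      intro x
      have := (mfun_nonneg K hfin x).2
      unfold phi
      linarith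
    apply tendsto_atBot_mono this
    exact tendsto_atBot_add_const_right _ _ (tendsto_id.atBot_div_const (by norm_num))

end

theorem exists_config : ∃ (ι : Type) (_ : Countable ι) (A B : Sys ι) (φ : ℝ → ℝ),
    Match A B φ ∧ Function.Surjective φ ∧ (∀ j, B.r j = A.r j) ∧
    (∀ i j, i ≠ j → A.r i + A.r j + 20 * min (A.r i) (A.r j) ≤ |A.c i - A.c j|) ∧
    (∀ x y, x ≤ y → (y - x) / 2 ≤ φ y - φ x) ∧ (∀ x y, x ≤ y → φ y - φ x ≤ y - x) ∧
    (∀ j, A.r j ≤ 1 / 8) ∧
    (∀ a b : ℝ, a < b → ∃ (j : ι) (y : ℝ), a < y ∧ y < b ∧ A.In j y) ∧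
    (∀ x y, x ≤ y → φ y - φ x ≤ (y - x) / 2 + 1 / 8) := by
  obtain ⟨S, hok, hdense⟩ := exists_cfg
  have hsep : ∀ i j : S, i ≠ j → i.1.2 + j.1.2 + 20 * min i.1.2 j.1.2 ≤
      |(i.1.1 : ℝ) - (j.1.1 : ℝ)| := by
    intro i j hij
    exact hok.2 i.2 j.2 (fun h => hij (Subtype.ext h))
  have hpos : ∀ j : S, 0 < j.1.2 := fun j => (hok.1 j.1 j.2).1
  have hinj : Function.Injective (fun j : S => j.1.1) := by
    intro i j hij
    by_contra hne
    have h1 := hsep i j hne
    simp only at hij
    rw [hij, sub_self, abs_zero] at h1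
    have h2 := hpos i
    have h3 := hpos j
    have h4 : 0 < min i.1.2 j.1.2 := lt_min h2 h3
    linarith
  have hcount : Countable S := hinj.countable
  let A : Sys S := ⟨fun j => (j.1.1 : ℝ), fun j => j.1.2, hpos, by
    intro i j hij
    have h1 := hsep i j hij
    have h4 : 0 < min i.1.2 j.1.2 := lt_min (hpos i) (hpos j)
    linarith⟩
  let K : Set ℝ := ⋃ j : S, Set.Ioo (A.c j - A.r j) (A.c j + A.r j)
  have hK : MeasurableSet K := (isOpen_iUnion (fun j => isOpen_Ioo)).measurableSet
  have hfin : volume K ≤ ENNReal.ofReal (1 / 4) := by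
    calc volume K ≤ ∑' j : S, volume (Set.Ioo (A.c j - A.r j) (A.c j + A.r j)) :=
          measure_iUnion_le _
      _ ≤ ∑' j : S, ENNReal.ofReal ((1 / 2 : ℝ) ^ (Encodable.encode j.1.1 + 3)) := by
          apply ENNReal.tsum_le_tsum
          intro j
          rw [Real.volume_Ioo]
          apply ENNReal.ofReal_le_ofReal
          have := (hok.1 j.1 j.2).2
          have e : (1 / 2 : ℝ) ^ (Encodable.encode j.1.1 + 4) =
              (1 / 2 : ℝ) ^ (Encodable.encode j.1.1 + 3) / 2 := by
            rw [pow_succ (1 / 2 : ℝ) (Encodable.encode j.1.1 + 3)]; ring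
          rw [e] at this
          show (A.c j + A.r j) - (A.c j - A.r j) ≤ _
          have h2 : A.r j = j.1.2 := rfl
          rw [h2]
          linarith
      _ ≤ ∑' n : ℕ, ENNReal.ofReal ((1 / 2 : ℝ) ^ (n + 3)) :=
          ENNReal.tsum_comp_le_tsum_of_injective
            (f := fun j : S => Encodable.encode j.1.1)
            (Encodable.encode_injective.comp hinj)
            (fun n : ℕ => ENNReal.ofReal ((1 / 2 : ℝ) ^ (n + 3)))
      _ = ENNReal.ofReal (∑' n : ℕ, (1 / 2 : ℝ) ^ (n + 3)) := by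
          rw [ENNReal.ofReal_tsum_of_nonneg (fun n => by positivity)]
          have : (fun n : ℕ => (1 / 2 : ℝ) ^ (n + 3)) = fun n => (1 / 2 : ℝ) ^ n * (1 / 8) := by
            funext n; rw [pow_add]; norm_num
          rw [this]
          exact summable_geometric_two.mul_right _
      _ = ENNReal.ofReal (1 / 4) := by
          have : (fun n : ℕ => (1 / 2 : ℝ) ^ (n + 3)) = fun n => (1 / 2 : ℝ) ^ n * (1 / 8) := by
            funext n; rw [pow_add]; norm_num
          rw [this, tsum_mul_right, tsum_geometric_two]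
          norm_num
  have hsub : ∀ j : S, Set.Ioo (A.c j - A.r j) (A.c j + A.r j) ⊆ K := fun j =>
    Set.subset_iUnion (fun j : S => Set.Ioo (A.c j - A.r j) (A.c j + A.r j)) j
  have hleft : ∀ j : S, phi K (A.c j - A.r j) = phi K (A.c j) - A.r j := by
    intro j
    have hr := A.rpos j
    have := phi_full K hK hfin (show A.c j - A.r j ≤ A.c j by linarith)
      ((Set.Ioo_subset_Ioo_right (by linarith)).trans (hsub j))
    linarith
  have hright : ∀ j : S, phi K (A.c j + A.r j) = phi K (A.c j) + A.r j := by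
    intro j
    have hr := A.rpos j
    have := phi_full K hK hfin (show A.c j ≤ A.c j + A.r j by linarith)
      ((Set.Ioo_subset_Ioo_left (by linarith)).trans (hsub j))
    linarith
  have hsepB : ∀ i j : S, i ≠ j → A.c i ≤ A.c j →
      A.r i + A.r j + 10 * min (A.r i) (A.r j) ≤ phi K (A.c j) - phi K (A.c i) := by
    intro i j hij hle
    have hri := A.rpos i
    have hrj := A.rpos j
    have h1 : A.r i + A.r j + 20 * min (A.r i) (A.r j) ≤ |A.c i - A.c j| := hsep i j hij
    have hm := A.min_pos' i j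
    rw [abs_of_nonpos (by linarith)] at h1
    have h2 := phi_lipl K hK hfin (show A.c i + A.r i ≤ A.c j - A.r j by linarith)
    rw [hleft, hright] at h2
    linarith
  let B : Sys S := ⟨fun j => phi K (A.c j), fun j => A.r j, A.rpos, by
    intro i j hij
    rcases le_total (A.c i) (A.c j) with h | h
    · have h1 := hsepB i j hij h
      have h2 := (phi_strictMono K hK hfin).monotone h
      rw [abs_of_nonpos (by linarith)]
      linarith
    · have h1 := hsepB j i hij.symm h
      have h2 := (phi_strictMono K hK hfin).monotone h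
      rw [abs_of_nonneg (by linarith), min_comm]
      linarith⟩
  refine ⟨S, hcount, A, B, phi K, ⟨phi_strictMono K hK hfin, hleft, hright, fun j => rfl⟩,
    phi_surj K hK hfin, fun j => rfl, hsep, fun x y h => phi_lipl K hK hfin h,
    fun x y h => phi_lipu K hK hfin h, ?_, ?_, fun x y h => phi_bdd K hK hfin h⟩
  · intro j
    have h1 := (hok.1 j.1 j.2).2
    have h2 : (1 / 2 : ℝ) ^ (Encodable.encode j.1.1 + 4) ≤ 1 / 8 := by
      rw [pow_add]
      have : (1 / 2 : ℝ) ^ (Encodable.encode j.1.1) ≤ 1 :=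
        pow_le_one₀ (by norm_num) (by norm_num)
      norm_num at this ⊢
      linarith
    exact h1.trans h2
  · intro a b hab
    obtain ⟨x, hx, y, h1, h2, h3⟩ := hdense a b hab
    exact ⟨⟨x, hx⟩, y, h1, h2, h3⟩

end Pool.Agent.H859R3

end
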