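import Pool.Agent.H859R3.CircSys

set_option autoImplicit false

noncomputable section

namespace Pool.Agent.H859R3

open Filter Topology

section
variable {ι : Type} {A B : Sys ι} {φ ψ h k : ℝ → ℝ}

theorem Sys.R_gt {A : Sys ι} {j : ι} {x : ℝ} (h : A.c j < x) : A.c j < A.R j x := by
  have := A.rpos j
  unfold Sys.R
  have h1 : 0 < x - A.c j := by linarith
  have : 0 < A.r j ^ 2 / (x - A.c j) := by positivity
  linarith

theorem Sys.R_lt {A : Sys ι} {j : ι} {x : ℝ} (h : x < A.c j) : A.R j x < A.c j := by
  have := A.rpos j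
  unfold Sys.R
  have h1 : x - A.c j < 0 := by linarith
  have : A.r j ^ 2 / (x - A.c j) < 0 := div_neg_of_pos_of_neg (by positivity) h1
  linarith

theorem Sys.R_anti_gt {A : Sys ι} {j : ι} {x y : ℝ} (h : A.c j < x) (hxy : x < y) :
    A.R j y < A.R j x := by
  have hr := A.rpos j
  unfold Sys.R
  have h1 : 0 < x - A.c j := by linarith
  have : A.r j ^ 2 / (y - A.c j) < A.r j ^ 2 / (x - A.c j) :=
    div_lt_div_of_pos_left (by positivity) h1 (by linarith)
  linarith

theorem Sys.R_anti_lt {A : Sys ι} {j : ι} {x y : ℝ} (h : y < A.c j) (hxy : x < y) :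
    A.R j y < A.R j x := by
  have hr := A.rpos j
  unfold Sys.R
  have h1 : 0 < A.c j - y := by linarith
  have h2 : A.r j ^ 2 / (A.c j - x) < A.r j ^ 2 / (A.c j - y) :=
    div_lt_div_of_pos_left (by positivity) h1 (by linarith)
  have e1 : A.r j ^ 2 / (y - A.c j) = - (A.r j ^ 2 / (A.c j - y)) := by
    rw [← div_neg]; congr 1; ring
  have e2 : A.r j ^ 2 / (x - A.c j) = - (A.r j ^ 2 / (A.c j - x)) := by
    rw [← div_neg]; congr 1; ring
  rw [e1, e2]
  linarith

theorem Sys.end_right (A : Sys ι) (j : ι) : ¬ ∃ l, A.In l (A.c j + A.r j) := by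
  have hr := A.rpos j
  rintro ⟨l, hl⟩
  by_cases hlj : l = j
  · subst hlj
    unfold Sys.In at hl
    rw [add_sub_cancel_left, abs_of_pos hr] at hl
    linarith
  · have := A.out_of_In (le_of_lt hl) hlj
    rw [add_sub_cancel_left, abs_of_pos hr] at this
    linarith

theorem Sys.end_left (A : Sys ι) (j : ι) : ¬ ∃ l, A.In l (A.c j - A.r j) := by
  have hr := A.rpos j
  have e : A.c j - A.r j - A.c j = - A.r j := by ring
  rintro ⟨l, hl⟩
  by_cases hlj : l = j
  · subst hlj
    unfold Sys.In at hl
    rw [e, abs_neg, abs_of_pos hr] at hl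
    linarith
  · have := A.out_of_In (le_of_lt hl) hlj
    rw [e, abs_neg, abs_of_pos hr] at this
    linarith

theorem Loc.eright (M : Match A B φ) (L : Loc A B φ h) (j : ι) :
    h (A.c j + A.r j) = B.c j + B.r j := by
  rw [L.out _ (A.end_right j), M.right]

theorem Loc.eleft (M : Match A B φ) (L : Loc A B φ h) (j : ι) :
    h (A.c j - A.r j) = B.c j - B.r j := by
  rw [L.out _ (A.end_left j), M.left]

/-- sign information -/
theorem Loc.gt (M : Match A B φ) (L : Loc A B φ h) (E : ∀ j x, h (A.R j x) = B.R j (h x))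
    {j : ι} {x : ℝ} (hx : A.c j < x) : B.c j < h x := by
  have hr := A.rpos j
  have hr' := B.rpos j
  rcases lt_trichotomy x (A.c j + A.r j) with h1 | h1 | h1
  · have h2 : A.In j x := by unfold Sys.In; rw [abs_lt]; constructor <;> linarith
    have h3 := A.R_out h2 hx.ne'
    have h4 := Sys.R_gt hx
    rw [abs_of_pos (by linarith)] at h3
    have h5 := L.right M (show A.c j + A.r j < A.R j x by linarith)
    have h6 : h x = B.R j (h (A.R j x)) := by rw [← E, A.R_R]
    rw [h6]
    exact Sys.R_gt (by linarith)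
  · rw [h1, L.eright M]; linarith
  · have := L.right M h1; linarith

theorem Loc.lt (M : Match A B φ) (L : Loc A B φ h) (E : ∀ j x, h (A.R j x) = B.R j (h x))
    {j : ι} {x : ℝ} (hx : x < A.c j) : h x < B.c j := by
  have hr := A.rpos j
  have hr' := B.rpos j
  rcases lt_trichotomy x (A.c j - A.r j) with h1 | h1 | h1
  · have := L.left M h1; linarith
  · rw [h1, L.eleft M]; linarith
  · have h2 : A.In j x := by unfold Sys.In; rw [abs_lt]; constructor <;> linarith
    have h3 := A.R_out h2 hx.ne
    have h4 := Sys.R_lt hx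
    rw [abs_of_neg (by linarith)] at h3
    have h5 := L.left M (show A.R j x < A.c j - A.r j by linarith)
    have h6 : h x = B.R j (h (A.R j x)) := by rw [← E, A.R_R]
    rw [h6]
    exact Sys.R_lt (by linarith)

/-- strict monotonicity of the conjugating map -/
theorem Loc.strictMono (M : Match A B φ) (L : Loc A B φ h)
    (E : ∀ j x, h (A.R j x) = B.R j (h x)) : StrictMono h := by
  have main : ∀ u v : ℝ, u < v → h v ≤ h u → ∃ j, A.In j u ∧ A.In j v ∧ u ≠ A.c j ∧ v ≠ A.c j ∧
      (A.R j v < A.R j u ∧ h (A.R j u) ≤ h (A.R j v)) := by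
    intro u v huv hle
    have hu : ∃ j, A.In j u := by
      by_contra hu
      by_cases hv : ∃ j, A.In j v
      · obtain ⟨j, hj⟩ := hv
        have h1 := L.inn j v hj
        have h2 : u ≤ A.c j - A.r j := by
          by_contra h3
          push Not at h3
          apply hu
          refine ⟨j, ?_⟩
          unfold Sys.In at hj ⊢
          rw [abs_lt] at hj ⊢
          constructor <;> linarith
        unfold Sys.In at h1
        rw [abs_lt] at h1
        rcases h2.lt_or_eq with h3 | h3
        · have := L.left M h3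
          linarith
        · rw [h3, L.eleft M] at hle
          linarith
      · rw [L.out u hu, L.out v hv] at hle
        have := M.mono huv
        linarith
    obtain ⟨j, hj⟩ := hu
    have hjv : A.In j v := by
      by_contra hv
      have h1 := L.inn j u hj
      have h2 : A.c j + A.r j ≤ v := by
        by_contra h3
        push Not at h3
        apply hv
        unfold Sys.In at hj ⊢
        rw [abs_lt] at hj ⊢
        constructor <;> linarith
      unfold Sys.In at h1
      rw [abs_lt] at h1
      rcases h2.lt_or_eq with h3 | h3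
      · have := L.right M h3
        linarith
      · rw [← h3, L.eright M] at hle
        linarith
    rcases lt_trichotomy u (A.c j) with h1 | h1 | h1
    · rcases lt_trichotomy v (A.c j) with h2 | h2 | h2
      · refine ⟨j, hj, hjv, h1.ne, h2.ne, Sys.R_anti_lt h2 huv, ?_⟩
        rw [E, E]
        rcases hle.lt_or_eq with h3 | h3
        · exact (Sys.R_anti_lt (L.lt M E h1) h3).le
        · rw [h3]
      · have := L.lt M E h1
        rw [h2, L.mid] at hle
        linarith
      · have := L.lt M E h1
        have := L.gt M E h2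
        linarith
    · have := L.gt M E (show A.c j < v by linarith)
      rw [h1, L.mid] at hle
      linarith
    · have h2 : A.c j < v := by linarith
      refine ⟨j, hj, hjv, h1.ne', h2.ne', Sys.R_anti_gt h1 huv, ?_⟩
      rw [E, E]
      rcases hle.lt_or_eq with h3 | h3
      · exact (Sys.R_anti_gt (L.gt M E h2) h3).le
      · rw [h3]
  intro u v huv
  by_contra hcon
  push Not at hcon
  have := A.descent (fun u v => (u < v ∧ h v ≤ h u) ∨ (v < u ∧ h u ≤ h v)) (by
    rintro u v (⟨h1, h2⟩ | ⟨h1, h2⟩)
    · obtain ⟨j, a1, a2, a3, a4, a5⟩ := main u v h1 h2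
      exact ⟨j, a1, a2, a3, a4, Or.inr a5⟩
    · obtain ⟨j, a1, a2, a3, a4, a5⟩ := main v u h1 h2
      exact ⟨j, a2, a1, a4, a3, Or.inl a5⟩) (Or.inl ⟨huv, hcon⟩)
  linarith

theorem Loc.left_inv (M : Match A B φ) (L : Loc A B φ h)
    (E : ∀ j x, h (A.R j x) = B.R j (h x)) (M' : Match B A ψ) (L' : Loc B A ψ k)
    (E' : ∀ j x, k (B.R j x) = A.R j (k x)) (hψ : ∀ x, ψ (φ x) = x) (x : ℝ) :
    k (h x) = x := by
  have hout : ∀ u, (¬ ∃ j, A.In j u) → k (h u) = u := by
    intro u hu
    rw [L.out u hu]
    have h1 : ¬ ∃ j, B.In j (φ u) := by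
      rintro ⟨j, hj⟩
      apply hu
      refine ⟨j, ?_⟩
      unfold Sys.In at hj ⊢
      rw [abs_lt] at hj ⊢
      have e1 : φ (A.c j - A.r j) < φ u := by rw [M.left]; linarith
      have e2 : φ u < φ (A.c j + A.r j) := by rw [M.right]; linarith
      have e3 := M.mono.lt_iff_lt.1 e1
      have e4 := M.mono.lt_iff_lt.1 e2
      constructor <;> linarith
    rw [L'.out _ h1, hψ]
  by_contra hcon
  have := A.descent (fun u v => v = k (h u) ∧ u ≠ v) (by
    rintro u v ⟨h1, h2⟩
    have hu : ∃ j, A.In j u := by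
      by_contra hu
      exact h2 (by rw [h1, hout u hu])
    obtain ⟨j, hj⟩ := hu
    have hv : A.In j v := by rw [h1]; exact L'.inn j _ (L.inn j u hj)
    have huc : u ≠ A.c j := by
      intro hc
      apply h2
      rw [h1, hc, L.mid, L'.mid]
    have hvc : v ≠ A.c j := by
      intro hc
      have e1 := L'.far M' (L.far M (A.R_out hj huc))
      rw [E, E', ← h1, hc, A.R_center] at e1
      simp at e1
      linarith [A.rpos j]
    refine ⟨j, hj, hv, huc, hvc, ?_, ?_⟩
    · rw [E, E', h1]
    · intro hc
      exact h2 (A.R_inj j hc)) (u := x) (v := k (h x)) ⟨rfl, fun h' => hcon h'.symm⟩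
  exact hcon this.symm

/-- the full package about the conjugating map -/
theorem exists_homeo (M : Match A B φ) (hs : Function.Surjective φ) :
    ∃ h : ℝ → ℝ, Loc A B φ h ∧ (∀ j x, h (A.R j x) = B.R j (h x)) ∧ StrictMono h ∧
      Function.Surjective h ∧ Continuous h := by
  obtain ⟨h, L, E⟩ := exists_conj M
  let e := M.mono.orderIsoOfSurjective φ hs
  have he : ∀ x, e x = φ x := fun x => rfl
  have M' : Match B A e.symm := by
    refine ⟨e.symm.strictMono, ?_, ?_, ?_⟩
    · intro j; rw [← M.left, ← he, e.symm_apply_apply]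
    · intro j; rw [← M.right, ← he, e.symm_apply_apply]
    · intro j; rw [← M.mid, ← he, e.symm_apply_apply]
  obtain ⟨k, L', E'⟩ := exists_conj M'
  have hk : ∀ y, h (k y) = y :=
    Loc.left_inv M' L' E' M L E (fun x => by rw [← he, e.apply_symm_apply])
  have hsurj : Function.Surjective h := fun y => ⟨k y, hk y⟩
  have hmono := L.strictMono M E
  refine ⟨h, L, E, hmono, hsurj, ?_⟩
  exact (hmono.orderIsoOfSurjective h hsurj).continuous

end

end Pool.Agent.H859R3

end
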