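import Pool.Agent.H859R3.CircWord
import Pool.Agent.H859R3.CircConj

set_option autoImplicit false

noncomputable section

namespace Pool.Agent.H859R3

open Matrix

namespace Sys

def lin (u v : ℝ) (M : M2) : ℝ :=
  (M 0 0 - u * M 1 0) * (M 0 0 - v * M 1 0) + (M 0 1 - u * M 1 1) * (M 0 1 - v * M 1 1)

theorem lin_comm (u v : ℝ) (M : M2) : lin u v M = lin v u M := by unfold lin; ring

theorem lin_mono {u v u' v' : ℝ} {M : M2} (hd : M.det ≠ 0) (h1 : u ≤ u') (h2 : u' < v')
    (h3 : v' ≤ v) (h : lin u' v' M < 0) : lin u v M < 0 := by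
  rw [Matrix.det_fin_two] at hd
  unfold lin at h ⊢
  set a := M 0 0
  set b := M 0 1
  set c := M 1 0
  set d := M 1 1
  have hg : 0 < c ^ 2 + d ^ 2 := by
    have h0 : 0 ≤ c ^ 2 + d ^ 2 := by positivity
    rcases h0.lt_or_eq with h4 | h4
    · exact h4
    · exfalso
      apply hd
      have hc : c = 0 := by nlinarith [sq_nonneg c, sq_nonneg d]
      have hd' : d = 0 := by nlinarith [sq_nonneg c, sq_nonneg d]
      rw [hc, hd']; ring
  have key : ∀ u v : ℝ, (c ^ 2 + d ^ 2) * ((a - u * c) * (a - v * c) + (b - u * d) * (b - v * d)) =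
      ((a * c + b * d) - u * (c ^ 2 + d ^ 2)) * ((a * c + b * d) - v * (c ^ 2 + d ^ 2)) +
        (a * d - b * c) ^ 2 := by
    intro u v; ring
  have k1 := mul_neg_of_pos_of_neg hg h
  rw [key] at k1
  set s := a * c + b * d
  set g := c ^ 2 + d ^ 2
  have hdd : 0 < (a * d - b * c) ^ 2 := by positivity
  have m1 : u' * g < v' * g := mul_lt_mul_of_pos_right h2 hg
  have m2 : u * g ≤ u' * g := mul_le_mul_of_nonneg_right h1 hg.le
  have m3 : v' * g ≤ v * g := mul_le_mul_of_nonneg_right h3 hg.le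
  have p1 : 0 < s - u' * g := by
    by_contra hc
    push Not at hc
    nlinarith
  have p2 : s - v' * g < 0 := by
    by_contra hc
    push Not at hc
    nlinarith
  have k2 : (s - u * g) * (s - v * g) + (a * d - b * c) ^ 2 < 0 := by nlinarith
  rw [← key] at k2
  by_contra hc
  push Not at hc
  have := mul_nonneg hg.le hc
  linarith

variable {ι : Type} (A : Sys ι)

theorem lin_R {j : ι} {u v : ℝ} (hu : u ≠ A.c j) (hv : v ≠ A.c j) (N : M2) :
    lin u v (A.mat j * N) =
      ((A.c j - u) * (A.c j - v) / A.r j ^ 2) * lin (A.R j u) (A.R j v) N := by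
  have hr := (A.rpos j).ne'
  have key : ∀ u n0 n1 : ℝ, u ≠ A.c j →
      (A.c j / A.r j * n0 + (A.r j ^ 2 - A.c j ^ 2) / A.r j * n1) -
        u * (1 / A.r j * n0 + -A.c j / A.r j * n1) = ((A.c j - u) / A.r j) *
          (n0 - A.R j u * n1) := by
    intro u n0 n1 hu
    have h1 : u - A.c j ≠ 0 := sub_ne_zero.2 hu
    unfold R
    field_simp
    ring
  unfold lin
  simp only [Matrix.mul_apply, Fin.sum_univ_two, mat, Matrix.of_apply, Matrix.cons_val',
    Matrix.cons_val_zero, Matrix.cons_val_one, Matrix.cons_val_fin_one]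
  rw [key u _ _ hu, key v _ _ hv, key u _ _ hu, key v _ _ hv]
  field_simp

def Hit (u v : ℝ) : Prop :=
  (∃ L : List ι, L.length % 2 = 0 ∧ lin u v (wd A.mat L) < 0) ∧
    (∃ L : List ι, L.length % 2 = 1 ∧ lin u v (wd A.mat L) < 0)

theorem Hit.comm {A : Sys ι} {u v : ℝ} (h : A.Hit u v) : A.Hit v u := by
  obtain ⟨⟨L, a, b⟩, ⟨L', a', b'⟩⟩ := h
  exact ⟨⟨L, a, by rwa [lin_comm]⟩, ⟨L', a', by rwa [lin_comm]⟩⟩

theorem wd_det_ne (L : List ι) : (wd A.mat L).det ≠ 0 := by
  rw [wd_det _ A.mat_det]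
  exact pow_ne_zero _ (by norm_num)

theorem Hit.mono {A : Sys ι} {u v u' v' : ℝ} (h : A.Hit u' v') (h1 : u ≤ u') (h2 : u' < v')
    (h3 : v' ≤ v) : A.Hit u v := by
  obtain ⟨⟨L, a, b⟩, ⟨L', a', b'⟩⟩ := h
  exact ⟨⟨L, a, lin_mono (A.wd_det_ne L) h1 h2 h3 b⟩,
    ⟨L', a', lin_mono (A.wd_det_ne L') h1 h2 h3 b'⟩⟩

theorem Hit.refl {A : Sys ι} {j : ι} {u v : ℝ} (h : A.Hit (A.R j u) (A.R j v))
    (hs : 0 < (A.c j - u) * (A.c j - v)) : A.Hit u v := by
  obtain ⟨⟨L, a, b⟩, ⟨L', a', b'⟩⟩ := h
  have hr := A.rpos j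
  have hu : u ≠ A.c j := by rintro rfl; simp at hs
  have hv : v ≠ A.c j := by rintro rfl; simp at hs
  have hp : 0 < (A.c j - u) * (A.c j - v) / A.r j ^ 2 := by positivity
  refine ⟨⟨j :: L', ?_, ?_⟩, ⟨j :: L, ?_, ?_⟩⟩
  · rw [List.length_cons]; omega
  · rw [wd_cons, A.lin_R hu hv]
    exact mul_neg_of_pos_of_neg hp b'
  · rw [List.length_cons]; omega
  · rw [wd_cons, A.lin_R hu hv]
    exact mul_neg_of_pos_of_neg hp b

theorem odd_block (k : ι) (hk : A.r k < 1) :
    lin (A.c k - A.r k) (A.c k + A.r k) (wd A.mat [k]) < 0 := by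
  have hr := A.rpos k
  rw [wd_cons, wd_nil, mul_one]
  unfold lin
  simp only [mat, Matrix.of_apply, Matrix.cons_val',
    Matrix.cons_val_zero, Matrix.cons_val_one, Matrix.cons_val_fin_one]
  have e : (A.c k / A.r k - (A.c k - A.r k) * (1 / A.r k)) *
      (A.c k / A.r k - (A.c k + A.r k) * (1 / A.r k)) +
      ((A.r k ^ 2 - A.c k ^ 2) / A.r k - (A.c k - A.r k) * (-A.c k / A.r k)) *
        ((A.r k ^ 2 - A.c k ^ 2) / A.r k - (A.c k + A.r k) * (-A.c k / A.r k)) =
      -1 + A.r k ^ 2 - A.c k ^ 2 := by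
    field_simp
    ring
  rw [e]
  nlinarith [sq_nonneg (A.c k)]

section
variable (hr : ∀ j, A.r j ≤ 1 / 8)
  (hd : ∀ a b : ℝ, a < b → ∃ (j : ι) (y : ℝ), a < y ∧ y < b ∧ A.In j y)

include hr hd

theorem far_right (W : ℝ) : ∃ l : ι, W ≤ A.c l - A.r l := by
  obtain ⟨l, y, h1, h2, h3⟩ := hd (W + 1) (W + 2) (by linarith)
  unfold In at h3
  rw [abs_lt] at h3
  have := hr l
  exact ⟨l, by linarith⟩

theorem far_left (W : ℝ) : ∃ l : ι, A.c l + A.r l ≤ W := by
  obtain ⟨l, y, h1, h2, h3⟩ := hd (W - 2) (W - 1) (by linarith)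
  unfold In at h3
  rw [abs_lt] at h3
  have := hr l
  exact ⟨l, by linarith⟩

theorem hit_block (k : ι) : A.Hit (A.c k - A.r k) (A.c k + A.r k) := by
  have hk := hr k
  have hkp := A.rpos k
  refine ⟨?_, ⟨[k], rfl, A.odd_block k (by linarith)⟩⟩
  obtain ⟨l, hl⟩ := A.far_right hr hd (A.c k + A.r k)
  have hlp := A.rpos l
  refine ⟨[k, l], by simp, ?_⟩
  have h1 : A.c k < A.c l - A.r l := by linarith
  have h2 : A.c k < A.c l + A.r l := by linarith
  have h3 : A.R k (A.c l + A.r l) < A.R k (A.c l - A.r l) := R_anti_gt h1 (by linarith)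
  have h4 : A.c k < A.R k (A.c l + A.r l) := R_gt h2
  have h5 : A.R k (A.c l - A.r l) ≤ A.c k + A.r k := by
    rcases hl.lt_or_eq with h6 | h6
    · have := R_anti_gt (A := A) (j := k) (show A.c k < A.c k + A.r k by linarith) h6
      rw [A.R_right] at this
      exact this.le
    · rw [← h6, A.R_right]
  apply lin_mono (A.wd_det_ne _) (show A.c k - A.r k ≤ A.R k (A.c l + A.r l) by linarith) h3 h5
  rw [wd_cons, A.lin_R h4.ne' (h4.trans h3).ne', A.R_R, A.R_R, lin_comm]
  apply mul_neg_of_pos_of_neg _ (A.odd_block l (by linarith [hr l]))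
  apply div_pos _ (by positivity)
  apply mul_pos_of_neg_of_neg <;> linarith

theorem full_right {j : ι} {w : ℝ} (hw : A.c j + A.r j < w) :
    ∃ l : ι, A.c j + A.r j ≤ A.c l - A.r l ∧ A.c l + A.r l ≤ w := by
  have hrj := A.rpos j
  set δ := min ((w - (A.c j + A.r j)) / 2) (A.r j) with hδ
  have hδ0 : 0 < δ := lt_min (by linarith) hrj
  have hδ1 : δ ≤ (w - (A.c j + A.r j)) / 2 := min_le_left _ _
  have hδ2 : δ ≤ A.r j := min_le_right _ _
  obtain ⟨l, y, h1, h2, h3⟩ := hd (A.c j + A.r j) (A.c j + A.r j + δ) (by linarith)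
  have hrl := A.rpos l
  unfold In at h3
  rw [abs_lt] at h3
  have hlj : l ≠ j := by
    rintro rfl
    linarith
  have hs := A.sep l j hlj
  have hm := A.min_pos' l j
  have hc : A.c j ≤ A.c l := by
    by_contra hc
    push Not at hc
    rw [abs_of_neg (by linarith)] at hs
    linarith
  rw [abs_of_nonneg (by linarith)] at hs
  refine ⟨l, by linarith, ?_⟩
  rcases le_total (A.r l) (A.r j) with hle | hle
  · rw [min_eq_left hle] at hs
    linarith
  · rw [min_eq_right hle] at hs
    linarith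

theorem full_left {j : ι} {w : ℝ} (hw : w < A.c j - A.r j) :
    ∃ l : ι, w ≤ A.c l - A.r l ∧ A.c l + A.r l ≤ A.c j - A.r j := by
  have hrj := A.rpos j
  set δ := min (((A.c j - A.r j) - w) / 2) (A.r j) with hδ
  have hδ0 : 0 < δ := lt_min (by linarith) hrj
  have hδ1 : δ ≤ ((A.c j - A.r j) - w) / 2 := min_le_left _ _
  have hδ2 : δ ≤ A.r j := min_le_right _ _
  obtain ⟨l, y, h1, h2, h3⟩ := hd (A.c j - A.r j - δ) (A.c j - A.r j) (by linarith)
  have hrl := A.rpos l
  unfold In at h3
  rw [abs_lt] at h3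
  have hlj : l ≠ j := by
    rintro rfl
    linarith
  have hs := A.sep l j hlj
  have hm := A.min_pos' l j
  have hc : A.c l ≤ A.c j := by
    by_contra hc
    push Not at hc
    rw [abs_of_pos (by linarith)] at hs
    linarith
  rw [abs_of_nonpos (by linarith)] at hs
  refine ⟨l, ?_, by linarith⟩
  rcases le_total (A.r l) (A.r j) with hle | hle
  · rw [min_eq_left hle] at hs
    linarith
  · rw [min_eq_right hle] at hs
    linarith

theorem near_center_right {j : ι} {v : ℝ} (hv : A.c j < v) : A.Hit (A.c j) v := by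
  obtain ⟨l, hl⟩ := A.far_right hr hd (A.R j v)
  have hlp := A.rpos l
  have h0 := R_gt hv
  have h1 : A.c j < A.c l - A.r l := by linarith
  have h2 : A.c j < A.c l + A.r l := by linarith
  have h3 : A.R j (A.c l + A.r l) < A.R j (A.c l - A.r l) := R_anti_gt h1 (by linarith)
  have h4 : A.c j < A.R j (A.c l + A.r l) := R_gt h2
  have h5 : A.R j (A.c l - A.r l) ≤ v := by
    rcases hl.lt_or_eq with h6 | h6
    · have := R_anti_gt h0 h6
      rw [A.R_R] at this
      exact this.le
    · rw [← h6, A.R_R]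
  have hH := A.hit_block hr hd l
  have h6 : A.Hit (A.R j (A.c l + A.r l)) (A.R j (A.c l - A.r l)) := by
    apply Hit.refl (j := j)
    · rw [A.R_R, A.R_R]; exact hH.comm
    · apply mul_pos_of_neg_of_neg <;> linarith
  exact h6.mono h4.le h3 h5

theorem near_center_left {j : ι} {u : ℝ} (hu : u < A.c j) : A.Hit u (A.c j) := by
  obtain ⟨l, hl⟩ := A.far_left hr hd (A.R j u)
  have hlp := A.rpos l
  have h0 := R_lt hu
  have h1 : A.c l - A.r l < A.c j := by linarith
  have h2 : A.c l + A.r l < A.c j := by linarith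
  have h3 : A.R j (A.c l + A.r l) < A.R j (A.c l - A.r l) := R_anti_lt h2 (by linarith)
  have h4 : A.R j (A.c l - A.r l) < A.c j := R_lt h1
  have h5 : u ≤ A.R j (A.c l + A.r l) := by
    rcases hl.lt_or_eq with h6 | h6
    · have := R_anti_lt h0 h6
      rw [A.R_R] at this
      exact this.le
    · rw [h6, A.R_R]
  have hH := A.hit_block hr hd l
  have h6 : A.Hit (A.R j (A.c l + A.r l)) (A.R j (A.c l - A.r l)) := by
    apply Hit.refl (j := j)
    · rw [A.R_R, A.R_R]; exact hH.comm
    · apply mul_pos <;> linarith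
  exact h6.mono h5 h3 h4.le

theorem hit_step {u v : ℝ} (huv : u < v) (hn : ¬ A.Hit u v) :
    ∃ j, A.In j u ∧ A.In j v ∧ u ≠ A.c j ∧ v ≠ A.c j ∧ (A.R j u ≠ A.R j v ∧
      ¬ A.Hit (A.R j u) (A.R j v)) := by
  obtain ⟨j, y, h1, h2, h3⟩ := hd u v huv
  have hrj := A.rpos j
  unfold In at h3
  rw [abs_lt] at h3
  have hne : A.R j u ≠ A.R j v := fun h => huv.ne (A.R_inj j h)
  rcases lt_or_ge u (A.c j) with hu | hu
  · -- left side
    have hv : v < A.c j := by
      by_contra hc
      push Not at hc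
      exact hn ((A.near_center_left hr hd hu).mono le_rfl hu hc)
    have hu2 : A.c j - A.r j < u := by
      by_contra hc
      push Not at hc
      have hvin : A.In j v := by unfold In; rw [abs_lt]; constructor <;> linarith
      have h4 := A.R_out hvin hv.ne
      have h5 := R_lt hv
      rw [abs_of_neg (by linarith)] at h4
      obtain ⟨l, p1, p2⟩ := A.full_left hr hd (j := j) (w := A.R j v) (by linarith)
      have hlp := A.rpos l
      have hH := A.hit_block hr hd l
      have q1 : A.c l - A.r l < A.c j := by linarith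
      have q2 : A.c l + A.r l < A.c j := by linarith
      have q3 : A.R j (A.c l + A.r l) < A.R j (A.c l - A.r l) := R_anti_lt q2 (by linarith)
      have q4 : A.R j (A.c l - A.r l) ≤ v := by
        rcases p1.lt_or_eq with h6 | h6
        · have := R_anti_lt q1 h6
          rw [A.R_R] at this
          exact this.le
        · rw [← h6, A.R_R]
      have q5 : A.c j - A.r j ≤ A.R j (A.c l + A.r l) := by
        rcases p2.lt_or_eq with h6 | h6
        · have := R_anti_lt (A := A) (j := j) (show A.c j - A.r j < A.c j by linarith) h6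
          rw [A.R_left] at this
          exact this.le
        · rw [h6, A.R_left]
      have q6 : A.Hit (A.R j (A.c l + A.r l)) (A.R j (A.c l - A.r l)) := by
        apply Hit.refl (j := j)
        · rw [A.R_R, A.R_R]; exact hH.comm
        · apply mul_pos <;> linarith
      exact hn (q6.mono (by linarith) q3 q4)
    refine ⟨j, ?_, ?_, hu.ne, hv.ne, hne, ?_⟩
    · unfold In; rw [abs_lt]; constructor <;> linarith
    · unfold In; rw [abs_lt]; constructor <;> linarith
    · intro hH
      apply hn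
      apply hH.refl
      apply mul_pos <;> linarith
  · have hu' : A.c j < u := by
      rcases hu.lt_or_eq with h | h
      · exact h
      · exfalso
        apply hn
        rw [← h]
        exact A.near_center_right hr hd (by rw [h]; exact huv)
    have hv2 : v < A.c j + A.r j := by
      by_contra hc
      push Not at hc
      have huin : A.In j u := by unfold In; rw [abs_lt]; constructor <;> linarith
      have h4 := A.R_out huin hu'.ne'
      have h5 := R_gt hu'
      rw [abs_of_pos (by linarith)] at h4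
      obtain ⟨l, p1, p2⟩ := A.full_right hr hd (j := j) (w := A.R j u) (by linarith)
      have hlp := A.rpos l
      have hH := A.hit_block hr hd l
      have q1 : A.c j < A.c l - A.r l := by linarith
      have q2 : A.c j < A.c l + A.r l := by linarith
      have q3 : A.R j (A.c l + A.r l) < A.R j (A.c l - A.r l) := R_anti_gt q1 (by linarith)
      have q4 : u ≤ A.R j (A.c l + A.r l) := by
        rcases p2.lt_or_eq with h6 | h6
        · have := R_anti_gt q2 h6
          rw [A.R_R] at this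
          exact this.le
        · rw [h6, A.R_R]
      have q5 : A.R j (A.c l - A.r l) ≤ A.c j + A.r j := by
        rcases p1.lt_or_eq with h6 | h6
        · have := R_anti_gt (A := A) (j := j) (show A.c j < A.c j + A.r j by linarith) h6
          rw [A.R_right] at this
          exact this.le
        · rw [← h6, A.R_right]
      have q6 : A.Hit (A.R j (A.c l + A.r l)) (A.R j (A.c l - A.r l)) := by
        apply Hit.refl (j := j)
        · rw [A.R_R, A.R_R]; exact hH.comm
        · apply mul_pos_of_neg_of_neg <;> linarith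
      exact hn (q6.mono q4 q3 (by linarith))
    refine ⟨j, ?_, ?_, hu'.ne', (hu'.trans huv).ne', hne, ?_⟩
    · unfold In; rw [abs_lt]; constructor <;> linarith
    · unfold In; rw [abs_lt]; constructor <;> linarith
    · intro hH
      apply hn
      apply hH.refl
      apply mul_pos_of_neg_of_neg <;> linarith

theorem all_hit {u v : ℝ} (huv : u < v) : A.Hit u v := by
  by_contra hcon
  have := A.descent (fun u v => u ≠ v ∧ ¬ A.Hit u v) (by
    rintro u v ⟨h1, h2⟩
    rcases lt_or_gt_of_ne h1 with h3 | h3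
    · exact A.hit_step hr hd h3 h2
    · obtain ⟨j, a1, a2, a3, a4, a5, a6⟩ := A.hit_step hr hd h3 (fun h => h2 h.comm)
      exact ⟨j, a2, a1, a4, a3, a5.symm, fun h => a6 h.comm⟩)
    (u := u) (v := v) ⟨huv.ne, hcon⟩
  exact huv.ne this

theorem orbit_near (x₀ δ : ℝ) (hδ : 0 < δ) : ∃ L : List ι, L.length % 2 = 0 ∧
    ‖((wd A.mat L 0 0 : ℂ) * Complex.I + (wd A.mat L 0 1 : ℂ)) /
      ((wd A.mat L 1 0 : ℂ) * Complex.I + (wd A.mat L 1 1 : ℂ)) - (x₀ : ℂ)‖ < δ := by
  obtain ⟨L, hL, hlin⟩ := (A.all_hit hr hd (show x₀ - δ < x₀ + δ by linarith)).1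
  refine ⟨L, hL, ?_⟩
  have hdet := A.wd_det_ne L
  rw [Matrix.det_fin_two] at hdet
  unfold lin at hlin
  set a := wd A.mat L 0 0
  set b := wd A.mat L 0 1
  set c := wd A.mat L 1 0
  set d := wd A.mat L 1 1
  have nrm : ∀ x y : ℝ, ‖(x : ℂ) * Complex.I + (y : ℂ)‖ ^ 2 = x ^ 2 + y ^ 2 := by
    intro x y
    rw [Complex.sq_norm, Complex.normSq_apply]
    simp
    ring
  have hg : 0 < c ^ 2 + d ^ 2 := by
    have h0 : 0 ≤ c ^ 2 + d ^ 2 := by positivity
    rcases h0.lt_or_eq with h4 | h4
    · exact h4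
    · exfalso
      apply hdet
      have hc : c = 0 := by nlinarith [sq_nonneg c, sq_nonneg d]
      have hd' : d = 0 := by nlinarith [sq_nonneg c, sq_nonneg d]
      rw [hc, hd']; ring
  have hden : (c : ℂ) * Complex.I + (d : ℂ) ≠ 0 := by
    intro h0
    have := nrm c d
    rw [h0, norm_zero] at this
    norm_num at this
    linarith
  have hpos : 0 < ‖(c : ℂ) * Complex.I + (d : ℂ)‖ := norm_pos_iff.2 hden
  have e : ((a : ℂ) * Complex.I + (b : ℂ)) / ((c : ℂ) * Complex.I + (d : ℂ)) - (x₀ : ℂ) =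
      (((a - x₀ * c : ℝ) : ℂ) * Complex.I + ((b - x₀ * d : ℝ) : ℂ)) /
        ((c : ℂ) * Complex.I + (d : ℂ)) := by
    rw [div_sub' hden]
    congr 1
    push_cast
    ring
  rw [e, norm_div, div_lt_iff₀ hpos]
  apply lt_of_pow_lt_pow_left₀ 2 (by positivity)
  rw [mul_pow, nrm, nrm]
  nlinarith

end

end Sys

end Pool.Agent.H859R3

end
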