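import Pool.Agent.H859R3.CircWord

set_option autoImplicit false

noncomputable section

namespace Pool.Agent.H859R3

open Matrix

def low (a : ℝ) (v : ℝ × ℝ) : Prop := |v.1| ≤ a * |v.2|
def high (a : ℝ) (v : ℝ × ℝ) : Prop := a * |v.2| ≤ |v.1|

def Sm (ρ : ℝ) : M2 := !![0, ρ; 1 / ρ, 0]
def Tm (d : ℝ) : M2 := !![1, d; 0, 1]

def Tcls (b a : ℝ) (X : M2) : Prop :=
  (∀ v, low a v → high b (act X v)) ∧ (∀ v, low b v → high a (act X.adjugate v))

def Ncls (b a : ℝ) (X : M2) : Prop :=
  (∀ v, high b v → low a (act X v)) ∧ (∀ v, high a v → low b (act X.adjugate v))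

theorem Sm_cls {ρ : ℝ} (hρ : 0 < ρ) : Ncls ρ ρ (Sm ρ) := by
  constructor
  · intro v hv
    unfold low high at *
    simp only [act, Sm, Matrix.of_apply, Matrix.cons_val', Matrix.cons_val_zero,
      Matrix.cons_val_one, Matrix.cons_val_fin_one, zero_mul, zero_add, add_zero]
    have e : ρ * |1 / ρ * v.1| = |v.1| := by
      rw [abs_mul, abs_of_pos (by positivity : (0 : ℝ) < 1 / ρ)]
      field_simp
    rw [e, abs_mul, abs_of_pos hρ]
    exact hv
  · intro v hv
    unfold low high at *
    simp only [act, Sm, Matrix.adjugate_fin_two, Matrix.of_apply, Matrix.cons_val',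
      Matrix.cons_val_zero,
      Matrix.cons_val_one, Matrix.cons_val_fin_one, zero_mul, zero_add, add_zero]
    have e : ρ * |-(1 / ρ) * v.1| = |v.1| := by
      rw [abs_mul, abs_neg, abs_of_pos (by positivity : (0 : ℝ) < 1 / ρ)]
      field_simp
    rw [e, abs_mul, abs_neg, abs_of_pos hρ]
    exact hv

theorem Tm_cls {a b d : ℝ} (h : a + b ≤ |d|) : Tcls b a (Tm d) := by
  constructor
  · intro v hv
    unfold low high at *
    simp only [act, Tm, Matrix.of_apply, Matrix.cons_val', Matrix.cons_val_zero,
      Matrix.cons_val_one, Matrix.cons_val_fin_one, zero_mul, zero_add, one_mul]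
    have t : |d * v.2| ≤ |v.1 + d * v.2| + |v.1| := by
      have : d * v.2 = (v.1 + d * v.2) - v.1 := by ring
      have h2 := abs_sub (v.1 + d * v.2) v.1
      rwa [← this] at h2
    rw [abs_mul] at t
    have := mul_le_mul_of_nonneg_right h (abs_nonneg v.2)
    linarith
  · intro v hv
    unfold low high at *
    simp only [act, Tm, Matrix.adjugate_fin_two, Matrix.of_apply, Matrix.cons_val',
      Matrix.cons_val_zero,
      Matrix.cons_val_one, Matrix.cons_val_fin_one, neg_zero, zero_mul, zero_add, one_mul]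
    have t : |d * v.2| ≤ |v.1 + -d * v.2| + |v.1| := by
      have : d * v.2 = v.1 - (v.1 + -d * v.2) := by ring
      have h2 := abs_sub v.1 (v.1 + -d * v.2)
      rw [← this] at h2
      linarith
    rw [abs_mul] at t
    have := mul_le_mul_of_nonneg_right h (abs_nonneg v.2)
    linarith

/-- `N` after `T` after `N` -/
theorem cls_NTN {a b c e : ℝ} {X Y Z : M2} (hX : Ncls a b X) (hY : Tcls c b Y) (hZ : Ncls c e Z) :
    Ncls a e (Z * Y * X) := by
  constructor
  · intro v hv
    rw [act_mul, act_mul]
    exact hZ.1 _ (hY.1 _ (hX.1 _ hv))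
  · intro v hv
    rw [Matrix.adjugate_mul_distrib, Matrix.adjugate_mul_distrib, act_mul, act_mul]
    exact hX.2 _ (hY.2 _ (hZ.2 _ hv))

theorem cls_TNT {a b c e : ℝ} {X Y Z : M2} (hX : Tcls b a X) (hY : Ncls b c Y) (hZ : Tcls e c Z) :
    Tcls e a (Z * Y * X) := by
  constructor
  · intro v hv
    rw [act_mul, act_mul]
    exact hZ.1 _ (hY.1 _ (hX.1 _ hv))
  · intro v hv
    rw [Matrix.adjugate_mul_distrib, Matrix.adjugate_mul_distrib, act_mul, act_mul]
    exact hX.2 _ (hY.2 _ (hZ.2 _ hv))

/-- relation between the old and the new displacement -/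
def Dc (a b d d' : ℝ) : Prop :=
  (a + b ≤ d' ∧ d' ≤ d) ∨ (a + b ≤ -d' ∧ d ≤ d')

theorem tr_mono {a b d d' : ℝ} {N : M2} (hN : Ncls b a N) (hd : Dc a b d d') :
    |(Tm d' * N).trace| ≤ |(Tm d * N).trace| := by
  have h1 : |N 0 0| ≤ a * |N 1 0| := by
    have := hN.1 (1, 0) (by unfold high; simp)
    simpa [low, act] using this
  have h2 : |N 1 1| ≤ b * |N 1 0| := by
    have := hN.2 (1, 0) (by unfold high; simp)
    simpa [low, act, Matrix.adjugate_fin_two] using this
  have e : ∀ x : ℝ, (Tm x * N).trace = (N 0 0 + N 1 1) + x * N 1 0 := by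
    intro x
    rw [Matrix.trace_fin_two]
    simp [Tm, Matrix.mul_apply, Fin.sum_univ_two]
    ring
  rw [e, e]
  set t := N 0 0 + N 1 1
  set r := N 1 0
  have ht : |t| ≤ (a + b) * |r| := by
    have := abs_add_le (N 0 0) (N 1 1)
    linarith
  rw [abs_le] at ht
  rcases hd with ⟨k1, k2⟩ | ⟨k1, k2⟩
  · rcases le_total 0 r with hr | hr
    · rw [abs_of_nonneg hr] at ht
      have m1 := mul_le_mul_of_nonneg_right k1 hr
      have m2 := mul_le_mul_of_nonneg_right k2 hr
      rw [abs_of_nonneg (by linarith), abs_of_nonneg (by linarith)]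
      linarith
    · rw [abs_of_nonpos hr] at ht
      have m1 := mul_le_mul_of_nonneg_right k1 (neg_nonneg.2 hr)
      have m2 := mul_le_mul_of_nonneg_right k2 (neg_nonneg.2 hr)
      rw [abs_of_nonpos (by linarith), abs_of_nonpos (by linarith)]
      linarith
  · rcases le_total 0 r with hr | hr
    · rw [abs_of_nonneg hr] at ht
      have m1 := mul_le_mul_of_nonneg_right k1 hr
      have m2 := mul_le_mul_of_nonneg_right k2 hr
      rw [abs_of_nonpos (by linarith), abs_of_nonpos (by linarith)]
      linarith
    · rw [abs_of_nonpos hr] at ht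
      have m1 := mul_le_mul_of_nonneg_right k1 (neg_nonneg.2 hr)
      have m2 := mul_le_mul_of_nonneg_right k2 (neg_nonneg.2 hr)
      rw [abs_of_nonneg (by linarith), abs_of_nonneg (by linarith)]
      linarith

theorem Dc.abs_le' {a b d d' : ℝ} (h : Dc a b d d') (hab : 0 ≤ a + b) :
    a + b ≤ |d| ∧ a + b ≤ |d'| := by
  rcases h with ⟨h1, h2⟩ | ⟨h1, h2⟩
  · rw [abs_of_nonneg (by linarith), abs_of_nonneg (by linarith)]
    constructor <;> linarith
  · rw [abs_of_nonpos (by linarith), abs_of_nonpos (by linarith)]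
    constructor <;> linarith

section
variable {ι : Type}

def chain (c r : ι → ℝ) : ι → List ι → M2
  | i, [] => Sm (r i)
  | i, j :: L => Sm (r i) * Tm (c j - c i) * chain c r j L

theorem chain_cons (c r : ι → ℝ) (i j : ι) (L : List ι) :
    chain c r i (j :: L) = Sm (r i) * Tm (c j - c i) * chain c r j L := rfl

def lastOf (i : ι) (L : List ι) : ι := (i :: L).getLast (List.cons_ne_nil i L)

theorem lastOf_cons (i j : ι) (L : List ι) : lastOf i (j :: L) = lastOf j L := by
  unfold lastOf
  rw [List.getLast_cons (List.cons_ne_nil j L)]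

theorem chain_cls {c r : ι → ℝ} (hr : ∀ i, 0 < r i)
    (hc : ∀ i j, i ≠ j → r i + r j ≤ |c j - c i|) (L : List ι) : ∀ i : ι,
    List.IsChain (· ≠ ·) (i :: L) → Ncls (r (lastOf i L)) (r i) (chain c r i L) := by
  induction L with
  | nil => intro i _; exact Sm_cls (hr i)
  | cons j L ih =>
    intro i h
    rw [List.isChain_cons_cons] at h
    rw [lastOf_cons]
    unfold chain
    apply cls_NTN (ih j h.2) _ (Sm_cls (hr i))
    apply Tm_cls
    have := hc i j h.1
    linarith

theorem Tm_add (x y : ℝ) : Tm x * Tm y = Tm (x + y) := by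
  unfold Tm
  rw [Matrix.mul_fin_two]
  simp [add_comm]

theorem chain_trace {c c' r : ι → ℝ} (hr : ∀ i, 0 < r i)
    (hc : ∀ i j, i ≠ j → Dc (r i) (r j) (c j - c i) (c' j - c' i)) (L : List ι) :
    ∀ (i : ι) (X : M2), List.IsChain (· ≠ ·) (i :: L) → Tcls (r (lastOf i L)) (r i) X →
      |(X * chain c' r i L).trace| ≤ |(X * chain c r i L).trace| := by
  induction L with
  | nil => intro i X _ _; exact le_rfl
  | cons j L ih =>
    intro i X h hX
    rw [List.isChain_cons_cons] at h
    rw [lastOf_cons] at hX
    have hD := hc i j h.1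
    have hri := hr i
    have hrj := hr j
    have hD' := hD.abs_le' (by linarith)
    have h1 : Tcls (r (lastOf j L)) (r j) (X * Sm (r i) * Tm (c' j - c' i)) :=
      cls_TNT (Tm_cls (by linarith)) (Sm_cls hri) hX
    have h2 := ih j _ h.2 h1
    have hcl : ∀ i j, i ≠ j → r i + r j ≤ |c j - c i| := fun i j hij =>
      ((hc i j hij).abs_le' (by linarith [hr i, hr j])).1
    have h3 : Ncls (r i) (r j) (chain c r j L * X * Sm (r i)) :=
      cls_NTN (Sm_cls hri) hX (chain_cls hr hcl L j h.2)
    have hD2 : Dc (r j) (r i) (c j - c i) (c' j - c' i) := by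
      unfold Dc at hD ⊢
      rcases hD with ⟨a, b⟩ | ⟨a, b⟩
      · left; constructor <;> linarith
      · right; constructor <;> linarith
    have h4 := tr_mono h3 hD2
    have e1 : ∀ (x : ℝ) (C : M2), (X * (Sm (r i) * Tm x * C)).trace =
        (Tm x * (C * X * Sm (r i))).trace := by
      intro x C
      have a1 : X * (Sm (r i) * Tm x * C) = (X * Sm (r i)) * (Tm x * C) := by
        simp only [mul_assoc]
      have a2 : Tm x * (C * X * Sm (r i)) = (Tm x * C) * (X * Sm (r i)) := by
        simp only [mul_assoc]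
      rw [a1, a2, Matrix.trace_mul_comm]
    unfold chain
    have e2 : X * (Sm (r i) * Tm (c' j - c' i) * chain c' r j L) =
        X * Sm (r i) * Tm (c' j - c' i) * chain c' r j L := by simp only [mul_assoc]
    have e3 : X * Sm (r i) * Tm (c' j - c' i) * chain c r j L =
        X * (Sm (r i) * Tm (c' j - c' i) * chain c r j L) := by simp only [mul_assoc]
    rw [e2]
    refine h2.trans ?_
    rw [e3, e1, e1]
    exact h4

theorem mat_eq (A : Sys ι) (i : ι) : A.mat i = Tm (A.c i) * Sm (A.r i) * Tm (-A.c i) := by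
  have h := (A.rpos i).ne'
  unfold Sys.mat Tm Sm
  rw [Matrix.mul_fin_two, Matrix.mul_fin_two]
  have e1 : A.c i / A.r i = (1 * 0 + A.c i * (1 / A.r i)) * 1 + (1 * A.r i + A.c i * 0) * 0 := by
    ring
  have e2 : (A.r i ^ 2 - A.c i ^ 2) / A.r i =
      (1 * 0 + A.c i * (1 / A.r i)) * -A.c i + (1 * A.r i + A.c i * 0) * 1 := by
    field_simp; ring
  have e3 : 1 / A.r i = (0 * 0 + 1 * (1 / A.r i)) * 1 + (0 * A.r i + 1 * 0) * 0 := by ring
  have e4 : -A.c i / A.r i = (0 * 0 + 1 * (1 / A.r i)) * -A.c i + (0 * A.r i + 1 * 0) * 1 := by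
    ring
  rw [← e1, ← e2, ← e3, ← e4]

theorem wd_chain (A : Sys ι) (L : List ι) : ∀ i : ι,
    wd A.mat (i :: L) = Tm (A.c i) * chain A.c A.r i L * Tm (-A.c (lastOf i L)) := by
  induction L with
  | nil =>
    intro i
    rw [wd_cons, wd_nil, mul_one, mat_eq]
    rfl
  | cons j L ih =>
    intro i
    rw [wd_cons, ih, lastOf_cons, mat_eq, chain_cons,
      sub_eq_add_neg, add_comm (A.c j), ← Tm_add]
    simp only [mul_assoc]

/-- traces do not increase -/
theorem trace_le {A B : Sys ι} (hr : ∀ i, B.r i = A.r i)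
    (hc : ∀ i j, i ≠ j → Dc (A.r i) (A.r j) (A.c j - A.c i) (B.c j - B.c i)) :
    ∀ k : ℕ, ∀ L : List ι, L.length ≤ k →
      |(wd B.mat L).trace| ≤ |(wd A.mat L).trace| := by
  have hrr : B.r = A.r := funext hr
  intro k
  induction k with
  | zero =>
    intro L hL
    have : L = [] := List.length_eq_zero_iff.1 (by omega)
    rw [this]
    exact le_rfl
  | succ k ih =>
    intro L hL
    have hlen := red_len L
    have hch := red_chain L
    rw [← wd_red A.mat A.mat_sq L, ← wd_red B.mat B.mat_sq L]
    rcases hR : red L with _ | ⟨i, L'⟩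
    · exact le_rfl
    · rw [hR] at hlen hch
      rcases List.eq_nil_or_concat L' with h0 | ⟨L1, j, h0⟩
      · rw [h0, wd_cons, wd_cons, wd_nil, wd_nil, mul_one, mul_one]
        have : (B.mat i).trace = 0 := by
          unfold Sys.mat
          rw [Matrix.trace_fin_two_of]
          ring
        rw [this, abs_zero]
        exact abs_nonneg _
      · rw [List.concat_eq_append] at h0
        by_cases hij : i = j
        · subst h0
          subst hij
          have e : ∀ C : Sys ι, (wd C.mat (i :: (L1 ++ [i]))).trace = (wd C.mat L1).trace := by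
            intro C
            rw [wd_cons, wd_append, wd_cons, wd_nil, mul_one, Matrix.trace_mul_comm, mul_assoc,
              C.mat_sq, mul_one]
          rw [e, e]
          apply ih
          simp at hlen
          omega
        · have hlast : lastOf i L' = j := by
            unfold lastOf
            subst h0
            simp
          have e : ∀ C : Sys ι, (wd C.mat (i :: L')).trace =
              (Tm (C.c i - C.c j) * chain C.c C.r i L').trace := by
            intro C
            rw [wd_chain, hlast, Matrix.trace_mul_comm, ← mul_assoc, Tm_add]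
            congr 2
            congr 1
            ring
          have hD := hc j i (fun h => hij h.symm)
          have hri := A.rpos i
          have hrj := A.rpos j
          have hD' := hD.abs_le' (by linarith)
          have hD2 : Dc (A.r i) (A.r j) (A.c i - A.c j) (B.c i - B.c j) := by
            unfold Dc at hD ⊢
            rcases hD with ⟨a, b⟩ | ⟨a, b⟩
            · left; constructor <;> linarith
            · right; constructor <;> linarith
          have hcl : ∀ i j, i ≠ j → A.r i + A.r j ≤ |A.c j - A.c i| := fun i j hij =>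
            ((hc i j hij).abs_le' (by linarith [A.rpos i, A.rpos j])).1
          have s1 := chain_trace A.rpos hc L' i (Tm (B.c i - B.c j)) hch
            (by rw [hlast]; apply Tm_cls; linarith)
          have s2 : Ncls (A.r j) (A.r i) (chain A.c A.r i L') := by
            have := chain_cls A.rpos hcl L' i hch
            rwa [hlast] at this
          have s3 := tr_mono s2 hD2
          rw [e, e, hrr]
          exact s1.trans s3

end

end Pool.Agent.H859R3

end
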