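import Pool.Agent.H859R3.CircQS
import Pool.Agent.H859R3.CircTrace
import Pool.Agent.H859R3.CircFirst
import Pool.Agent.H859R3.CircCfg

set_option autoImplicit false

noncomputable section

namespace Pool.Agent.H859R3

open Matrix

abbrev SL2 := Matrix.SpecialLinearGroup (Fin 2) ℝ

variable {ι : Type}

/-- orientation preserving elements of the reflection group, with letters in `P` -/
def GamP (A : Sys ι) (P : ι → Prop) : Subgroup SL2 where
  carrier := {g | ∃ L : List ι, L.length % 2 = 0 ∧ (∀ i ∈ L, P i) ∧ (g : M2) = wd A.mat L}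
  mul_mem' := by
    rintro g k ⟨L, h1, h3, h2⟩ ⟨L', h1', h3', h2'⟩
    refine ⟨L ++ L', by rw [List.length_append]; omega, ?_, ?_⟩
    · intro i hi
      rcases List.mem_append.1 hi with h | h
      · exact h3 i h
      · exact h3' i h
    · rw [Matrix.SpecialLinearGroup.coe_mul, h2, h2', wd_append]
  one_mem' := ⟨[], rfl, by simp, by rw [Matrix.SpecialLinearGroup.coe_one]; rfl⟩
  inv_mem' := by
    rintro g ⟨L, h1, h4, h2⟩
    refine ⟨L.reverse, by rw [List.length_reverse]; exact h1, ?_, ?_⟩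
    · intro i hi
      exact h4 i (List.mem_reverse.1 hi)
    · have h3 := wd_reverse A.mat A.mat_sq L
      rw [← h2] at h3
      rw [Matrix.SpecialLinearGroup.coe_inv]
      calc (g : M2).adjugate = (g : M2).adjugate * ((g : M2) * wd A.mat L.reverse) := by
            rw [h3, mul_one]
        _ = ((g : M2).adjugate * (g : M2)) * wd A.mat L.reverse := by rw [mul_assoc]
        _ = wd A.mat L.reverse := by
            rw [Matrix.adjugate_mul, g.det_coe, one_smul, one_mul]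

theorem mem_GamP {A : Sys ι} {P : ι → Prop} {g : SL2} :
    g ∈ GamP A P ↔ ∃ L : List ι, L.length % 2 = 0 ∧ (∀ i ∈ L, P i) ∧ (g : M2) = wd A.mat L :=
  Iff.rfl

theorem Gam_discrete (A : Sys ι) (P : ι → Prop) (hr : ∀ j, A.r j ≤ 1) (g : SL2)
    (hg : g ∈ GamP A P) (hn : ∀ i j : Fin 2, |(g : M2) i j - (1 : M2) i j| < 1 / 10) : g = 1 := by
  obtain ⟨L, h1, -, h2⟩ := mem_GamP.1 hg
  have h3 := wd_red A.mat A.mat_sq L
  rw [h2, ← h3] at hn
  by_cases h0 : red L = []
  · apply Subtype.ext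
    rw [h2, ← h3, h0]
    rfl
  · exfalso
    exact A.no_near hr (red L) (red_chain L) h0 (by have := (red_len L).2; omega) hn

theorem Gam_torsion (A : Sys ι) (P : ι → Prop) (g : SL2) (hg : g ∈ GamP A P) (n : ℕ)
    (hn : 0 < n) (h : ((g ^ n : SL2) : M2) = 1 ∨ ((g ^ n : SL2) : M2) = -1) :
    (g : M2) = 1 ∨ (g : M2) = -1 := by
  obtain ⟨L, h1, -, h2⟩ := mem_GamP.1 hg
  rw [Matrix.SpecialLinearGroup.coe_pow, h2] at h
  rw [h2]
  exact A.word_torsion n hn L.length L le_rfl h1 h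

theorem Gam_not_fg [Infinite ι] (A : Sys ι) : ¬ (GamP A (fun _ => True)).FG := by
  classical
  rintro ⟨S, hS⟩
  have hex : ∀ s : SL2, ∃ L : List ι, s ∈ S → (L.length % 2 = 0 ∧ (s : M2) = wd A.mat L) := by
    intro s
    by_cases hs : s ∈ S
    · have : s ∈ GamP A (fun _ => True) := by
        rw [← hS]
        exact Subgroup.subset_closure hs
      obtain ⟨L, h1, -, h2⟩ := mem_GamP.1 this
      exact ⟨L, fun _ => ⟨h1, h2⟩⟩
    · exact ⟨[], fun h => absurd h hs⟩
  choose W hW using hex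
  obtain ⟨k, hk⟩ := Infinite.exists_notMem_finset (S.biUnion (fun s => (W s).toFinset))
  obtain ⟨l, hl⟩ := Infinite.exists_notMem_finset ({k} : Finset ι)
  have hlk : k ≠ l := by
    rintro rfl
    exact hl (Finset.mem_singleton_self _)
  have hle : GamP A (fun _ => True) ≤ GamP A (fun i => i ≠ k) := by
    rw [← hS, Subgroup.closure_le]
    intro s hs
    have hs' : s ∈ S := hs
    obtain ⟨h1, h2⟩ := hW s hs'
    refine mem_GamP.2 ⟨W s, h1, ?_, h2⟩
    rintro i hi rfl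
    apply hk
    rw [Finset.mem_biUnion]
    exact ⟨s, hs', List.mem_toFinset.2 hi⟩
  have hdet : (wd A.mat [k, l]).det = 1 := by
    rw [wd_det _ A.mat_det]; norm_num
  let g : SL2 := ⟨wd A.mat [k, l], hdet⟩
  have hg : g ∈ GamP A (fun _ => True) := mem_GamP.2 ⟨[k, l], by simp, by simp, rfl⟩
  obtain ⟨L, -, h2, h3⟩ := mem_GamP.1 (hle hg)
  exact A.word_avoid hlk L (fun h => h2 k h rfl) h3

theorem infinite_of_dense (A : Sys ι) (hr : ∀ j, A.r j ≤ 1 / 8)
    (hd : ∀ a b : ℝ, a < b → ∃ (j : ι) (y : ℝ), a < y ∧ y < b ∧ A.In j y) : Infinite ι := by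
  by_contra h
  rw [not_infinite_iff_finite] at h
  obtain ⟨W, hW⟩ := (Set.finite_range A.c).bddAbove
  obtain ⟨l, hl⟩ := A.far_right hr hd (W + 1)
  have h1 : A.c l ≤ W := hW (Set.mem_range_self l)
  have := A.rpos l
  linarith

theorem Gam_equiv {A B : Sys ι} {h : ℝ → ℝ} (hm : ∀ j, h (A.c j) = B.c j)
    (hi : Function.Injective h) (E : ∀ j x, h (A.R j x) = B.R j (h x)) (L : List ι) (x : ℝ)
    (hx : wd A.mat L 1 0 * x + wd A.mat L 1 1 ≠ 0) :
    wd B.mat L 1 0 * h x + wd B.mat L 1 1 ≠ 0 ∧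
      h ((wd A.mat L 0 0 * x + wd A.mat L 0 1) / (wd A.mat L 1 0 * x + wd A.mat L 1 1)) =
        (wd B.mat L 0 0 * h x + wd B.mat L 0 1) / (wd B.mat L 1 0 * h x + wd B.mat L 1 1) := by
  have h0 : HV h (x, 1) (h x, 1) := by
    left
    refine ⟨one_ne_zero, one_ne_zero, ?_⟩
    simp
  have h1 := HV_word hm hi E L h0
  unfold act at h1
  simp only [mul_one] at h1
  rcases h1 with ⟨a, b, c⟩ | ⟨a, _⟩
  · exact ⟨b, c.symm⟩
  · exact absurd a hx

theorem Dc_of {A B : Sys ι} {φ : ℝ → ℝ} (M : Match A B φ) (hr : ∀ j, B.r j = A.r j)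
    (hu : ∀ x y, x ≤ y → φ y - φ x ≤ y - x) (i j : ι) (hij : i ≠ j) :
    Dc (A.r i) (A.r j) (A.c j - A.c i) (B.c j - B.c i) := by
  have hs := B.sep i j hij
  have hm := B.min_pos' i j
  rw [hr, hr] at hs
  rw [hr, hr] at hm
  rcases le_total (A.c i) (A.c j) with h | h
  · left
    have h1 := hu _ _ h
    have h2 := M.mono.monotone h
    rw [M.mid, M.mid] at h1 h2
    rw [abs_of_nonpos (by linarith)] at hs
    constructor <;> linarith
  · right
    have h1 := hu _ _ h
    have h2 := M.mono.monotone h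
    rw [M.mid, M.mid] at h1 h2
    rw [abs_of_nonneg (by linarith)] at hs
    constructor <;> linarith

theorem not_affine {A B : Sys ι} {φ h : ℝ → ℝ} (M : Match A B φ) (L : Loc A B φ h)
    (hr' : ∀ j, B.r j = A.r j) (hr : ∀ j, A.r j ≤ 1 / 8)
    (hd : ∀ a b : ℝ, a < b → ∃ (j : ι) (y : ℝ), a < y ∧ y < b ∧ A.In j y)
    (hb : ∀ x y, x ≤ y → φ y - φ x ≤ (y - x) / 2 + 1 / 8) :
    ¬ ∃ a b : ℝ, ∀ x : ℝ, h x = a * x + b := by
  rintro ⟨a, b, hab⟩
  obtain ⟨i, y, y1, y2, y3⟩ := hd 0 1 (by norm_num)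
  obtain ⟨j, z, z1, z2, z3⟩ := hd 9 10 (by norm_num)
  have hri := A.rpos i
  have hrj := A.rpos j
  have hri' := hr i
  have hrj' := hr j
  unfold Sys.In at y3 z3
  rw [abs_lt] at y3 z3
  have e1 := L.eright M i
  have e2 := L.eleft M i
  have e3 := L.eleft M j
  have e4 := hb (A.c i + A.r i) (A.c j - A.r j) (by linarith)
  rw [M.left, M.right] at e4
  rw [hab] at e1 e2 e3
  have ha : a = 1 := by
    have : (a - 1) * A.r i = 0 := by
      have h1 := hr' i
      nlinarith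
    rcases mul_eq_zero.1 this with h1 | h1
    · linarith
    · linarith
  subst ha
  linarith

end Pool.Agent.H859R3

end
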