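import Pool.Agent.H859R3.CircConj

set_option autoImplicit false

noncomputable section

namespace Pool.Agent.H859R3

open Filter Topology

structure Cmp {ι : Type} (A B : Sys ι) (φ h : ℝ → ℝ) : Prop where
  M : Match A B φ
  L : Loc A B φ h
  E : ∀ j x, h (A.R j x) = B.R j (h x)
  hr : ∀ j, B.r j = A.r j
  sep20 : ∀ i j, i ≠ j → A.r i + A.r j + 20 * min (A.r i) (A.r j) ≤ |A.c i - A.c j|
  lipl : ∀ x y, x ≤ y → (y - x) / 2 ≤ φ y - φ x
  lipu : ∀ x y, x ≤ y → φ y - φ x ≤ y - x
  mono : StrictMono h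

theorem core1 {r σ σ' : ℝ} (hr : 0 < r) (hσ : 0 < σ) (hσ' : 0 < σ')
    (H : (σ' ≤ 2 * σ ∧ σ ≤ 3 * σ') ∨ (20 * r ≤ σ ∧ 10 * r ≤ σ')) :
    r * σ' / (r + σ') ≤ 2 * (r * σ / (r + σ)) ∧ r * σ / (r + σ) ≤ 3 * (r * σ' / (r + σ')) := by
  have h1 : 0 < r + σ := by linarith
  have h2 : 0 < r + σ' := by linarith
  have k1 : σ' * (r + σ) ≤ 2 * σ * (r + σ') := by
    rcases H with ⟨a, b⟩ | ⟨a, b⟩
    · nlinarith [mul_pos hσ hσ']
    · nlinarith [mul_pos hσ hσ', mul_pos hσ hr, mul_pos hσ' hr]
  have k2 : σ * (r + σ') ≤ 3 * σ' * (r + σ) := by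
    rcases H with ⟨a, b⟩ | ⟨a, b⟩
    · nlinarith [mul_pos hσ hσ']
    · nlinarith [mul_pos hσ hσ', mul_pos hσ hr, mul_pos hσ' hr]
  constructor
  · rw [← mul_div_assoc, div_le_div_iff₀ h2 h1]
    nlinarith [mul_le_mul_of_nonneg_left k1 hr.le]
  · rw [← mul_div_assoc, div_le_div_iff₀ h1 h2]
    nlinarith [mul_le_mul_of_nonneg_left k2 hr.le]

namespace Cmp

variable {ι : Type} {A B : Sys ι} {φ h : ℝ → ℝ} (K : Cmp A B φ h)

include K

theorem out_right {a : ι} {x : ℝ} (hx : A.c a + A.r a < x) :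
    let σ := x - (A.c a + A.r a)
    let σ' := h x - (B.c a + B.r a)
    (σ' ≤ 2 * σ ∧ σ ≤ 3 * σ') ∨ (20 * A.r a ≤ σ ∧ 10 * A.r a ≤ σ') := by
  intro σ σ'
  by_cases hE : ∃ d, A.In d x
  · obtain ⟨d, hd⟩ := hE
    have hra := A.rpos a
    have hrd := A.rpos d
    have hda : d ≠ a := by
      rintro rfl
      unfold Sys.In at hd
      rw [abs_lt] at hd
      linarith
    have h1 := K.L.inn d x hd
    have hs := K.sep20 d a hda
    have hm := A.min_pos' d a
    have hrr := K.hr d
    unfold Sys.In at hd h1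
    rw [abs_lt] at hd h1
    have hca : A.c a ≤ A.c d := by
      by_contra hc
      push Not at hc
      rw [abs_of_neg (by linarith)] at hs
      linarith
    rw [abs_of_nonneg (by linarith)] at hs
    have l1 := K.lipl (A.c a + A.r a) (A.c d - A.r d) (by linarith)
    have l2 := K.lipu (A.c a + A.r a) (A.c d - A.r d) (by linarith)
    rw [K.M.left, K.M.right] at l1 l2
    rcases le_total (A.r d) (A.r a) with hle | hle
    · rw [min_eq_left hle] at hs
      left
      simp only [σ, σ']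
      constructor <;> linarith
    · rw [min_eq_right hle] at hs
      right
      simp only [σ, σ']
      constructor <;> linarith
  · have l1 := K.lipl (A.c a + A.r a) x hx.le
    have l2 := K.lipu (A.c a + A.r a) x hx.le
    rw [K.M.right] at l1 l2
    left
    simp only [σ, σ']
    rw [K.L.out x hE]
    constructor <;> linarith

theorem out_left {a : ι} {x : ℝ} (hx : x < A.c a - A.r a) :
    let σ := (A.c a - A.r a) - x
    let σ' := (B.c a - B.r a) - h x
    (σ' ≤ 2 * σ ∧ σ ≤ 3 * σ') ∨ (20 * A.r a ≤ σ ∧ 10 * A.r a ≤ σ') := by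
  intro σ σ'
  by_cases hE : ∃ d, A.In d x
  · obtain ⟨d, hd⟩ := hE
    have hra := A.rpos a
    have hrd := A.rpos d
    have hda : d ≠ a := by
      rintro rfl
      unfold Sys.In at hd
      rw [abs_lt] at hd
      linarith
    have h1 := K.L.inn d x hd
    have hs := K.sep20 d a hda
    have hm := A.min_pos' d a
    have hrr := K.hr d
    unfold Sys.In at hd h1
    rw [abs_lt] at hd h1
    have hca : A.c d ≤ A.c a := by
      by_contra hc
      push Not at hc
      rw [abs_of_pos (by linarith)] at hs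
      linarith
    rw [abs_of_nonpos (by linarith)] at hs
    have l1 := K.lipl (A.c d + A.r d) (A.c a - A.r a) (by linarith)
    have l2 := K.lipu (A.c d + A.r d) (A.c a - A.r a) (by linarith)
    rw [K.M.left, K.M.right] at l1 l2
    rcases le_total (A.r d) (A.r a) with hle | hle
    · rw [min_eq_left hle] at hs
      left
      simp only [σ, σ']
      constructor <;> linarith
    · rw [min_eq_right hle] at hs
      right
      simp only [σ, σ']
      constructor <;> linarith
  · have l1 := K.lipl x (A.c a - A.r a) hx.le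
    have l2 := K.lipu x (A.c a - A.r a) hx.le
    rw [K.M.left] at l1 l2
    left
    simp only [σ, σ']
    rw [K.L.out x hE]
    constructor <;> linarith

theorem own_right {a : ι} {x : ℝ} (hx : A.In a x) :
    (B.c a + B.r a) - h x ≤ 2 * ((A.c a + A.r a) - x) ∧
      (A.c a + A.r a) - x ≤ 3 * ((B.c a + B.r a) - h x) := by
  have hra := A.rpos a
  have hrr := K.hr a
  have h1 := K.L.inn a x hx
  rcases lt_or_ge (A.c a) x with hc | hc
  · have h2 := A.R_out hx hc.ne'
    have h3 := Sys.R_gt hc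
    rw [abs_of_pos (by linarith)] at h2
    have h4 : A.c a + A.r a < A.R a x := by linarith
    have h5 := K.out_right h4
    have h6 := K.L.right K.M h4
    simp only at h5
    set y := A.R a x with hy
    have ex : x = A.R a y := by rw [hy, A.R_R]
    have ehx : h x = B.R a (h y) := by rw [ex, K.E]
    have := core1 hra (show 0 < y - (A.c a + A.r a) by linarith)
      (show 0 < h y - (B.c a + B.r a) by linarith) h5
    have e1 : (A.c a + A.r a) - x =
        A.r a * (y - (A.c a + A.r a)) / (A.r a + (y - (A.c a + A.r a))) := by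
      rw [ex]
      unfold Sys.R
      have n1 : y - A.c a ≠ 0 := by linarith
      have e : A.r a + (y - (A.c a + A.r a)) = y - A.c a := by ring
      rw [e]
      field_simp
      ring
    have e2 : (B.c a + B.r a) - h x =
        A.r a * (h y - (B.c a + B.r a)) / (A.r a + (h y - (B.c a + B.r a))) := by
      rw [ehx]
      unfold Sys.R
      have n1 : h y - B.c a ≠ 0 := by linarith
      have e : A.r a + (h y - (B.c a + B.r a)) = h y - B.c a := by rw [hrr]; ring
      rw [e, hrr]
      field_simp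
      ring
    rw [e1, e2]
    exact this
  · have h2 : h x ≤ B.c a := by
      rw [← K.L.mid]
      exact K.mono.monotone hc
    unfold Sys.In at hx h1
    rw [abs_lt] at hx h1
    constructor <;> linarith

theorem own_left {a : ι} {x : ℝ} (hx : A.In a x) :
    h x - (B.c a - B.r a) ≤ 2 * (x - (A.c a - A.r a)) ∧
      x - (A.c a - A.r a) ≤ 3 * (h x - (B.c a - B.r a)) := by
  have hra := A.rpos a
  have hrr := K.hr a
  have h1 := K.L.inn a x hx
  rcases lt_or_ge x (A.c a) with hc | hc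
  · have h2 := A.R_out hx hc.ne
    have h3 := Sys.R_lt hc
    rw [abs_of_neg (by linarith)] at h2
    have h4 : A.R a x < A.c a - A.r a := by linarith
    have h5 := K.out_left h4
    have h6 := K.L.left K.M h4
    simp only at h5
    set y := A.R a x with hy
    have ex : x = A.R a y := by rw [hy, A.R_R]
    have ehx : h x = B.R a (h y) := by rw [ex, K.E]
    have := core1 hra (show 0 < (A.c a - A.r a) - y by linarith)
      (show 0 < (B.c a - B.r a) - h y by linarith) h5
    have e1 : x - (A.c a - A.r a) =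
        A.r a * ((A.c a - A.r a) - y) / (A.r a + ((A.c a - A.r a) - y)) := by
      rw [ex]
      unfold Sys.R
      have n1 : y - A.c a ≠ 0 := by linarith
      have n2 : A.c a - y ≠ 0 := by linarith
      have e : A.r a + ((A.c a - A.r a) - y) = A.c a - y := by ring
      have e' : y - A.c a = - (A.c a - y) := by ring
      rw [e, e', div_neg]
      field_simp
      ring
    have e2 : h x - (B.c a - B.r a) =
        A.r a * ((B.c a - B.r a) - h y) / (A.r a + ((B.c a - B.r a) - h y)) := by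
      rw [ehx]
      unfold Sys.R
      have n1 : h y - B.c a ≠ 0 := by linarith
      have n2 : B.c a - h y ≠ 0 := by linarith
      have e : A.r a + ((B.c a - B.r a) - h y) = B.c a - h y := by rw [hrr]; ring
      have e' : h y - B.c a = - (B.c a - h y) := by ring
      rw [e, e', hrr, div_neg]
      field_simp
      ring
    rw [e1, e2]
    exact this
  · have h2 : B.c a ≤ h x := by
      rw [← K.L.mid]
      exact K.mono.monotone hc
    unfold Sys.In at hx h1
    rw [abs_lt] at hx h1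
    constructor <;> linarith

theorem L0_gt {β x : ℝ} (hβ : ¬ ∃ j, A.In j β) (hx : β < x) :
    h x - h β ≤ 2 * (x - β) ∧ x - β ≤ 3 * (h x - h β) := by
  by_cases hE : ∃ a, A.In a x
  · obtain ⟨a, ha⟩ := hE
    have h1 := K.own_left ha
    have h2 : β ≤ A.c a - A.r a := by
      by_contra hc
      push Not at hc
      apply hβ
      refine ⟨a, ?_⟩
      unfold Sys.In at ha ⊢
      rw [abs_lt] at ha ⊢
      constructor <;> linarith
    have l1 := K.lipl _ _ h2
    have l2 := K.lipu _ _ h2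
    rw [K.M.left] at l1 l2
    rw [K.L.out β hβ]
    constructor <;> linarith
  · have l1 := K.lipl _ _ hx.le
    have l2 := K.lipu _ _ hx.le
    rw [K.L.out β hβ, K.L.out x hE]
    constructor <;> linarith

theorem L0_lt {β x : ℝ} (hβ : ¬ ∃ j, A.In j β) (hx : x < β) :
    h β - h x ≤ 2 * (β - x) ∧ β - x ≤ 3 * (h β - h x) := by
  by_cases hE : ∃ a, A.In a x
  · obtain ⟨a, ha⟩ := hE
    have h1 := K.own_right ha
    have h2 : A.c a + A.r a ≤ β := by
      by_contra hc
      push Not at hc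
      apply hβ
      refine ⟨a, ?_⟩
      unfold Sys.In at ha ⊢
      rw [abs_lt] at ha ⊢
      constructor <;> linarith
    have l1 := K.lipl _ _ h2
    have l2 := K.lipu _ _ h2
    rw [K.M.right] at l1 l2
    rw [K.L.out β hβ]
    constructor <;> linarith
  · have l1 := K.lipl _ _ hx.le
    have l2 := K.lipu _ _ hx.le
    rw [K.L.out β hβ, K.L.out x hE]
    constructor <;> linarith

theorem L_lt {u v : ℝ} (huv : u < v) (hn : ¬ ∃ j, A.In j u ∧ A.In j v) :
    h v - h u ≤ 2 * (v - u) ∧ v - u ≤ 3 * (h v - h u) := by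
  by_cases hu : ∃ a, A.In a u
  · obtain ⟨a, ha⟩ := hu
    have h2 : A.c a + A.r a ≤ v := by
      by_contra hc
      push Not at hc
      apply hn
      refine ⟨a, ha, ?_⟩
      unfold Sys.In at ha ⊢
      rw [abs_lt] at ha ⊢
      constructor <;> linarith
    have h1 := K.own_right ha
    rcases h2.lt_or_eq with h3 | h3
    · have h4 := K.L0_gt (A.end_right a) h3
      rw [K.L.eright K.M] at h4
      constructor <;> linarith
    · rw [← h3, K.L.eright K.M]
      exact h1
  · exact K.L0_gt hu huv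

theorem Lc {u v : ℝ} (hn : ¬ ∃ j, A.In j u ∧ A.In j v) :
    |h u - h v| ≤ 2 * |u - v| ∧ |u - v| ≤ 3 * |h u - h v| := by
  rcases lt_trichotomy u v with h1 | h1 | h1
  · have h2 := K.L_lt h1 hn
    have h3 := K.mono h1
    rw [abs_of_neg (by linarith), abs_of_neg (by linarith)]
    constructor <;> linarith
  · rw [h1]; simp
  · have h2 := K.L_lt h1 (fun ⟨j, a, b⟩ => hn ⟨j, b, a⟩)
    have h3 := K.mono h1
    rw [abs_of_pos (by linarith), abs_of_pos (by linarith)]
    constructor <;> linarith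

end Cmp

theorem Sys.R_dist {ι : Type} (A : Sys ι) {j : ι} {u v : ℝ} (hu : u ≠ A.c j) (hv : v ≠ A.c j) :
    |A.R j u - A.R j v| * (|u - A.c j| * |v - A.c j|) = A.r j ^ 2 * |u - v| := by
  have h1 : u - A.c j ≠ 0 := sub_ne_zero.2 hu
  have h2 : v - A.c j ≠ 0 := sub_ne_zero.2 hv
  have e : (A.R j u - A.R j v) * ((u - A.c j) * (v - A.c j)) = A.r j ^ 2 * (v - u) := by
    unfold Sys.R
    field_simp
    ring
  rw [← abs_mul, ← abs_mul, e, abs_mul, abs_of_nonneg (sq_nonneg (A.r j)), abs_sub_comm]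

namespace Cmp

variable {ι : Type} {A B : Sys ι} {φ h : ℝ → ℝ} (K : Cmp A B φ h)

include K

theorem comp_one {l : ι} {u v : ℝ} (hu : A.In l u) (hv : A.In l v) (hu' : u ≠ A.c l)
    (hv' : v ≠ A.c l) (hn : ¬ ∃ j, A.In j (A.R l u) ∧ A.In j (A.R l v)) :
    |h u - h v| ≤ 18 * |u - v| ∧ |u - v| ≤ 12 * |h u - h v| := by
  set x := A.R l u with hx
  set y := A.R l v with hy
  have eu : u = A.R l x := by rw [hx, A.R_R]
  have ev : v = A.R l y := by rw [hy, A.R_R]
  have ehu : h u = B.R l (h x) := by rw [eu, K.E]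
  have ehv : h v = B.R l (h y) := by rw [ev, K.E]
  have ox := A.R_out hu hu'
  have oy := A.R_out hv hv'
  rw [← hx] at ox
  rw [← hy] at oy
  have hr := A.rpos l
  have hcl : A.In l (A.c l) := by unfold Sys.In; simpa using hr
  have nx : ¬ ∃ j, A.In j x ∧ A.In j (A.c l) := by
    rintro ⟨j, a, b⟩
    have := A.In_unique b hcl
    subst this
    unfold Sys.In at a
    linarith
  have ny : ¬ ∃ j, A.In j y ∧ A.In j (A.c l) := by
    rintro ⟨j, a, b⟩
    have := A.In_unique b hcl
    subst this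
    unfold Sys.In at a
    linarith
  obtain ⟨x1, x2⟩ := K.Lc nx
  obtain ⟨y1, y2⟩ := K.Lc ny
  obtain ⟨z1, z2⟩ := K.Lc hn
  rw [K.L.mid] at x1 x2 y1 y2
  have dx := A.R_dist (A.R_ne hu') (A.R_ne hv')
  rw [← hx, ← hy, ← eu, ← ev] at dx
  have px : 0 < |x - A.c l| := hr.trans ox
  have py : 0 < |y - A.c l| := hr.trans oy
  have px' : 0 < |h x - B.c l| := by linarith
  have py' : 0 < |h y - B.c l| := by linarith
  have dh := B.R_dist (sub_ne_zero.1 (abs_pos.1 px')) (sub_ne_zero.1 (abs_pos.1 py'))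
  rw [← ehu, ← ehv, K.hr] at dh
  have hr2 : 0 < A.r l ^ 2 := by positivity
  have p1 : |x - A.c l| * |y - A.c l| ≤ 9 * (|h x - B.c l| * |h y - B.c l|) := by
    calc |x - A.c l| * |y - A.c l| ≤ (3 * |h x - B.c l|) * (3 * |h y - B.c l|) :=
          mul_le_mul x2 y2 py.le (by positivity)
      _ = _ := by ring
  have p2 : |h x - B.c l| * |h y - B.c l| ≤ 4 * (|x - A.c l| * |y - A.c l|) := by
    calc |h x - B.c l| * |h y - B.c l| ≤ (2 * |x - A.c l|) * (2 * |y - A.c l|) :=
          mul_le_mul x1 y1 py'.le (by positivity)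
      _ = _ := by ring
  have q1 : 0 < |x - A.c l| * |y - A.c l| := mul_pos px py
  have q2 : 0 < |h x - B.c l| * |h y - B.c l| := mul_pos px' py'
  constructor
  · -- |hu - hv| Q' = r^2 |hx-hy| ≤ 2 r^2 |x-y| = 2 |u-v| Q ≤ 18 |u-v| Q'
    have s1 : |h u - h v| * (|h x - B.c l| * |h y - B.c l|) ≤
        18 * |u - v| * (|h x - B.c l| * |h y - B.c l|) := by
      calc |h u - h v| * (|h x - B.c l| * |h y - B.c l|) = A.r l ^ 2 * |h x - h y| := dh
        _ ≤ A.r l ^ 2 * (2 * |x - y|) := mul_le_mul_of_nonneg_left z1 hr2.le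
        _ = 2 * (|u - v| * (|x - A.c l| * |y - A.c l|)) := by rw [dx]; ring
        _ ≤ 2 * (|u - v| * (9 * (|h x - B.c l| * |h y - B.c l|))) := by
            have := mul_le_mul_of_nonneg_left p1 (abs_nonneg (u - v))
            linarith
        _ = _ := by ring
    exact le_of_mul_le_mul_right s1 q2
  · have s1 : |u - v| * (|x - A.c l| * |y - A.c l|) ≤
        12 * |h u - h v| * (|x - A.c l| * |y - A.c l|) := by
      calc |u - v| * (|x - A.c l| * |y - A.c l|) = A.r l ^ 2 * |x - y| := dx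
        _ ≤ A.r l ^ 2 * (3 * |h x - h y|) := mul_le_mul_of_nonneg_left z2 hr2.le
        _ = 3 * (|h u - h v| * (|h x - B.c l| * |h y - B.c l|)) := by rw [dh]; ring
        _ ≤ 3 * (|h u - h v| * (4 * (|x - A.c l| * |y - A.c l|))) := by
            have := mul_le_mul_of_nonneg_left p2 (abs_nonneg (h u - h v))
            linarith
        _ = _ := by ring
    exact le_of_mul_le_mul_right s1 q1

end Cmp

theorem Sys.deep1 {ι : Type} (A : Sys ι) {l m : ι} {u v w : ℝ} (hu : A.In l u) (hv : A.In l v)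
    (hu' : u ≠ A.c l)
    (hv' : v ≠ A.c l) (hm : A.In m (A.R l u)) (hm' : A.In m (A.R l v)) (hw : ¬ A.In l w) :
    5 * |u - v| ≤ |u - w| := by
  have hr := A.rpos l
  have hrm := A.rpos m
  have ox := A.R_out hu hu'
  have hml : m ≠ l := by
    rintro rfl
    unfold Sys.In at hm
    linarith
  obtain ⟨G, a, b, hG, ha, ha2, hb, hb2, e0, -, -, -, -, e1, e2⟩ := A.coords hml hm.le hm'.le
  have hmin := A.min_pos' m l
  have hG0 : 0 < G := by linarith
  have dx := A.R_dist (A.R_ne hu') (A.R_ne hv')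
  rw [A.R_R, A.R_R, e1, e2] at dx
  have exy : |A.R l u - A.R l v| = |a - b| := by
    rw [← sq_eq_sq₀ (abs_nonneg _) (abs_nonneg _), sq_abs, sq_abs]
    exact e0
  rw [exy] at dx
  have hwc : A.r l ≤ |w - A.c l| := by
    unfold Sys.In at hw
    linarith
  have huc : |u - A.c l| = A.r l ^ 2 / (A.r l + G + a) := by
    have : u - A.c l = A.r l ^ 2 / (A.R l u - A.c l) := by
      rw [← A.R_sub, A.R_R]
    rw [this, abs_div, e1, abs_of_nonneg (sq_nonneg _)]
  have htri : |w - A.c l| ≤ |u - w| + |u - A.c l| := by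
    have : w - A.c l = (u - A.c l) - (u - w) := by ring
    rw [this]
    have := abs_sub (u - A.c l) (u - w)
    linarith
  have hx0 : 0 < A.r l + G + a := by linarith
  have hy0 : 0 < A.r l + G + b := by linarith
  have k1 : A.r l * (G + a) ≤ |u - w| * (A.r l + G + a) := by
    have : A.r l - A.r l ^ 2 / (A.r l + G + a) ≤ |u - w| := by
      rw [← huc]; linarith
    have h2 := mul_le_mul_of_nonneg_right this hx0.le
    have h3 : (A.r l - A.r l ^ 2 / (A.r l + G + a)) * (A.r l + G + a) = A.r l * (G + a) := by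
      field_simp
      ring
    linarith
  have key : 5 * A.r l * |a - b| ≤ (G + a) * (A.r l + G + b) := by
    rcases le_total (A.r m) (A.r l) with hle | hle
    · rw [min_eq_left hle] at hG
      have : |a - b| ≤ 2 * A.r m := by rw [abs_le]; constructor <;> linarith
      nlinarith [mul_nonneg ha hr.le, mul_nonneg ha hG0.le, mul_nonneg hb hG0.le,
        mul_nonneg ha hb, mul_pos hG0 hG0, mul_le_mul_of_nonneg_left this hr.le]
    · rw [min_eq_right hle] at hG
      rcases le_total a b with hab | hab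
      · rw [abs_of_nonpos (by linarith)]
        nlinarith [mul_nonneg ha hb, mul_nonneg hG0.le ha, mul_nonneg hG0.le hb,
            mul_nonneg hr.le ha, mul_nonneg (sub_nonneg.2 hG) hb, mul_pos hG0 hG0]
      · rw [abs_of_nonneg (by linarith)]
        nlinarith [mul_nonneg ha hb, mul_nonneg hG0.le ha, mul_nonneg hG0.le hb,
            mul_nonneg hr.le hb, mul_nonneg (sub_nonneg.2 hG) ha, mul_pos hG0 hG0]
  -- 5 |u-v| X Y = 5 r^2 |a-b| ≤ r (G+a) Y ≤ |u-w| X Y
  have q : 0 < (A.r l + G + a) * (A.r l + G + b) := mul_pos hx0 hy0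
  have : 5 * |u - v| * ((A.r l + G + a) * (A.r l + G + b)) ≤
      |u - w| * ((A.r l + G + a) * (A.r l + G + b)) := by
    calc 5 * |u - v| * ((A.r l + G + a) * (A.r l + G + b))
        = A.r l * (5 * A.r l * |a - b|) := by
          linear_combination 5 * dx
      _ ≤ A.r l * ((G + a) * (A.r l + G + b)) := mul_le_mul_of_nonneg_left key hr.le
      _ = (A.r l * (G + a)) * (A.r l + G + b) := by ring
      _ ≤ (|u - w| * (A.r l + G + a)) * (A.r l + G + b) :=
          mul_le_mul_of_nonneg_right k1 hy0.le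
      _ = _ := by ring
  exact le_of_mul_le_mul_right this q

namespace Cmp

variable {ι : Type} {A B : Sys ι} {φ h : ℝ → ℝ} (K : Cmp A B φ h)

include K

theorem dich {u v : ℝ} (gu : ∀ j, u ≠ A.c j) (gv : ∀ j, v ≠ A.c j) :
    (|h u - h v| ≤ 18 * |u - v| ∧ |u - v| ≤ 12 * |h u - h v|) ∨
    ∃ l, A.In l u ∧ A.In l v ∧ ∀ w, ¬ A.In l w → 5 * |u - v| ≤ |u - w| ∧ 5 * |u - v| ≤ |v - w| := by
  by_cases h1 : ∃ l, A.In l u ∧ A.In l v
  · obtain ⟨l, hu, hv⟩ := h1
    by_cases h2 : ∃ m, A.In m (A.R l u) ∧ A.In m (A.R l v)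
    · obtain ⟨m, a, b⟩ := h2
      right
      refine ⟨l, hu, hv, fun w hw => ⟨A.deep1 hu hv (gu l) (gv l) a b hw, ?_⟩⟩
      rw [abs_sub_comm u v]
      exact A.deep1 hv hu (gv l) (gu l) b a hw
    · left
      exact K.comp_one hu hv (gu l) (gv l) h2
  · left
    obtain ⟨a, b⟩ := K.Lc h1
    have := abs_nonneg (u - v)
    have := abs_nonneg (h u - h v)
    constructor <;> linarith

theorem D {X Y Z P : ℝ} {j : ι} (hP : A.In j P) (hX : ¬ A.In j X) (hY : ¬ A.In j Y)
    (hZ : ¬ A.In j Z) (hn : ¬ ∃ l, A.In l X ∧ A.In l Y ∧ A.In l Z)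
    (gX : ∀ j, X ≠ A.c j) (gY : ∀ j, Y ≠ A.c j) (gZ : ∀ j, Z ≠ A.c j)
    (hrel : |X - Y| * |Z - P| = |Y - Z| * |X - P|) :
    |h X - h Y| * |h Z - h P| ≤ 46656 * (|h Y - h Z| * |h X - h P|) := by
  have nP : ∀ W, ¬ A.In j W → ¬ ∃ l, A.In l W ∧ A.In l P := by
    rintro W hW ⟨l, a, b⟩
    have := A.In_unique b hP
    subst this
    exact hW a
  have nl : ∀ l W, A.In l W → ¬ A.In j W → ¬ A.In l P := by
    intro l W a b c
    have := A.In_unique c hP
    subst this
    exact b a
  obtain ⟨zp1, zp2⟩ := K.Lc (nP Z hZ)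
  obtain ⟨xp1, xp2⟩ := K.Lc (nP X hX)
  have cXY : |h X - h Y| ≤ 18 * |X - Y| ∧ |X - Y| ≤ 12 * |h X - h Y| := by
    rcases K.dich gX gY with h1 | ⟨l, a, b, hw⟩
    · exact h1
    · by_cases h0 : X = Y
      · rw [h0]; simp
      · exfalso
        have d0 : 0 < |X - Y| := abs_pos.2 (sub_ne_zero.2 h0)
        have w1 := (hw Z (fun c => hn ⟨l, a, b, c⟩)).1
        have w2 := (hw P (nl l X a hX)).1
        have t1 : |Z - P| ≤ |X - Z| + |X - P| := by
          have : Z - P = (X - P) - (X - Z) := by ring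
          rw [this]
          have := abs_sub (X - P) (X - Z)
          linarith
        have t2 : |X - Z| ≤ |Y - Z| + |X - Y| := by
          have : X - Z = (X - Y) + (Y - Z) := by ring
          rw [this]
          have := abs_add_le (X - Y) (Y - Z)
          linarith
        have pa : 0 < |X - Z| := by linarith
        have pb : 0 < |X - P| := by linarith
        nlinarith [mul_le_mul_of_nonneg_left t1 d0.le, mul_le_mul_of_nonneg_right t2 pb.le,
          mul_le_mul_of_nonneg_right w1 pb.le, mul_le_mul_of_nonneg_right w2 pa.le,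
          mul_pos pa pb]
  have cYZ : |h Y - h Z| ≤ 18 * |Y - Z| ∧ |Y - Z| ≤ 12 * |h Y - h Z| := by
    rcases K.dich gY gZ with h1 | ⟨l, a, b, hw⟩
    · exact h1
    · by_cases h0 : Y = Z
      · rw [h0]; simp
      · exfalso
        have d0 : 0 < |Y - Z| := abs_pos.2 (sub_ne_zero.2 h0)
        have w1 := (hw X (fun c => hn ⟨l, c, a, b⟩)).1
        have w2 := (hw P (nl l Y a hY)).2
        have t1 : |X - P| ≤ |X - Y| + |Y - Z| + |Z - P| := by
          have : X - P = (X - Y) + (Y - Z) + (Z - P) := by ring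
          rw [this]
          have := abs_add_three (X - Y) (Y - Z) (Z - P)
          linarith
        rw [abs_sub_comm Y X] at w1
        have pa : 0 < |X - Y| := by linarith
        have pb : 0 < |Z - P| := by linarith
        nlinarith [mul_le_mul_of_nonneg_left t1 d0.le,
          mul_le_mul_of_nonneg_right w1 pb.le, mul_le_mul_of_nonneg_right w2 pa.le,
          mul_pos pa pb, mul_le_mul_of_nonneg_right w1 d0.le]
  calc |h X - h Y| * |h Z - h P| ≤ (18 * |X - Y|) * (18 * |Z - P|) :=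
        mul_le_mul cXY.1 (by have := abs_nonneg (Z - P); linarith) (abs_nonneg _) (by positivity)
    _ = 324 * (|X - Y| * |Z - P|) := by ring
    _ = 324 * (|Y - Z| * |X - P|) := by rw [hrel]
    _ ≤ 324 * ((12 * |h Y - h Z|) * (12 * |h X - h P|)) := by
        have : |Y - Z| * |X - P| ≤ (12 * |h Y - h Z|) * (12 * |h X - h P|) :=
          mul_le_mul cYZ.2 (by have := abs_nonneg (h X - h P); linarith) (abs_nonneg _)
            (by positivity)
        linarith
    _ = _ := by ring

end Cmp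

/-- points whose orbit never meets a centre -/
def Sys.Good {ι : Type} (A : Sys ι) (x : ℝ) : Prop :=
  ∀ (L : List ι) (j : ι), L.foldr A.R x ≠ A.c j

theorem Sys.Good.ne {ι : Type} {A : Sys ι} {x : ℝ} (h : A.Good x) (j : ι) : x ≠ A.c j :=
  h [] j

theorem Sys.Good.R {ι : Type} {A : Sys ι} {x : ℝ} (h : A.Good x) (l : ι) : A.Good (A.R l x) := by
  intro L j
  have := h (L ++ [l]) j
  rwa [List.foldr_append] at this

theorem Sys.foldr_inj {ι : Type} (A : Sys ι) (L : List ι) :
    Function.Injective (fun x => L.foldr A.R x) := by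
  induction L with
  | nil => intro x y h; exact h
  | cons i L ih => intro x y h; exact ih (A.R_inj i h)

theorem Sys.bad_countable {ι : Type} [Countable ι] (A : Sys ι) : {x | ¬ A.Good x}.Countable := by
  have : {x | ¬ A.Good x} = ⋃ p : List ι × ι, {x | p.1.foldr A.R x = A.c p.2} := by
    ext x
    simp only [Sys.Good, Set.mem_setOf_eq, Set.mem_iUnion, not_forall, not_not, Prod.exists]
  rw [this]
  apply Set.countable_iUnion
  rintro ⟨L, j⟩
  apply Set.Subsingleton.countable
  intro x hx y hy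
  apply A.foldr_inj L
  simp only [Set.mem_setOf_eq] at hx hy ⊢
  rw [hx, hy]

/-- transport of products of distances by a reflection -/
theorem Sys.R_rel {ι : Type} (A : Sys ι) {l : ι} {X Y Z P : ℝ} (hX : X ≠ A.c l) (hY : Y ≠ A.c l)
    (hZ : Z ≠ A.c l) (hP : P ≠ A.c l) :
    ∃ q : ℝ, 0 < q ∧ |A.R l X - A.R l Y| * |A.R l Z - A.R l P| = q * (|X - Y| * |Z - P|) ∧
      |A.R l Y - A.R l Z| * |A.R l X - A.R l P| = q * (|Y - Z| * |X - P|) := by
  have hr := A.rpos l
  have x0 : 0 < |X - A.c l| := abs_pos.2 (sub_ne_zero.2 hX)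
  have y0 : 0 < |Y - A.c l| := abs_pos.2 (sub_ne_zero.2 hY)
  have z0 : 0 < |Z - A.c l| := abs_pos.2 (sub_ne_zero.2 hZ)
  have p0 : 0 < |P - A.c l| := abs_pos.2 (sub_ne_zero.2 hP)
  have f : ∀ {u v : ℝ}, u ≠ A.c l → v ≠ A.c l → |A.R l u - A.R l v| =
      A.r l ^ 2 * |u - v| / (|u - A.c l| * |v - A.c l|) := by
    intro u v hu hv
    have u0 : 0 < |u - A.c l| := abs_pos.2 (sub_ne_zero.2 hu)
    have v0 : 0 < |v - A.c l| := abs_pos.2 (sub_ne_zero.2 hv)
    rw [eq_div_iff (by positivity)]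
    exact A.R_dist hu hv
  refine ⟨A.r l ^ 4 / (|X - A.c l| * |Y - A.c l| * |Z - A.c l| * |P - A.c l|), by positivity,
    ?_, ?_⟩
  · rw [f hX hY, f hZ hP]
    field_simp
  · rw [f hY hZ, f hX hP]
    field_simp

namespace Cmp

variable {ι : Type} {A B : Sys ι} {φ h : ℝ → ℝ} (K : Cmp A B φ h)

include K

theorem h_ne {l : ι} {x : ℝ} (hx : x ≠ A.c l) : h x ≠ B.c l := by
  intro hc
  rw [← K.L.mid] at hc
  exact hx (K.mono.injective hc)

theorem Dall {X Y Z P : ℝ} {j : ι} (hP : A.In j P) (hX : ¬ A.In j X) (hY : ¬ A.In j Y)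
    (hZ : ¬ A.In j Z) (gX : A.Good X) (gY : A.Good Y) (gZ : A.Good Z)
    (hrel : |X - Y| * |Z - P| = |Y - Z| * |X - P|) :
    |h X - h Y| * |h Z - h P| ≤ 46656 * (|h Y - h Z| * |h X - h P|) := by
  by_contra hcon
  have := A.descent (fun X Z => ∃ (Y P : ℝ) (j : ι), A.In j P ∧ ¬ A.In j X ∧ ¬ A.In j Y ∧
    ¬ A.In j Z ∧ A.Good X ∧ A.Good Y ∧ A.Good Z ∧ |X - Y| * |Z - P| = |Y - Z| * |X - P| ∧
    ¬ (|h X - h Y| * |h Z - h P| ≤ 46656 * (|h Y - h Z| * |h X - h P|))) (by
    rintro X Z ⟨Y, P, j, hP, hX, hY, hZ, gX, gY, gZ, hrel, hc⟩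
    have hl : ∃ l, A.In l X ∧ A.In l Y ∧ A.In l Z := by
      by_contra hn
      exact hc (K.D hP hX hY hZ hn gX.ne gY.ne gZ.ne hrel)
    obtain ⟨l, lX, lY, lZ⟩ := hl
    have hjl : j ≠ l := by
      rintro rfl
      exact hX lX
    have hPl := A.out_of_In (le_of_lt hP) hjl
    have hPc : P ≠ A.c l := by
      rintro rfl
      simp at hPl
      linarith [A.rpos l]
    have notIn : ∀ W, A.In l W → A.Good W → ¬ A.In l (A.R l W) := by
      intro W hW gW hc'
      have := A.R_out hW (gW.ne l)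
      unfold Sys.In at hc'
      linarith
    refine ⟨l, lX, lZ, gX.ne l, gZ.ne l, A.R l Y, A.R l P, l, A.R_in hPl, notIn X lX gX,
      notIn Y lY gY, notIn Z lZ gZ, gX.R l, gY.R l, gZ.R l, ?_, ?_⟩
    · obtain ⟨q, q0, e1, e2⟩ := A.R_rel (gX.ne l) (gY.ne l) (gZ.ne l) hPc
      rw [e1, e2, hrel]
    · intro hc'
      apply hc
      rw [K.E, K.E, K.E, K.E] at hc'
      obtain ⟨q, q0, e1, e2⟩ := B.R_rel (K.h_ne (gX.ne l)) (K.h_ne (gY.ne l))
        (K.h_ne (gZ.ne l)) (K.h_ne hPc)
      rw [e1, e2] at hc'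
      have : q * (|h X - h Y| * |h Z - h P|) ≤ q * (46656 * (|h Y - h Z| * |h X - h P|)) := by
        linarith
      exact le_of_mul_le_mul_left this q0)
    (u := X) (v := Z) ⟨Y, P, j, hP, hX, hY, hZ, gX, gY, gZ, hrel, hcon⟩
  subst this
  apply hcon
  rw [abs_sub_comm (h Y) (h X)]
  have : 0 ≤ |h X - h Y| * |h X - h P| := by positivity
  linarith

theorem qs_good {X Y Z : ℝ} (gX : A.Good X) (gY : A.Good Y) (gZ : A.Good Z)
    (hrel : |X - Y| = |Y - Z|) : |h X - h Y| ≤ 46656 * |h Y - h Z| := by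
  by_cases hl : ∃ l, A.In l X ∧ A.In l Y ∧ A.In l Z
  · obtain ⟨l, lX, lY, lZ⟩ := hl
    have hcl : A.In l (A.c l) := by unfold Sys.In; simpa using A.rpos l
    have notIn : ∀ W, A.In l W → A.Good W → ¬ A.In l (A.R l W) := by
      intro W hW gW hc'
      have := A.R_out hW (gW.ne l)
      unfold Sys.In at hc'
      linarith
    have rc : ∀ W, W ≠ A.c l → |A.R l W - A.c l| = A.r l ^ 2 / |W - A.c l| := by
      intro W hW
      rw [A.R_sub, abs_div, abs_of_nonneg (sq_nonneg _)]
    have hrl := A.rpos l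
    have x0 : 0 < |X - A.c l| := abs_pos.2 (sub_ne_zero.2 (gX.ne l))
    have y0 : 0 < |Y - A.c l| := abs_pos.2 (sub_ne_zero.2 (gY.ne l))
    have z0 : 0 < |Z - A.c l| := abs_pos.2 (sub_ne_zero.2 (gZ.ne l))
    have f : ∀ (C : Sys ι) {u v : ℝ}, u ≠ C.c l → v ≠ C.c l → |C.R l u - C.R l v| =
        C.r l ^ 2 * |u - v| / (|u - C.c l| * |v - C.c l|) := by
      intro C u v hu hv
      have u0 : 0 < |u - C.c l| := abs_pos.2 (sub_ne_zero.2 hu)
      have v0 : 0 < |v - C.c l| := abs_pos.2 (sub_ne_zero.2 hv)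
      rw [eq_div_iff (by positivity)]
      exact C.R_dist hu hv
    have h1 := K.Dall hcl (notIn X lX gX) (notIn Y lY gY) (notIn Z lZ gZ) (gX.R l) (gY.R l)
      (gZ.R l) (by
        rw [rc X (gX.ne l), rc Z (gZ.ne l), f A (gX.ne l) (gY.ne l), f A (gY.ne l) (gZ.ne l),
          hrel]
        field_simp)
    rw [K.L.mid, K.E, K.E, K.E] at h1
    have hX' := K.h_ne (gX.ne l)
    have hY' := K.h_ne (gY.ne l)
    have hZ' := K.h_ne (gZ.ne l)
    have x1 : 0 < |h X - B.c l| := abs_pos.2 (sub_ne_zero.2 hX')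
    have y1 : 0 < |h Y - B.c l| := abs_pos.2 (sub_ne_zero.2 hY')
    have z1 : 0 < |h Z - B.c l| := abs_pos.2 (sub_ne_zero.2 hZ')
    have rc' : ∀ W, W ≠ B.c l → |B.R l W - B.c l| = B.r l ^ 2 / |W - B.c l| := by
      intro W hW
      rw [B.R_sub, abs_div, abs_of_nonneg (sq_nonneg _)]
    rw [rc' _ hX', rc' _ hZ', f B hX' hY', f B hY' hZ'] at h1
    have hb := B.rpos l
    have q0 : 0 < B.r l ^ 4 / (|h X - B.c l| * |h Y - B.c l| * |h Z - B.c l|) := by positivity
    have e1 : B.r l ^ 2 * |h X - h Y| / (|h X - B.c l| * |h Y - B.c l|) *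
        (B.r l ^ 2 / |h Z - B.c l|) =
        B.r l ^ 4 / (|h X - B.c l| * |h Y - B.c l| * |h Z - B.c l|) * |h X - h Y| := by
      field_simp
    have e2 : B.r l ^ 2 * |h Y - h Z| / (|h Y - B.c l| * |h Z - B.c l|) *
        (B.r l ^ 2 / |h X - B.c l|) =
        B.r l ^ 4 / (|h X - B.c l| * |h Y - B.c l| * |h Z - B.c l|) * |h Y - h Z| := by
      field_simp
    rw [e1, e2] at h1
    have : B.r l ^ 4 / (|h X - B.c l| * |h Y - B.c l| * |h Z - B.c l|) * |h X - h Y| ≤
      B.r l ^ 4 / (|h X - B.c l| * |h Y - B.c l| * |h Z - B.c l|) * (46656 * |h Y - h Z|) := by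
      linarith
    exact le_of_mul_le_mul_left this q0
  · by_cases h0 : X = Y
    · rw [h0]; simp
    · have d0 : 0 < |X - Y| := abs_pos.2 (sub_ne_zero.2 h0)
      have c1 : |h X - h Y| ≤ 18 * |X - Y| := by
        rcases K.dich gX.ne gY.ne with h1 | ⟨l, a, b, hw⟩
        · exact h1.1
        · exfalso
          have w1 := (hw Z (fun c => hl ⟨l, a, b, c⟩)).2
          linarith
      have c2 : |Y - Z| ≤ 12 * |h Y - h Z| := by
        rcases K.dich gY.ne gZ.ne with h1 | ⟨l, a, b, hw⟩
        · exact h1.2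
        · exfalso
          have w1 := (hw X (fun c => hl ⟨l, c, a, b⟩)).1
          rw [abs_sub_comm Y X] at w1
          linarith
      have := abs_nonneg (h Y - h Z)
      linarith

theorem qs [Countable ι] (hc : Continuous h) (x t : ℝ) :
    |h (x + t) - h x| ≤ 46656 * |h x - h (x - t)| := by
  have step : ∀ x, A.Good x → ∀ t, |h (x + t) - h x| ≤ 46656 * |h x - h (x - t)| := by
    intro x gx
    have hd : Dense {t : ℝ | A.Good (x + t) ∧ A.Good (x - t)} := by
      have : {t : ℝ | A.Good (x + t) ∧ A.Good (x - t)} =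
          ({t : ℝ | ¬ A.Good (x + t)} ∪ {t : ℝ | ¬ A.Good (x - t)})ᶜ := by
        ext t
        simp only [Set.mem_setOf_eq, Set.mem_compl_iff, Set.mem_union, not_or, not_not]
      rw [this]
      apply Set.Countable.dense_compl ℝ
      apply Set.Countable.union
      · have := A.bad_countable.preimage (f := fun t : ℝ => x + t) (by
          intro a b hab; simpa using hab)
        exact this
      · have := A.bad_countable.preimage (f := fun t : ℝ => x - t) (by
          intro a b hab; simpa using hab)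
        exact this
    have hcl : IsClosed {t : ℝ | |h (x + t) - h x| ≤ 46656 * |h x - h (x - t)|} :=
      isClosed_le (by fun_prop) (by fun_prop)
    have hsub : {t : ℝ | A.Good (x + t) ∧ A.Good (x - t)} ⊆
        {t : ℝ | |h (x + t) - h x| ≤ 46656 * |h x - h (x - t)|} := by
      rintro t ⟨g1, g2⟩
      apply K.qs_good g1 gx g2
      congr 1
      ring
    intro t
    have : closure {t : ℝ | A.Good (x + t) ∧ A.Good (x - t)} ⊆
        {t : ℝ | |h (x + t) - h x| ≤ 46656 * |h x - h (x - t)|} := hcl.closure_subset_iff.2 hsub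
    rw [hd.closure_eq] at this
    exact this (Set.mem_univ t)
  have hd : Dense {x : ℝ | A.Good x} := by
    have : {x : ℝ | A.Good x} = {x : ℝ | ¬ A.Good x}ᶜ := by
      ext t
      simp only [Set.mem_setOf_eq, Set.mem_compl_iff, not_not]
    rw [this]
    exact Set.Countable.dense_compl ℝ A.bad_countable
  have hcl : IsClosed {x : ℝ | |h (x + t) - h x| ≤ 46656 * |h x - h (x - t)|} :=
    isClosed_le (by fun_prop) (by fun_prop)
  have hsub : {x : ℝ | A.Good x} ⊆
      {x : ℝ | |h (x + t) - h x| ≤ 46656 * |h x - h (x - t)|} := fun x gx => step x gx t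
  have : closure {x : ℝ | A.Good x} ⊆
      {x : ℝ | |h (x + t) - h x| ≤ 46656 * |h x - h (x - t)|} := hcl.closure_subset_iff.2 hsub
  rw [hd.closure_eq] at this
  exact this (Set.mem_univ x)

end Cmp

end Pool.Agent.H859R3

end
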