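import Mathlib

set_option autoImplicit false

noncomputable section

namespace Pool.Agent.H859R3

open Filter Topology

/-- a family of well separated discs centred on the real line -/
structure Sys (ι : Type) where
  c : ι → ℝ
  r : ι → ℝ
  rpos : ∀ j, 0 < r j
  sep : ∀ i j, i ≠ j → r i + r j + 10 * min (r i) (r j) ≤ |c i - c j|

namespace Sys

variable {ι : Type} (A : Sys ι)

/-- inversion in the circle with index `j`, on the real line (with `c ↦ c`) -/
def R (j : ι) (x : ℝ) : ℝ := A.c j + (A.r j) ^ 2 / (x - A.c j)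

def In (j : ι) (x : ℝ) : Prop := |x - A.c j| < A.r j

def Near (j : ι) (u v κ : ℝ) : Prop :=
  (A.r j) ^ 2 * (u - v) ^ 2 ≤
    κ * (|(A.r j) ^ 2 - (u - A.c j) ^ 2| * |(A.r j) ^ 2 - (v - A.c j) ^ 2|)

theorem R_center (j : ι) : A.R j (A.c j) = A.c j := by simp [R]

theorem R_R (j : ι) (x : ℝ) : A.R j (A.R j x) = x := by
  by_cases h : x = A.c j
  · subst h; rw [R_center, R_center]
  · have h1 : x - A.c j ≠ 0 := sub_ne_zero.2 h
    have h2 := (A.rpos j).ne'
    unfold R
    rw [add_sub_cancel_left]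
    field_simp
    ring

theorem R_right (j : ι) : A.R j (A.c j + A.r j) = A.c j + A.r j := by
  have h2 := (A.rpos j).ne'
  unfold R
  rw [add_sub_cancel_left, pow_two, mul_div_assoc, div_self h2, mul_one]

theorem R_left (j : ι) : A.R j (A.c j - A.r j) = A.c j - A.r j := by
  have h2 := (A.rpos j).ne'
  unfold R
  have : A.c j - A.r j - A.c j = -A.r j := by ring
  rw [this, pow_two, mul_div_assoc, div_neg, div_self h2]
  ring

theorem R_inj (j : ι) : Function.Injective (A.R j) := by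
  intro x y h
  rw [← A.R_R j x, h, A.R_R]

theorem R_sub (j : ι) (x : ℝ) : A.R j x - A.c j = (A.r j) ^ 2 / (x - A.c j) := by
  unfold R; ring

theorem R_ne {j : ι} {x : ℝ} (h : x ≠ A.c j) : A.R j x ≠ A.c j := by
  intro h'
  apply h
  rw [← A.R_R j x, h', R_center]

theorem R_out {j : ι} {x : ℝ} (h : A.In j x) (hx : x ≠ A.c j) :
    A.r j < |A.R j x - A.c j| := by
  have hr := A.rpos j
  have h1 : 0 < |x - A.c j| := abs_pos.2 (sub_ne_zero.2 hx)
  rw [R_sub, abs_div, abs_of_pos (by positivity : (0 : ℝ) < A.r j ^ 2), lt_div_iff₀ h1]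
  unfold In at h
  nlinarith

theorem R_in {j : ι} {x : ℝ} (h : A.r j < |x - A.c j|) : A.In j (A.R j x) := by
  have hr := A.rpos j
  have h1 : 0 < |x - A.c j| := hr.trans h
  unfold In
  rw [R_sub, abs_div, abs_of_pos (by positivity : (0 : ℝ) < A.r j ^ 2), div_lt_iff₀ h1]
  nlinarith

theorem min_pos' (i j : ι) : 0 < min (A.r i) (A.r j) := lt_min (A.rpos i) (A.rpos j)

theorem out_of_In {l j : ι} {x : ℝ} (h : |x - A.c l| ≤ A.r l) (hlj : l ≠ j) :
    A.r j < |x - A.c j| := by
  have h1 := A.sep l j hlj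
  have h2 := A.min_pos' l j
  have h3 : |A.c l - A.c j| ≤ |x - A.c j| + |x - A.c l| := by
    have : A.c l - A.c j = (x - A.c j) - (x - A.c l) := by ring
    rw [this]
    exact abs_sub _ _
  linarith

theorem In_unique {l j : ι} {x : ℝ} (h : A.In l x) (h' : A.In j x) : l = j := by
  by_contra hne
  have := A.out_of_In (le_of_lt h) hne
  unfold In at h'
  linarith

theorem near_R {j : ι} {u v κ : ℝ} (hu : u ≠ A.c j) (hv : v ≠ A.c j) (h : A.Near j u v κ) :
    A.Near j (A.R j u) (A.R j v) κ := by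
  unfold Near at *
  have hr := A.rpos j
  have h1 : u - A.c j ≠ 0 := sub_ne_zero.2 hu
  have h2 : v - A.c j ≠ 0 := sub_ne_zero.2 hv
  rw [R_sub, R_sub]
  set a := u - A.c j with ha
  set b := v - A.c j with hb
  have e1 : A.R j u - A.R j v = (A.r j) ^ 2 * (b - a) / (a * b) := by
    have : A.R j u - A.R j v = (A.R j u - A.c j) - (A.R j v - A.c j) := by ring
    rw [this, R_sub, R_sub, ← ha, ← hb]
    field_simp
  have e2 : u - v = a - b := by rw [ha, hb]; ring
  have e3 : (A.r j) ^ 2 - ((A.r j) ^ 2 / a) ^ 2 = -((A.r j) ^ 2 / a ^ 2 * ((A.r j) ^ 2 - a ^ 2)) := by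
    field_simp
    ring
  have e4 : (A.r j) ^ 2 - ((A.r j) ^ 2 / b) ^ 2 = -((A.r j) ^ 2 / b ^ 2 * ((A.r j) ^ 2 - b ^ 2)) := by
    field_simp
    ring
  rw [e1, e3, e4, abs_neg, abs_neg, abs_mul, abs_mul,
    abs_of_pos (by positivity : (0 : ℝ) < (A.r j) ^ 2 / a ^ 2),
    abs_of_pos (by positivity : (0 : ℝ) < (A.r j) ^ 2 / b ^ 2)]
  rw [e2] at h
  have hpos : (0 : ℝ) < (A.r j) ^ 4 / (a ^ 2 * b ^ 2) := by positivity
  have h3 := mul_le_mul_of_nonneg_left h hpos.le
  calc A.r j ^ 2 * (A.r j ^ 2 * (b - a) / (a * b)) ^ 2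
      = A.r j ^ 4 / (a ^ 2 * b ^ 2) * (A.r j ^ 2 * (a - b) ^ 2) := by field_simp; ring
    _ ≤ A.r j ^ 4 / (a ^ 2 * b ^ 2) * (κ * (|A.r j ^ 2 - a ^ 2| * |A.r j ^ 2 - b ^ 2|)) := h3
    _ = _ := by field_simp

/-- coordinates of two points of one block as seen from another block -/
theorem coords {l j : ι} (hlj : l ≠ j) {u v : ℝ} (hu : |u - A.c l| ≤ A.r l)
    (hv : |v - A.c l| ≤ A.r l) :
    ∃ G a b : ℝ, 10 * min (A.r l) (A.r j) ≤ G ∧ 0 ≤ a ∧ a ≤ 2 * A.r l ∧ 0 ≤ b ∧ b ≤ 2 * A.r l ∧
      (u - v) ^ 2 = (a - b) ^ 2 ∧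
      (A.r l) ^ 2 - (u - A.c l) ^ 2 = a * (2 * A.r l - a) ∧
      (A.r l) ^ 2 - (v - A.c l) ^ 2 = b * (2 * A.r l - b) ∧
      (u - A.c j) ^ 2 - (A.r j) ^ 2 = (G + a) * (2 * A.r j + G + a) ∧
      (v - A.c j) ^ 2 - (A.r j) ^ 2 = (G + b) * (2 * A.r j + G + b) ∧
      |u - A.c j| = A.r j + G + a ∧ |v - A.c j| = A.r j + G + b := by
  have hs := A.sep l j hlj
  have hm := A.min_pos' l j
  have hrj := A.rpos j
  have hrl := A.rpos l
  rw [abs_le] at hu hv
  rcases le_total (A.c j) (A.c l) with h | h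
  · rw [abs_of_nonneg (sub_nonneg.2 h)] at hs
    refine ⟨A.c l - A.c j - A.r l - A.r j, u - A.c l + A.r l, v - A.c l + A.r l, by linarith,
      by linarith, by linarith, by linarith, by linarith, by ring, by ring, by ring, by ring,
      by ring, ?_, ?_⟩
    · rw [abs_of_nonneg (by linarith)]; ring
    · rw [abs_of_nonneg (by linarith)]; ring
  · rw [abs_of_nonpos (sub_nonpos.2 h)] at hs
    refine ⟨A.c j - A.c l - A.r l - A.r j, A.c l + A.r l - u, A.c l + A.r l - v, by linarith,
      by linarith, by linarith, by linarith, by linarith, by ring, by ring, by ring, by ring,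
      by ring, ?_, ?_⟩
    · rw [abs_of_nonpos (by linarith)]; ring
    · rw [abs_of_nonpos (by linarith)]; ring

theorem pi_core {rj rl G a : ℝ} (hrj : 0 < rj) (hrl : 0 < rl) (hG : 10 * min rl rj ≤ G)
    (ha : 0 ≤ a) (ha2 : a ≤ 2 * rl) :
    rj * (a * (2 * rl - a)) ≤ (1 / 2) * rl * ((G + a) * (2 * rj + G + a)) := by
  have hm : 0 < min rl rj := lt_min hrl hrj
  have hG0 : 0 ≤ G := by linarith
  have h1 : 4 * rj * a ≤ (G + a) * (2 * rj + G + a) := by
    rcases le_total rj rl with h | h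
    · rw [min_eq_right h] at hG
      nlinarith [mul_nonneg ha hG0, mul_nonneg ha hrj.le]
    · rw [min_eq_left h] at hG
      have : a ≤ G := by linarith
      nlinarith [mul_nonneg ha hG0, mul_nonneg ha hrj.le]
  have h2 : a * (2 * rl - a) ≤ 2 * rl * a := by nlinarith
  calc rj * (a * (2 * rl - a)) ≤ rj * (2 * rl * a) := mul_le_mul_of_nonneg_left h2 hrj.le
    _ = (1 / 2) * rl * (4 * rj * a) := by ring
    _ ≤ (1 / 2) * rl * ((G + a) * (2 * rj + G + a)) :=
      mul_le_mul_of_nonneg_left h1 (by positivity)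

theorem base_core {rj rl G a b : ℝ} (hrj : 0 < rj) (hrl : 0 < rl) (hG : 10 * min rl rj ≤ G)
    (ha : 0 ≤ a) (ha2 : a ≤ 2 * rl) (hb : 0 ≤ b) (hb2 : b ≤ 2 * rl) :
    rj ^ 2 * (a - b) ^ 2 ≤
      (1 / 100) * (((G + a) * (2 * rj + G + a)) * ((G + b) * (2 * rj + G + b))) := by
  have hm : 0 < min rl rj := lt_min hrl hrj
  have hG0 : 0 ≤ G := by linarith
  rcases le_total rj rl with h | h
  · rw [min_eq_right h] at hG
    have h1 : (G + a) ^ 2 ≤ (G + a) * (2 * rj + G + a) := by nlinarith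
    have h2 : (G + b) ^ 2 ≤ (G + b) * (2 * rj + G + b) := by nlinarith
    have h3 : (G + a) ^ 2 * (G + b) ^ 2 ≤
        ((G + a) * (2 * rj + G + a)) * ((G + b) * (2 * rj + G + b)) :=
      mul_le_mul h1 h2 (sq_nonneg _) (le_trans (sq_nonneg _) h1)
    have h4 : 100 * (rj ^ 2 * (a - b) ^ 2) ≤ (G + a) ^ 2 * (G + b) ^ 2 := by
      have key : 10 * rj * |a - b| ≤ (G + a) * (G + b) := by
        rcases le_total a b with hab | hab
        · rw [abs_of_nonpos (by linarith)]
          nlinarith [mul_nonneg ha hb, mul_nonneg hG0 ha, mul_nonneg hG0 hb,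
            mul_nonneg hrj.le ha, mul_nonneg (sub_nonneg.2 hG) hb]
        · rw [abs_of_nonneg (by linarith)]
          nlinarith [mul_nonneg ha hb, mul_nonneg hG0 ha, mul_nonneg hG0 hb,
            mul_nonneg hrj.le hb, mul_nonneg (sub_nonneg.2 hG) ha]
      have h5 : (10 * rj * |a - b|) ^ 2 ≤ ((G + a) * (G + b)) ^ 2 :=
        pow_le_pow_left₀ (by positivity) key 2
      have h6 : (10 * rj * |a - b|) ^ 2 = 100 * (rj ^ 2 * (a - b) ^ 2) := by
        rw [mul_pow, sq_abs]; ring
      rw [h6] at h5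
      linarith [mul_pow (G + a) (G + b) 2]
    linarith
  · rw [min_eq_left h] at hG
    have h1 : 2 * rj * (10 * rl) ≤ (G + a) * (2 * rj + G + a) := by
      nlinarith [mul_nonneg hrj.le ha]
    have h2 : 2 * rj * (10 * rl) ≤ (G + b) * (2 * rj + G + b) := by
      nlinarith [mul_nonneg hrj.le hb]
    have h3 : (2 * rj * (10 * rl)) * (2 * rj * (10 * rl)) ≤
        ((G + a) * (2 * rj + G + a)) * ((G + b) * (2 * rj + G + b)) :=
      mul_le_mul h1 h2 (by positivity) (le_trans (by positivity) h1)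
    have h4 : (a - b) ^ 2 ≤ 4 * rl ^ 2 := by nlinarith
    have h5 := mul_le_mul_of_nonneg_left h4 (sq_nonneg rj)
    nlinarith

theorem near_base {l j : ι} (hlj : l ≠ j) {u v : ℝ} (hu : |u - A.c l| ≤ A.r l)
    (hv : |v - A.c l| ≤ A.r l) : A.Near j u v (1 / 100) := by
  obtain ⟨G, a, b, hG, ha, ha2, hb, hb2, e0, -, -, e1, e2, -, -⟩ := A.coords hlj hu hv
  have hm := A.min_pos' l j
  have hrj := A.rpos j
  have := base_core hrj (A.rpos l) hG ha ha2 hb hb2
  have hG0 : 0 ≤ G := by linarith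
  have g3 : 0 ≤ (G + a) * (2 * A.r j + G + a) := mul_nonneg (by linarith) (by linarith)
  have g4 : 0 ≤ (G + b) * (2 * A.r j + G + b) := mul_nonneg (by linarith) (by linarith)
  unfold Near
  rw [abs_sub_comm, abs_sub_comm (A.r j ^ 2) ((v - A.c j) ^ 2), e1, e2,
    abs_of_nonneg g3, abs_of_nonneg g4, e0]
  exact this

theorem near_step {l j : ι} (hlj : l ≠ j) {u v κ : ℝ} (hκ : 0 ≤ κ) (hu : |u - A.c l| ≤ A.r l)
    (hv : |v - A.c l| ≤ A.r l) (h : A.Near l u v κ) : A.Near j u v (κ / 4) := by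
  obtain ⟨G, a, b, hG, ha, ha2, hb, hb2, e0, f1, f2, e1, e2, -, -⟩ := A.coords hlj hu hv
  have hm := A.min_pos' l j
  have hrj := A.rpos j
  have hrl := A.rpos l
  have hG0 : 0 ≤ G := by linarith
  unfold Near at *
  have g1 : 0 ≤ a * (2 * A.r l - a) := mul_nonneg ha (by linarith)
  have g2 : 0 ≤ b * (2 * A.r l - b) := mul_nonneg hb (by linarith)
  have g3 : 0 ≤ (G + a) * (2 * A.r j + G + a) := mul_nonneg (by linarith) (by linarith)
  have g4 : 0 ≤ (G + b) * (2 * A.r j + G + b) := mul_nonneg (by linarith) (by linarith)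
  rw [f1, f2, abs_of_nonneg g1, abs_of_nonneg g2] at h
  rw [abs_sub_comm, abs_sub_comm (A.r j ^ 2) ((v - A.c j) ^ 2), e1, e2,
    abs_of_nonneg g3, abs_of_nonneg g4]
  have k1 := pi_core hrj hrl hG ha ha2
  have k2 := pi_core hrj hrl hG hb hb2
  have n1 : 0 ≤ A.r j * (a * (2 * A.r l - a)) := by
    have : 0 ≤ 2 * A.r l - a := by linarith
    positivity
  have n2 : 0 ≤ A.r j * (b * (2 * A.r l - b)) := by
    have : 0 ≤ 2 * A.r l - b := by linarith
    positivity
  have k3 := mul_le_mul k1 k2 n2 (le_trans n1 k1)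
  have k4 := mul_le_mul_of_nonneg_left k3 hκ
  have k5 := mul_le_mul_of_nonneg_left h (sq_nonneg (A.r j))
  have hl2 : 0 < A.r l ^ 2 := by positivity
  have : A.r l ^ 2 * (A.r j ^ 2 * (u - v) ^ 2) ≤ A.r l ^ 2 *
      (κ / 4 * ((G + a) * (2 * A.r j + G + a) * ((G + b) * (2 * A.r j + G + b)))) := by
    nlinarith
  exact le_of_mul_le_mul_left this hl2

theorem near_bound {j : ι} {u v κ : ℝ} (hκ : 0 ≤ κ) (hu : |u - A.c j| ≤ A.r j)
    (hv : |v - A.c j| ≤ A.r j) (h : A.Near j u v κ) : (u - v) ^ 2 ≤ κ * (A.r j) ^ 2 := by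
  unfold Near at h
  have hr := A.rpos j
  have hu2 : (u - A.c j) ^ 2 ≤ A.r j ^ 2 := sq_le_sq' (by linarith [abs_le.1 hu]) (abs_le.1 hu).2
  have hv2 : (v - A.c j) ^ 2 ≤ A.r j ^ 2 := sq_le_sq' (by linarith [abs_le.1 hv]) (abs_le.1 hv).2
  have h1 : |A.r j ^ 2 - (u - A.c j) ^ 2| ≤ A.r j ^ 2 := by
    rw [abs_of_nonneg (by linarith)]
    nlinarith [sq_nonneg (u - A.c j)]
  have h2 : |A.r j ^ 2 - (v - A.c j) ^ 2| ≤ A.r j ^ 2 := by
    rw [abs_of_nonneg (by linarith)]
    nlinarith [sq_nonneg (v - A.c j)]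
  have h3 := mul_le_mul h1 h2 (abs_nonneg _) (by positivity)
  have h4 := mul_le_mul_of_nonneg_left h3 hκ
  have h5 : A.r j ^ 2 * (u - v) ^ 2 ≤ A.r j ^ 2 * (κ * A.r j ^ 2) := by nlinarith
  exact le_of_mul_le_mul_left h5 (by positivity)

/-- descent principle -/
theorem descent (P : ℝ → ℝ → Prop)
    (H : ∀ u v, P u v → ∃ j, A.In j u ∧ A.In j v ∧ u ≠ A.c j ∧ v ≠ A.c j ∧
      P (A.R j u) (A.R j v)) {u v : ℝ} (h : P u v) : u = v := by
  have key : ∀ n : ℕ, ∀ u v j, A.In j u → A.In j v → u ≠ A.c j → v ≠ A.c j →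
      P (A.R j u) (A.R j v) → A.Near j u v (1 / 100 * (1 / 4) ^ n) := by
    intro n
    induction n with
    | zero =>
      intro u v j hu hv hu' hv' hP
      obtain ⟨l, hl1, hl2, -, -, -⟩ := H _ _ hP
      have hlj : l ≠ j := by
        rintro rfl
        have := A.R_out hu hu'
        unfold In at hl1
        linarith
      have h1 := A.near_base hlj hl1.le hl2.le
      have h2 := A.near_R (A.R_ne hu') (A.R_ne hv') h1
      rw [A.R_R, A.R_R] at h2
      simpa using h2
    | succ n ih =>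
      intro u v j hu hv hu' hv' hP
      obtain ⟨l, hl1, hl2, hl3, hl4, hl5⟩ := H _ _ hP
      have hlj : l ≠ j := by
        rintro rfl
        have := A.R_out hu hu'
        unfold In at hl1
        linarith
      have h0 := ih _ _ l hl1 hl2 hl3 hl4 hl5
      have h1 := A.near_step hlj (by positivity) hl1.le hl2.le h0
      have h2 := A.near_R (A.R_ne hu') (A.R_ne hv') h1
      rw [A.R_R, A.R_R] at h2
      have e : 1 / 100 * (1 / 4 : ℝ) ^ n / 4 = 1 / 100 * (1 / 4) ^ (n + 1) := by
        rw [pow_succ]; ring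
      rwa [e] at h2
  obtain ⟨j, h1, h2, h3, h4, h5⟩ := H u v h
  have hb : ∀ n : ℕ, (u - v) ^ 2 ≤ (1 / 100 * A.r j ^ 2) * (1 / 4) ^ n := by
    intro n
    have := A.near_bound (by positivity) h1.le h2.le (key n u v j h1 h2 h3 h4 h5)
    linarith
  have hlim : Tendsto (fun n : ℕ => (1 / 100 * A.r j ^ 2) * (1 / 4 : ℝ) ^ n) atTop (𝓝 0) := by
    have := (tendsto_pow_atTop_nhds_zero_of_lt_one (by norm_num : (0 : ℝ) ≤ 1 / 4)
      (by norm_num)).const_mul (1 / 100 * A.r j ^ 2)
    simpa using this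
  have h6 : (u - v) ^ 2 ≤ 0 := ge_of_tendsto' hlim hb
  have h7 : (u - v) ^ 2 = 0 := le_antisymm h6 (sq_nonneg _)
  have := pow_eq_zero_iff (two_ne_zero) |>.1 h7
  linarith

end Sys

/-! ### the conjugating map -/

structure Match {ι : Type} (A B : Sys ι) (φ : ℝ → ℝ) : Prop where
  mono : StrictMono φ
  left : ∀ j, φ (A.c j - A.r j) = B.c j - B.r j
  right : ∀ j, φ (A.c j + A.r j) = B.c j + B.r j
  mid : ∀ j, φ (A.c j) = B.c j

structure Loc {ι : Type} (A B : Sys ι) (φ f : ℝ → ℝ) : Prop where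
  inn : ∀ j x, A.In j x → B.In j (f x)
  out : ∀ x, (¬ ∃ j, A.In j x) → f x = φ x
  mid : ∀ j, f (A.c j) = B.c j

section
variable {ι : Type} {A B : Sys ι} {φ : ℝ → ℝ}

theorem Match.loc (M : Match A B φ) : Loc A B φ φ := by
  refine ⟨?_, fun _ _ => rfl, M.mid⟩
  intro j x h
  unfold Sys.In at *
  rw [abs_lt] at *
  have h1 := M.mono (show A.c j - A.r j < x by linarith)
  have h2 := M.mono (show x < A.c j + A.r j by linarith)
  rw [M.left] at h1
  rw [M.right] at h2
  constructor <;> linarith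

theorem Loc.right (M : Match A B φ) {f : ℝ → ℝ} (hf : Loc A B φ f) {j : ι} {x : ℝ}
    (h : A.c j + A.r j < x) : B.c j + B.r j < f x := by
  by_cases hx : ∃ l, A.In l x
  · obtain ⟨l, hl⟩ := hx
    have hrj := A.rpos j
    have hrl := A.rpos l
    have hlj : l ≠ j := by
      rintro rfl
      unfold Sys.In at hl
      rw [abs_lt] at hl
      linarith
    have h1 := hf.inn l x hl
    have hs := A.sep l j hlj
    have hm := A.min_pos' l j
    unfold Sys.In at hl h1
    rw [abs_lt] at hl h1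
    have h2 : A.c j + A.r j < A.c l - A.r l := by
      rcases le_total (A.c l) (A.c j) with h3 | h3
      · rw [abs_of_nonpos (by linarith)] at hs
        linarith
      · rw [abs_of_nonneg (by linarith)] at hs
        linarith
    have h3 := M.mono h2
    rw [M.left, M.right] at h3
    linarith
  · rw [hf.out x hx, ← M.right]
    exact M.mono h

theorem Loc.left (M : Match A B φ) {f : ℝ → ℝ} (hf : Loc A B φ f) {j : ι} {x : ℝ}
    (h : x < A.c j - A.r j) : f x < B.c j - B.r j := by
  by_cases hx : ∃ l, A.In l x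
  · obtain ⟨l, hl⟩ := hx
    have hrj := A.rpos j
    have hrl := A.rpos l
    have hlj : l ≠ j := by
      rintro rfl
      unfold Sys.In at hl
      rw [abs_lt] at hl
      linarith
    have h1 := hf.inn l x hl
    have hs := A.sep l j hlj
    have hm := A.min_pos' l j
    unfold Sys.In at hl h1
    rw [abs_lt] at hl h1
    have h2 : A.c l + A.r l < A.c j - A.r j := by
      rcases le_total (A.c l) (A.c j) with h3 | h3
      · rw [abs_of_nonpos (by linarith)] at hs
        linarith
      · rw [abs_of_nonneg (by linarith)] at hs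
        linarith
    have h3 := M.mono h2
    rw [M.left, M.right] at h3
    linarith
  · rw [hf.out x hx, ← M.left]
    exact M.mono h

theorem Loc.far (M : Match A B φ) {f : ℝ → ℝ} (hf : Loc A B φ f) {j : ι} {x : ℝ}
    (h : A.r j < |x - A.c j|) : B.r j < |f x - B.c j| := by
  rcases lt_abs.1 h with h1 | h1
  · have := hf.right M (show A.c j + A.r j < x by linarith)
    exact lt_abs.2 (Or.inl (by linarith))
  · have := hf.left M (show x < A.c j - A.r j by linarith)
    exact lt_abs.2 (Or.inr (by linarith))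

open Classical in
/-- the operator whose fixed point is the conjugating map -/
def TT' (A B : Sys ι) (φ f : ℝ → ℝ) (x : ℝ) : ℝ :=
  if h : ∃ j, A.In j x then B.R h.choose (f (A.R h.choose x)) else φ x

theorem TT'_in {f : ℝ → ℝ} {j : ι} {x : ℝ} (h : A.In j x) :
    TT' A B φ f x = B.R j (f (A.R j x)) := by
  have hex : ∃ j, A.In j x := ⟨j, h⟩
  have : hex.choose = j := A.In_unique hex.choose_spec h
  unfold TT'
  rw [dif_pos hex, this]

theorem TT'_out {f : ℝ → ℝ} {x : ℝ} (h : ¬ ∃ j, A.In j x) : TT' A B φ f x = φ x := by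
  unfold TT'
  rw [dif_neg h]

theorem TT'_loc (M : Match A B φ) {f : ℝ → ℝ} (hf : Loc A B φ f) :
    Loc A B φ (TT' A B φ f) := by
  refine ⟨?_, fun x hx => TT'_out hx, ?_⟩
  · intro j x h
    rw [TT'_in h]
    by_cases hx : x = A.c j
    · subst hx
      rw [A.R_center, hf.mid, B.R_center]
      unfold Sys.In
      simpa using B.rpos j
    · exact B.R_in (hf.far M (A.R_out h hx))
  · intro j
    have : A.In j (A.c j) := by unfold Sys.In; simpa using A.rpos j
    rw [TT'_in this, A.R_center, hf.mid, B.R_center]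

def HH (A B : Sys ι) (φ : ℝ → ℝ) (n : ℕ) : ℝ → ℝ := (TT' A B φ)^[n] φ

theorem HH_succ (n : ℕ) : HH A B φ (n + 1) = TT' A B φ (HH A B φ n) := by
  unfold HH
  rw [Function.iterate_succ_apply']

theorem HH_loc (M : Match A B φ) (n : ℕ) : Loc A B φ (HH A B φ n) := by
  induction n with
  | zero => exact M.loc
  | succ n ih => rw [HH_succ]; exact TT'_loc M ih

theorem HH_near (M : Match A B φ) (n : ℕ) : ∀ j x, A.In j x →
    B.Near j (HH A B φ (n + 2) x) (HH A B φ (n + 1) x) (1 / 100 * (1 / 4) ^ n) := by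
  have hrefl : ∀ (j : ι) (u κ : ℝ), 0 ≤ κ → B.Near j u u κ := by
    intro j u κ hκ
    unfold Sys.Near
    rw [sub_self]
    have : 0 ≤ κ * (|B.r j ^ 2 - (u - B.c j) ^ 2| * |B.r j ^ 2 - (u - B.c j) ^ 2|) := by
      positivity
    simpa using this
  have gen : ∀ (m : ℕ) (κ : ℝ), 0 ≤ κ →
      (∀ j l y, l ≠ j → A.In l y → B.Near j (HH A B φ (m + 1) y) (HH A B φ m y) κ) →
      ∀ j x, A.In j x → B.Near j (HH A B φ (m + 2) x) (HH A B φ (m + 1) x) κ := by
    intro m κ hκ hyp j x h
    by_cases hx : x = A.c j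
    · subst hx
      rw [(HH_loc M _).mid, (HH_loc M _).mid]
      exact hrefl j _ κ hκ
    · have hout := A.R_out h hx
      rw [HH_succ (m + 1), HH_succ m, TT'_in h, TT'_in h, ← HH_succ m]
      have f1 := (HH_loc M (m + 1)).far M hout
      have f2 := (HH_loc M m).far M hout
      have n1 : HH A B φ (m + 1) (A.R j x) ≠ B.c j := by
        intro h'; rw [h'] at f1; simp at f1; linarith [B.rpos j]
      have n2 : HH A B φ m (A.R j x) ≠ B.c j := by
        intro h'; rw [h'] at f2; simp at f2; linarith [B.rpos j]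
      apply B.near_R n1 n2
      by_cases hy : ∃ l, A.In l (A.R j x)
      · obtain ⟨l, hl⟩ := hy
        have hlj : l ≠ j := by
          rintro rfl
          unfold Sys.In at hl
          linarith
        exact hyp j l _ hlj hl
      · rw [(HH_loc M _).out _ hy, (HH_loc M _).out _ hy]
        exact hrefl j _ κ hκ
  induction n with
  | zero =>
    intro j x h
    have := gen 0 (1 / 100) (by norm_num) (fun j l y hlj hl =>
      B.near_base hlj ((HH_loc M _).inn l y hl).le ((HH_loc M _).inn l y hl).le) j x h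
    simpa using this
  | succ n ih =>
    intro j x h
    apply gen (n + 1) (1 / 100 * (1 / 4) ^ (n + 1)) (by positivity) _ j x h
    intro j l y hlj hl
    have h1 := ih l y hl
    have h2 := B.near_step hlj (by positivity) ((HH_loc M (n + 2)).inn l y hl).le
      ((HH_loc M (n + 1)).inn l y hl).le h1
    have e : 1 / 100 * (1 / 4 : ℝ) ^ n / 4 = 1 / 100 * (1 / 4) ^ (n + 1) := by
      rw [pow_succ]; ring
    rwa [e] at h2

theorem exists_conj (M : Match A B φ) : ∃ h : ℝ → ℝ, Loc A B φ h ∧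
    ∀ j x, h (A.R j x) = B.R j (h x) := by
  have hex : ∀ x, ∃ y, Tendsto (fun n => HH A B φ n x) atTop (𝓝 y) := by
    intro x
    by_cases hx : ∃ j, A.In j x
    · obtain ⟨j, hj⟩ := hx
      have hc : CauchySeq (fun n => HH A B φ (n + 1) x) := by
        apply cauchySeq_of_le_geometric (1 / 2) (B.r j / 10) (by norm_num)
        intro n
        have h1 := B.near_bound (by positivity) ((HH_loc M (n + 2)).inn j x hj).le
          ((HH_loc M (n + 1)).inn j x hj).le (HH_near M n j x hj)
        have hr := B.rpos j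
        rw [dist_comm, Real.dist_eq]
        have h2 : (HH A B φ (n + 2) x - HH A B φ (n + 1) x) ^ 2 ≤
            (B.r j / 10 * (1 / 2) ^ n) ^ 2 := by
          have e : (B.r j / 10 * (1 / 2 : ℝ) ^ n) ^ 2 = 1 / 100 * (1 / 4) ^ n * B.r j ^ 2 := by
            rw [mul_pow, ← pow_mul, mul_comm n 2, pow_mul]
            norm_num
            ring
          rw [e]; exact h1
        exact abs_le_of_sq_le_sq h2 (by positivity)
      obtain ⟨y, hy⟩ := cauchySeq_tendsto_of_complete hc
      exact ⟨y, (tendsto_add_atTop_iff_nat 1).1 hy⟩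
    · refine ⟨φ x, ?_⟩
      have : (fun n => HH A B φ n x) = fun _ => φ x := by
        funext n
        exact (HH_loc M n).out x hx
      rw [this]
      exact tendsto_const_nhds
  choose h hh using hex
  have hclosed : ∀ j x, A.In j x → |h x - B.c j| ≤ B.r j := by
    intro j x hj
    have h1 : Tendsto (fun n => |HH A B φ n x - B.c j|) atTop (𝓝 |h x - B.c j|) :=
      ((hh x).sub_const _).abs
    exact le_of_tendsto' h1 (fun n => ((HH_loc M n).inn j x hj).le)
  have hout : ∀ x, (¬ ∃ j, A.In j x) → h x = φ x := by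
    intro x hx
    have : (fun n => HH A B φ n x) = fun _ => φ x := by
      funext n
      exact (HH_loc M n).out x hx
    have h1 := hh x
    rw [this] at h1
    exact tendsto_nhds_unique h1 tendsto_const_nhds |>.symm ▸ rfl
  have hmid : ∀ j, h (A.c j) = B.c j := by
    intro j
    have : (fun n => HH A B φ n (A.c j)) = fun _ => B.c j := by
      funext n
      exact (HH_loc M n).mid j
    have h1 := hh (A.c j)
    rw [this] at h1
    exact (tendsto_nhds_unique h1 tendsto_const_nhds)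
  have hfar : ∀ j x, A.r j < |x - A.c j| → B.r j < |h x - B.c j| := by
    intro j x hx
    by_cases hxl : ∃ l, A.In l x
    · obtain ⟨l, hl⟩ := hxl
      have hlj : l ≠ j := by
        rintro rfl
        unfold Sys.In at hl
        linarith
      exact B.out_of_In (hclosed l x hl) hlj
    · rw [hout x hxl]
      exact M.loc.far M hx
  have hfix : ∀ j x, A.In j x → h x = B.R j (h (A.R j x)) := by
    intro j x hj
    by_cases hx : x = A.c j
    · subst hx
      rw [A.R_center, hmid, B.R_center]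
    · have h1 : Tendsto (fun n => HH A B φ (n + 1) x) atTop (𝓝 (h x)) :=
        (tendsto_add_atTop_iff_nat 1).2 (hh x)
      have h2 : Tendsto (fun n => B.R j (HH A B φ n (A.R j x))) atTop
          (𝓝 (B.R j (h (A.R j x)))) := by
        have h3 := hfar j _ (A.R_out hj hx)
        have h4 : h (A.R j x) - B.c j ≠ 0 := by
          intro h'; rw [h'] at h3; simp at h3; linarith [B.rpos j]
        unfold Sys.R
        exact tendsto_const_nhds.add
          (tendsto_const_nhds.div ((hh (A.R j x)).sub_const _) h4)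
      have h5 : (fun n => HH A B φ (n + 1) x) = fun n => B.R j (HH A B φ n (A.R j x)) := by
        funext n
        rw [HH_succ, TT'_in hj]
      rw [h5] at h1
      exact tendsto_nhds_unique h1 h2
  refine ⟨h, ⟨?_, hout, hmid⟩, ?_⟩
  · intro j x hj
    by_cases hx : x = A.c j
    · subst hx
      rw [hmid]
      unfold Sys.In
      simpa using B.rpos j
    · rw [hfix j x hj]
      exact B.R_in (hfar j _ (A.R_out hj hx))
  · intro j x
    rcases lt_trichotomy |x - A.c j| (A.r j) with h1 | h1 | h1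
    · rw [hfix j x h1, B.R_R]
    · -- x is an end point : fixed by R
      have hr := A.rpos j
      have hxe : x = A.c j + A.r j ∨ x = A.c j - A.r j := by
        rcases (abs_eq hr.le).1 h1 with h2 | h2
        · left; linarith
        · right; linarith
      have hRx : A.R j x = x := by
        rcases hxe with h2 | h2
        · rw [h2, A.R_right]
        · rw [h2, A.R_left]
      have hE : ¬ ∃ l, A.In l x := by
        rintro ⟨l, hl⟩
        by_cases hlj : l = j
        · subst hlj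
          unfold Sys.In at hl
          linarith
        · have := A.out_of_In (le_of_lt hl) hlj
          linarith
      rw [hRx, hout x hE]
      rcases hxe with h2 | h2
      · rw [h2, M.right, B.R_right]
      · rw [h2, M.left, B.R_left]
    · have h2 := A.R_in h1
      rw [hfix j _ h2, A.R_R]

end

end Pool.Agent.H859R3

end
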