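import Pool.Agent.H859R3.CircSys

set_option autoImplicit false

noncomputable section

namespace Pool.Agent.H859R3

open Matrix

abbrev M2 := Matrix (Fin 2) (Fin 2) ℝ

/-! ### words and reduction -/

open Classical in
def redStep {ι : Type} (i : ι) (L : List ι) : List ι :=
  match L with
  | [] => [i]
  | j :: L' => if i = j then L' else i :: j :: L'

def red {ι : Type} (L : List ι) : List ι := L.foldr redStep []

theorem red_cons {ι : Type} (i : ι) (L : List ι) : red (i :: L) = redStep i (red L) := rfl

def wd {ι : Type} (m : ι → M2) (L : List ι) : M2 := (L.map m).prod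

theorem wd_nil {ι : Type} (m : ι → M2) : wd m [] = 1 := rfl

theorem wd_cons {ι : Type} (m : ι → M2) (i : ι) (L : List ι) : wd m (i :: L) = m i * wd m L := by
  simp [wd]

theorem wd_append {ι : Type} (m : ι → M2) (L L' : List ι) :
    wd m (L ++ L') = wd m L * wd m L' := by
  simp [wd]

theorem wd_red {ι : Type} (m : ι → M2) (hm : ∀ i, m i * m i = 1) (L : List ι) :
    wd m (red L) = wd m L := by
  induction L with
  | nil => rfl
  | cons i L ih =>
    rw [wd_cons, ← ih, red_cons]
    rcases red L with _ | ⟨j, L'⟩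
    · simp [wd, redStep]
    · simp only [redStep]
      split_ifs with hij
      · subst hij
        rw [wd_cons, ← mul_assoc, hm, one_mul]
      · rw [wd_cons]

theorem red_chain {ι : Type} (L : List ι) : List.IsChain (· ≠ ·) (red L) := by
  induction L with
  | nil => exact List.IsChain.nil
  | cons i L ih =>
    rw [red_cons]
    rcases h : red L with _ | ⟨j, L'⟩
    · exact List.IsChain.singleton i
    · simp only [redStep]
      rw [h] at ih
      split_ifs with hij
      · exact ih.tail
      · exact List.IsChain.cons_cons hij ih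

theorem red_sub {ι : Type} (L : List ι) : ∀ i ∈ red L, i ∈ L := by
  induction L with
  | nil => intro i hi; exact hi
  | cons i L ih =>
    intro k hk
    rw [red_cons] at hk
    rcases h : red L with _ | ⟨j, L'⟩
    · rw [h] at hk
      simp only [redStep, List.mem_singleton] at hk
      rw [hk]
      exact List.mem_cons_self
    · rw [h] at hk ih
      simp only [redStep] at hk
      split_ifs at hk with hij
      · exact List.mem_cons_of_mem _ (ih k (List.mem_cons_of_mem _ hk))
      · rcases List.mem_cons.1 hk with h1 | h1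
        · rw [h1]; exact List.mem_cons_self
        · exact List.mem_cons_of_mem _ (ih k h1)

theorem red_len {ι : Type} (L : List ι) :
    (red L).length ≤ L.length ∧ (red L).length % 2 = L.length % 2 := by
  induction L with
  | nil => exact ⟨le_rfl, rfl⟩
  | cons i L ih =>
    rw [red_cons]
    rcases h : red L with _ | ⟨j, L'⟩
    · rw [h] at ih
      simp only [redStep, List.length_nil, List.length_cons] at ih ⊢
      omega
    · rw [h] at ih
      simp only [redStep, List.length_cons] at ih ⊢
      split_ifs with hij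
      · omega
      · simp only [List.length_cons]
        omega

theorem wd_reverse {ι : Type} (m : ι → M2) (hm : ∀ i, m i * m i = 1) (L : List ι) :
    wd m L * wd m L.reverse = 1 := by
  induction L with
  | nil => simp [wd]
  | cons i L ih =>
    rw [List.reverse_cons, wd_append, wd_cons, wd_cons, wd_nil, mul_one, mul_assoc,
      ← mul_assoc (wd m L), ih, one_mul, hm]

theorem wd_det {ι : Type} (m : ι → M2) (hm : ∀ i, (m i).det = -1) (L : List ι) :
    (wd m L).det = (-1) ^ L.length := by
  induction L with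
  | nil => simp [wd]
  | cons i L ih =>
    rw [wd_cons, Matrix.det_mul, ih, hm, List.length_cons, pow_succ]
    ring

/-! ### the linear action on pairs -/

def act (M : M2) (v : ℝ × ℝ) : ℝ × ℝ :=
  (M 0 0 * v.1 + M 0 1 * v.2, M 1 0 * v.1 + M 1 1 * v.2)

theorem act_mul (M N : M2) (v : ℝ × ℝ) : act (M * N) v = act M (act N v) := by
  unfold act
  simp only [Matrix.mul_apply, Fin.sum_univ_two]
  ext <;> simp only <;> ring

theorem act_one (v : ℝ × ℝ) : act 1 v = v := by
  unfold act; simp

namespace Sys

variable {ι : Type} (A : Sys ι)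

def mat (j : ι) : M2 :=
  !![A.c j / A.r j, (A.r j ^ 2 - A.c j ^ 2) / A.r j; 1 / A.r j, -A.c j / A.r j]

theorem mat_sq (j : ι) : A.mat j * A.mat j = 1 := by
  have h := (A.rpos j).ne'
  unfold mat
  rw [Matrix.mul_fin_two, Matrix.one_fin_two]
  have e1 : A.c j / A.r j * (A.c j / A.r j) +
      (A.r j ^ 2 - A.c j ^ 2) / A.r j * (1 / A.r j) = 1 := by field_simp; ring
  have e2 : A.c j / A.r j * ((A.r j ^ 2 - A.c j ^ 2) / A.r j) +
      (A.r j ^ 2 - A.c j ^ 2) / A.r j * (-A.c j / A.r j) = 0 := by field_simp; ring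
  have e3 : 1 / A.r j * (A.c j / A.r j) + -A.c j / A.r j * (1 / A.r j) = 0 := by
    field_simp; ring
  have e4 : 1 / A.r j * ((A.r j ^ 2 - A.c j ^ 2) / A.r j) +
      -A.c j / A.r j * (-A.c j / A.r j) = 1 := by field_simp; ring
  rw [e1, e2, e3, e4]

theorem mat_det (j : ι) : (A.mat j).det = -1 := by
  have h := (A.rpos j).ne'
  unfold mat
  rw [Matrix.det_fin_two_of]
  field_simp
  ring

/-- closed cone over a block -/
def Kc (j : ι) (v : ℝ × ℝ) : Prop := |v.1 - A.c j * v.2| ≤ A.r j * |v.2| ∧ v.2 ≠ 0

def Oc (j : ι) (v : ℝ × ℝ) : Prop := A.r j * |v.2| ≤ |v.1 - A.c j * v.2| ∧ v.1 - A.c j * v.2 ≠ 0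

theorem mat_act (j : ι) (v : ℝ × ℝ) : act (A.mat j) v =
    ((A.c j * v.1 + (A.r j ^ 2 - A.c j ^ 2) * v.2) / A.r j, (v.1 - A.c j * v.2) / A.r j) := by
  unfold act mat
  simp only [Matrix.of_apply, Matrix.cons_val', Matrix.cons_val_zero, Matrix.cons_val_one,
    Matrix.cons_val_fin_one]
  ext
  · simp only; ring
  · simp only; ring

theorem mat_cone {j : ι} {v : ℝ × ℝ} (h : A.Oc j v) : A.Kc j (act (A.mat j) v) := by
  have hr := A.rpos j
  obtain ⟨h1, h2⟩ := h
  rw [mat_act]
  refine ⟨?_, div_ne_zero h2 hr.ne'⟩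
  simp only
  have e : (A.c j * v.1 + (A.r j ^ 2 - A.c j ^ 2) * v.2) / A.r j -
      A.c j * ((v.1 - A.c j * v.2) / A.r j) = A.r j * v.2 := by
    field_simp
    ring
  rw [e, abs_mul, abs_div, abs_of_pos hr]
  have : A.r j * (|v.1 - A.c j * v.2| / A.r j) = |v.1 - A.c j * v.2| := by
    field_simp
  rw [this]
  exact h1

theorem cone_out {l j : ι} (hlj : l ≠ j) {v : ℝ × ℝ} (h : A.Kc l v) : A.Oc j v := by
  obtain ⟨h1, h2⟩ := h
  have hs := A.sep l j hlj
  have hm := A.min_pos' l j
  have hv : 0 < |v.2| := abs_pos.2 h2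
  have hrj := A.rpos j
  have t : |(A.c l - A.c j) * v.2| ≤ |v.1 - A.c j * v.2| + |v.1 - A.c l * v.2| := by
    have : (A.c l - A.c j) * v.2 = (v.1 - A.c j * v.2) - (v.1 - A.c l * v.2) := by ring
    rw [this]
    exact abs_sub _ _
  rw [abs_mul] at t
  have k : (A.r l + A.r j) * |v.2| < |A.c l - A.c j| * |v.2| :=
    mul_lt_mul_of_pos_right (by linarith) hv
  have k2 : A.r j * |v.2| < |v.1 - A.c j * v.2| := by nlinarith
  refine ⟨k2.le, ?_⟩
  intro h0
  rw [h0, abs_zero] at k2
  have := mul_pos hrj hv
  linarith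

theorem Oc_one (j : ι) : A.Oc j (1, 0) := by
  unfold Oc; simp

theorem word_cone {v : ℝ × ℝ} (L : List ι) : ∀ i : ι, List.IsChain (· ≠ ·) (i :: L) →
    A.Oc ((i :: L).getLast (List.cons_ne_nil i L)) v → A.Kc i (act (wd A.mat (i :: L)) v) := by
  induction L with
  | nil =>
    intro i _ h
    rw [wd_cons, wd_nil, mul_one]
    exact A.mat_cone h
  | cons j L ih =>
    intro i hc h
    rw [wd_cons, act_mul]
    apply A.mat_cone
    rw [List.isChain_cons_cons] at hc
    apply A.cone_out (Ne.symm hc.1)
    apply ih j hc.2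
    rwa [List.getLast_cons (List.cons_ne_nil j L)] at h

/-- no reduced word is near the identity -/
theorem no_near (hr1 : ∀ j, A.r j ≤ 1) (L : List ι) (hL : List.IsChain (· ≠ ·) L) (hne : L ≠ [])
    (hev : L.length % 2 = 0)
    (hn : ∀ i j : Fin 2, |wd A.mat L i j - (1 : M2) i j| < 1 / 10) : False := by
  have n00 := hn 0 0
  have n01 := hn 0 1
  have n10 := hn 1 0
  have n11 := hn 1 1
  simp only [Matrix.one_apply_eq, Matrix.one_apply_ne (show (0 : Fin 2) ≠ 1 by decide),
    Matrix.one_apply_ne (show (1 : Fin 2) ≠ 0 by decide), sub_zero] at n00 n01 n10 n11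
  set M := wd A.mat L with hM
  have hdet : M.det = 1 := by
    rw [hM, wd_det _ A.mat_det]
    exact (Nat.even_iff.2 hev).neg_one_pow
  have hrev : wd A.mat L.reverse = M.adjugate := by
    have h1 := wd_reverse A.mat A.mat_sq L
    rw [← hM] at h1
    calc wd A.mat L.reverse = (M.adjugate * M) * wd A.mat L.reverse := by
          rw [Matrix.adjugate_mul, hdet, one_smul, one_mul]
      _ = M.adjugate * (M * wd A.mat L.reverse) := by rw [mul_assoc]
      _ = _ := by rw [h1, mul_one]
  obtain ⟨i, L', rfl⟩ := List.exists_cons_of_ne_nil hne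
  have k1 := A.word_cone L' i hL (A.Oc_one _)
  rw [← hM] at k1
  -- the reversed word
  have hrne : (i :: L').reverse ≠ [] := by simp
  obtain ⟨l, L'', hl⟩ := List.exists_cons_of_ne_nil hrne
  have hrc : List.IsChain (· ≠ ·) (l :: L'') := by
    rw [← hl, List.isChain_reverse]
    exact hL.imp (fun a b hab => hab.symm)
  have k2 := A.word_cone L'' l hrc (A.Oc_one _)
  rw [← hl, hrev] at k2
  have hlast : (i :: L').getLast (List.cons_ne_nil i L') = l := by
    have : (i :: L') = (l :: L'').reverse := by rw [← hl, List.reverse_reverse]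
    simp [this]
  obtain ⟨a1, a2⟩ := k1
  obtain ⟨b1, b2⟩ := k2
  simp only [act, Matrix.adjugate_fin_two, Matrix.of_apply, Matrix.cons_val',
    Matrix.cons_val_zero, Matrix.cons_val_one, Matrix.cons_val_fin_one, mul_one, mul_zero,
    add_zero, abs_neg] at a1 a2 b1 b2
  have hri := A.rpos i
  have hrl := A.rpos l
  have hri1 := hr1 i
  have hrl1 := hr1 l
  rw [abs_lt] at n00 n11
  have cz0 : 0 ≤ |M 1 0| := abs_nonneg _
  -- far away
  have far1 : 8 ≤ |A.c i| := by
    have t : |M 0 0| ≤ |M 0 0 - A.c i * M 1 0| + |A.c i * M 1 0| := by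
      have := abs_add_le (M 0 0 - A.c i * M 1 0) (A.c i * M 1 0)
      rwa [sub_add_cancel] at this
    rw [abs_mul] at t
    have t2 : M 0 0 ≤ |M 0 0| := le_abs_self _
    have t3 : A.r i * |M 1 0| ≤ 1 * (1 / 10) :=
      mul_le_mul hri1 n10.le cz0 (by norm_num)
    have t4 : |A.c i| * |M 1 0| ≤ |A.c i| * (1 / 10) :=
      mul_le_mul_of_nonneg_left n10.le (abs_nonneg _)
    linarith
  have far2 : 8 ≤ |A.c l| := by
    have t : |M 1 1| ≤ |M 1 1 - A.c l * -M 1 0| + |A.c l * -M 1 0| := by
      have := abs_add_le (M 1 1 - A.c l * -M 1 0) (A.c l * -M 1 0)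
      rwa [sub_add_cancel] at this
    rw [abs_mul (A.c l), abs_neg] at t
    have t2 : M 1 1 ≤ |M 1 1| := le_abs_self _
    have t3 : A.r l * |M 1 0| ≤ 1 * (1 / 10) :=
      mul_le_mul hrl1 n10.le cz0 (by norm_num)
    have t4 : |A.c l| * |M 1 0| ≤ |A.c l| * (1 / 10) :=
      mul_le_mul_of_nonneg_left n10.le (abs_nonneg _)
    linarith
  have k3 : A.Kc i (act M (0, 1)) := by
    rw [hM]
    apply A.word_cone L' i hL
    rw [hlast]
    unfold Oc
    simp only [mul_one, zero_sub, abs_neg, abs_one, neg_ne_zero]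
    refine ⟨by linarith, ?_⟩
    intro h0
    rw [h0, abs_zero] at far2
    linarith
  obtain ⟨d1, d2⟩ := k3
  simp only [act, mul_one, mul_zero, zero_add] at d1 d2
  have t : |A.c i * M 1 1| ≤ |M 0 1 - A.c i * M 1 1| + |M 0 1| := by
    have : A.c i * M 1 1 = M 0 1 - (M 0 1 - A.c i * M 1 1) := by ring
    have h2 := abs_sub (M 0 1) (M 0 1 - A.c i * M 1 1)
    rw [← this] at h2
    linarith
  rw [abs_mul] at t
  have t1 : |M 1 1| = M 1 1 := abs_of_pos (by linarith)
  rw [t1] at t d1
  have t2 : A.r i * M 1 1 ≤ 1 * (11 / 10) :=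
    mul_le_mul hri1 (by linarith) (by linarith) (by norm_num)
  nlinarith

/-- torsion freeness, for even words -/
theorem word_torsion (n : ℕ) (hn : 0 < n) : ∀ k : ℕ, ∀ L : List ι, L.length ≤ k →
    L.length % 2 = 0 → (wd A.mat L ^ n = 1 ∨ wd A.mat L ^ n = -1) →
    (wd A.mat L = 1 ∨ wd A.mat L = -1) := by
  intro k
  induction k with
  | zero =>
    intro L hL _ _
    have : L = [] := List.length_eq_zero_iff.1 (by omega)
    rw [this]
    exact Or.inl rfl
  | succ k ih =>
    intro L hL hev hp
    have hlen := red_len L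
    have hc := red_chain L
    have hw := wd_red A.mat A.mat_sq L
    rw [← hw] at hp ⊢
    rcases hR : red L with _ | ⟨i, L'⟩
    · exact Or.inl rfl
    · rw [hR] at hlen hc hp
      rcases List.eq_nil_or_concat L' with h0 | ⟨L1, j, h0⟩
      · rw [h0] at hlen
        simp at hlen
        omega
      · rw [List.concat_eq_append] at h0
        subst h0
        by_cases hij : i = j
        · subst hij
          have e : wd A.mat (i :: (L1 ++ [i])) = A.mat i * wd A.mat L1 * A.mat i := by
            rw [wd_cons, wd_append, wd_cons, wd_nil, mul_one, mul_assoc]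
          have e2 : ∀ m : ℕ, wd A.mat (i :: (L1 ++ [i])) ^ m =
              A.mat i * wd A.mat L1 ^ m * A.mat i := by
            intro m
            induction m with
            | zero => rw [pow_zero, pow_zero, mul_one, A.mat_sq]
            | succ m ihm =>
              rw [pow_succ, ihm, e, pow_succ]
              calc A.mat i * wd A.mat L1 ^ m * A.mat i * (A.mat i * wd A.mat L1 * A.mat i)
                  = A.mat i * wd A.mat L1 ^ m * (A.mat i * A.mat i) * wd A.mat L1 * A.mat i := by
                    simp only [mul_assoc]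
                _ = _ := by rw [A.mat_sq, mul_one]; simp only [mul_assoc]
          have e3 : ∀ X : M2, A.mat i * (A.mat i * X * A.mat i) * A.mat i = X := by
            intro X
            calc A.mat i * (A.mat i * X * A.mat i) * A.mat i
                = (A.mat i * A.mat i) * X * (A.mat i * A.mat i) := by simp only [mul_assoc]
              _ = X := by rw [A.mat_sq, one_mul, mul_one]
          have h1 : wd A.mat L1 ^ n = 1 ∨ wd A.mat L1 ^ n = -1 := by
            rw [e2] at hp
            rcases hp with hp | hp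
            · left
              rw [← e3 (wd A.mat L1 ^ n), hp, mul_one, A.mat_sq]
            · right
              rw [← e3 (wd A.mat L1 ^ n), hp, mul_neg, mul_one, neg_mul, A.mat_sq]
          have h2 := ih L1 (by simp at hlen; omega) (by simp at hlen; omega) h1
          rw [e]
          rcases h2 with h2 | h2
          · left; rw [h2, mul_one, A.mat_sq]
          · right; rw [h2, mul_neg, mul_one, neg_mul, A.mat_sq]
        · exfalso
          have hlast : (i :: (L1 ++ [j])).getLast (List.cons_ne_nil _ _) = j := by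
            simp
          have hk : ∀ m : ℕ, A.Kc i (act (wd A.mat (i :: (L1 ++ [j])) ^ (m + 1)) (1, 0)) := by
            intro m
            induction m with
            | zero =>
              rw [zero_add, pow_one]
              exact A.word_cone _ i hc (A.Oc_one _)
            | succ m ihm =>
              rw [pow_succ', act_mul]
              apply A.word_cone _ i hc
              rw [hlast]
              exact A.cone_out hij ihm
          obtain ⟨m, rfl⟩ : ∃ m, n = m + 1 := ⟨n - 1, by omega⟩
          have h1 := (hk m).2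
          rcases hp with hp | hp
          · rw [hp] at h1
            simp [act] at h1
          · rw [hp] at h1
            simp [act] at h1

/-- words avoiding a letter -/
theorem word_avoid {k l : ι} (hkl : k ≠ l) (L : List ι) (hk : k ∉ L)
    (h : wd A.mat [k, l] = wd A.mat L) : False := by
  have h1 : A.Kc k (act (wd A.mat [k, l]) (1, 0)) :=
    A.word_cone [l] k (List.IsChain.cons_cons hkl (List.IsChain.singleton l)) (A.Oc_one _)
  rw [h, ← wd_red A.mat A.mat_sq L] at h1
  have hs := red_sub L
  have hc := red_chain L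
  rcases hR : red L with _ | ⟨i, L'⟩
  · rw [hR, wd_nil, act_one] at h1
    exact h1.2 rfl
  · rw [hR] at h1 hs hc
    have hi : i ∈ L := hs i List.mem_cons_self
    have hki : i ≠ k := by rintro rfl; exact hk hi
    have h2 := A.cone_out hki (A.word_cone L' i hc (A.Oc_one _))
    obtain ⟨a, b⟩ := h1
    -- strict separation
    have h3 := A.word_cone L' i hc (A.Oc_one _)
    obtain ⟨c1, c2⟩ := h3
    set v := act (wd A.mat (i :: L')) (1, 0)
    have hs := A.sep i k hki
    have hm := A.min_pos' i k
    have hv : 0 < |v.2| := abs_pos.2 b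
    have t : |(A.c i - A.c k) * v.2| ≤ |v.1 - A.c k * v.2| + |v.1 - A.c i * v.2| := by
      have : (A.c i - A.c k) * v.2 = (v.1 - A.c k * v.2) - (v.1 - A.c i * v.2) := by ring
      rw [this]
      exact abs_sub _ _
    rw [abs_mul] at t
    have k : (A.r i + A.r k) * |v.2| < |A.c i - A.c k| * |v.2| :=
      mul_lt_mul_of_pos_right (by linarith) hv
    nlinarith

end Sys

/-! ### equivariance -/

def HV (h : ℝ → ℝ) (v v' : ℝ × ℝ) : Prop :=
  (v.2 ≠ 0 ∧ v'.2 ≠ 0 ∧ v'.1 / v'.2 = h (v.1 / v.2)) ∨
    (v.2 = 0 ∧ v'.2 = 0 ∧ v.1 ≠ 0 ∧ v'.1 ≠ 0)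

theorem HV_step {ι : Type} {A B : Sys ι} {h : ℝ → ℝ} (hm : ∀ j, h (A.c j) = B.c j)
    (hi : Function.Injective h) (E : ∀ j x, h (A.R j x) = B.R j (h x)) (j : ι) {v v' : ℝ × ℝ}
    (H : HV h v v') : HV h (act (A.mat j) v) (act (B.mat j) v') := by
  have hA := A.rpos j
  have hB := B.rpos j
  rw [A.mat_act, B.mat_act]
  rcases H with ⟨h1, h2, h3⟩ | ⟨h1, h2, h3, h4⟩
  · by_cases hc : v.1 / v.2 = A.c j
    · right
      have e1 : v.1 = A.c j * v.2 := by rw [← hc]; field_simp
      have e2 : v'.1 = B.c j * v'.2 := by rw [← hm, ← hc, ← h3]; field_simp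
      simp only
      refine ⟨by rw [e1]; simp, by rw [e2]; simp, ?_, ?_⟩
      · rw [e1]
        have : (A.c j * (A.c j * v.2) + (A.r j ^ 2 - A.c j ^ 2) * v.2) / A.r j =
            A.r j * v.2 := by field_simp; ring
        rw [this]
        exact mul_ne_zero hA.ne' h1
      · rw [e2]
        have : (B.c j * (B.c j * v'.2) + (B.r j ^ 2 - B.c j ^ 2) * v'.2) / B.r j =
            B.r j * v'.2 := by field_simp; ring
        rw [this]
        exact mul_ne_zero hB.ne' h2
    · left
      have hc' : v'.1 / v'.2 ≠ B.c j := by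
        rw [h3, ← hm]
        intro h'
        exact hc (hi h')
      have n1 : v.1 - A.c j * v.2 ≠ 0 := by
        intro h'
        apply hc
        rw [div_eq_iff h1]
        linarith
      have n2 : v'.1 - B.c j * v'.2 ≠ 0 := by
        intro h'
        apply hc'
        rw [div_eq_iff h2]
        linarith
      simp only
      refine ⟨div_ne_zero n1 hA.ne', div_ne_zero n2 hB.ne', ?_⟩
      have f : ∀ (C : Sys ι) (w : ℝ × ℝ), w.2 ≠ 0 → w.1 - C.c j * w.2 ≠ 0 →
          (C.c j * w.1 + (C.r j ^ 2 - C.c j ^ 2) * w.2) / C.r j /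
            ((w.1 - C.c j * w.2) / C.r j) = C.R j (w.1 / w.2) := by
        intro C w w1 w2
        have hC := (C.rpos j).ne'
        unfold Sys.R
        have e : w.1 / w.2 - C.c j = (w.1 - C.c j * w.2) / w.2 := by field_simp
        rw [e]
        field_simp
        ring
      rw [f B v' h2 n2, f A v h1 n1, h3, E]
  · left
    simp only
    rw [h1, h2]
    simp only [mul_zero, sub_zero, add_zero]
    refine ⟨div_ne_zero h3 hA.ne', div_ne_zero h4 hB.ne', ?_⟩
    have e1 : A.c j * v.1 / A.r j / (v.1 / A.r j) = A.c j := by field_simp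
    have e2 : B.c j * v'.1 / B.r j / (v'.1 / B.r j) = B.c j := by field_simp
    rw [e1, e2, hm]

theorem HV_word {ι : Type} {A B : Sys ι} {h : ℝ → ℝ} (hm : ∀ j, h (A.c j) = B.c j)
    (hi : Function.Injective h) (E : ∀ j x, h (A.R j x) = B.R j (h x)) (L : List ι)
    {v v' : ℝ × ℝ} (H : HV h v v') : HV h (act (wd A.mat L) v) (act (wd B.mat L) v') := by
  induction L with
  | nil => rw [wd_nil, wd_nil, act_one, act_one]; exact H
  | cons i L ih => rw [wd_cons, wd_cons, act_mul, act_mul]; exact HV_step hm hi E i ih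

end Pool.Agent.H859R3

end
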