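import Mathlib
set_option autoImplicit false
open MeasureTheory Polynomial
namespace Kr

lemma span_aux (p : ℕ → ℝ[X]) (hp : ∀ n, (p n).degree = ((n : ℕ) : WithBot ℕ)) :
    ∀ n : ℕ, ∀ f : ℝ[X], f.degree < (n : WithBot ℕ) → f ∈ Submodule.span ℝ (p '' Set.Iio n) := by
  intro n
  induction n with
  | zero =>
    intro f hf
    have : f = 0 := by
      ext m
      have := (Polynomial.degree_lt_iff_coeff_zero f 0).1 hf m (Nat.zero_le _)
      simpa using this
    rw [this]; exact Submodule.zero_mem _
  | succ n ih =>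
    intro f hf
    have hpn : (p n).coeff n ≠ 0 := Polynomial.coeff_ne_zero_of_eq_degree (hp n)
    have hf' := (Polynomial.degree_lt_iff_coeff_zero f (n+1)).1 hf
    have hpn' : ∀ m, n < m → (p n).coeff m = 0 := by
      intro m hm
      apply Polynomial.coeff_eq_zero_of_degree_lt
      rw [hp n]; exact_mod_cast hm
    set c : ℝ := f.coeff n / (p n).coeff n with hc
    have hg : f - c • p n ∈ Submodule.span ℝ (p '' Set.Iio n) := by
      apply ih
      rw [Polynomial.degree_lt_iff_coeff_zero]
      intro m hm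
      rcases eq_or_lt_of_le hm with h | h
      · subst h
        simp only [coeff_sub, coeff_smul, smul_eq_mul, hc]
        field_simp
        ring
      · simp [hpn' m h, hf' m h]
    have hg' : f - c • p n ∈ Submodule.span ℝ (p '' Set.Iio (n+1)) := by
      apply Submodule.span_mono _ hg
      apply Set.image_mono
      intro k hk
      simp only [Set.mem_Iio] at hk ⊢
      omega
    have hpk : c • p n ∈ Submodule.span ℝ (p '' Set.Iio (n+1)) :=
      Submodule.smul_mem _ _ (Submodule.subset_span ⟨n, by simp, rfl⟩)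
    have := Submodule.add_mem _ hg' hpk
    simpa using this

lemma span_aux' (p : ℕ → ℝ[X]) (hp : ∀ n, (p n).degree = ((n : ℕ) : WithBot ℕ))
    (n : ℕ) (f : ℝ[X]) (hf : f.natDegree ≤ n) : f ∈ Submodule.span ℝ (p '' Set.Iio (n+1)) := by
  apply span_aux p hp
  calc f.degree ≤ (f.natDegree : WithBot ℕ) := Polynomial.degree_le_natDegree
    _ < ((n+1 : ℕ) : WithBot ℕ) := by exact_mod_cast (by omega)

/-- The Sobolev form. -/
noncomputable def B (u v w : ℝ[X] →ₗ[ℝ] ℝ) (f g : ℝ[X]) : ℝ :=
  u (f*g) + v (derivative f * derivative g) + w (derivative (derivative f) * derivative (derivative g))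

lemma B_add_left (u v w : ℝ[X] →ₗ[ℝ] ℝ) (f₁ f₂ g : ℝ[X]) :
    B u v w (f₁ + f₂) g = B u v w f₁ g + B u v w f₂ g := by
  simp only [B, derivative_add, add_mul, map_add]; ring

lemma B_smul_left (u v w : ℝ[X] →ₗ[ℝ] ℝ) (c : ℝ) (f g : ℝ[X]) :
    B u v w (c • f) g = c * B u v w f g := by
  simp only [B, derivative_smul, smul_mul_assoc, map_smul, smul_eq_mul]; ring

lemma B_add_right (u v w : ℝ[X] →ₗ[ℝ] ℝ) (f g₁ g₂ : ℝ[X]) :
    B u v w f (g₁ + g₂) = B u v w f g₁ + B u v w f g₂ := by
  simp only [B, derivative_add, mul_add, map_add]; ring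

lemma B_smul_right (u v w : ℝ[X] →ₗ[ℝ] ℝ) (c : ℝ) (f g : ℝ[X]) :
    B u v w f (c • g) = c * B u v w f g := by
  simp only [B, derivative_smul, mul_smul_comm, map_smul, smul_eq_mul]; ring

lemma exists_t (u v w : ℝ[X] →ₗ[ℝ] ℝ) (p : ℕ → ℝ[X])
    (hp : ∀ n, (p n).degree = ((n : ℕ) : WithBot ℕ))
    (hu : ∀ n m, n ≠ m → u (p n * p m) = 0) (hu' : ∀ n, u (p n * p n) ≠ 0)
    (hB : ∀ n m, n ≠ m → B u v w (p n) (p m) = 0) (n : ℕ) (f : ℝ[X]) (hf : f.natDegree ≤ n) :
    ∃ t : ℝ[X], t.natDegree ≤ n ∧ ∀ g, B u v w f g = u (t * g) := by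
  have h := span_aux' p hp n f hf
  refine Submodule.span_induction (p := fun f _ => ∃ t : ℝ[X], t.natDegree ≤ n ∧ ∀ g, B u v w f g = u (t * g)) ?_ ?_ ?_ ?_ h
  · rintro x ⟨k, hk, rfl⟩
    simp only [Set.mem_Iio] at hk
    refine ⟨(B u v w (p k) (p k) / u (p k * p k)) • p k, ?_, ?_⟩
    · calc ((B u v w (p k) (p k) / u (p k * p k)) • p k).natDegree ≤ (p k).natDegree :=
          Polynomial.natDegree_smul_le _ _
        _ = k := Polynomial.natDegree_eq_of_degree_eq_some (hp k)
        _ ≤ n := by omega
    · intro g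
      have hg := span_aux' p hp g.natDegree g le_rfl
      refine Submodule.span_induction (p := fun g _ => B u v w (p k) g = u ((B u v w (p k) (p k) / u (p k * p k)) • p k * g)) ?_ ?_ ?_ ?_ hg
      · rintro y ⟨m, _, rfl⟩
        by_cases hkm : k = m
        · subst hkm
          rw [smul_mul_assoc, map_smul, smul_eq_mul, div_mul_cancel₀ _ (hu' k)]
        · rw [smul_mul_assoc, map_smul, smul_eq_mul, hu k m hkm, hB k m hkm, mul_zero]
      · simp [B]
      · intro x y _ _ hx hy
        rw [B_add_right, hx, hy, mul_add, map_add]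
      · intro a x _ hx
        rw [B_smul_right, hx, mul_smul_comm, map_smul, smul_eq_mul]
  · exact ⟨0, by simp, by simp [B]⟩
  · rintro x y _ _ ⟨t1, h1, h1'⟩ ⟨t2, h2, h2'⟩
    refine ⟨t1 + t2, (Polynomial.natDegree_add_le _ _).trans (max_le h1 h2), ?_⟩
    intro g
    rw [B_add_left, h1', h2', add_mul, map_add]
  · rintro a x _ ⟨t, h1, h1'⟩
    refine ⟨a • t, (Polynomial.natDegree_smul_le _ _).trans h1, ?_⟩
    intro g
    rw [B_smul_left, h1', smul_mul_assoc, map_smul, smul_eq_mul]

theorem alg (u v w : ℝ[X] →ₗ[ℝ] ℝ) (p : ℕ → ℝ[X])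
    (hp : ∀ n, (p n).degree = ((n : ℕ) : WithBot ℕ))
    (hu : ∀ n m, n ≠ m → u (p n * p m) = 0) (hu' : ∀ n, u (p n * p n) ≠ 0)
    (hB : ∀ n m, n ≠ m → B u v w (p n) (p m) = 0) :
    ∃ A b E G : ℝ[X], A.natDegree ≤ 4 ∧ b.natDegree ≤ 3 ∧ E.natDegree ≤ 2 ∧ G.natDegree ≤ 1 ∧
      (∀ g, w g = u (A * g)) ∧ (∀ g, w (derivative g) = - u (b * g)) ∧
      (∀ g, v (derivative g) = u (G * g)) ∧
      (∀ g, v g = - u (b * derivative g + E * g)) := by
  obtain ⟨t1, d1, h1⟩ := exists_t u v w p hp hu hu' hB 1 X (by simp)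
  obtain ⟨t2, d2, h2⟩ := exists_t u v w p hp hu hu' hB 2 (X^2) (by simp)
  obtain ⟨t3, d3, h3⟩ := exists_t u v w p hp hu hu' hB 3 (X^3) (by simp)
  obtain ⟨t4, d4, h4⟩ := exists_t u v w p hp hu hu' hB 4 (X^4) (by simp)
  -- expansions
  have c2 : (C (2:ℝ) : ℝ[X]) = 2 := map_ofNat C 2
  have c3 : (C (3:ℝ) : ℝ[X]) = 3 := map_ofNat C 3
  have c4 : (C (4:ℝ) : ℝ[X]) = 4 := map_ofNat C 4
  have c6 : (C (6:ℝ) : ℝ[X]) = 6 := map_ofNat C 6
  have c12 : (C (12:ℝ) : ℝ[X]) = 12 := map_ofNat C 12
  have hX2 : derivative (X^2:ℝ[X]) = 2*X := by rw [pow_two, derivative_mul, derivative_X]; ring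
  have hX3 : derivative (X^3:ℝ[X]) = 3*X^2 := by
    rw [pow_succ, derivative_mul, hX2, derivative_X]; ring
  have hX4 : derivative (X^4:ℝ[X]) = 4*X^3 := by
    rw [pow_succ, derivative_mul, hX3, derivative_X]; ring
  have e1 : ∀ g, u (X * g) + v (derivative g) = u (t1 * g) := by
    intro g; rw [← h1 g]; simp [B]
  have e2 : ∀ g, u (X^2 * g) + 2 * v (X * derivative g) + 2 * w (derivative (derivative g)) = u (t2 * g) := by
    intro g; rw [← h2 g]
    have a1 : derivative (X^2 : ℝ[X]) * derivative g = (2:ℝ) • (X * derivative g) := by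
      simp only [derivative_mul, derivative_add, hX2, hX3, hX4, derivative_X, derivative_one, derivative_ofNat, smul_eq_C_mul, c2, c3, c4, c6, c12]; ring
    have a2 : derivative (derivative (X^2 : ℝ[X])) * derivative (derivative g) = (2:ℝ) • (derivative (derivative g)) := by
      simp only [derivative_mul, derivative_add, hX2, hX3, hX4, derivative_X, derivative_one, derivative_ofNat, smul_eq_C_mul, c2, c3, c4, c6, c12]; ring
    rw [B, a1, a2, map_smul, map_smul]; simp
  have e3 : ∀ g, u (X^3 * g) + 3 * v (X^2 * derivative g) + 6 * w (X * derivative (derivative g)) = u (t3 * g) := by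
    intro g; rw [← h3 g]
    have a1 : derivative (X^3 : ℝ[X]) * derivative g = (3:ℝ) • (X^2 * derivative g) := by
      simp only [derivative_mul, derivative_add, hX2, hX3, hX4, derivative_X, derivative_one, derivative_ofNat, smul_eq_C_mul, c2, c3, c4, c6, c12]; ring
    have a2 : derivative (derivative (X^3 : ℝ[X])) * derivative (derivative g) = (6:ℝ) • (X * derivative (derivative g)) := by
      simp only [derivative_mul, derivative_add, hX2, hX3, hX4, derivative_X, derivative_one, derivative_ofNat, smul_eq_C_mul, c2, c3, c4, c6, c12]; ring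
    rw [B, a1, a2, map_smul, map_smul]; simp
  have e4 : ∀ g, u (X^4 * g) + 4 * v (X^3 * derivative g) + 12 * w (X^2 * derivative (derivative g)) = u (t4 * g) := by
    intro g; rw [← h4 g]
    have a1 : derivative (X^4 : ℝ[X]) * derivative g = (4:ℝ) • (X^3 * derivative g) := by
      simp only [derivative_mul, derivative_add, hX2, hX3, hX4, derivative_X, derivative_one, derivative_ofNat, smul_eq_C_mul, c2, c3, c4, c6, c12]; ring
    have a2 : derivative (derivative (X^4 : ℝ[X])) * derivative (derivative g) = (12:ℝ) • (X^2 * derivative (derivative g)) := by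
      simp only [derivative_mul, derivative_add, hX2, hX3, hX4, derivative_X, derivative_one, derivative_ofNat, smul_eq_C_mul, c2, c3, c4, c6, c12]; ring
    rw [B, a1, a2, map_smul, map_smul]; simp
  -- v g' = u (G g)
  set G : ℝ[X] := t1 - X with hG
  have I3 : ∀ g, v (derivative g) = u (G * g) := by
    intro g; have := e1 g; rw [hG, sub_mul, map_sub]; linarith
  -- E
  set E : ℝ[X] := (1/2:ℝ) • (t2 - X^2) - G * X with hE
  have vE : ∀ g, v g = w (derivative (derivative g)) - u (E * g) := by
    intro g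
    have a := e2 g
    have c := I3 (X * g)
    have c1 : derivative (X * g) = g + X * derivative g := by simp
    rw [c1, map_add] at c
    have d : E * g = (1/2:ℝ) • (t2 * g) - (1/2:ℝ) • (X^2 * g) - G * (X * g) := by
      rw [hE]; simp only [smul_eq_C_mul]; ring
    rw [d, map_sub, map_sub, map_smul, map_smul]
    simp only [smul_eq_mul]
    linarith
  set b : ℝ[X] := (1/12:ℝ) • (t3 - X^3 - (3:ℝ) • (G * X^2) - (6:ℝ) • (E * X)) with hb
  have I2 : ∀ g, w (derivative g) = - u (b * g) := by
    intro g
    have a := e3 g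
    have c := I3 (X^2 * g)
    have f1 : derivative (X^2 * g) = (2:ℝ) • (X * g) + X^2 * derivative g := by
      simp only [derivative_mul, derivative_add, hX2, hX3, hX4, derivative_X, derivative_one, derivative_ofNat, smul_eq_C_mul, c2, c3, c4, c6, c12]; ring
    rw [f1, map_add, map_smul] at c
    have f2 := vE (X * g)
    have f3 : derivative (derivative (X * g)) = (2:ℝ) • derivative g + X * derivative (derivative g) := by
      simp only [derivative_mul, derivative_add, hX2, hX3, hX4, derivative_X, derivative_one, derivative_ofNat, smul_eq_C_mul, c2, c3, c4, c6, c12]; ring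
    rw [f3, map_add, map_smul] at f2
    have d : b * g = (1/12:ℝ) • (t3 * g) - (1/12:ℝ) • (X^3 * g) - (1/4:ℝ) • (G * (X^2 * g)) - (1/2:ℝ) • (E * (X * g)) := by
      have q1 : (C (1/4:ℝ)) = C (1/12:ℝ) * C (3:ℝ) := by rw [← C_mul]; norm_num
      have q2 : (C (1/2:ℝ)) = C (1/12:ℝ) * C (6:ℝ) := by rw [← C_mul]; norm_num
      rw [hb]; simp only [smul_eq_C_mul]; rw [q1, q2]; ring
    rw [d, map_sub, map_sub, map_sub, map_smul, map_smul, map_smul, map_smul]
    simp only [smul_eq_mul] at *
    linarith
  set A : ℝ[X] := (1/24:ℝ) • (t4 - X^4 - (4:ℝ) • (G * X^3) - (12:ℝ) • (E * X^2) - (48:ℝ) • (b * X)) with hA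
  have I1 : ∀ g, w g = u (A * g) := by
    intro g
    have a := e4 g
    have c := I3 (X^3 * g)
    have f1 : derivative (X^3 * g) = (3:ℝ) • (X^2 * g) + X^3 * derivative g := by
      simp only [derivative_mul, derivative_add, hX2, hX3, hX4, derivative_X, derivative_one, derivative_ofNat, smul_eq_C_mul, c2, c3, c4, c6, c12]; ring
    rw [f1, map_add, map_smul] at c
    have f2 := vE (X^2 * g)
    have f3 : derivative (derivative (X^2 * g)) = (2:ℝ) • g + (4:ℝ) • (X * derivative g) + X^2 * derivative (derivative g) := by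
      simp only [derivative_mul, derivative_add, hX2, hX3, hX4, derivative_X, derivative_one, derivative_ofNat, smul_eq_C_mul, c2, c3, c4, c6, c12]; ring
    rw [f3, map_add, map_add, map_smul, map_smul] at f2
    have f4 := I2 (X * g)
    have f5 : derivative (X * g) = g + X * derivative g := by simp
    rw [f5, map_add] at f4
    have d : A * g = (1/24:ℝ) • (t4 * g) - (1/24:ℝ) • (X^4 * g) - (1/6:ℝ) • (G * (X^3 * g)) - (1/2:ℝ) • (E * (X^2 * g)) - (2:ℝ) • (b * (X * g)) := by
      have q1 : (C (1/6:ℝ)) = C (1/24:ℝ) * C (4:ℝ) := by rw [← C_mul]; norm_num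
      have q2 : (C (1/2:ℝ)) = C (1/24:ℝ) * C (12:ℝ) := by rw [← C_mul]; norm_num
      have q3 : (C (2:ℝ)) = C (1/24:ℝ) * C (48:ℝ) := by rw [← C_mul]; norm_num
      rw [hA]; simp only [smul_eq_C_mul]; rw [q1, q2, q3]; ring
    rw [d, map_sub, map_sub, map_sub, map_sub, map_smul, map_smul, map_smul, map_smul, map_smul]
    simp only [smul_eq_mul] at *
    linarith
  have I4 : ∀ g, v g = - u (b * derivative g + E * g) := by
    intro g
    rw [vE g, I2 (derivative g), map_add]; ring
  have dG : G.natDegree ≤ 1 := by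
    rw [hG]; exact (Polynomial.natDegree_sub_le _ _).trans (max_le d1 (by simp))
  have dE : E.natDegree ≤ 2 := by
    rw [hE]
    refine (Polynomial.natDegree_sub_le _ _).trans (max_le ?_ ?_)
    · refine (Polynomial.natDegree_smul_le _ _).trans ?_
      exact (Polynomial.natDegree_sub_le _ _).trans (max_le d2 (by simp))
    · refine (Polynomial.natDegree_mul_le).trans ?_
      have : (X:ℝ[X]).natDegree = 1 := natDegree_X
      omega
  have db : b.natDegree ≤ 3 := by
    rw [hb]
    refine (Polynomial.natDegree_smul_le _ _).trans ?_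
    refine (Polynomial.natDegree_sub_le _ _).trans (max_le ?_ ?_)
    · refine (Polynomial.natDegree_sub_le _ _).trans (max_le ?_ ?_)
      · exact (Polynomial.natDegree_sub_le _ _).trans (max_le d3 (by simp))
      · refine (Polynomial.natDegree_smul_le _ _).trans ?_
        refine (Polynomial.natDegree_mul_le).trans ?_
        have : (X^2:ℝ[X]).natDegree = 2 := by simp
        omega
    · refine (Polynomial.natDegree_smul_le _ _).trans ?_
      refine (Polynomial.natDegree_mul_le).trans ?_
      have : (X:ℝ[X]).natDegree = 1 := natDegree_X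
      omega
  have dA : A.natDegree ≤ 4 := by
    rw [hA]
    refine (Polynomial.natDegree_smul_le _ _).trans ?_
    refine (Polynomial.natDegree_sub_le _ _).trans (max_le ?_ ?_)
    · refine (Polynomial.natDegree_sub_le _ _).trans (max_le ?_ ?_)
      · refine (Polynomial.natDegree_sub_le _ _).trans (max_le ?_ ?_)
        · exact (Polynomial.natDegree_sub_le _ _).trans (max_le d4 (by simp))
        · refine (Polynomial.natDegree_smul_le _ _).trans ?_
          refine (Polynomial.natDegree_mul_le).trans ?_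
          have : (X^3:ℝ[X]).natDegree = 3 := by simp
          omega
      · refine (Polynomial.natDegree_smul_le _ _).trans ?_
        refine (Polynomial.natDegree_mul_le).trans ?_
        have : (X^2:ℝ[X]).natDegree = 2 := by simp
        omega
    · refine (Polynomial.natDegree_smul_le _ _).trans ?_
      refine (Polynomial.natDegree_mul_le).trans ?_
      have : (X:ℝ[X]).natDegree = 1 := natDegree_X
      omega
  exact ⟨A, b, E, G, dA, db, dE, dG, I1, I2, I3, I4⟩

/-- the algebraic polynomial `Q`. -/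
noncomputable def Qp (A b E G : ℝ[X]) : ℝ[X] :=
  A^2 * (G - derivative E + derivative (derivative b)) +
    A * ((b - derivative A) * (2 * derivative b - E) + b * (derivative b - derivative (derivative A)))
    + b * (b - derivative A) * (b - 2 * derivative A)

theorem uQ (u v w : ℝ[X] →ₗ[ℝ] ℝ) (A b E G : ℝ[X])
    (I1 : ∀ g, w g = u (A * g)) (I2 : ∀ g, w (derivative g) = - u (b * g))
    (I3 : ∀ g, v (derivative g) = u (G * g))
    (I4 : ∀ g, v g = - u (b * derivative g + E * g)) (k : ℝ[X]) : u (Qp A b E G * k) = 0 := by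
  have ha : ∀ g, u (A * derivative g + b * g) = 0 := by
    intro g
    have h1 := I1 (derivative g)
    have h2 := I2 g
    rw [map_add]; linarith
  have hb : ∀ g, u (G * g + E * derivative g + b * derivative (derivative g)) = 0 := by
    intro g
    have h1 := I3 g
    have h2 := I4 (derivative g)
    rw [map_add] at h2
    rw [map_add, map_add]; linarith
  set R : ℝ[X] := E * A + 3 * (b * derivative A) - b^2 - A * derivative b with hR
  have e1 := hb (A^2 * k)
  have e2 := ha (b * A * derivative k)
  have e3 := ha (R * k)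
  have key : Qp A b E G * k = (G * (A^2 * k) + E * derivative (A^2 * k) + b * derivative (derivative (A^2 * k)))
      - (A * derivative (b * A * derivative k) + b * (b * A * derivative k))
      - (A * derivative (R * k) + b * (R * k)) := by
    rw [Qp, hR]
    simp only [pow_two, derivative_mul, derivative_add, derivative_sub, derivative_ofNat]
    ring
  rw [key, map_sub, map_sub, e1, e2, e3]; simp

end Kr
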