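import Mathlib
set_option autoImplicit false
open MeasureTheory Polynomial Set Filter Topology
namespace Kr

def Fam (μ : Measure ℝ) : Prop :=
      ((∃ α β : ℝ, -1 < α ∧ -1 < β ∧
          μ = MeasureTheory.volume.withDensity (fun x : ℝ => ENNReal.ofReal
            ((Set.Icc (-1 : ℝ) 1).indicator (fun y : ℝ => (1 - y) ^ α * (1 + y) ^ β) x)))
        ∨ (∃ α : ℝ, -1 < α ∧
          μ = MeasureTheory.volume.withDensity (fun x : ℝ => ENNReal.ofReal
            ((Set.Ioi (0 : ℝ)).indicator (fun y : ℝ => y ^ α * Real.exp (-y)) x)))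
        ∨ (μ = MeasureTheory.volume.withDensity (fun x : ℝ => ENNReal.ofReal
            (Real.exp (-(x ^ 2)))))
        ∨ (∃ A : ℝ, 0 < A ∧
          μ = MeasureTheory.volume.restrict (Set.Icc (-1 : ℝ) 1)
            + ENNReal.ofReal (1 / A) • (MeasureTheory.Measure.dirac (-1 : ℝ)
                + MeasureTheory.Measure.dirac (1 : ℝ)))
        ∨ (∃ R : ℝ, 0 < R ∧
          μ = MeasureTheory.volume.withDensity (fun x : ℝ => ENNReal.ofReal
            ((Set.Ioi (0 : ℝ)).indicator (fun y : ℝ => Real.exp (-y)) x))
            + ENNReal.ofReal (1 / R) • MeasureTheory.Measure.dirac (0 : ℝ))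
        ∨ (∃ α M : ℝ, -1 < α ∧ 0 < M ∧
          μ = MeasureTheory.volume.withDensity (fun x : ℝ => ENNReal.ofReal
            ((Set.Ico (0 : ℝ) 1).indicator (fun y : ℝ => (1 - y) ^ α) x))
            + ENNReal.ofReal (1 / M) • MeasureTheory.Measure.dirac (0 : ℝ)))

def Concl (φ : Measure ℝ) : Prop :=
  ∃ μ, Fam μ ∧ ∃ a s c : ℝ, a ≠ 0 ∧ 0 < c ∧ ∀ f : ℝ[X], ∫ x, f.eval (a * x + s) ∂μ = c * ∫ x, f.eval x ∂φ

lemma match_lem (φ : Measure ℝ) (D1 : ℝ → ℝ) (M1 M2 c1 c2 : ℝ)
    (hφ : ∀ f : ℝ[X], Integrable (fun x => D1 x * f.eval x) ∧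
      ∫ x, f.eval x ∂φ = (∫ x, D1 x * f.eval x) + M1 * f.eval c1 + M2 * f.eval c2)
    (D : ℝ → ℝ) (hD : Measurable D) (hD0 : ∀ x, 0 ≤ D x) (a s c : ℝ) (ha : a ≠ 0) (hc : 0 < c)
    (hDD : ∀ᵐ x, D1 (a * x + s) = c * D x) (d1 d2 : ℝ) (hM1 : 0 ≤ M1) (hM2 : 0 ≤ M2)
    (e1 : a * d1 + s = c1 ∨ M1 = 0) (e2 : a * d2 + s = c2 ∨ M2 = 0) (f : ℝ[X]) :
    ∫ x, f.eval (a * x + s) ∂(volume.withDensity (fun x => ENNReal.ofReal (D x)) +
      (ENNReal.ofReal (M1 / (c * |a|)) • Measure.dirac d1 + ENNReal.ofReal (M2 / (c * |a|)) • Measure.dirac d2))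
     = (1 / (c * |a|)) * ∫ x, f.eval x ∂φ := by
  have haa : 0 < |a| := abs_pos.2 ha
  obtain ⟨hi, he⟩ := hφ f
  set h : ℝ → ℝ := fun x => D1 x * f.eval x with hh
  have hfm : Measurable fun x : ℝ => f.eval (a * x + s) := by
    have : Continuous fun x : ℝ => f.eval (a * x + s) := f.continuous.comp (by fun_prop)
    exact this.measurable
  have hcomp : ∫ x, h (a * x + s) = |a|⁻¹ * ∫ x, h x := by
    have := Measure.integral_comp_mul_left (fun x => h (x + s)) a
    rw [this, integral_add_right_eq_self h s, smul_eq_mul, abs_inv]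
  have hcint : Integrable fun x => h (a * x + s) := by
    exact (hi.comp_add_right s).comp_mul_left' ha
  have hae : (fun x => D x * f.eval (a * x + s)) =ᵐ[volume] fun x => c⁻¹ * h (a * x + s) := by
    filter_upwards [hDD] with x hx
    simp only [hh]
    rw [hx]; field_simp
  have hint : Integrable (fun x => D x * f.eval (a * x + s)) := (hcint.const_mul _).congr hae.symm
  have hval : ∫ x, D x * f.eval (a * x + s) = c⁻¹ * (|a|⁻¹ * ∫ x, h x) := by
    rw [integral_congr_ae hae, integral_const_mul, hcomp]
  have i1 : Integrable (fun x => f.eval (a * x + s)) (volume.withDensity (fun x => ENNReal.ofReal (D x))) := by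
    rw [integrable_withDensity_iff_integrable_smul' (by fun_prop) (by simp)]
    refine hint.congr (Eventually.of_forall fun x => ?_)
    simp [ENNReal.toReal_ofReal (hD0 x)]
  have v1 : ∫ x, f.eval (a * x + s) ∂(volume.withDensity (fun x => ENNReal.ofReal (D x))) = c⁻¹ * (|a|⁻¹ * ∫ x, h x) := by
    rw [integral_withDensity_eq_integral_toReal_smul (by fun_prop) (by simp), ← hval]
    congr 1; ext x
    simp [ENNReal.toReal_ofReal (hD0 x)]
  have i2 : ∀ (m d : ℝ), Integrable (fun x => f.eval (a * x + s)) (ENNReal.ofReal m • Measure.dirac d) := by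
    intro m d
    apply Integrable.smul_measure _ ENNReal.ofReal_ne_top
    exact integrable_dirac (by simp)
  have v2 : ∀ (m d : ℝ), 0 ≤ m → ∫ x, f.eval (a * x + s) ∂(ENNReal.ofReal m • Measure.dirac d) = m * f.eval (a * d + s) := by
    intro m d hm
    rw [integral_smul_measure, integral_dirac, ENNReal.toReal_ofReal hm, smul_eq_mul]
  rw [integral_add_measure i1 ((i2 _ _).add_measure (i2 _ _)), integral_add_measure (i2 _ _) (i2 _ _), v1,
    v2 _ _ (by positivity), v2 _ _ (by positivity), he]
  have g1 : M1 / (c * |a|) * f.eval (a * d1 + s) = 1/(c * |a|) * (M1 * f.eval c1) := by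
    rcases e1 with e | e
    · rw [e]; ring
    · rw [e]; simp
  have g2 : M2 / (c * |a|) * f.eval (a * d2 + s) = 1/(c * |a|) * (M2 * f.eval c2) := by
    rcases e2 with e | e
    · rw [e]; ring
    · rw [e]; simp
  rw [g1, g2]
  field_simp
  ring

lemma concl_H (φ : Measure ℝ) (K k m : ℝ) (hK : 0 < K) (hk : 0 < k)
    (hφ : ∀ f : ℝ[X], Integrable (fun x => (K * Real.exp (-(k * (x - m)^2))) * f.eval x) ∧
      ∫ x, f.eval x ∂φ = ∫ x, (K * Real.exp (-(k * (x - m)^2))) * f.eval x) : Concl φ := by
  have hsq : 0 < Real.sqrt k := Real.sqrt_pos.2 hk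
  refine ⟨volume.withDensity (fun x : ℝ => ENNReal.ofReal (Real.exp (-(x ^ 2)))), Or.inr (Or.inr (Or.inl rfl)),
    1 / Real.sqrt k, m, 1/(K * |1 / Real.sqrt k|), by positivity, by positivity, fun f => ?_⟩
  · have := match_lem φ (fun x => K * Real.exp (-(k * (x - m)^2))) 0 0 0 0 (fun f => by
      refine ⟨(hφ f).1, ?_⟩
      rw [(hφ f).2]; simp) (fun x => Real.exp (-(x^2))) (by fun_prop) (fun x => (Real.exp_pos _).le)
      (1 / Real.sqrt k) m K (by positivity) hK (Eventually.of_forall fun x => by
        have : k * (1 / Real.sqrt k * x + m - m)^2 = x^2 := by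
          have hs := Real.sq_sqrt hk.le
          have e : 1 / Real.sqrt k * x + m - m = x / Real.sqrt k := by ring
          rw [e, div_pow, hs]
          field_simp
        simp only [this]) 0 0 le_rfl le_rfl (Or.inr rfl) (Or.inr rfl) f
    simp only [zero_div, ENNReal.ofReal_zero, zero_smul, add_zero] at this
    exact this

lemma concl_L (φ : Measure ℝ) (K α l p M : ℝ) (hK : 0 < K) (hα : -1 < α) (hl : 0 < l) (hM : 0 ≤ M) (hM' : M ≠ 0 → α = 0)
    (hφ : ∀ f : ℝ[X], Integrable (fun x => ((Ioi p).indicator (fun x => K * ((x - p)^α * Real.exp (-(l * (x - p))))) x) * f.eval x) ∧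
      ∫ x, f.eval x ∂φ = (∫ x, ((Ioi p).indicator (fun x => K * ((x - p)^α * Real.exp (-(l * (x - p))))) x) * f.eval x) + M * f.eval p) :
    Concl φ := by
  set c : ℝ := K * (1/l)^α with hc
  have hc0 : 0 < c := by positivity
  have hcl : 0 < c * |1/l| := by positivity
  have key := match_lem φ ((Ioi p).indicator (fun x => K * ((x - p)^α * Real.exp (-(l * (x - p)))))) M 0 p 0 (fun f => by
      refine ⟨(hφ f).1, ?_⟩
      rw [(hφ f).2]; simp) ((Ioi (0:ℝ)).indicator (fun y : ℝ => y ^ α * Real.exp (-y)))
      (by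
        apply Measurable.indicator _ measurableSet_Ioi
        fun_prop) (fun x => by
        apply indicator_nonneg
        intro y hy
        have : (0:ℝ) < y := hy
        positivity)
      (1/l) p c (by positivity) hc0 (Eventually.of_forall fun x => by
        by_cases hx : 0 < x
        · have h1 : 1/l * x + p ∈ Ioi p := by
            show p < 1/l * x + p
            have : 0 < 1/l * x := by positivity
            linarith
          rw [indicator_of_mem h1, indicator_of_mem (show x ∈ Ioi 0 from hx)]
          have h2 : 1/l * x + p - p = 1/l * x := by ring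
          rw [h2, Real.mul_rpow (by positivity) hx.le]
          have h3 : l * (1/l * x) = x := by field_simp
          rw [h3, hc]; ring
        · have h1 : 1/l * x + p ∉ Ioi p := by
            simp only [mem_Ioi, not_lt]
            have : 1/l * x ≤ 0 := mul_nonpos_of_nonneg_of_nonpos (by positivity) (not_lt.1 hx)
            linarith
          rw [indicator_of_notMem h1, indicator_of_notMem (show x ∉ Ioi 0 from hx), mul_zero])
      0 0 hM le_rfl (Or.inl (by ring)) (Or.inr rfl)
  rcases eq_or_ne M 0 with h0 | h0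
  · subst h0
    refine ⟨_, Or.inr (Or.inl ⟨α, hα, rfl⟩), 1/l, p, 1/(c * |1/l|), by positivity, by positivity, fun f => ?_⟩
    have := key f
    simpa using this
  · have hα0 := hM' h0
    have hMpos : 0 < M := lt_of_le_of_ne hM (Ne.symm h0)
    refine ⟨_, Or.inr (Or.inr (Or.inr (Or.inr (Or.inl ⟨(c * |1/l|)/M, by positivity, rfl⟩)))), 1/l, p, 1/(c * |1/l|), by positivity, by positivity, fun f => ?_⟩
    have := key f
    rw [hα0] at this
    simp only [Real.rpow_zero, one_mul, zero_div, ENNReal.ofReal_zero, zero_smul, add_zero] at this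
    rw [one_div_div]
    exact this

lemma concl_J (φ : Measure ℝ) (K α β p q Mp Mq : ℝ) (hpq : p < q) (hK : 0 < K) (hα : -1 < α) (hβ : -1 < β)
    (hMp : 0 ≤ Mp) (hMq : 0 ≤ Mq) (h1 : Mp ≠ 0 → α = 0) (h2 : Mq ≠ 0 → β = 0) (h3 : Mp ≠ 0 → Mq ≠ 0 → Mp = Mq)
    (hφ : ∀ f : ℝ[X], Integrable (fun x => ((Ioo p q).indicator (fun x => K * ((x - p)^α * (q - x)^β)) x) * f.eval x) ∧
      ∫ x, f.eval x ∂φ = (∫ x, ((Ioo p q).indicator (fun x => K * ((x - p)^α * (q - x)^β)) x) * f.eval x) + Mp * f.eval p + Mq * f.eval q) :
    Concl φ := by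
  have hd : 0 < q - p := by linarith
  have ae1 : ∀ y : ℝ, ∀ᵐ x : ℝ, x ≠ y := fun y => by
    rw [ae_iff]; simp
  rcases eq_or_ne Mp 0 with hp0 | hp0
  · rcases eq_or_ne Mq 0 with hq0 | hq0
    · -- Jacobi
      subst hp0 hq0
      set a := (q - p)/2 with ha
      have ha0 : 0 < a := by positivity
      have haq : a * 2 = q - p := by rw [ha]; ring
      have key := match_lem φ _ 0 0 p q hφ ((Icc (-1:ℝ) 1).indicator (fun y : ℝ => (1 - y)^β * (1 + y)^α))
        (by
          apply Measurable.indicator _ measurableSet_Icc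
          fun_prop) (fun x => by
          apply indicator_nonneg
          intro y hy
          have g1 : 0 ≤ 1 - y := by linarith [hy.2]
          have g2 : 0 ≤ 1 + y := by linarith [hy.1]
          positivity)
        a ((p+q)/2) (K * (a^α * a^β)) ha0.ne' (by positivity) (by
          filter_upwards [ae1 (-1), ae1 1] with x hx1 hx2
          by_cases hx : x ∈ Ioo (-1:ℝ) 1
          · have g1 : a * x + (p+q)/2 ∈ Ioo p q := by
              constructor <;> nlinarith [hx.1, hx.2]
            have g2 : x ∈ Icc (-1:ℝ) 1 := ⟨hx.1.le, hx.2.le⟩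
            rw [indicator_of_mem g1, indicator_of_mem g2]
            have e1 : a * x + (p+q)/2 - p = a * (1 + x) := by linarith
            have e2 : q - (a * x + (p+q)/2) = a * (1 - x) := by linarith
            rw [e1, e2, Real.mul_rpow ha0.le (by linarith [hx.1]), Real.mul_rpow ha0.le (by linarith [hx.2])]
            ring
          · have g2 : x ∉ Icc (-1:ℝ) 1 := fun h => hx ⟨lt_of_le_of_ne h.1 (Ne.symm hx1), lt_of_le_of_ne h.2 hx2⟩
            have g1 : a * x + (p+q)/2 ∉ Ioo p q := by
              intro h
              apply hx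
              constructor
              · have := h.1; nlinarith
              · have := h.2; nlinarith
            rw [indicator_of_notMem g1, indicator_of_notMem g2, mul_zero])
        0 0 le_rfl le_rfl (Or.inr rfl) (Or.inr rfl)
      refine ⟨_, Or.inl ⟨β, α, hβ, hα, rfl⟩, a, (p+q)/2, 1/(K * (a^α * a^β) * |a|), ha0.ne', by positivity, fun f => ?_⟩
      have := key f
      simp only [zero_div, ENNReal.ofReal_zero, zero_smul, add_zero] at this
      exact this
    · -- mass at q only
      subst hp0
      have hβ0 := h2 hq0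
      subst hβ0
      have hMq0 : 0 < Mq := lt_of_le_of_ne hMq (Ne.symm hq0)
      have key := match_lem φ _ 0 Mq p q hφ ((Ico (0:ℝ) 1).indicator (fun y : ℝ => (1 - y)^α))
        (by
          apply Measurable.indicator _ measurableSet_Ico
          fun_prop) (fun x => by
          apply indicator_nonneg
          intro y hy
          have g1 : 0 ≤ 1 - y := by linarith [hy.2]
          positivity)
        (-(q-p)) q (K * (q-p)^α) (by linarith) (by positivity) (by
          filter_upwards [ae1 0] with x hx1
          by_cases hx : x ∈ Ioo (0:ℝ) 1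
          · have g1 : -(q-p) * x + q ∈ Ioo p q := by
              constructor <;> nlinarith [hx.1, hx.2]
            have g2 : x ∈ Ico (0:ℝ) 1 := ⟨hx.1.le, hx.2⟩
            rw [indicator_of_mem g1, indicator_of_mem g2]
            have e1 : -(q-p) * x + q - p = (q-p) * (1 - x) := by ring
            rw [e1, Real.mul_rpow hd.le (by linarith [hx.2]), Real.rpow_zero]
            ring
          · have g2 : x ∉ Ico (0:ℝ) 1 := fun h => hx ⟨lt_of_le_of_ne h.1 (Ne.symm hx1), h.2⟩
            have g1 : -(q-p) * x + q ∉ Ioo p q := by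
              intro h
              apply hx
              constructor
              · have := h.2; nlinarith
              · have := h.1; nlinarith
            rw [indicator_of_notMem g1, indicator_of_notMem g2, mul_zero])
        0 0 le_rfl hMq (Or.inr rfl) (Or.inl (by ring))
      have hcc : 0 < K * (q-p)^α * |-(q-p)| := by
        have : 0 < |-(q-p)| := by rw [abs_neg]; exact abs_pos.2 hd.ne'
        positivity
      refine ⟨_, Or.inr (Or.inr (Or.inr (Or.inr (Or.inr ⟨α, (K * (q-p)^α * |-(q-p)|)/Mq, hα, by positivity, rfl⟩)))), -(q-p), q,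
        1/(K * (q-p)^α * |-(q-p)|), by linarith, by positivity, fun f => ?_⟩
      have := key f
      simp only [zero_div, ENNReal.ofReal_zero, zero_smul, zero_add] at this
      rw [one_div_div]
      exact this
  · rcases eq_or_ne Mq 0 with hq0 | hq0
    · subst hq0
      have hα0 := h1 hp0
      subst hα0
      have hMp0 : 0 < Mp := lt_of_le_of_ne hMp (Ne.symm hp0)
      have key := match_lem φ _ Mp 0 p q hφ ((Ico (0:ℝ) 1).indicator (fun y : ℝ => (1 - y)^β))
        (by
          apply Measurable.indicator _ measurableSet_Ico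
          fun_prop) (fun x => by
          apply indicator_nonneg
          intro y hy
          have g1 : 0 ≤ 1 - y := by linarith [hy.2]
          positivity)
        (q-p) p (K * (q-p)^β) hd.ne' (by positivity) (by
          filter_upwards [ae1 0] with x hx1
          by_cases hx : x ∈ Ioo (0:ℝ) 1
          · have g1 : (q-p) * x + p ∈ Ioo p q := by
              constructor <;> nlinarith [hx.1, hx.2]
            have g2 : x ∈ Ico (0:ℝ) 1 := ⟨hx.1.le, hx.2⟩
            rw [indicator_of_mem g1, indicator_of_mem g2]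
            have e1 : q - ((q-p) * x + p) = (q-p) * (1 - x) := by ring
            rw [e1, Real.mul_rpow hd.le (by linarith [hx.2]), Real.rpow_zero]
            ring
          · have g2 : x ∉ Ico (0:ℝ) 1 := fun h => hx ⟨lt_of_le_of_ne h.1 (Ne.symm hx1), h.2⟩
            have g1 : (q-p) * x + p ∉ Ioo p q := by
              intro h
              apply hx
              constructor
              · have := h.1; nlinarith
              · have := h.2; nlinarith
            rw [indicator_of_notMem g1, indicator_of_notMem g2, mul_zero])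
        0 0 hMp le_rfl (Or.inl (by ring)) (Or.inr rfl)
      have hcc : 0 < K * (q-p)^β * |q-p| := by
        have : 0 < |q-p| := abs_pos.2 hd.ne'
        positivity
      refine ⟨_, Or.inr (Or.inr (Or.inr (Or.inr (Or.inr ⟨β, (K * (q-p)^β * |q-p|)/Mp, hβ, by positivity, rfl⟩)))), q-p, p,
        1/(K * (q-p)^β * |q-p|), hd.ne', by positivity, fun f => ?_⟩
      have := key f
      simp only [zero_div, ENNReal.ofReal_zero, zero_smul, add_zero] at this
      rw [one_div_div]
      exact this
    · have hα0 := h1 hp0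
      have hβ0 := h2 hq0
      subst hα0 hβ0
      have hMM := h3 hp0 hq0
      subst hMM
      have hMp0 : 0 < Mp := lt_of_le_of_ne hMp (Ne.symm hp0)
      set a := (q - p)/2 with ha
      have ha0 : 0 < a := by positivity
      have haq : a * 2 = q - p := by rw [ha]; ring
      have key := match_lem φ _ Mp Mp p q hφ ((Icc (-1:ℝ) 1).indicator (fun y : ℝ => (1:ℝ)))
        (by
          apply Measurable.indicator _ measurableSet_Icc
          fun_prop) (fun x => by
          apply indicator_nonneg
          intro y hy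
          norm_num)
        a ((p+q)/2) K ha0.ne' hK (by
          filter_upwards [ae1 (-1), ae1 1] with x hx1 hx2
          by_cases hx : x ∈ Ioo (-1:ℝ) 1
          · have g1 : a * x + (p+q)/2 ∈ Ioo p q := by
              constructor <;> nlinarith [hx.1, hx.2]
            have g2 : x ∈ Icc (-1:ℝ) 1 := ⟨hx.1.le, hx.2.le⟩
            rw [indicator_of_mem g1, indicator_of_mem g2]
            simp
          · have g2 : x ∉ Icc (-1:ℝ) 1 := fun h => hx ⟨lt_of_le_of_ne h.1 (Ne.symm hx1), lt_of_le_of_ne h.2 hx2⟩
            have g1 : a * x + (p+q)/2 ∉ Ioo p q := by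
              intro h
              apply hx
              constructor
              · have := h.1; nlinarith
              · have := h.2; nlinarith
            rw [indicator_of_notMem g1, indicator_of_notMem g2, mul_zero])
        (-1) 1 hMp hMp (Or.inl (by linarith)) (Or.inl (by linarith))
      have hcc : 0 < K * |a| := by
        have : 0 < |a| := abs_pos.2 ha0.ne'
        positivity
      refine ⟨_, Or.inr (Or.inr (Or.inr (Or.inl ⟨(K * |a|)/Mp, by positivity, rfl⟩))), a, (p+q)/2,
        1/(K * |a|), ha0.ne', by positivity, fun f => ?_⟩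
      have := key f
      rw [one_div_div]
      have e : volume.withDensity (fun x : ℝ => ENNReal.ofReal ((Icc (-1:ℝ) 1).indicator (fun y : ℝ => (1:ℝ)) x))
          = volume.restrict (Icc (-1:ℝ) 1) := by
        have e' : (fun x : ℝ => ENNReal.ofReal ((Icc (-1:ℝ) 1).indicator (fun y : ℝ => (1:ℝ)) x))
          = (Icc (-1:ℝ) 1).indicator 1 := by
          ext x
          by_cases hx : x ∈ Icc (-1:ℝ) 1
          · rw [indicator_of_mem hx, indicator_of_mem hx]; simp
          · rw [indicator_of_notMem hx, indicator_of_notMem hx]; simp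
        rw [e', withDensity_indicator_one measurableSet_Icc]
      rw [e, ← smul_add] at this
      exact this

end Kr
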