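import Pool.Agent.H859R3.KrMass
import Pool.Agent.H859R3.KrMatch
set_option autoImplicit false
open MeasureTheory Polynomial Set Filter Topology
namespace Kr

variable {φ ψ η : Measure ℝ} {A b E G : ℝ[X]} {W Y V : ℝ → ℝ}

lemma Concl.refl {φ : Measure ℝ} (h : Concl (Rm φ)) : Concl φ := by
  obtain ⟨μ, hF, a, s, c, ha, hc, hf⟩ := h
  refine ⟨μ, hF, -a, -s, c, neg_ne_zero.2 ha, hc, fun f => ?_⟩
  have := hf (f.comp (-X))
  rw [Rm_int] at this
  simp only [eval_comp, eval_neg, eval_X, neg_neg] at this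
  rw [← this]
  congr 1; ext x; congr 1; ring

lemma Sys.left0 (h : Sys φ ψ η A b E G) (p : ℝ) (h0 : Rm φ (Ioi (-p)) = 0) : φ (Iio p) = 0 := by
  rw [Rm_apply] at h0
  have : (fun x : ℝ => -x) ⁻¹' Ioi (-p) = Iio p := by
    ext x; simp
  rwa [this] at h0

lemma Loc.W0_right (h : Loc φ A b E G W Y V) (q : ℝ) (h0 : φ (Ioi q) = 0) (x : ℝ) (hx : q < x) : W x = 0 :=
  (h.null q (x+1) (measure_mono_null (fun _ hz => hz.1) h0) x ⟨hx, by linarith⟩).1

lemma Loc.W0_left (h : Loc φ A b E G W Y V) (q : ℝ) (h0 : φ (Iio q) = 0) (x : ℝ) (hx : x < q) : W x = 0 :=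
  (h.null (x-1) q (measure_mono_null (fun _ hz => hz.2) h0) x ⟨by linarith, hx⟩).1

lemma JLeft (h : Sys φ ψ η A b E G) (p q κ : ℝ) (hpq : p < q) (hκ : 0 < κ)
    (hA : A = C κ * ((X - C p)^2 * (X - C q)^2)) (θ : ℝ[X]) (hb : b = (X - C p) * (X - C q) * θ)
    (hθ : θ.natDegree ≤ 1) (hφ : φ (Ioo p q) ≠ 0) (β1 β2 : ℝ) (hβ1 : β1 = θ.eval p / (κ * (p - q)))
    (hβ2 : β2 = θ.eval q / (κ * (q - p))) :
    ∃ K, 0 < K ∧ 1 < β1 ∧ (φ.real {p} ≠ 0 → β1 = 2 ∧ E.eval p = 0) ∧
      ∀ f : ℝ[X], Integrable (fun x => ((Ioo p q).indicator (fun x => K * ((x - p)^(β1 - 2) * (q - x)^(β2 - 2))) x) * f.eval x) ∧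
      ∫ x, f.eval x ∂φ = (∫ x, ((Ioo p q).indicator (fun x => K * ((x - p)^(β1 - 2) * (q - x)^(β2 - 2))) x) * f.eval x)
        + φ.real {p} * f.eval p + φ.real {q} * f.eval q := by
  obtain ⟨W, Y, V, hl⟩ := h.loc
  have hpq' : p - q < 0 := by linarith
  have hqp' : 0 < q - p := by linarith
  have hAe : ∀ x, A.eval x = κ * ((x-p)^2 * (x-q)^2) := by intro x; rw [hA]; simp
  have hApos : ∀ x, x ≠ p → x ≠ q → 0 < A.eval x := by
    intro x h1 h2
    rw [hAe]
    have h1' : x - p ≠ 0 := sub_ne_zero.2 h1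
    have h2' : x - q ≠ 0 := sub_ne_zero.2 h2
    positivity
  have hdA : A.natDegree = 4 := by
    rw [hA, natDegree_C_mul hκ.ne', natDegree_mul (pow_ne_zero _ (X_sub_C_ne_zero p)) (pow_ne_zero _ (X_sub_C_ne_zero q)),
      natDegree_pow, natDegree_pow, natDegree_X_sub_C, natDegree_X_sub_C]
  have hdb : b.natDegree < A.natDegree := by rw [hdA]; have := h.db; omega
  have hright : φ (Ioi q) = 0 := h.UBdeg q (fun x hx => hApos x (by linarith) (by linarith)) hdb
  have hleft : φ (Iio p) = 0 := by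
    apply h.left0
    apply h.refl.UBdeg (-p)
    · intro x hx
      simp only [eval_comp, eval_neg, eval_X]
      apply hApos <;> linarith
    · rw [natDegree_neg, natDegree_comp, natDegree_comp]; simpa using hdb
  have hposI : ∀ x ∈ Ioo p q, 0 < A.eval x := fun x hx => hApos x (by linarith [hx.1]) (by linarith [hx.2])
  obtain ⟨t1, t0, ht⟩ := exists_eq_X_add_C_of_natDegree_le_one hθ
  have hte : ∀ x, θ.eval x = t1 * x + t0 := by intro x; rw [ht]; simp
  set Φ : ℝ → ℝ := fun x => (x - p)^β1 * (q - x)^β2 with hΦd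
  have hΦ : ∀ x ∈ Ioo p q, 0 < Φ x := by
    intro x hx
    have h1 : 0 < x - p := by linarith [hx.1]
    have h2 : 0 < q - x := by linarith [hx.2]
    simp only [hΦd]; positivity
  have hΦ' : ∀ x ∈ Ioo p q, HasDerivAt Φ (Φ x * (b.eval x / A.eval x)) x := by
    intro x hx
    have h1 : 0 < x - p := by linarith [hx.1]
    have h2 : 0 < q - x := by linarith [hx.2]
    have d1 : HasDerivAt (fun y : ℝ => (y - p)^β1) (1 * β1 * (x - p)^(β1 - 1)) x :=
      ((hasDerivAt_id x).sub_const p).rpow_const (Or.inl h1.ne')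
    have d2 : HasDerivAt (fun y : ℝ => (q - y)^β2) (-1 * β2 * (q - x)^(β2 - 1)) x :=
      ((hasDerivAt_id x).const_sub q).rpow_const (Or.inl h2.ne')
    convert! d1.mul d2 using 1
    rw [Real.rpow_sub_one h1.ne', Real.rpow_sub_one h2.ne', hAe]
    have hbe : b.eval x = (x-p)*(x-q)*(t1*x+t0) := by rw [hb]; simp [hte]
    rw [hbe]
    have h3 : x - q ≠ 0 := by linarith
    have e1 : (x-p)*(x-q)*(t1*x+t0) / (κ*((x-p)^2*(x-q)^2)) = β1/(x-p) - β2/(q-x) := by
      rw [hβ1, hβ2, hte, hte]
      have h4 : q - x = -(x - q) := by ring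
      rw [h4]
      have h5 : q - p = -(p - q) := by ring
      rw [h5]
      have h6 : p - q ≠ 0 := hpq'.ne
      field_simp
      ring
    rw [e1]
    simp only [hΦd]
    field_simp
    ring
  set x0 := (p+q)/2 with hx0
  have hx0m : x0 ∈ Ioo p q := ⟨by rw [hx0]; linarith, by rw [hx0]; linarith⟩
  have hWx0 : 0 < W x0 := by
    refine lt_of_le_of_ne (hl.Wnn x0) (fun h0 => hφ ?_)
    exact hl.Wz _ measurableSet_Ioo hposI
      (fun x hx => hl.zero_prop _ isOpen_Ioo ordConnected_Ioo hposI x0 x hx0m hx h0.symm)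
  have hr := hl.ratio (Ioo p q) isOpen_Ioo ordConnected_Ioo hposI Φ hΦ hΦ' x0 hx0m
  set K0 := W x0 / Φ x0 with hK0
  have hK0p : 0 < K0 := div_pos hWx0 (hΦ x0 hx0m)
  have hm := hl.mass h.star p (q-p) 1 hqp' one_pos (measure_mono_null (fun _ hz => hz.2) hleft)
    (C κ * (X - C q)^2) ((X - C q) * θ) (by rw [hA]; ring) (by rw [hb]; ring) (by
      simp only [eval_mul, eval_C, eval_pow, eval_sub, eval_X]
      have : p - q ≠ 0 := hpq'.ne
      positivity) β1 (by
      simp only [eval_mul, eval_C, eval_pow, eval_sub, eval_X]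
      rw [hβ1]
      have : p - q ≠ 0 := hpq'.ne
      field_simp) (fun x => K0 * (q - x)^β2) (by
      apply ContinuousAt.mul continuousAt_const
      exact ((continuous_const.sub continuous_id).continuousAt).rpow_const (Or.inl hqp'.ne'))
      (by positivity) (fun x hx => hposI x ⟨hx.1, by linarith [hx.2]⟩) (fun x hx => by
        rw [hr x ⟨hx.1, by linarith [hx.2]⟩]; simp only [hΦd]; ring)
  refine ⟨K0/κ, by positivity, hm.1, hm.2, fun f => ?_⟩
  obtain ⟨hi, he⟩ := hl.split {p, q} (fun x => by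
    rw [hAe]
    simp only [Finset.mem_insert, Finset.mem_singleton]
    constructor
    · intro h0
      have := (mul_eq_zero.1 h0).resolve_left hκ.ne'
      rcases mul_eq_zero.1 this with h1 | h1
      · left; have := pow_eq_zero_iff (by norm_num) |>.1 h1; linarith
      · right; have := pow_eq_zero_iff (by norm_num) |>.1 h1; linarith
    · rintro (h0 | h0) <;> subst h0 <;> simp) f
  have hU : MeasurableSet {x | 0 < A.eval x} := measurableSet_lt measurable_const (eval_meas A)
  have hfe : ({x | 0 < A.eval x}.indicator fun x => W x / A.eval x * f.eval x) =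
      fun x => ((Ioo p q).indicator (fun x => (K0/κ) * ((x - p)^(β1 - 2) * (q - x)^(β2 - 2))) x) * f.eval x := by
    ext x
    by_cases hx : x ∈ Ioo p q
    · rw [indicator_of_mem (show x ∈ {x | 0 < A.eval x} from hposI x hx), indicator_of_mem hx, hr x hx, hAe]
      have h1 : 0 < x - p := by linarith [hx.1]
      have h2 : 0 < q - x := by linarith [hx.2]
      simp only [hΦd]
      rw [Real.rpow_sub h1, Real.rpow_sub h2]
      have e1 : (x-p)^(2:ℝ) = (x-p)^2 := by norm_cast
      have e2 : (q-x)^(2:ℝ) = (x-q)^2 := by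
        have : (q-x)^(2:ℝ) = (q-x)^2 := by norm_cast
        rw [this]; ring
      rw [e1, e2]
      have h3 : x - q ≠ 0 := by linarith
      field_simp
    · rw [indicator_of_notMem hx, zero_mul]
      by_cases hx2 : 0 < A.eval x
      · rw [indicator_of_mem (show x ∈ {x | 0 < A.eval x} from hx2)]
        have hxp : x ≠ p := by rintro rfl; rw [hAe] at hx2; simp at hx2
        have hxq : x ≠ q := by rintro rfl; rw [hAe] at hx2; simp at hx2
        have : W x = 0 := by
          rcases lt_or_gt_of_ne hxp with h1 | h1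
          · exact hl.W0_left p hleft x h1
          · rcases lt_or_gt_of_ne hxq with h2 | h2
            · exact absurd ⟨h1, h2⟩ hx
            · exact hl.W0_right q hright x h2
        rw [this]; simp
      · rw [indicator_of_notMem (show x ∉ {x | 0 < A.eval x} from hx2)]
  constructor
  · rw [← hfe]; exact hi.integrable_indicator hU
  · rw [he, ← integral_indicator hU, hfe, Finset.sum_pair hpq.ne]; ring

lemma LCase (h : Sys φ ψ η A b E G) (p κ t1 t0 : ℝ) (hκ : 0 < κ) (hA : A = C κ * (X - C p)^2)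
    (hb : b = (X - C p) * (C t1 * (X - C p) + C t0)) (ht1 : t1 < 0) (hφ : φ (Ioi p) ≠ 0) : Concl φ := by
  obtain ⟨W, Y, V, hl⟩ := h.loc
  have hAe : ∀ x, A.eval x = κ * (x-p)^2 := by intro x; rw [hA]; simp
  have hbe : ∀ x, b.eval x = (x-p) * (t1 * (x-p) + t0) := by intro x; rw [hb]; simp
  have hApos : ∀ x, x ≠ p → 0 < A.eval x := by
    intro x h1
    rw [hAe]
    have h1' : x - p ≠ 0 := sub_ne_zero.2 h1
    positivity
  have hleft : φ (Iio p) = 0 := by
    apply h.left0
    apply h.refl.UBpos (-p)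
    · intro x hx
      simp only [eval_comp, eval_neg, eval_X]
      apply hApos; linarith
    · filter_upwards [eventually_ge_atTop (-p), eventually_ge_atTop (t0/t1 - p)] with x hx1 hx2
      simp only [eval_comp, eval_neg, eval_X, hbe]
      have h1 : t1 * (x + p) ≤ t0 := by
        have : t0/t1 ≤ x + p := by linarith
        rw [div_le_iff_of_neg ht1] at this
        linarith
      have h2 : 0 ≤ x + p := by linarith
      have h3 : 0 ≤ t0 - t1 * (x + p) := by linarith
      have := mul_nonneg h2 h3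
      linarith
  have hposI : ∀ x ∈ Ioi p, 0 < A.eval x := fun x hx => hApos x (ne_of_gt hx)
  set β := t0/κ with hβ
  set lam := t1/κ with hlam
  set Φ : ℝ → ℝ := fun x => (x - p)^β * Real.exp (lam * (x - p)) with hΦd
  have hΦ : ∀ x ∈ Ioi p, 0 < Φ x := by
    intro x hx
    have h1 : 0 < x - p := sub_pos.2 hx
    simp only [hΦd]; positivity
  have hΦ' : ∀ x ∈ Ioi p, HasDerivAt Φ (Φ x * (b.eval x / A.eval x)) x := by
    intro x hx
    have h1 : 0 < x - p := sub_pos.2 hx
    have d1 : HasDerivAt (fun y : ℝ => (y - p)^β) (1 * β * (x - p)^(β - 1)) x :=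
      ((hasDerivAt_id x).sub_const p).rpow_const (Or.inl h1.ne')
    have d2 : HasDerivAt (fun y : ℝ => Real.exp (lam * (y - p))) (Real.exp (lam * (x - p)) * (lam * 1)) x :=
      (((hasDerivAt_id x).sub_const p).const_mul lam).exp
    convert! d1.mul d2 using 1
    rw [Real.rpow_sub_one h1.ne', hAe, hbe]
    have e1 : (x-p) * (t1 * (x-p) + t0) / (κ * (x-p)^2) = β/(x-p) + lam := by
      rw [hβ, hlam]; field_simp; ring
    rw [e1]
    simp only [hΦd]
    field_simp
  have hx0m : p + 1 ∈ Ioi p := by simp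
  have hWx0 : 0 < W (p+1) := by
    refine lt_of_le_of_ne (hl.Wnn _) (fun h0 => hφ ?_)
    exact hl.Wz _ measurableSet_Ioi hposI
      (fun x hx => hl.zero_prop _ isOpen_Ioi ordConnected_Ioi hposI (p+1) x hx0m hx h0.symm)
  have hr := hl.ratio (Ioi p) isOpen_Ioi ordConnected_Ioi hposI Φ hΦ hΦ' (p+1) hx0m
  set K0 := W (p+1) / Φ (p+1) with hK0
  have hK0p : 0 < K0 := div_pos hWx0 (hΦ _ hx0m)
  have hm := hl.mass h.star p 1 1 one_pos one_pos (measure_mono_null (fun _ hz => hz.2) hleft)
    (C κ) (C t1 * (X - C p) + C t0) (by rw [hA]; ring) hb (by simpa using hκ) β (by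
      simp only [eval_mul, eval_C, eval_add, eval_sub, eval_X]
      rw [hβ]
      field_simp
      ring) (fun x => K0 * Real.exp (lam * (x - p))) (by fun_prop)
      (by positivity) (fun x hx => hposI x hx.1) (fun x hx => by
        rw [hr x hx.1]; simp only [hΦd]; ring)
  apply concl_L φ (K0/κ) (β - 2) (-lam) p (φ.real {p}) (by positivity) (by linarith [hm.1])
    (by rw [hlam, neg_pos]; exact div_neg_of_neg_of_pos ht1 hκ) measureReal_nonneg (fun hM => by rw [(hm.2 hM).1]; ring)
  intro f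
  obtain ⟨hi, he⟩ := hl.split {p} (fun x => by
    rw [hAe]
    simp only [Finset.mem_singleton]
    constructor
    · intro h0
      have := (mul_eq_zero.1 h0).resolve_left hκ.ne'
      have := pow_eq_zero_iff (by norm_num) |>.1 this
      linarith
    · rintro rfl; simp) f
  have hU : MeasurableSet {x | 0 < A.eval x} := measurableSet_lt measurable_const (eval_meas A)
  have hfe : ({x | 0 < A.eval x}.indicator fun x => W x / A.eval x * f.eval x) =
      fun x => ((Ioi p).indicator (fun x => (K0/κ) * ((x - p)^(β - 2) * Real.exp (-(-lam * (x - p))))) x) * f.eval x := by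
    ext x
    by_cases hx : x ∈ Ioi p
    · rw [indicator_of_mem (show x ∈ {x | 0 < A.eval x} from hposI x hx), indicator_of_mem hx, hr x hx, hAe]
      have h1 : 0 < x - p := sub_pos.2 hx
      simp only [hΦd]
      rw [Real.rpow_sub h1]
      have e1 : (x-p)^(2:ℝ) = (x-p)^2 := by norm_cast
      have e2 : -(-lam * (x-p)) = lam * (x-p) := by ring
      rw [e1, e2]
      field_simp
    · rw [indicator_of_notMem hx, zero_mul]
      by_cases hx2 : 0 < A.eval x
      · rw [indicator_of_mem (show x ∈ {x | 0 < A.eval x} from hx2)]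
        have hxp : x ≠ p := by rintro rfl; rw [hAe] at hx2; simp at hx2
        have : W x = 0 := by
          rcases lt_or_gt_of_ne hxp with h1 | h1
          · exact hl.W0_left p hleft x h1
          · exact absurd h1 hx
        rw [this]; simp
      · rw [indicator_of_notMem (show x ∉ {x | 0 < A.eval x} from hx2)]
  constructor
  · rw [← hfe]; exact hi.integrable_indicator hU
  · rw [he, ← integral_indicator hU, hfe, Finset.sum_singleton]

lemma HCase (h : Sys φ ψ η A b E G) (κ b1 b0 : ℝ) (hκ : 0 < κ) (hA : A = C κ)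
    (hb : b = C b1 * X + C b0) (hb1 : b1 < 0) (hφ : φ univ ≠ 0) : Concl φ := by
  obtain ⟨W, Y, V, hl⟩ := h.loc
  have hAe : ∀ x, A.eval x = κ := by intro x; rw [hA]; simp
  have hbe : ∀ x, b.eval x = b1 * x + b0 := by intro x; rw [hb]; simp
  have hposI : ∀ x ∈ (univ : Set ℝ), 0 < A.eval x := fun x _ => by rw [hAe]; exact hκ
  set k := -b1/(2*κ) with hk
  have hkp : 0 < k := by rw [hk]; exact div_pos (by linarith) (by positivity)
  set m := -b0/b1 with hm
  set Φ : ℝ → ℝ := fun x => Real.exp (-(k * (x - m)^2)) with hΦd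
  have hΦ' : ∀ x ∈ (univ : Set ℝ), HasDerivAt Φ (Φ x * (b.eval x / A.eval x)) x := by
    intro x _
    have d1 : HasDerivAt (fun y : ℝ => -(k * (y - m)^2)) (-(k * (((2:ℕ):ℝ) * (x - m)^(2-1) * 1))) x :=
      ((((hasDerivAt_id x).sub_const m).pow 2).const_mul k).neg
    convert! d1.exp using 1
    have hb1' : b1 ≠ 0 := hb1.ne
    have e1 : -(k * (2 * (x - m))) = (b1 * x + b0)/κ := by
      rw [hk, hm]; field_simp; ring
    rw [hAe, hbe, ← e1]
    simp only [hΦd]
    push_cast
    ring
  have hWx0 : 0 < W 0 := by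
    refine lt_of_le_of_ne (hl.Wnn _) (fun h0 => hφ ?_)
    exact hl.Wz _ MeasurableSet.univ hposI
      (fun x hx => hl.zero_prop _ isOpen_univ ordConnected_univ hposI 0 x (mem_univ _) hx h0.symm)
  have hr := hl.ratio univ isOpen_univ ordConnected_univ hposI Φ (fun x _ => Real.exp_pos _) hΦ' 0 (mem_univ _)
  set K0 := W 0 / Φ 0 with hK0
  have hK0p : 0 < K0 := div_pos hWx0 (Real.exp_pos _)
  apply concl_H φ (K0/κ) k m (by positivity) hkp
  intro f
  obtain ⟨hi, he⟩ := hl.split ∅ (fun x => by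
    rw [hAe]; simp [hκ.ne']) f
  have hUu : {x | 0 < A.eval x} = univ := by ext x; simp only [mem_setOf_eq, mem_univ, iff_true]; exact hposI x (mem_univ x)
  rw [hUu] at hi he
  have hfe : (fun x => W x / A.eval x * f.eval x) = fun x => ((K0/κ) * Real.exp (-(k * (x - m)^2))) * f.eval x := by
    ext x
    rw [hr x (mem_univ _), hAe]
    simp only [hΦd]; ring
  rw [hfe] at hi he
  constructor
  · exact integrableOn_univ.1 hi
  · rw [he]; simp

end Kr
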