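import Pool.Agent.H859R3.KrLoc
set_option autoImplicit false
open MeasureTheory Polynomial Set Filter Topology
namespace Kr

variable {φ : Measure ℝ} {A b E G : ℝ[X]} {W Y V : ℝ → ℝ}

lemma Loc.Yae (h : Loc φ A b E G W Y V) (s : Set ℝ) (hs : MeasurableSet s) (hsA : ∀ x ∈ s, 0 < A.eval x) :
    ∀ᵐ x ∂(volume.restrict s), Y x = W x / A.eval x * b.eval x := by
  have h1 : Integrable Y (volume.restrict s) := h.Yint.integrableOn
  have h2 : Integrable (fun x => W x / A.eval x * b.eval x) (volume.restrict s) :=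
    h.siff s hs hsA _ (int_poly h.mφ b).integrableOn
  apply Integrable.ae_eq_of_forall_setIntegral_eq _ _ h1 h2
  intro t ht _
  rw [Measure.restrict_restrict ht, ← h.R3 _ (ht.inter hs), h.sint _ (ht.inter hs) (fun x hx => hsA x hx.2)]

lemma Loc.Wz (h : Loc φ A b E G W Y V) (s : Set ℝ) (hs : MeasurableSet s) (hsA : ∀ x ∈ s, 0 < A.eval x)
    (hW : ∀ x ∈ s, W x = 0) : φ s = 0 := by
  have h1 := h.restr s hs hsA
  rw [← Measure.restrict_apply_univ, h1, withDensity_apply _ MeasurableSet.univ, Measure.restrict_univ]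
  rw [setLIntegral_congr_fun hs (g := fun _ => 0) (fun x hx => by simp [hW x hx])]
  simp

lemma Loc.Vbd (h : Loc φ A b E G W Y V) (x : ℝ) : |V x| ≤ ∫ y, |G.eval y| ∂φ := by
  rw [h.R5, abs_neg]
  have hi := int_poly h.mφ G
  calc |∫ y in Iic x, G.eval y ∂φ| ≤ ∫ y in Iic x, |G.eval y| ∂φ := abs_integral_le_integral_abs
    _ ≤ _ := setIntegral_le_integral hi.abs (Eventually.of_forall fun x => abs_nonneg _)

lemma Loc.Ybd (h : Loc φ A b E G W Y V) (x : ℝ) : |Y x| ≤ (∫ y, |V y|) + ∫ y, |E.eval y| ∂φ := by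
  rw [h.R4]
  have hi := int_poly h.mφ E
  refine (abs_add_le _ _).trans (add_le_add ?_ ?_)
  · calc |∫ y in Iic x, V y| ≤ ∫ y in Iic x, |V y| := abs_integral_le_integral_abs
      _ ≤ _ := setIntegral_le_integral h.Vint.abs (Eventually.of_forall fun x => abs_nonneg _)
  · calc |∫ y in Iic x, E.eval y ∂φ| ≤ ∫ y in Iic x, |E.eval y| ∂φ := abs_integral_le_integral_abs
      _ ≤ _ := setIntegral_le_integral hi.abs (Eventually.of_forall fun x => abs_nonneg _)

lemma Loc.claimF (h : Loc φ A b E G W Y V) (p δ : ℝ) (hδ : 0 < δ) (hp : A.eval p = 0)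
    (hp' : (derivative A).eval p ≠ 0) (hpos : ∀ x ∈ Ioo p (p+δ), 0 < A.eval x) :
    ∃ ε, 0 < ε ∧ ε < δ ∧ ∀ x ∈ Ioo p (p+ε), W x = 0 := by
  obtain ⟨A1, hA1⟩ : X - C p ∣ A := Polynomial.dvd_iff_isRoot.2 hp
  have hAe : ∀ x, A.eval x = (x - p) * A1.eval x := by
    intro x; rw [hA1]; simp
  have hA1p : A1.eval p = (derivative A).eval p := by
    rw [hA1]; simp
  have hge : 0 ≤ A1.eval p := by
    have h1 : Tendsto (fun x => A1.eval x) (𝓝[>] p) (𝓝 (A1.eval p)) :=
      A1.continuous.continuousAt.mono_left nhdsWithin_le_nhds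
    apply ge_of_tendsto h1
    filter_upwards [Ioo_mem_nhdsGT (show p < p+δ by linarith)] with x hx
    have h2 := hpos x hx
    rw [hAe] at h2
    have h3 : 0 < x - p := by linarith [hx.1]
    exact ((mul_pos_iff_of_pos_left h3).1 h2).le
  have hA1pos : 0 < A1.eval p := lt_of_le_of_ne hge (by rw [hA1p]; exact hp'.symm)
  have hnear : ∀ᶠ x in 𝓝 p, 0 < A1.eval x := A1.continuous.continuousAt.eventually (lt_mem_nhds hA1pos)
  obtain ⟨δ1, hδ1, hball⟩ := Metric.eventually_nhds_iff_ball.1 hnear
  have hJ : φ (Ioo (p - δ1) p) = 0 := by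
    have h1 := h.neg
    rw [ae_iff] at h1
    refine measure_mono_null ?_ h1
    intro x hx
    simp only [mem_setOf_eq, not_le]
    rw [hAe]
    have h2 : 0 < A1.eval x := by
      apply hball; rw [Metric.mem_ball, Real.dist_eq, abs_lt]; constructor <;> linarith [hx.1, hx.2]
    have h3 : x - p < 0 := by linarith [hx.2]
    exact mul_neg_of_neg_of_pos h3 h2
  obtain ⟨hW0, hY0, hV0, hbM⟩ := h.start p δ1 hδ1 hJ
  by_cases hb : b.eval p = 0
  · obtain ⟨b1, hb1⟩ : X - C p ∣ b := Polynomial.dvd_iff_isRoot.2 hb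
    have hbe : ∀ x, b.eval x = (x - p) * b1.eval x := by
      intro x; rw [hb1]; simp
    set c : ℝ := |b1.eval p / A1.eval p| + 1 with hc
    have hc0 : 0 < c := by positivity
    have hcont : ContinuousAt (fun x => b1.eval x / A1.eval x) p :=
      b1.continuous.continuousAt.div A1.continuous.continuousAt hA1pos.ne'
    have hev : ∀ᶠ x in 𝓝 p, |b1.eval x / A1.eval x| < c :=
      hcont.abs.eventually (gt_mem_nhds (by rw [hc]; linarith))
    obtain ⟨δ2, hδ2, hball2⟩ := Metric.eventually_nhds_iff_ball.1 (hev.and hnear)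
    set ε := min (min (δ/2) (δ2/2)) (1/(2*c)) with hε
    have hε0 : 0 < ε := by positivity
    have hεδ : ε < δ := by
      have : ε ≤ δ/2 := (min_le_left _ _).trans (min_le_left _ _)
      linarith
    have hεδ2 : ε < δ2 := by
      have : ε ≤ δ2/2 := (min_le_left _ _).trans (min_le_right _ _)
      linarith
    have hcε : c * ε ≤ 1/2 := by
      have h1 : ε ≤ 1/(2*c) := min_le_right _ _
      rw [le_div_iff₀ (by positivity)] at h1
      linarith
    obtain ⟨S, hS⟩ := isCompact_Icc.exists_bound_of_continuousOn (h.Wcont.continuousOn (s := Icc p (p+ε)))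
    refine ⟨ε, hε0, hεδ, fun x hx => ?_⟩
    refine small W p ε c S hε0.le hc0.le ?_ ?_ ?_ hcε x ⟨hx.1.le, hx.2.le⟩
    · intro x hx
      exact ⟨h.Wnn x, (le_abs_self _).trans (hS x hx)⟩
    · exact (h.Wcont.continuousOn.integrableOn_Icc).mono_set Ioc_subset_Icc_self
    · intro x hx
      have hAx : ∀ y ∈ Ioc p x, 0 < A.eval y := by
        intro y hy; apply hpos; exact ⟨hy.1, by linarith [hy.2, hx.2]⟩
      have h1 := h.Wd2 p x hx.1 hAx
      rw [hW0, sub_zero] at h1
      rw [h1, ← integral_const_mul]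
      apply setIntegral_mono_on
      · exact h.siff _ measurableSet_Ioc hAx _ (int_poly h.mφ b).integrableOn
      · exact ((h.Wcont.continuousOn.integrableOn_Icc).mono_set Ioc_subset_Icc_self).const_mul c
      · exact measurableSet_Ioc
      · intro y hy
        have hy2 := hball2 y (by rw [Metric.mem_ball, Real.dist_eq, abs_lt]; constructor <;> linarith [hy.1, hy.2, hx.2])
        have hyp : 0 < y - p := by linarith [hy.1]
        have e : W y / A.eval y * b.eval y = (b1.eval y / A1.eval y) * W y := by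
          rw [hAe, hbe]
          have := hy2.2.ne'
          field_simp
        rw [e]
        apply mul_le_mul_of_nonneg_right _ (h.Wnn y)
        exact (le_abs_self _).trans hy2.1.le
  · have hM : φ.real {p} = 0 := (mul_eq_zero.1 hbM).resolve_left hb
    rw [hM, mul_zero] at hY0 hV0
    rw [neg_zero] at hV0
    set c : ℝ := max |E.eval p / b.eval p| |G.eval p / b.eval p| + 1 with hc
    have hc0 : 0 < c := by positivity
    have hev1 : ∀ᶠ x in 𝓝 p, |E.eval x / b.eval x| < c :=
      (E.continuous.continuousAt.div b.continuous.continuousAt hb).abs.eventually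
        (gt_mem_nhds (show |E.eval p / b.eval p| < c by rw [hc]; linarith [le_max_left |E.eval p / b.eval p| |G.eval p / b.eval p|]))
    have hev2 : ∀ᶠ x in 𝓝 p, |G.eval x / b.eval x| < c :=
      (G.continuous.continuousAt.div b.continuous.continuousAt hb).abs.eventually
        (gt_mem_nhds (show |G.eval p / b.eval p| < c by rw [hc]; linarith [le_max_right |E.eval p / b.eval p| |G.eval p / b.eval p|]))
    have hev3 : ∀ᶠ x in 𝓝 p, b.eval x ≠ 0 := b.continuous.continuousAt.eventually_ne hb
    obtain ⟨δ2, hδ2, hball2⟩ := Metric.eventually_nhds_iff_ball.1 ((hev1.and hev2).and hev3)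
    set c' := 2 * c + 1 with hc'
    have hc'0 : 0 < c' := by positivity
    set ε := min (min (δ/2) (δ2/2)) (1/(2*c')) with hε
    have hε0 : 0 < ε := by positivity
    have hεδ : ε < δ := by
      have : ε ≤ δ/2 := (min_le_left _ _).trans (min_le_left _ _)
      linarith
    have hεδ2 : ε < δ2 := by
      have : ε ≤ δ2/2 := (min_le_left _ _).trans (min_le_right _ _)
      linarith
    have hcε : c' * ε ≤ 1/2 := by
      have h1 : ε ≤ 1/(2*c') := min_le_right _ _
      rw [le_div_iff₀ (by positivity)] at h1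
      linarith
    set f : ℝ → ℝ := fun x => |V x| + |Y x| with hf
    have hfint : Integrable f := h.Vint.abs.add h.Yint.abs
    have key : ∀ x ∈ Icc p (p+ε), f x = 0 := by
      refine small f p ε c' ((∫ y, |G.eval y| ∂φ) + ((∫ y, |V y|) + ∫ y, |E.eval y| ∂φ)) hε0.le hc'0.le ?_ hfint.integrableOn ?_ hcε
      · intro x hx
        exact ⟨by positivity, add_le_add (h.Vbd x) (h.Ybd x)⟩
      · intro x hx
        have hAx : ∀ y ∈ Ioc p x, 0 < A.eval y := by
          intro y hy; apply hpos; exact ⟨hy.1, by linarith [hy.2, hx.2]⟩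
        have hyb : ∀ y ∈ Ioc p x, (|E.eval y / b.eval y| < c ∧ |G.eval y / b.eval y| < c) ∧ b.eval y ≠ 0 := by
          intro y hy
          exact hball2 y (by rw [Metric.mem_ball, Real.dist_eq, abs_lt]; constructor <;> linarith [hy.1, hy.2, hx.2])
        have hYae := h.Yae (Ioc p x) measurableSet_Ioc hAx
        have bound : ∀ P : ℝ[X], (∀ y ∈ Ioc p x, |P.eval y / b.eval y| < c) →
            |∫ y in Ioc p x, P.eval y ∂φ| ≤ c * ∫ y in Ioc p x, |Y y| := by
          intro P hP
          rw [h.sint _ measurableSet_Ioc hAx, ← integral_const_mul]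
          refine abs_integral_le_integral_abs.trans ?_
          apply setIntegral_mono_ae_restrict
          · exact (h.siff _ measurableSet_Ioc hAx _ (int_poly h.mφ P).integrableOn).abs
          · exact (h.Yint.abs.integrableOn).const_mul c
          · filter_upwards [hYae, ae_restrict_mem measurableSet_Ioc] with y hy hym
            have hb' := (hyb y hym).2
            have e : W y / A.eval y * P.eval y = (P.eval y / b.eval y) * Y y := by
              rw [hy]; field_simp
            rw [e, abs_mul]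
            exact mul_le_mul_of_nonneg_right (hP y hym).le (abs_nonneg _)
        have b1 := bound G (fun y hy => (hyb y hy).1.2)
        have b2 := bound E (fun y hy => (hyb y hy).1.1)
        have e1 := h.Vdiff p x hx.1
        have e2 := h.Ydiff p x hx.1
        rw [hV0, sub_zero] at e1
        rw [hY0, sub_zero] at e2
        have e3 : |∫ y in Ioc p x, V y| ≤ ∫ y in Ioc p x, |V y| := abs_integral_le_integral_abs
        have e4 : ∫ y in Ioc p x, f y = (∫ y in Ioc p x, |V y|) + ∫ y in Ioc p x, |Y y| :=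
          integral_add h.Vint.abs.integrableOn h.Yint.abs.integrableOn
        have e5 : 0 ≤ ∫ y in Ioc p x, |V y| := integral_nonneg fun _ => abs_nonneg _
        have e6 : 0 ≤ ∫ y in Ioc p x, |Y y| := integral_nonneg fun _ => abs_nonneg _
        have e7 : |V x| ≤ c * ∫ y in Ioc p x, |Y y| := by rw [e1, abs_neg]; exact b1
        have e8 : |Y x| ≤ (∫ y in Ioc p x, |V y|) + c * ∫ y in Ioc p x, |Y y| := by
          rw [e2]; exact (abs_add_le _ _).trans (add_le_add e3 b2)
        rw [e4]
        show |V x| + |Y x| ≤ _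
        rw [hc']
        nlinarith
    refine ⟨ε, hε0, hεδ, fun x hx => ?_⟩
    have h1 := h.Wdiff p x hx.1.le
    rw [hW0, sub_zero] at h1
    rw [h1, setIntegral_congr_fun measurableSet_Ioc (g := fun _ => (0:ℝ)) (fun y hy => by
      have := key y ⟨hy.1.le, by linarith [hy.2, hx.2]⟩
      have h3 : 0 ≤ |V y| := abs_nonneg _
      have h4 : 0 ≤ |Y y| := abs_nonneg _
      have h5 : |V y| + |Y y| = 0 := this
      have : |Y y| = 0 := by linarith
      exact abs_eq_zero.1 this)]
    simp

lemma Loc.claimF' (h : Loc φ A b E G W Y V) (p q : ℝ) (hpq : p < q) (hp : A.eval p = 0)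
    (hpos : ∀ x ∈ Ioo p q, 0 < A.eval x) (hφ : φ (Ioo p q) ≠ 0) : (derivative A).eval p = 0 := by
  by_contra hne
  obtain ⟨ε, hε, hεq, hW⟩ := h.claimF p (q - p) (by linarith) hp hne (by
    intro x hx; apply hpos; exact ⟨hx.1, by linarith [hx.2]⟩)
  apply hφ
  apply h.Wz _ measurableSet_Ioo hpos
  intro x hx
  have hm : p + ε/2 ∈ Ioo p q := ⟨by linarith, by linarith⟩
  exact h.zero_prop (Ioo p q) isOpen_Ioo ordConnected_Ioo hpos (p + ε/2) x hm hx
    (hW _ ⟨by linarith, by linarith⟩)

end Kr
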