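import Pool.Agent.H859R3.KrMB
set_option autoImplicit false
open MeasureTheory Polynomial ProbabilityTheory Set
namespace Kr

def S1 : Set (ℝ × ℝ) := {p | p.2 ≤ p.1 ∧ p.1 < 0}
def S2 : Set (ℝ × ℝ) := {p | 0 ≤ p.1 ∧ p.1 < p.2}

lemma S1_meas : MeasurableSet S1 :=
  (measurableSet_le measurable_snd measurable_fst).inter (measurableSet_lt measurable_fst measurable_const)
lemma S2_meas : MeasurableSet S2 :=
  (measurableSet_le measurable_const measurable_fst).inter (measurableSet_lt measurable_fst measurable_snd)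

noncomputable def kk (p : ℝ × ℝ) : ℝ := S1.indicator (fun _ => (1:ℝ)) p - S2.indicator (fun _ => (1:ℝ)) p

lemma kk_meas : Measurable kk :=
  (measurable_const.indicator S1_meas).sub (measurable_const.indicator S2_meas)

noncomputable def GG (α : Measure ℝ) (x : ℝ) : ℝ := ∫ y, kk (x, y) ∂α

lemma kk_y (y : ℝ) : (fun x => kk (x, y)) = fun x => (Ico y 0).indicator (fun _ => (1:ℝ)) x
    - (Ico 0 y).indicator (fun _ => (1:ℝ)) x := by
  ext x
  simp only [kk, S1, S2, indicator, mem_setOf_eq, mem_Ico]

lemma kk_enorm_le (x y : ℝ) : ‖kk (x, y)‖ₑ ≤ (Icc (-|y|) |y|).indicator (fun _ => (1:ENNReal)) x := by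
  have : kk (x, y) = (Ico y 0).indicator (fun _ => (1:ℝ)) x - (Ico 0 y).indicator (fun _ => (1:ℝ)) x :=
    congrFun (kk_y y) x
  rw [this]
  by_cases h1 : x ∈ Ico y 0
  · have h2 : x ∉ Ico 0 y := fun h => by
      have := h1.2; have := h.1; linarith
    have h3 : x ∈ Icc (-|y|) |y| := by
      constructor
      · exact (neg_abs_le y).trans h1.1
      · exact h1.2.le.trans (abs_nonneg y)
    simp [h1, h2, h3]
  · by_cases h2 : x ∈ Ico 0 y
    · have h3 : x ∈ Icc (-|y|) |y| := by
        constructor
        · have := abs_nonneg y; have := h2.1; linarith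
        · exact h2.2.le.trans (le_abs_self y)
      simp [h1, h2, h3]
    · simp [h1, h2]

lemma inner_bound (n : ℕ) (y : ℝ) : ∫⁻ x, ‖x^n * kk (x, y)‖ₑ ≤ ENNReal.ofReal (2 * |y|^(n+1)) := by
  calc ∫⁻ x, ‖x^n * kk (x, y)‖ₑ ≤ ∫⁻ x, (Icc (-|y|) |y|).indicator (fun _ => ENNReal.ofReal (|y|^n)) x := by
        apply lintegral_mono
        intro x
        have h := kk_enorm_le x y
        show ‖x^n * kk (x, y)‖ₑ ≤ _
        rw [enorm_mul]
        by_cases hx : x ∈ Icc (-|y|) |y|
        · rw [indicator_of_mem hx] at h ⊢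
          have : ‖x^n‖ₑ ≤ ENNReal.ofReal (|y|^n) := by
            rw [← ofReal_norm_eq_enorm, Real.norm_eq_abs, abs_pow]
            apply ENNReal.ofReal_le_ofReal
            apply pow_le_pow_left₀ (abs_nonneg x)
            exact abs_le.2 hx
          calc ‖x^n‖ₑ * ‖kk (x, y)‖ₑ ≤ ENNReal.ofReal (|y|^n) * 1 := mul_le_mul' this h
            _ = _ := mul_one _
        · rw [indicator_of_notMem hx] at h ⊢
          have : ‖kk (x, y)‖ₑ = 0 := le_antisymm h bot_le
          rw [this, mul_zero]
    _ = ENNReal.ofReal (|y|^n) * volume (Icc (-|y|) |y|) := by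
        rw [lintegral_indicator measurableSet_Icc, setLIntegral_const]
    _ = _ := by
        rw [Real.volume_Icc, ← ENNReal.ofReal_mul (by positivity)]
        congr 1; ring

lemma inner_int (n : ℕ) (y : ℝ) : ∫ x, x^n * kk (x, y) = - (y^(n+1) / (n+1)) := by
  have e : (fun x : ℝ => x^n * kk (x, y)) = fun x => (Ico y 0).indicator (fun x => x^n) x
      - (Ico 0 y).indicator (fun x => x^n) x := by
    ext x
    rw [congrFun (kk_y y) x, mul_sub]
    simp only [indicator]
    split_ifs <;> simp
  have hi : ∀ a b : ℝ, IntegrableOn (fun x : ℝ => x^n) (Ico a b) volume := fun a b =>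
    ((continuous_pow n).continuousOn.integrableOn_Icc (a := a) (b := b)).mono_set Ico_subset_Icc_self
  rw [e, integral_sub ((hi y 0).integrable_indicator measurableSet_Ico)
    ((hi 0 y).integrable_indicator measurableSet_Ico),
    integral_indicator measurableSet_Ico, integral_indicator measurableSet_Ico,
    integral_Ico_eq_integral_Ioc, integral_Ico_eq_integral_Ioc]
  have := integral_pow (a := y) (b := 0) n
  rw [intervalIntegral] at this
  rw [this]
  simp
  ring

lemma prod_int (α : Measure ℝ) (h : MB α) (n : ℕ) :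
    Integrable (Function.uncurry fun x y => x^n * kk (x, y)) (volume.prod α) := by
  haveI := h.finite
  have hm : Measurable (Function.uncurry fun x y => x^n * kk (x, y)) := by
    have : (Function.uncurry fun x y => x^n * kk (x, y)) = fun p : ℝ × ℝ => p.1^n * kk p := by
      ext p; rfl
    rw [this]
    exact (measurable_fst.pow_const n).mul kk_meas
  refine ⟨hm.aestronglyMeasurable, ?_⟩
  rw [HasFiniteIntegral, lintegral_prod_symm _ hm.enorm.aemeasurable]
  have h1 := (h.int_abs (n+1)).const_mul 2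
  calc _ ≤ ∫⁻ y, ENNReal.ofReal (2 * |y|^(n+1)) ∂α := lintegral_mono fun y => inner_bound n y
    _ < ⊤ := by
      rw [← hasFiniteIntegral_iff_ofReal (Filter.Eventually.of_forall fun x => by positivity)]
      exact h1.2

lemma GG_meas (α : Measure ℝ) [SFinite α] : Measurable (GG α) := by
  have := (kk_meas.stronglyMeasurable).integral_prod_right' (ν := α)
  exact this.measurable

lemma GG_int (α : Measure ℝ) (h : MB α) (n : ℕ) : Integrable (fun x => x^n * GG α x) := by
  have := h.finite
  have := (prod_int α h n).integral_prod_left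
  refine this.congr (Filter.Eventually.of_forall fun x => ?_)
  simp only [Function.uncurry, GG]
  rw [integral_const_mul]

lemma GG_moment (α : Measure ℝ) (h : MB α) (n : ℕ) :
    ∫ x, x^n * GG α x = - ((∫ y, y^(n+1) ∂α) / (n+1)) := by
  have := h.finite
  calc ∫ x, x^n * GG α x = ∫ x, ∫ y, x^n * kk (x, y) ∂α := by
        congr 1; ext x; rw [integral_const_mul]; rfl
    _ = ∫ y, ∫ x, x^n * kk (x, y) ∂volume ∂α := integral_integral_swap (prod_int α h n)
    _ = ∫ y, - (y^(n+1) / (n+1)) ∂α := by
        congr 1; ext y; exact inner_int n y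
    _ = _ := by rw [integral_neg, integral_div]

lemma GG_MB (α : Measure ℝ) (h : MB α) : MB (volume.withDensity (fun x => ‖GG α x‖ₑ)) := by
  have hf := h.finite
  obtain ⟨K, hK, hb⟩ := id h
  refine ⟨4 * K^2, by nlinarith, fun n => ?_⟩
  rw [lintegral_withDensity_eq_lintegral_mul _ (GG_meas α).enorm (by fun_prop)]
  have hm : Measurable fun p : ℝ × ℝ => ‖p.1^n * kk p‖ₑ := ((measurable_fst.pow_const n).mul kk_meas).enorm
  calc ∫⁻ x, ((fun x => ‖GG α x‖ₑ) * fun x => ENNReal.ofReal (|x|^n)) x
      ≤ ∫⁻ x, ∫⁻ y, ‖x^n * kk (x, y)‖ₑ ∂α := by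
        apply lintegral_mono
        intro x
        simp only [Pi.mul_apply]
        have : ENNReal.ofReal (|x|^n) = ‖x^n‖ₑ := by
          rw [← ofReal_norm_eq_enorm, Real.norm_eq_abs, abs_pow]
        rw [this, ← enorm_mul, mul_comm, GG, ← integral_const_mul]
        exact enorm_integral_le_lintegral_enorm _
    _ = ∫⁻ y, ∫⁻ x, ‖x^n * kk (x, y)‖ₑ ∂volume ∂α :=
        lintegral_lintegral_swap (f := fun x y => ‖x^n * kk (x, y)‖ₑ) hm.aemeasurable
    _ ≤ ∫⁻ y, ENNReal.ofReal (2 * |y|^(n+1)) ∂α := lintegral_mono fun y => inner_bound n y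
    _ = ENNReal.ofReal 2 * ∫⁻ y, ENNReal.ofReal (|y|^(n+1)) ∂α := by
        rw [← lintegral_const_mul _ (by fun_prop)]
        congr 1; ext y
        rw [ENNReal.ofReal_mul (by norm_num)]
    _ ≤ ENNReal.ofReal 2 * ENNReal.ofReal (K^(n+1+1) * (n+1).factorial) := by
        gcongr; exact hb (n+1)
    _ = ENNReal.ofReal (2 * (K^(n+1+1) * (n+1).factorial)) := by
        rw [← ENNReal.ofReal_mul (by norm_num : (0:ℝ) ≤ 2)]
    _ ≤ _ := by
        apply ENNReal.ofReal_le_ofReal
        rw [Nat.factorial_succ]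
        push_cast
        have h1 : (2:ℝ) * (n+1) ≤ 4^(n+1) := by
          have h2 : (2:ℝ) * (n+1) ≤ 2 * 2^n := by
            have : n + 1 ≤ 2^n := Nat.lt_two_pow_self (n := n)
            have h3 : ((n+1 : ℕ):ℝ) ≤ ((2^n : ℕ):ℝ) := by exact_mod_cast this
            push_cast at h3
            linarith
          have h4 : (2:ℝ) * 2^n ≤ 4^(n+1) := by
            calc (2:ℝ) * 2^n = 2^(n+1) := by ring
              _ ≤ 4^(n+1) := by gcongr; norm_num
          linarith
        calc 2 * (K^(n+1+1) * ((n+1) * n.factorial)) = (2 * (n+1)) * K^(n+2) * n.factorial := by ring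
          _ ≤ 4^(n+1) * K^(2*(n+1)) * n.factorial := by
              gcongr
              · omega
          _ = _ := by rw [mul_pow, ← pow_mul]

lemma GG_eq (α : Measure ℝ) [IsFiniteMeasure α] (x : ℝ) :
    GG α x = α.real (Iic x) - (if 0 ≤ x then α.real univ else 0) := by
  by_cases hx : 0 ≤ x
  · have e : (fun y => kk (x, y)) = fun y => - (Ioi x).indicator (fun _ => (1:ℝ)) y := by
      ext y
      simp only [kk, S1, S2, indicator, mem_setOf_eq, mem_Ioi]
      have : ¬ (y ≤ x ∧ x < 0) := fun h => by linarith [h.2]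
      simp only [this, if_false, hx, true_and]
      split_ifs <;> simp
    rw [GG, e, integral_neg, integral_indicator measurableSet_Ioi]
    simp only [hx, if_true]
    have h2 : α.real (Iic x) + α.real (Ioi x) = α.real univ := by
      have hd : Disjoint (Iic x) (Ioi x) := by
        rw [Set.disjoint_left]; intro z hz hz'
        exact absurd (mem_Iic.1 hz) (not_le.2 (mem_Ioi.1 hz'))
      rw [← measureReal_union hd measurableSet_Ioi, Iic_union_Ioi]
    simp
    linarith
  · have hx' : x < 0 := not_le.1 hx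
    have e : (fun y => kk (x, y)) = fun y => (Iic x).indicator (fun _ => (1:ℝ)) y := by
      ext y
      simp only [kk, S1, S2, indicator, mem_setOf_eq, mem_Iic]
      have : ¬ (0 ≤ x ∧ x < y) := fun h => by linarith [h.1]
      simp only [this, if_false, hx', and_true]
      split_ifs <;> simp
    rw [GG, e, integral_indicator measurableSet_Iic]
    simp [hx]

lemma wd_int (F : ℝ → ℝ) (hF : Measurable F) (n : ℕ) (hi : Integrable (fun x => x^n * F x)) :
    Integrable (fun x => max (F x) 0 * x^n) := by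
  refine hi.mono (by fun_prop) (Filter.Eventually.of_forall fun x => ?_)
  rw [norm_mul, norm_mul, mul_comm]
  apply mul_le_mul_of_nonneg_left _ (norm_nonneg _)
  rw [Real.norm_eq_abs, Real.norm_eq_abs, abs_of_nonneg (le_max_right _ _)]
  exact max_le (le_abs_self _) (abs_nonneg _)

lemma wd_int' (F : ℝ → ℝ) (hF : Measurable F) (n : ℕ) (hi : Integrable (fun x => x^n * F x)) :
    Integrable (fun x => x^n) (volume.withDensity fun x => ENNReal.ofReal (F x)) := by
  rw [integrable_withDensity_iff_integrable_smul' (by fun_prop) (by simp)]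
  refine (wd_int F hF n hi).congr (Filter.Eventually.of_forall fun x => ?_)
  simp [ENNReal.toReal_ofReal']

lemma wd_eq (F : ℝ → ℝ) (hF : Measurable F) (n : ℕ) :
    ∫ x, x^n ∂(volume.withDensity fun x => ENNReal.ofReal (F x)) = ∫ x, max (F x) 0 * x^n := by
  rw [integral_withDensity_eq_integral_toReal_smul (by fun_prop) (by simp)]
  simp [ENNReal.toReal_ofReal']

theorem lem (α1 α2 β1 β2 : Measure ℝ) (h1 : MB α1) (h2 : MB α2) (hb2 : MB β2)
    (hb1 : ∀ n : ℕ, Integrable (fun x : ℝ => x^n) β1) (h0 : α1.real univ = α2.real univ)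
    (hm : ∀ n : ℕ, ∫ x, x^n ∂β1 - ∫ x, x^n ∂β2 =
      - ((∫ y, y^(n+1) ∂α1 - ∫ y, y^(n+1) ∂α2) / (n+1)))
    (F : ℝ → ℝ) (hF : ∀ x, F x = α1.real (Iic x) - α2.real (Iic x)) :
    (∀ n : ℕ, Integrable (fun x => x^n * F x)) ∧ Measurable F ∧
    MB (volume.withDensity fun x => ENNReal.ofReal (F x)) ∧
    β1 + volume.withDensity (fun x => ENNReal.ofReal (-F x)) =
      β2 + volume.withDensity (fun x => ENNReal.ofReal (F x)) := by
  have := h1.finite
  have := h2.finite
  have hFG : F = fun x => GG α1 x - GG α2 x := by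
    ext x
    rw [GG_eq, GG_eq, hF, h0]; ring
  have hFm : Measurable F := by
    rw [hFG]; exact (GG_meas α1).sub (GG_meas α2)
  have hint : ∀ n : ℕ, Integrable (fun x => x^n * F x) := by
    intro n
    rw [hFG]
    simp only [mul_sub]
    exact (GG_int α1 h1 n).sub (GG_int α2 h2 n)
  have hmom : ∀ n : ℕ, ∫ x, x^n * F x = - ((∫ y, y^(n+1) ∂α1 - ∫ y, y^(n+1) ∂α2) / (n+1)) := by
    intro n
    rw [hFG]
    simp only [mul_sub]
    rw [integral_sub (GG_int α1 h1 n) (GG_int α2 h2 n), GG_moment _ h1, GG_moment _ h2]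
    ring
  have hMB : MB (volume.withDensity fun x => ENNReal.ofReal (F x)) := by
    refine ((GG_MB α1 h1).add (GG_MB α2 h2)).mono ?_
    rw [← withDensity_add_left (GG_meas α1).enorm]
    apply withDensity_mono
    refine Filter.Eventually.of_forall fun x => ?_
    simp only [Pi.add_apply]
    rw [hFG]
    calc ENNReal.ofReal (GG α1 x - GG α2 x) ≤ ‖GG α1 x - GG α2 x‖ₑ := Real.ofReal_le_enorm _
      _ ≤ _ := enorm_sub_le
  refine ⟨hint, hFm, hMB, ?_⟩
  symm
  apply uniq ((hb2.add hMB).EB)
  · intro n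
    apply (hb1 n).add_measure
    apply wd_int' _ hFm.neg
    have := (hint n).neg
    refine this.congr (Filter.Eventually.of_forall fun x => ?_)
    simp
  · intro n
    have hin : Integrable (fun x => x^n * -F x) := by
      refine (hint n).neg.congr (Filter.Eventually.of_forall fun x => ?_)
      simp
    rw [integral_add_measure (hb2.int_pow n) (wd_int' F hFm n (hint n)),
      integral_add_measure (hb1 n) (wd_int' (fun x => -F x) hFm.neg n hin), wd_eq F hFm,
      wd_eq (fun x => -F x) hFm.neg]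
    have e : (∫ x, max (F x) 0 * x^n) - (∫ x, max (-F x) 0 * x^n) = ∫ x, x^n * F x := by
      rw [← integral_sub (wd_int F hFm n (hint n)) (wd_int (fun x => -F x) hFm.neg n hin)]
      congr 1; ext x
      rcases le_total (F x) 0 with h | h
      · rw [max_eq_right h, max_eq_left (by linarith)]; ring
      · rw [max_eq_left h, max_eq_right (by linarith)]; ring
    have h3 := hmom n
    have h4 := hm n
    linarith

end Kr
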