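import Pool.Agent.H859R3.KrMeas
set_option autoImplicit false
open MeasureTheory Polynomial Set Filter Topology
namespace Kr

variable {φ : Measure ℝ} {A b E G : ℝ[X]} {W Y V : ℝ → ℝ}

lemma iic_diff (m : Measure ℝ) (f : ℝ → ℝ) (hf : Integrable f m) (a c : ℝ) (hac : a ≤ c) :
    ∫ y in Iic c, f y ∂m - ∫ y in Iic a, f y ∂m = ∫ y in Ioc a c, f y ∂m := by
  rw [intervalIntegral.integral_Iic_sub_Iic hf.integrableOn hf.integrableOn,
    intervalIntegral.integral_of_le hac]

lemma Loc.Wprim (h : Loc φ A b E G W Y V) (x : ℝ) : W x = ∫ y in Iic x, Y y := by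
  rw [h.R2, h.R3 _ measurableSet_Iic]

lemma Loc.Wdiff (h : Loc φ A b E G W Y V) (a c : ℝ) (hac : a ≤ c) : W c - W a = ∫ y in Ioc a c, Y y := by
  rw [h.Wprim, h.Wprim a, iic_diff _ _ h.Yint a c hac]

lemma Loc.Vdiff (h : Loc φ A b E G W Y V) (a c : ℝ) (hac : a ≤ c) :
    V c - V a = - ∫ y in Ioc a c, G.eval y ∂φ := by
  rw [h.R5, h.R5 a, ← iic_diff _ _ (int_poly h.mφ G) a c hac]; ring

lemma Loc.Ydiff (h : Loc φ A b E G W Y V) (a c : ℝ) (hac : a ≤ c) :
    Y c - Y a = (∫ y in Ioc a c, V y) + ∫ y in Ioc a c, E.eval y ∂φ := by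
  rw [h.R4, h.R4 a, ← iic_diff _ _ (int_poly h.mφ E) a c hac, ← iic_diff _ _ h.Vint a c hac]; ring

lemma Loc.Wcont (h : Loc φ A b E G W Y V) : Continuous W := by
  have : W = fun x => W 0 + ∫ y in (0:ℝ)..x, Y y := by
    ext x
    rw [h.Wprim, h.Wprim 0, ← intervalIntegral.integral_Iic_sub_Iic h.Yint.integrableOn h.Yint.integrableOn]; ring
  rw [this]
  exact continuous_const.add (intervalIntegral.continuous_primitive (fun _ _ => h.Yint.intervalIntegrable) 0)

lemma Loc.Wnn (h : Loc φ A b E G W Y V) (x : ℝ) : 0 ≤ W x := by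
  by_contra hx
  have hx' : W x < 0 := not_le.1 hx
  have ho : IsOpen {x | W x < 0} := isOpen_lt h.Wcont continuous_const
  have h1 := ho.measure_pos volume ⟨x, hx'⟩
  have h0 : volume {x | W x < 0} = 0 := by
    have := h.W0; rw [ae_iff] at this; simpa only [not_le] using this
  exact h1.ne' h0

lemma Loc.restr (h : Loc φ A b E G W Y V) (s : Set ℝ) (hs : MeasurableSet s) (hsA : ∀ x ∈ s, 0 < A.eval x) :
    φ.restrict s = (volume.restrict s).withDensity (fun x => ENNReal.ofReal (W x / A.eval x)) := by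
  have hA := eval_meas A
  have e1 : ((φ.restrict s).withDensity (fun x => ENNReal.ofReal (A.eval x))).withDensity (fun x => (ENNReal.ofReal (A.eval x))⁻¹) = φ.restrict s := by
    apply withDensity_inv_same hA.ennreal_ofReal
    · rw [ae_restrict_iff' hs]
      exact Eventually.of_forall fun x hx => by simp [hsA x hx]
    · simp
  have hAi : Measurable (fun x => (ENNReal.ofReal (A.eval x))⁻¹) := hA.ennreal_ofReal.inv
  rw [← e1, ← restrict_withDensity hs, h.R1, restrict_withDensity hs,
    ← withDensity_mul _ (h.Wm.ennreal_ofReal) hAi]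
  apply withDensity_congr_ae
  rw [EventuallyEq, ae_restrict_iff' hs]
  refine Eventually.of_forall fun x hx => ?_
  simp only [Pi.mul_apply]
  rw [ENNReal.ofReal_div_of_pos (hsA x hx), div_eq_mul_inv]

lemma Loc.sint (h : Loc φ A b E G W Y V) (s : Set ℝ) (hs : MeasurableSet s) (hsA : ∀ x ∈ s, 0 < A.eval x)
    (f : ℝ → ℝ) : ∫ x in s, f x ∂φ = ∫ x in s, W x / A.eval x * f x := by
  have hA := eval_meas A
  have hW := h.Wm
  rw [h.restr s hs hsA, integral_withDensity_eq_integral_toReal_smul (by fun_prop) (by simp)]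
  apply setIntegral_congr_fun hs
  intro x hx
  simp [ENNReal.toReal_ofReal (div_nonneg (h.Wnn x) (hsA x hx).le)]

lemma Loc.siff (h : Loc φ A b E G W Y V) (s : Set ℝ) (hs : MeasurableSet s) (hsA : ∀ x ∈ s, 0 < A.eval x)
    (f : ℝ → ℝ) (hf : IntegrableOn f s φ) : IntegrableOn (fun x => W x / A.eval x * f x) s := by
  have hA := eval_meas A
  have hW := h.Wm
  rw [IntegrableOn, h.restr s hs hsA, integrable_withDensity_iff_integrable_smul' (by fun_prop) (by simp)] at hf
  refine hf.congr ?_
  rw [EventuallyEq, ae_restrict_iff' hs]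
  refine Eventually.of_forall fun x hx => ?_
  simp [ENNReal.toReal_ofReal (div_nonneg (h.Wnn x) (hsA x hx).le)]

lemma Loc.Wd2 (h : Loc φ A b E G W Y V) (a c : ℝ) (hac : a ≤ c) (hA : ∀ x ∈ Ioc a c, 0 < A.eval x) :
    W c - W a = ∫ y in Ioc a c, W y / A.eval y * b.eval y := by
  rw [h.Wdiff a c hac, ← h.R3 _ measurableSet_Ioc, h.sint _ measurableSet_Ioc hA]

lemma Loc.Wderiv (h : Loc φ A b E G W Y V) (x : ℝ) (hx : 0 < A.eval x) :
    HasDerivAt W (W x / A.eval x * b.eval x) x := by
  set g : ℝ → ℝ := fun y => W y / A.eval y * b.eval y with hg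
  have hA := eval_meas A
  have hB := eval_meas b
  have hW := h.Wm
  have hgc : ContinuousAt g x :=
    ((h.Wcont.continuousAt).div A.continuous.continuousAt hx.ne').mul b.continuous.continuousAt
  have hgM : Measurable g := by fun_prop
  have hgm : StronglyMeasurableAtFilter g (𝓝 x) := hgM.stronglyMeasurable.stronglyMeasurableAtFilter
  have h1 : HasDerivAt (fun y => ∫ z in x..y, g z) (g x) x :=
    intervalIntegral.integral_hasDerivAt_right (by simp) hgm hgc
  have h2 : W =ᶠ[𝓝 x] fun y => W x + ∫ z in x..y, g z := by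
    have ho : ∀ᶠ y in 𝓝 x, 0 < A.eval y := A.continuous.continuousAt.eventually (lt_mem_nhds hx)
    obtain ⟨ε, hε, hball⟩ := Metric.eventually_nhds_iff_ball.1 ho
    filter_upwards [Metric.ball_mem_nhds x hε] with y hy
    rw [Metric.mem_ball, Real.dist_eq, abs_lt] at hy
    rcases le_total x y with hxy | hxy
    · rw [intervalIntegral.integral_of_le hxy, ← h.Wd2 x y hxy]
      · ring
      · intro z hz
        apply hball
        rw [Metric.mem_ball, Real.dist_eq, abs_lt]
        constructor <;> linarith [hz.1, hz.2]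
    · rw [intervalIntegral.integral_of_ge hxy, ← h.Wd2 y x hxy]
      · ring
      · intro z hz
        apply hball
        rw [Metric.mem_ball, Real.dist_eq, abs_lt]
        constructor <;> linarith [hz.1, hz.2]
  exact (h1.const_add (W x)).congr_of_eventuallyEq h2

lemma Loc.Wneg (h : Loc φ A b E G W Y V) (x : ℝ) (hx : A.eval x < 0) : W x = 0 := by
  by_contra hne
  have hpos : 0 < W x := lt_of_le_of_ne (h.Wnn x) (Ne.symm hne)
  set U : Set ℝ := {y | A.eval y < 0} ∩ {y | 0 < W y} with hUdef
  have hU : IsOpen U := (isOpen_lt A.continuous continuous_const).inter (isOpen_lt continuous_const h.Wcont)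
  have hμ := hU.measure_pos volume ⟨x, hx, hpos⟩
  have h1 : (φ.withDensity (fun x => ENNReal.ofReal (A.eval x))) U = 0 := by
    rw [withDensity_apply _ hU.measurableSet]
    rw [setLIntegral_congr_fun hU.measurableSet (g := fun _ => 0) (fun x hx => ENNReal.ofReal_of_nonpos (le_of_lt hx.1))]
    simp
  have hW := h.Wm
  rw [h.R1, withDensity_apply _ hU.measurableSet, lintegral_eq_zero_iff (by fun_prop), EventuallyEq,
    ae_restrict_iff' hU.measurableSet, ae_iff] at h1
  apply hμ.ne'
  refine measure_mono_null ?_ h1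
  intro y hy
  simp only [mem_setOf_eq, Classical.not_imp, Pi.zero_apply, ENNReal.ofReal_eq_zero, not_le]
  exact ⟨hy, hy.2⟩

lemma Loc.null (h : Loc φ A b E G W Y V) (a c : ℝ) (hJ : φ (Ioo a c) = 0) :
    ∀ x ∈ Ioo a c, W x = 0 ∧ Y x = 0 ∧ V x = 0 := by
  have hz : ∀ x y, a < x → x ≤ y → y < c → ∀ f : ℝ → ℝ, ∫ z in Ioc x y, f z ∂φ = 0 := by
    intro x y hx hxy hy f
    have : φ (Ioc x y) = 0 := measure_mono_null (show Ioc x y ⊆ Ioo a c from fun z hz => ⟨hx.trans hz.1, lt_of_le_of_lt hz.2 hy⟩) hJ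
    rw [Measure.restrict_eq_zero.2 this, integral_zero_measure]
  have hV : ∀ x y, a < x → x ≤ y → y < c → V y = V x := by
    intro x y hx hxy hy
    have := h.Vdiff x y hxy
    rw [hz x y hx hxy hy] at this; linarith
  have hY : ∀ x y, a < x → x ≤ y → y < c → Y y = Y x + V x * (y - x) := by
    intro x y hx hxy hy
    have h1 := h.Ydiff x y hxy
    rw [hz x y hx hxy hy] at h1
    have h2 : ∫ z in Ioc x y, V z = ∫ z in Ioc x y, V x :=
      setIntegral_congr_fun measurableSet_Ioc (fun z hz => hV x z hx hz.1.le (lt_of_le_of_lt hz.2 hy))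
    rw [h2, setIntegral_const, measureReal_def, Real.volume_Ioc, ENNReal.toReal_ofReal (by linarith)] at h1
    simp only [smul_eq_mul] at h1
    linarith
  have hI : ∀ x y, a < x → x ≤ y → y < c → Y x * (y - x) + V x * ((y-x)^2/2) = 0 := by
    intro x y hx hxy hy
    have h1 : ∫ z in Ioc x y, Y z = 0 := by rw [← h.R3 _ measurableSet_Ioc, hz x y hx hxy hy]
    have h2 : ∫ z in Ioc x y, Y z = ∫ z in Ioc x y, (Y x + V x * (z - x)) :=
      setIntegral_congr_fun measurableSet_Ioc (fun z hz => hY x z hx hz.1.le (lt_of_le_of_lt hz.2 hy))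
    rw [h2, ← intervalIntegral.integral_of_le hxy] at h1
    have h3 : ∫ z in x..y, (Y x + V x * (z - x)) = Y x * (y - x) + V x * ((y-x)^2/2) := by
      rw [intervalIntegral.integral_add (by simp) (by apply Continuous.intervalIntegrable; fun_prop),
        intervalIntegral.integral_const, intervalIntegral.integral_const_mul,
        intervalIntegral.integral_comp_sub_right (fun z => z) x, integral_id]
      simp only [smul_eq_mul]; ring
    rw [h3] at h1; exact h1
  have hYV : ∀ x ∈ Ioo a c, Y x = 0 ∧ V x = 0 := by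
    intro x hx
    set d := (c - x)/3 with hd
    have hd0 : 0 < d := by have := hx.2; rw [hd]; linarith
    have e1 := hI x (x + d) hx.1 (by linarith) (by rw [hd]; linarith [hx.2])
    have e2 := hI x (x + 2*d) hx.1 (by linarith) (by rw [hd]; linarith [hx.2])
    have f1 : d * (Y x + V x * d / 2) = 0 := by linarith [e1]
    have f2 : d * (Y x + V x * d) = 0 := by linarith [e2]
    have g1 := (mul_eq_zero.1 f1).resolve_left hd0.ne'
    have g2 := (mul_eq_zero.1 f2).resolve_left hd0.ne'
    have g3 : V x * d = 0 := by linarith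
    have g4 := (mul_eq_zero.1 g3).resolve_right hd0.ne'
    rw [g4] at g2
    exact ⟨by linarith, g4⟩
  intro x hx
  refine ⟨?_, hYV x hx⟩
  by_contra hne
  have hpos : 0 < W x := lt_of_le_of_ne (h.Wnn x) (Ne.symm hne)
  set U : Set ℝ := Ioo a c ∩ {y | 0 < W y} with hUdef
  have hU : IsOpen U := isOpen_Ioo.inter (isOpen_lt continuous_const h.Wcont)
  have hμ := hU.measure_pos volume ⟨x, hx, hpos⟩
  have h1 : (φ.withDensity (fun x => ENNReal.ofReal (A.eval x))) U = 0 := by
    apply withDensity_absolutelyContinuous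
    exact measure_mono_null inter_subset_left hJ
  have hW := h.Wm
  rw [h.R1, withDensity_apply _ hU.measurableSet, lintegral_eq_zero_iff (by fun_prop), EventuallyEq,
    ae_restrict_iff' hU.measurableSet, ae_iff] at h1
  apply hμ.ne'
  refine measure_mono_null ?_ h1
  intro y hy
  simp only [mem_setOf_eq, Classical.not_imp, Pi.zero_apply, ENNReal.ofReal_eq_zero, not_le]
  exact ⟨hy, hy.2⟩

lemma Loc.fin (h : Loc φ A b E G W Y V) : IsFiniteMeasure φ := by
  have := h.mφ 0
  simp only [pow_zero] at this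
  exact (integrable_const_iff_isFiniteMeasure one_ne_zero).1 this

lemma Loc.start (h : Loc φ A b E G W Y V) (p δ : ℝ) (hδ : 0 < δ) (hJ : φ (Ioo (p - δ) p) = 0) :
    W p = 0 ∧ Y p = E.eval p * φ.real {p} ∧ V p = - (G.eval p * φ.real {p}) ∧ b.eval p * φ.real {p} = 0 := by
  have hn := h.null _ _ hJ
  have hfin := h.fin
  set x' := p - δ/2 with hx'
  have hx'J : x' ∈ Ioo (p - δ) p := ⟨by rw [hx']; linarith, by rw [hx']; linarith⟩
  obtain ⟨w1, y1, v1⟩ := hn x' hx'J
  have hsing : ∀ P : ℝ[X], ∫ z in Ioc x' p, P.eval z ∂φ = P.eval p * φ.real {p} := by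
    intro P
    have hu : Ioc x' p = Ioo x' p ∪ {p} := by
      rw [Ioo_union_right hx'J.2]
    rw [hu, setIntegral_union (by simp) (measurableSet_singleton p) (int_poly h.mφ P).integrableOn
      (int_poly h.mφ P).integrableOn]
    have h0 : φ (Ioo x' p) = 0 := measure_mono_null (Ioo_subset_Ioo_left hx'J.1.le) hJ
    rw [Measure.restrict_eq_zero.2 h0, integral_zero_measure, Measure.restrict_singleton,
      integral_smul_measure, integral_dirac, measureReal_def]
    simp [mul_comm]
  refine ⟨?_, ?_, ?_, ?_⟩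
  · have h1 : Tendsto W (𝓝[<] p) (𝓝 (W p)) := h.Wcont.continuousAt.mono_left nhdsWithin_le_nhds
    have h2 : Tendsto W (𝓝[<] p) (𝓝 0) := by
      apply tendsto_const_nhds.congr'
      filter_upwards [Ioo_mem_nhdsLT (show p - δ < p by linarith)] with z hz
      exact (hn z hz).1.symm
    exact tendsto_nhds_unique h1 h2
  · have h1 := h.Ydiff x' p hx'J.2.le
    rw [hsing, y1] at h1
    have h2 : ∫ z in Ioc x' p, V z = 0 := by
      rw [integral_Ioc_eq_integral_Ioo]
      rw [setIntegral_congr_fun measurableSet_Ioo (g := fun _ => (0:ℝ)) (fun z hz => (hn z ⟨hx'J.1.trans hz.1, hz.2⟩).2.2)]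
      simp
    rw [h2] at h1; linarith
  · have h1 := h.Vdiff x' p hx'J.2.le
    rw [hsing, v1] at h1
    linarith
  · have h1 := h.R3 {p} (measurableSet_singleton p)
    rw [Measure.restrict_singleton, integral_smul_measure, integral_dirac] at h1
    have h2 : ∫ z in {p}, Y z = 0 := by
      have : volume ({p} : Set ℝ) = 0 := by simp
      rw [Measure.restrict_eq_zero.2 this, integral_zero_measure]
    rw [h2] at h1
    rw [measureReal_def]
    simpa [mul_comm] using h1

lemma small (f : ℝ → ℝ) (p ε c S : ℝ) (hε : 0 ≤ ε) (hc : 0 ≤ c)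
    (h0 : ∀ x ∈ Icc p (p+ε), 0 ≤ f x ∧ f x ≤ S) (hi : IntegrableOn f (Ioc p (p+ε)))
    (hf : ∀ x ∈ Icc p (p+ε), f x ≤ c * ∫ y in Ioc p x, f y) (hce : c * ε ≤ 1/2) :
    ∀ x ∈ Icc p (p+ε), f x = 0 := by
  have hS : 0 ≤ S := by
    have := h0 p ⟨le_rfl, by linarith⟩
    linarith
  have key : ∀ n : ℕ, ∀ x ∈ Icc p (p+ε), f x ≤ S / 2^n := by
    intro n
    induction n with
    | zero => intro x hx; simpa using (h0 x hx).2
    | succ n ih =>
      intro x hx
      have h1 : ∫ y in Ioc p x, f y ≤ ∫ y in Ioc p x, S/2^n := by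
        apply setIntegral_mono_on
        · exact hi.mono_set (Ioc_subset_Ioc_right hx.2)
        · exact integrableOn_const (by simp)
        · exact measurableSet_Ioc
        · intro y hy; exact ih y ⟨hy.1.le, hy.2.trans hx.2⟩
      rw [setIntegral_const, measureReal_def, Real.volume_Ioc, ENNReal.toReal_ofReal (by linarith [hx.1])] at h1
      simp only [smul_eq_mul] at h1
      have h2 : 0 ≤ S / 2^n := by positivity
      calc f x ≤ c * ∫ y in Ioc p x, f y := hf x hx
        _ ≤ c * ((x - p) * (S/2^n)) := by gcongr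
        _ ≤ c * (ε * (S/2^n)) := by
            gcongr
            linarith [hx.2]
        _ = (c * ε) * (S/2^n) := by ring
        _ ≤ 1/2 * (S/2^n) := by gcongr
        _ = S / 2^(n+1) := by rw [pow_succ]; ring
  intro x hx
  apply le_antisymm _ (h0 x hx).1
  have ht : Tendsto (fun n : ℕ => S / 2^n) atTop (𝓝 0) := by
    have := (tendsto_pow_atTop_nhds_zero_of_lt_one (show (0:ℝ) ≤ 1/2 by norm_num) (by norm_num)).const_mul S
    simpa [div_eq_mul_inv] using this
  exact ge_of_tendsto ht (Eventually.of_forall fun n => key n x hx)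

lemma Loc.zero_prop (h : Loc φ A b E G W Y V) (s : Set ℝ) (hs : IsOpen s) (hs' : s.OrdConnected)
    (hA : ∀ x ∈ s, 0 < A.eval x) (x0 x1 : ℝ) (h0 : x0 ∈ s) (h1 : x1 ∈ s) (hW : W x0 = 0) : W x1 = 0 := by
  set g : ℝ → ℝ := fun y => b.eval y / A.eval y with hg
  have hgc : ContinuousOn g s := b.continuous.continuousOn.div A.continuous.continuousOn (fun x hx => (hA x hx).ne')
  have hgM : Measurable g := by
    have := eval_meas A; have := eval_meas b; fun_prop
  have hR : ∀ x ∈ s, HasDerivAt (fun y => ∫ z in x0..y, g z) (g x) x := by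
    intro x hx
    apply intervalIntegral.integral_hasDerivAt_right
    · exact (hgc.mono (hs'.uIcc_subset h0 hx)).intervalIntegrable
    · exact hgM.stronglyMeasurable.stronglyMeasurableAtFilter
    · exact hgc.continuousAt (hs.mem_nhds hx)
  set F : ℝ → ℝ := fun x => W x * Real.exp (-(∫ z in x0..x, g z)) with hF
  have hFd : ∀ x ∈ s, HasDerivAt F 0 x := by
    intro x hx
    have h2 := (h.Wderiv x (hA x hx)).mul ((hR x hx).neg.exp)
    convert! h2 using 1
    simp only [hg]
    have := (hA x hx).ne'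
    field_simp
    simp
  have := hs.is_const_of_deriv_eq_zero hs'.isPreconnected
    (fun x hx => (hFd x hx).differentiableAt.differentiableWithinAt) (fun x hx => (hFd x hx).deriv) h0 h1
  simp only [hF, hW, zero_mul] at this
  exact (mul_eq_zero.1 this.symm).resolve_right (Real.exp_pos _).ne'

lemma Loc.UB (h : Loc φ A b E G W Y V) (N : ℝ) (hN : 0 < N) (m : ℕ) (hA : ∀ x, N ≤ x → 0 < A.eval x)
    (hb : ∀ x, N ≤ x → 0 ≤ m * A.eval x + x * b.eval x) : ∀ x, N ≤ x → W x = 0 := by
  intro x1 hx1
  by_contra hne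
  have hpos : 0 < W x1 := lt_of_le_of_ne (h.Wnn x1) (Ne.symm hne)
  set F : ℝ → ℝ := fun x => x^m * W x with hF
  have hFd : ∀ x, N ≤ x → HasDerivAt F (x^m / x * (W x / A.eval x) * (m * A.eval x + x * b.eval x)) x := by
    intro x hx
    have hx0 : 0 < x := lt_of_lt_of_le hN hx
    have h2 := (hasDerivAt_pow m x).mul (h.Wderiv x (hA x hx))
    convert! h2 using 1
    have hA' := (hA x hx).ne'
    have e : (m:ℝ) * x^(m-1) = m * (x^m / x) := by
      rcases Nat.eq_zero_or_pos m with h0 | h0
      · subst h0; simp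
      · congr 1
        rw [eq_div_iff hx0.ne', ← pow_succ]
        congr 1; omega
    rw [e]
    field_simp
  have hmono : MonotoneOn F (Ici N) := by
    apply monotoneOn_of_deriv_nonneg (convex_Ici N)
    · intro x hx; exact (hFd x hx).continuousAt.continuousWithinAt
    · intro x hx
      rw [interior_Ici] at hx
      exact (hFd x (le_of_lt hx)).differentiableAt.differentiableWithinAt
    · intro x hx
      rw [interior_Ici] at hx
      have hx' : N ≤ x := le_of_lt hx
      rw [(hFd x hx').deriv]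
      have hx0 : 0 < x := lt_of_lt_of_le hN hx'
      have := h.Wnn x
      have := hA x hx'
      have := hb x hx'
      positivity
  have hκ : 0 < F x1 := by
    have : 0 < x1 := lt_of_lt_of_le hN hx1
    simp only [hF]; positivity
  have hint := (h.Wint m).integrableOn (s := Ioi x1)
  have hc : IntegrableOn (fun _ : ℝ => F x1) (Ioi x1) := by
    refine Integrable.mono hint (by fun_prop) ?_
    rw [ae_restrict_iff' measurableSet_Ioi]
    refine Eventually.of_forall fun x hx => ?_
    have hx' : x1 < x := hx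
    have h3 : F x1 ≤ F x := hmono hx1 (hx1.trans hx'.le) hx'.le
    rw [Real.norm_eq_abs, Real.norm_eq_abs, abs_of_pos hκ]
    exact h3.trans (le_abs_self _)
  rw [integrableOn_const_iff] at hc
  rcases hc with hc | hc
  · exact hκ.ne' (enorm_eq_zero.1 hc)
  · simp at hc

end Kr
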