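import Pool.Agent.H859R3.KrUniq
set_option autoImplicit false
open MeasureTheory Polynomial ProbabilityTheory
namespace Kr

lemma MB.finite {μ : Measure ℝ} (h : MB μ) : IsFiniteMeasure μ := h.EB.finite

lemma MB.int_abs {μ : Measure ℝ} (h : MB μ) (n : ℕ) : Integrable (fun x : ℝ => |x|^n) μ := by
  obtain ⟨K, hK, h⟩ := h
  refine ⟨by fun_prop, ?_⟩
  rw [hasFiniteIntegral_iff_ofReal (Filter.Eventually.of_forall (fun x => by positivity))]
  exact lt_of_le_of_lt (h n) ENNReal.ofReal_lt_top

lemma MB.int_pow {μ : Measure ℝ} (h : MB μ) (n : ℕ) : Integrable (fun x : ℝ => x^n) μ := by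
  refine (h.int_abs n).mono' (by fun_prop) (Filter.Eventually.of_forall fun x => ?_)
  rw [Real.norm_eq_abs, abs_pow]

/-- polynomials are integrable as soon as all powers are -/
lemma int_poly {μ : Measure ℝ} (h : ∀ n : ℕ, Integrable (fun x : ℝ => x^n) μ) (P : ℝ[X]) :
    Integrable (fun x => P.eval x) μ := by
  have : (fun x : ℝ => P.eval x) = fun x => ∑ i ∈ Finset.range (P.natDegree + 1), P.coeff i * x^i := by
    ext x; exact Polynomial.eval_eq_sum_range x
  rw [this]
  exact integrable_finsetSum _ fun i _ => (h i).const_mul _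

lemma MB.add {μ ν : Measure ℝ} (h : MB μ) (h' : MB ν) : MB (μ + ν) := by
  obtain ⟨K, hK, h⟩ := h
  obtain ⟨L, hL, h'⟩ := h'
  refine ⟨K + L, by linarith, fun n => ?_⟩
  rw [lintegral_add_measure]
  calc _ ≤ ENNReal.ofReal (K^(n+1) * n.factorial) + ENNReal.ofReal (L^(n+1) * n.factorial) :=
        add_le_add (h n) (h' n)
    _ = ENNReal.ofReal (K^(n+1) * n.factorial + L^(n+1) * n.factorial) := by
        rw [ENNReal.ofReal_add (by positivity) (by positivity)]
    _ ≤ _ := by
        apply ENNReal.ofReal_le_ofReal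
        have : K^(n+1) + L^(n+1) ≤ (K+L)^(n+1) := pow_add_pow_le (by linarith) (by linarith) (by omega)
        have h2 : (0:ℝ) ≤ n.factorial := by positivity
        nlinarith

lemma MB.mono {μ ν : Measure ℝ} (h : MB μ) (hle : ν ≤ μ) : MB ν := by
  obtain ⟨K, hK, h⟩ := h
  exact ⟨K, hK, fun n => (lintegral_mono' hle le_rfl).trans (h n)⟩

lemma fact_bound (n : ℕ) : ((n+4).factorial : ℝ) ≤ 24 * 2^(n+4) * n.factorial := by
  have h := Nat.add_choose_mul_factorial_mul_factorial n 4
  have h2 : (n+4).choose 4 ≤ 2^(n+4) := Nat.choose_le_two_pow _ _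
  have h3 : (n+4).factorial ≤ 24 * 2^(n+4) * n.factorial := by
    rw [← h]
    have : Nat.factorial 4 = 24 := by decide
    rw [this]
    calc (n+4).choose 4 * n.factorial * 24 ≤ 2^(n+4) * n.factorial * 24 := by gcongr
      _ = 24 * 2^(n+4) * n.factorial := by ring
  exact_mod_cast h3

/-- weighting by a function of polynomial growth. -/
lemma MB.weight {μ : Measure ℝ} (h : MB μ) (g : ℝ → ℝ) (hg : Measurable g) (c : ℝ) (hc : 1 ≤ c)
    (hgc : ∀ x, g x ≤ c * (1 + |x|^4)) : MB (μ.withDensity (fun x => ENNReal.ofReal (g x))) := by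
  obtain ⟨K, hK, h⟩ := h
  refine ⟨c * (K + 768 * K^5), ?_, fun n => ?_⟩
  · have : 1 ≤ K^5 := one_le_pow₀ hK
    nlinarith
  rw [lintegral_withDensity_eq_lintegral_mul _ (by fun_prop) (by fun_prop)]
  have e1 : ∀ x : ℝ, ((fun x => ENNReal.ofReal (g x)) * fun x => ENNReal.ofReal (|x|^n)) x ≤
      ENNReal.ofReal c * (ENNReal.ofReal (|x|^n) + ENNReal.ofReal (|x|^(n+4))) := by
    intro x
    simp only [Pi.mul_apply]
    rw [mul_comm (ENNReal.ofReal (g x)), ← ENNReal.ofReal_mul (pow_nonneg (abs_nonneg x) n),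
      ← ENNReal.ofReal_add (by positivity) (by positivity), ← ENNReal.ofReal_mul (show 0 ≤ c by linarith)]
    apply ENNReal.ofReal_le_ofReal
    calc |x|^n * g x ≤ |x|^n * (c * (1 + |x|^4)) := by
          apply mul_le_mul_of_nonneg_left (hgc x) (by positivity)
      _ = _ := by ring
  calc _ ≤ ∫⁻ x, ENNReal.ofReal c * (ENNReal.ofReal (|x|^n) + ENNReal.ofReal (|x|^(n+4))) ∂μ :=
        lintegral_mono e1
    _ = ENNReal.ofReal c * (∫⁻ x, ENNReal.ofReal (|x|^n) ∂μ + ∫⁻ x, ENNReal.ofReal (|x|^(n+4)) ∂μ) := by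
        rw [lintegral_const_mul _ (by fun_prop), lintegral_add_left (by fun_prop)]
    _ ≤ ENNReal.ofReal c * (ENNReal.ofReal (K^(n+1) * n.factorial) + ENNReal.ofReal (K^(n+4+1) * (n+4).factorial)) := by
        gcongr
        · exact h n
        · exact h (n+4)
    _ = ENNReal.ofReal (c * (K^(n+1) * n.factorial + K^(n+4+1) * (n+4).factorial)) := by
        rw [← ENNReal.ofReal_add (by positivity) (by positivity), ← ENNReal.ofReal_mul (by linarith)]
    _ ≤ _ := by
        apply ENNReal.ofReal_le_ofReal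
        have hf := fact_bound n
        have hf0 : (0:ℝ) ≤ n.factorial := by positivity
        have hKn : 0 ≤ K^(n+4+1) := by positivity
        have h1 : K^(n+4+1) * (n+4).factorial ≤ (768 * K^5)^(n+1) * n.factorial := by
          calc K^(n+4+1) * (n+4).factorial ≤ K^(n+4+1) * (24 * 2^(n+4) * n.factorial) := by gcongr
            _ = (24 * 8 * 2^(n+1) * K^(n+5)) * n.factorial := by ring
            _ ≤ ((384)^(n+1) * 2^(n+1) * K^(5*(n+1))) * n.factorial := by
                gcongr
                · calc (24:ℝ) * 8 ≤ 384^1 := by norm_num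
                    _ ≤ 384^(n+1) := by gcongr <;> norm_num
                · omega
            _ = _ := by
                rw [← mul_pow, pow_mul, ← mul_pow]; norm_num
        have h2 : K^(n+1) + (768*K^5)^(n+1) ≤ (K + 768*K^5)^(n+1) :=
          pow_add_pow_le (by linarith) (by positivity) (by omega)
        have h3 : c ≤ c^(n+1) := by
          calc c = c^1 := (pow_one c).symm
            _ ≤ c^(n+1) := by gcongr <;> linarith
        calc c * (K^(n+1) * n.factorial + K^(n+4+1) * (n+4).factorial)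
            ≤ c * (K^(n+1) * n.factorial + (768*K^5)^(n+1) * n.factorial) := by gcongr
          _ = c * (K^(n+1) + (768*K^5)^(n+1)) * n.factorial := by ring
          _ ≤ c^(n+1) * (K + 768*K^5)^(n+1) * n.factorial := by gcongr
          _ = _ := by rw [mul_pow]

/-- polynomials of degree at most 4 have growth at most `c (1+|x|^4)` -/
lemma poly_growth (P : ℝ[X]) (hP : P.natDegree ≤ 4) : ∃ c : ℝ, 1 ≤ c ∧ ∀ x, |P.eval x| ≤ c * (1 + |x|^4) := by
  refine ⟨1 + ∑ i ∈ Finset.range 5, |P.coeff i|, ?_, fun x => ?_⟩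
  · have : 0 ≤ ∑ i ∈ Finset.range 5, |P.coeff i| := Finset.sum_nonneg fun i _ => abs_nonneg _
    linarith
  · rw [Polynomial.eval_eq_sum_range' (show P.natDegree < 5 by omega)]
    have h1 : ∀ i ∈ Finset.range 5, |P.coeff i * x^i| ≤ |P.coeff i| * (1 + |x|^4) := by
      intro i hi
      rw [abs_mul, abs_pow]
      apply mul_le_mul_of_nonneg_left _ (abs_nonneg _)
      have hi' : i < 5 := Finset.mem_range.1 hi
      rcases le_total |x| 1 with h | h
      · have : |x|^i ≤ 1 := pow_le_one₀ (abs_nonneg _) h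
        have h2 : 0 ≤ |x|^4 := by positivity
        linarith
      · have : |x|^i ≤ |x|^4 := pow_le_pow_right₀ h (by omega)
        linarith
    calc |∑ i ∈ Finset.range 5, P.coeff i * x^i| ≤ ∑ i ∈ Finset.range 5, |P.coeff i * x^i| :=
          Finset.abs_sum_le_sum_abs _ _
      _ ≤ ∑ i ∈ Finset.range 5, |P.coeff i| * (1 + |x|^4) := Finset.sum_le_sum h1
      _ = (∑ i ∈ Finset.range 5, |P.coeff i|) * (1 + |x|^4) := by rw [Finset.sum_mul]
      _ ≤ _ := by
        have h2 : 0 ≤ |x|^4 := by positivity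
        nlinarith

end Kr
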