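import Pool.Agent.H859R3.KrCase
set_option autoImplicit false
open MeasureTheory Polynomial Set Filter Topology
namespace Kr

variable {φ ψ η : Measure ℝ} {A b E G : ℝ[X]} {W Y V : ℝ → ℝ}

lemma right_end (A : ℝ[X]) (x0 : ℝ) (h0 : 0 < A.eval x0) :
    (∃ q, x0 < q ∧ A.eval q = 0 ∧ ∀ x, x0 ≤ x → x < q → 0 < A.eval x) ∨ (∀ x, x0 ≤ x → 0 < A.eval x) := by
  by_cases hex : ∀ x, x0 ≤ x → 0 < A.eval x
  · exact Or.inr hex
  · left
    push Not at hex
    set S : Set ℝ := {x | x0 ≤ x ∧ A.eval x ≤ 0} with hS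
    have hne : S.Nonempty := hex
    have hbd : BddBelow S := ⟨x0, fun x hx => hx.1⟩
    have hcl : IsClosed S := (isClosed_Ici (a := x0)).inter (isClosed_le A.continuous continuous_const)
    have hq := hcl.csInf_mem hne hbd
    set q := sInf S with hqd
    have hlt : ∀ x, x0 ≤ x → x < q → 0 < A.eval x := by
      intro x h1 h2
      by_contra h3
      exact absurd (csInf_le hbd ⟨h1, not_lt.1 h3⟩) (not_le.2 h2)
    have hx0q : x0 < q := by
      refine lt_of_le_of_ne hq.1 (fun he => ?_)
      have := hq.2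
      rw [← he] at this
      linarith
    refine ⟨q, hx0q, le_antisymm hq.2 ?_, hlt⟩
    have h1 : Tendsto (fun x => A.eval x) (𝓝[<] q) (𝓝 (A.eval q)) :=
      A.continuous.continuousAt.mono_left nhdsWithin_le_nhds
    apply ge_of_tendsto h1
    filter_upwards [Ioo_mem_nhdsLT hx0q] with x hx
    exact (hlt x hx.1.le hx.2).le

lemma left_end (A : ℝ[X]) (x0 : ℝ) (h0 : 0 < A.eval x0) :
    (∃ p, p < x0 ∧ A.eval p = 0 ∧ ∀ x, p < x → x ≤ x0 → 0 < A.eval x) ∨ (∀ x, x ≤ x0 → 0 < A.eval x) := by
  rcases right_end (A.comp (-X)) (-x0) (by simpa [eval_comp] using h0) with ⟨q, h1, h2, h3⟩ | h3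
  · left
    refine ⟨-q, by linarith, by simpa [eval_comp] using h2, fun x hx1 hx2 => ?_⟩
    have := h3 (-x) (by linarith) (by linarith)
    simpa [eval_comp] using this
  · right
    intro x hx
    have := h3 (-x) (by linarith)
    simpa [eval_comp] using this

lemma fac (P : ℝ[X]) (p : ℝ) (h : P.eval p = 0) : ∃ Q, P = (X - C p) * Q := dvd_iff_isRoot.2 h

lemma caseL (h : Sys φ ψ η A b E G) (p : ℝ) (hp : A.eval p = 0) (hpos : ∀ x, p < x → 0 < A.eval x)
    (hφ : φ (Ioi p) ≠ 0) : Concl φ := by
  obtain ⟨W, Y, V, hl⟩ := h.loc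
  have hA0 : A ≠ 0 := by rintro rfl; have := hpos (p+1) (by linarith); simp at this
  have hA' : (derivative A).eval p = 0 := by
    by_contra hne
    obtain ⟨ε, hε, hε1, hW⟩ := hl.claimF p 1 one_pos hp hne (fun x hx => hpos x hx.1)
    apply hφ
    apply hl.Wz _ measurableSet_Ioi (fun x hx => hpos x hx)
    intro x hx
    exact hl.zero_prop (Ioi p) isOpen_Ioi ordConnected_Ioi (fun x hx => hpos x hx) (p+ε/2) x
      (show p < p + ε/2 by linarith) hx (hW _ ⟨by linarith, by linarith⟩)
  have hdeg : A.natDegree ≤ b.natDegree := by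
    by_contra hlt
    exact hφ (h.UBdeg p hpos (not_le.1 hlt))
  obtain ⟨A1, hA1⟩ := fac A p hp
  have hA1p : A1.eval p = 0 := by rw [hA1] at hA'; simpa using hA'
  obtain ⟨A2, hA2⟩ := fac A1 p hA1p
  have hAA : A = (X - C p)^2 * A2 := by rw [hA1, hA2]; ring
  have hA20 : A2 ≠ 0 := by rintro rfl; rw [mul_zero] at hAA; exact hA0 hAA
  have hdA : A.natDegree = 2 + A2.natDegree := by
    rw [hAA, natDegree_mul (pow_ne_zero _ (X_sub_C_ne_zero p)) hA20, natDegree_pow, natDegree_X_sub_C]
  have hd2 : A.natDegree = 2 ∧ b.natDegree = 2 := by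
    rcases deg_bound h.dA h.db h.dE h.dG h.star hdeg with h1 | h1 | h1
    · omega
    · omega
    · exact h1
  have hA2d : A2.natDegree = 0 := by omega
  obtain ⟨κ, hκ⟩ : ∃ κ, A2 = C κ := ⟨_, eq_C_of_natDegree_eq_zero hA2d⟩
  have hκp : 0 < κ := by
    have := hpos (p+1) (by linarith)
    rw [hAA, hκ] at this
    simpa using this
  have hbp := b_zero h.star p hp hA'
  obtain ⟨b1, hb1⟩ := fac b p hbp
  have hb0 : b ≠ 0 := by rintro rfl; simp at hd2
  have hb10 : b1 ≠ 0 := by rintro rfl; rw [mul_zero] at hb1; exact hb0 hb1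
  have hdb : b.natDegree = 1 + b1.natDegree := by
    rw [hb1, natDegree_mul (X_sub_C_ne_zero p) hb10, natDegree_X_sub_C]
  obtain ⟨c1, c0, hc⟩ := exists_eq_X_add_C_of_natDegree_le_one (show b1.natDegree ≤ 1 by omega)
  have hc10 : c1 ≠ 0 := by
    rintro rfl
    have : b1.natDegree = 0 := by rw [hc]; simp
    omega
  have hbb : b = (X - C p) * (C c1 * (X - C p) + C (c0 + c1 * p)) := by
    rw [hb1, hc]; simp only [C_add, C_mul]; ring
  have hc1 : c1 < 0 := by
    rcases lt_or_gt_of_ne hc10 with h1 | h1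
    · exact h1
    · exfalso
      apply hφ
      apply h.UBpos p hpos
      filter_upwards [eventually_ge_atTop p, eventually_ge_atTop (p - (c0 + c1*p)/c1)] with x hx1 hx2
      rw [hbb]
      simp only [eval_mul, eval_add, eval_sub, eval_X, eval_C]
      have h2 : 0 ≤ x - p := by linarith
      have h3 : -(c0 + c1*p)/c1 ≤ x - p := by
        have : -(c0 + c1*p)/c1 = - ((c0 + c1*p)/c1) := by ring
        linarith
      rw [div_le_iff₀ h1] at h3
      apply mul_nonneg h2
      linarith
  exact LCase h p κ c1 (c0 + c1*p) hκp (by rw [hAA, hκ]; ring) hbb hc1 hφ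

lemma pre (h : Sys φ ψ η A b E G) (hpos : ∀ x, 0 < A.eval x) (hφ : φ univ ≠ 0) (r : ℝ) : φ (Ioi r) ≠ 0 := by
  obtain ⟨W, Y, V, hl⟩ := h.loc
  intro h0
  apply hφ
  apply hl.Wz _ MeasurableSet.univ (fun x _ => hpos x)
  intro x hx
  exact hl.zero_prop univ isOpen_univ ordConnected_univ (fun x _ => hpos x) (r+1) x (mem_univ _) hx
    (hl.W0_right r h0 (r+1) (by linarith))

lemma caseH (h : Sys φ ψ η A b E G) (hpos : ∀ x, 0 < A.eval x) (hφ : φ univ ≠ 0) : Concl φ := by
  have h1 := pre h hpos hφ
  have hpos' : ∀ x, 0 < (A.comp (-X)).eval x := by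
    intro x; simp only [eval_comp, eval_neg, eval_X]; exact hpos _
  have h2 := pre h.refl hpos' (by rw [Rm_apply]; simpa using hφ)
  have hdeg : A.natDegree ≤ b.natDegree := by
    by_contra hlt
    exact h1 0 (h.UBdeg 0 (fun x _ => hpos x) (not_le.1 hlt))
  rcases deg_bound h.dA h.db h.dE h.dG h.star hdeg with h3 | h3 | h3
  · obtain ⟨κ, hκ⟩ : ∃ κ, A = C κ := ⟨_, eq_C_of_natDegree_eq_zero h3.1⟩
    have hκp : 0 < κ := by have := hpos 0; rw [hκ] at this; simpa using this
    obtain ⟨b1, b0, hb⟩ := exists_eq_X_add_C_of_natDegree_le_one h3.2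
    apply HCase h κ b1 b0 hκp hκ hb _ hφ
    by_contra hb1
    rcases eq_or_lt_of_le (not_lt.1 hb1) with h4 | h4
    · rcases le_total 0 b0 with h5 | h5
      · apply h1 0
        apply h.UBpos 0 (fun x _ => hpos x)
        refine Eventually.of_forall fun x => ?_
        rw [hb, ← h4]; simpa using h5
      · apply h2 0
        apply h.refl.UBpos 0 (fun x _ => hpos' x)
        refine Eventually.of_forall fun x => ?_
        rw [hb, ← h4]; simpa using h5
    · apply h1 0
      apply h.UBpos 0 (fun x _ => hpos x)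
      filter_upwards [eventually_ge_atTop (-b0/b1)] with x hx
      rw [hb]
      simp only [eval_add, eval_mul, eval_C, eval_X]
      rw [div_le_iff₀ h4] at hx
      linarith
  · exfalso
    obtain ⟨a1, a0, ha⟩ := exists_eq_X_add_C_of_natDegree_le_one h3.1.le
    have ha1 : a1 ≠ 0 := by
      rintro rfl
      have : A.natDegree = 0 := by rw [ha]; simp
      omega
    have := hpos (-a0/a1)
    rw [ha] at this
    simp only [eval_add, eval_mul, eval_C, eval_X] at this
    rw [mul_div_cancel₀ _ ha1] at this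
    simp at this
  · exfalso
    have hb0 : b ≠ 0 := by rintro rfl; simp at h3
    rcases lt_or_gt_of_ne (leadingCoeff_ne_zero.2 hb0) with h4 | h4
    · apply h2 0
      apply h.refl.UBpos 0 (fun x _ => hpos' x)
      have hnd : (-(b.comp (-X))).natDegree = 2 := by
        rw [natDegree_neg, natDegree_comp]; simp [h3.2]
      have hlc : (-(b.comp (-X))).leadingCoeff = -b.leadingCoeff := by
        rw [leadingCoeff_neg, leadingCoeff_comp (by simp), h3.2]; simp
      have := tendsto_atTop_of_leadingCoeff_nonneg (-(b.comp (-X)))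
        (by rw [← natDegree_pos_iff_degree_pos, hnd]; norm_num) (by rw [hlc]; linarith)
      exact this.eventually_ge_atTop 0
    · apply h1 0
      apply h.UBpos 0 (fun x _ => hpos x)
      have := tendsto_atTop_of_leadingCoeff_nonneg b
        (by rw [← natDegree_pos_iff_degree_pos, h3.2]; norm_num) h4.le
      exact this.eventually_ge_atTop 0

lemma caseJ (h : Sys φ ψ η A b E G) (p q : ℝ) (hpq : p < q) (hp : A.eval p = 0) (hq : A.eval q = 0)
    (hpos : ∀ x ∈ Ioo p q, 0 < A.eval x) (hφ : φ (Ioo p q) ≠ 0) : Concl φ := by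
  have hfin : IsFiniteMeasure φ := by obtain ⟨W, Y, V, hl⟩ := h.loc; exact hl.fin
  have hA' : (derivative A).eval p = 0 := by
    obtain ⟨W, Y, V, hl⟩ := h.loc
    exact hl.claimF' p q hpq hp hpos hφ
  have hRφ : Rm φ (Ioo (-q) (-p)) ≠ 0 := by
    rw [Rm_apply]
    have : (fun x : ℝ => -x) ⁻¹' Ioo (-q) (-p) = Ioo p q := by
      ext x; simp only [mem_preimage, mem_Ioo, neg_lt_neg_iff]; tauto
    rwa [this]
  have hAq' : (derivative A).eval q = 0 := by
    obtain ⟨W, Y, V, hl⟩ := h.refl.loc
    have := hl.claimF' (-q) (-p) (by linarith) (by simpa [eval_comp] using hq) (fun x hx => by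
      simp only [eval_comp, eval_neg, eval_X]
      apply hpos; constructor <;> linarith [hx.1, hx.2]) hRφ
    simpa [derivative_comp, eval_comp] using this
  have hmid : (p+q)/2 ∈ Ioo p q := ⟨by linarith, by linarith⟩
  have hA0 : A ≠ 0 := by rintro rfl; have := hpos _ hmid; simp at this
  have hqp : q - p ≠ 0 := by linarith
  obtain ⟨A1, hA1⟩ := fac A p hp
  have hA1p : A1.eval p = 0 := by rw [hA1] at hA'; simpa using hA'
  obtain ⟨A2, hA2⟩ := fac A1 p hA1p
  have hAA : A = (X - C p)^2 * A2 := by rw [hA1, hA2]; ring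
  have hA2q : A2.eval q = 0 := by
    rw [hAA] at hq
    simp only [eval_mul, eval_pow, eval_sub, eval_X, eval_C] at hq
    exact (mul_eq_zero.1 hq).resolve_left (pow_ne_zero _ hqp)
  obtain ⟨A3, hA3⟩ := fac A2 q hA2q
  have hA3q : A3.eval q = 0 := by
    have e : A = (X - C q) * ((X - C p)^2 * A3) := by rw [hAA, hA3]; ring
    rw [e] at hAq'
    simp only [derivative_mul, derivative_sub, derivative_X, derivative_C, sub_zero, one_mul, eval_add, eval_mul,
      eval_sub, eval_X, eval_C, eval_pow, sub_self, zero_mul, add_zero] at hAq'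
    exact (mul_eq_zero.1 hAq').resolve_left (pow_ne_zero _ hqp)
  obtain ⟨A4, hA4⟩ := fac A3 q hA3q
  have hAAA : A = (X - C p)^2 * (X - C q)^2 * A4 := by rw [hAA, hA3, hA4]; ring
  have hA40 : A4 ≠ 0 := by rintro rfl; rw [mul_zero] at hAAA; exact hA0 hAAA
  have hdA : A.natDegree = 4 + A4.natDegree := by
    rw [hAAA, natDegree_mul (mul_ne_zero (pow_ne_zero _ (X_sub_C_ne_zero p)) (pow_ne_zero _ (X_sub_C_ne_zero q))) hA40,
      natDegree_mul (pow_ne_zero _ (X_sub_C_ne_zero p)) (pow_ne_zero _ (X_sub_C_ne_zero q)),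
      natDegree_pow, natDegree_pow, natDegree_X_sub_C, natDegree_X_sub_C]
  obtain ⟨κ, hκ⟩ : ∃ κ, A4 = C κ := ⟨_, eq_C_of_natDegree_eq_zero (by have := h.dA; omega)⟩
  have hAf : A = C κ * ((X - C p)^2 * (X - C q)^2) := by rw [hAAA, hκ]; ring
  have hκp : 0 < κ := by
    have h1 := hpos _ hmid
    rw [hAf] at h1
    simp only [eval_mul, eval_pow, eval_sub, eval_X, eval_C] at h1
    exact (pos_iff_pos_of_mul_pos h1).2 (by
      have e1 : (p+q)/2 - p ≠ 0 := by intro h0; apply hqp; linarith
      have e2 : (p+q)/2 - q ≠ 0 := by intro h0; apply hqp; linarith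
      positivity)
  have hbp := b_zero h.star p hp hA'
  have hbq := b_zero h.star q hq hAq'
  obtain ⟨b1, hb1⟩ := fac b p hbp
  have hb1q : b1.eval q = 0 := by
    rw [hb1] at hbq
    simp only [eval_mul, eval_sub, eval_X, eval_C] at hbq
    exact (mul_eq_zero.1 hbq).resolve_left hqp
  obtain ⟨θ, hθ⟩ := fac b1 q hb1q
  have hbf : b = (X - C p) * (X - C q) * θ := by rw [hb1, hθ]; ring
  have hθd : θ.natDegree ≤ 1 := by
    by_cases hθ0 : θ = 0
    · rw [hθ0]; simp
    · have hdb : b.natDegree = 2 + θ.natDegree := by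
        rw [hbf, natDegree_mul (mul_ne_zero (X_sub_C_ne_zero p) (X_sub_C_ne_zero q)) hθ0,
          natDegree_mul (X_sub_C_ne_zero p) (X_sub_C_ne_zero q), natDegree_X_sub_C, natDegree_X_sub_C]
      have := h.db; omega
  set β1 := θ.eval p / (κ * (p - q)) with hβ1
  set β2 := θ.eval q / (κ * (q - p)) with hβ2
  obtain ⟨K, hK, hb1', hm1, hform⟩ := JLeft h p q κ hpq hκp hAf θ hbf hθd hφ β1 β2 hβ1 hβ2
  obtain ⟨K', hK', hb2', hm2, _⟩ := JLeft h.refl (-q) (-p) κ (by linarith) hκp
    (by rw [hAf]; simp only [mul_comp, C_comp, pow_comp, sub_comp, X_comp, C_neg]; ring)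
    (-(θ.comp (-X))) (by rw [hbf]; simp only [mul_comp, C_comp, sub_comp, X_comp, C_neg]; ring)
    (by rw [natDegree_neg, natDegree_comp]; simpa using hθd) hRφ β2 β1
    (by
      rw [hβ2]; simp only [eval_neg, eval_comp, eval_X, neg_neg]
      have : κ * (-q - -p) = -(κ * (q - p)) := by ring
      rw [this, neg_div_neg_eq])
    (by
      rw [hβ1]; simp only [eval_neg, eval_comp, eval_X, neg_neg]
      have : κ * (-p - -q) = -(κ * (p - q)) := by ring
      rw [this, neg_div_neg_eq])
  have hRq : (Rm φ).real {-q} = φ.real {q} := by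
    rw [measureReal_def, measureReal_def, Rm_apply]
    congr 2
    ext x; simp
  rw [hRq] at hm2
  have hm2' : φ.real {q} ≠ 0 → β2 = 2 ∧ E.eval q = 0 := by
    intro hne
    have := hm2 hne
    simpa [eval_comp] using this
  apply concl_J φ K (β1 - 2) (β2 - 2) p q (φ.real {p}) (φ.real {q}) hpq hK (by linarith) (by linarith)
    measureReal_nonneg measureReal_nonneg (fun hne => by rw [(hm1 hne).1]; ring) (fun hne => by rw [(hm2' hne).1]; ring) _ hform
  intro hMp hMq
  obtain ⟨e1, E1⟩ := hm1 hMp
  obtain ⟨e2, E2⟩ := hm2' hMq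
  -- integral formula with constant density
  have hint : ∀ f : ℝ[X], ∫ x, f.eval x ∂φ = K * (∫ x in p..q, f.eval x) + φ.real {p} * f.eval p + φ.real {q} * f.eval q := by
    intro f
    rw [(hform f).2, e1, e2]
    congr 2
    have : (fun x => ((Ioo p q).indicator (fun x => K * ((x - p)^((2:ℝ) - 2) * (q - x)^((2:ℝ) - 2))) x) * f.eval x)
        = (Ioo p q).indicator (fun x => K * f.eval x) := by
      ext x
      by_cases hx : x ∈ Ioo p q
      · rw [indicator_of_mem hx, indicator_of_mem hx]; simp
      · rw [indicator_of_notMem hx, indicator_of_notMem hx, zero_mul]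
    rw [this, integral_indicator measurableSet_Ioo, integral_const_mul, ← integral_Ioc_eq_integral_Ioo,
      intervalIntegral.integral_of_le hpq.le]
  obtain ⟨t1, t0, ht⟩ := exists_eq_X_add_C_of_natDegree_le_one hθd
  have hpq0 : p - q ≠ 0 := by intro h0; apply hqp; linarith
  have f1 : t1 * p + t0 = 2 * (κ * (p - q)) := by
    rw [hβ1, div_eq_iff (mul_ne_zero hκp.ne' hpq0), ht] at e1
    simpa using e1
  have f2 : t1 * q + t0 = 2 * (κ * (q - p)) := by
    rw [hβ2, div_eq_iff (mul_ne_zero hκp.ne' hqp), ht] at e2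
    simpa using e2
  have g1 : t1 = 4 * κ := by
    have : (t1 - 4*κ) * (p - q) = 0 := by linear_combination f1 - f2
    have := (mul_eq_zero.1 this).resolve_right hpq0
    linarith
  have g0 : t0 = -(2 * κ * (p + q)) := by rw [g1] at f1; linarith
  obtain ⟨E1', hE1'⟩ := fac E p E1
  have hE1q : E1'.eval q = 0 := by
    rw [hE1'] at E2
    simp only [eval_mul, eval_sub, eval_X, eval_C] at E2
    exact (mul_eq_zero.1 E2).resolve_left hqp
  obtain ⟨E2', hE2'⟩ := fac E1' q hE1q
  have hEf : E = (X - C p) * (X - C q) * E2' := by rw [hE1', hE2']; ring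
  obtain ⟨e, he⟩ : ∃ e, E2' = C e := by
    by_cases hE0 : E2' = 0
    · exact ⟨0, by rw [hE0]; simp⟩
    · have hdE : E.natDegree = 2 + E2'.natDegree := by
        rw [hEf, natDegree_mul (mul_ne_zero (X_sub_C_ne_zero p) (X_sub_C_ne_zero q)) hE0,
          natDegree_mul (X_sub_C_ne_zero p) (X_sub_C_ne_zero q), natDegree_X_sub_C, natDegree_X_sub_C]
      exact ⟨_, eq_C_of_natDegree_eq_zero (by have := h.dE; omega)⟩
  have hbA : b = derivative A := by
    rw [hbf, hAf, ht, g1, g0]
    simp only [pow_two, derivative_mul, derivative_sub, derivative_X, derivative_C, C_mul, C_neg, C_add]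
    have c4 : (C (4:ℝ) : ℝ[X]) = 4 := map_ofNat C 4
    have c2 : (C (2:ℝ) : ℝ[X]) = 2 := map_ofNat C 2
    rw [c4, c2]; ring
  have hG : G = derivative E - derivative (derivative b) := by
    have hs := h.star
    rw [Qp, hbA] at hs
    have hs2 : A^2 * (G - derivative E + derivative (derivative (derivative A))) = 0 := by
      linear_combination hs
    have := (mul_eq_zero.1 hs2).resolve_left (pow_ne_zero _ hA0)
    rw [hbA]; linear_combination this
  have hGe : ∀ x, G.eval x = (e - 12 * κ) * (2 * x - p - q) := by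
    intro x
    rw [hG, hEf, he, hbf, ht, g1, g0]
    simp only [derivative_mul, derivative_sub, derivative_X, derivative_C, derivative_add, derivative_neg, derivative_one, eval_add, eval_sub, eval_mul,
      eval_X, eval_C, eval_one, eval_zero, derivative_zero, C_neg]
    simp
    ring
  have hEe : ∀ x, E.eval x = e * ((x - p) * (x - q)) := by
    intro x; rw [hEf, he]; simp; ring
  -- u(G) = 0
  have u1 : ∫ x, G.eval x ∂φ = 0 := by
    have := h.I3 1
    simpa using this.symm
  have u2 : (∫ x, (G * X).eval x ∂φ) + ∫ x, E.eval x ∂φ = 0 := by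
    have a1 := h.I3 X
    have a2 := h.I4 1
    simp only [derivative_X, derivative_one, mul_zero, mul_one, zero_add] at a1 a2
    linarith
  have j1 : ∫ x in p..q, (2 * x - p - q) = 0 := by
    have : ∀ x ∈ uIcc p q, HasDerivAt (fun x => x^2 - (p+q)*x) (2 * x - p - q) x := by
      intro x _
      have := ((hasDerivAt_pow 2 x).sub ((hasDerivAt_id x).const_mul (p+q)))
      convert! this using 1
      push_cast; ring
    rw [intervalIntegral.integral_eq_sub_of_hasDerivAt this (by apply Continuous.intervalIntegrable; fun_prop)]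
    ring
  have j2 : ∫ x in p..q, (x - p) * (x - q) = -(q-p)^3/6 := by
    have : ∀ x ∈ uIcc p q, HasDerivAt (fun x => x^3/3 - (p+q)*x^2/2 + p*q*x) ((x - p) * (x - q)) x := by
      intro x _
      have := (((hasDerivAt_pow 3 x).div_const 3).sub (((hasDerivAt_pow 2 x).const_mul (p+q)).div_const 2)).add
        ((hasDerivAt_id x).const_mul (p*q))
      convert! this using 1
      push_cast; ring
    rw [intervalIntegral.integral_eq_sub_of_hasDerivAt this (by apply Continuous.intervalIntegrable; fun_prop)]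
    ring
  by_cases hek : e - 12 * κ = 0
  · exfalso
    have hG0 : G = 0 := Polynomial.funext (fun x => by rw [hGe, hek]; simp)
    rw [hG0] at u2
    simp only [zero_mul, eval_zero, integral_zero, zero_add] at u2
    rw [hint E] at u2
    simp only [hEe] at u2
    rw [intervalIntegral.integral_const_mul, j2] at u2
    have hee : e = 12 * κ := by linarith
    rw [hee] at u2
    have : K * κ * (q-p)^3 = 0 := by linear_combination (-1/2) * u2
    have h3 : 0 < K * κ * (q-p)^3 := by
      have : 0 < q - p := by linarith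
      positivity
    linarith
  · rw [hint G] at u1
    simp only [hGe] at u1
    rw [intervalIntegral.integral_const_mul, j1] at u1
    have : (e - 12*κ) * ((p - q) * (φ.real {p} - φ.real {q})) = 0 := by linear_combination u1
    have := (mul_eq_zero.1 this).resolve_left hek
    have := (mul_eq_zero.1 this).resolve_left hpq0
    linarith

theorem Sys.main (h : Sys φ ψ η A b E G) : Concl φ := by
  obtain ⟨W, Y, V, hl⟩ := h.loc
  have hA0 : A ≠ 0 := by
    rintro rfl
    apply hl.Wne
    rw [← hl.R1]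
    simp
  obtain ⟨x0, hx0, hW0⟩ : ∃ x0, 0 < A.eval x0 ∧ 0 < W x0 := by
    by_contra hno
    push Not at hno
    apply hl.Wne
    rw [withDensity_eq_zero_iff hl.Wm.ennreal_ofReal.aemeasurable]
    have hfinite : volume ({x | A.eval x = 0} : Set ℝ) = 0 := by
      have : {x | A.eval x = 0} = (A.roots.toFinset : Set ℝ) := by
        ext x; simp [mem_roots hA0, IsRoot.def]
      rw [this]
      exact A.roots.toFinset.finite_toSet.measure_zero _
    rw [EventuallyEq, ae_iff]
    refine measure_mono_null ?_ hfinite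
    intro x hx
    simp only [mem_setOf_eq, Pi.zero_apply, ENNReal.ofReal_eq_zero, not_le] at hx ⊢
    by_contra hne
    rcases lt_or_gt_of_ne hne with h1 | h1
    · rw [hl.Wneg x h1] at hx; exact lt_irrefl _ hx
    · exact absurd (hno x h1) (not_le.2 hx)
  rcases right_end A x0 hx0 with ⟨q, hq1, hq2, hq3⟩ | hr
  · rcases left_end A x0 hx0 with ⟨p, hp1, hp2, hp3⟩ | hle
    · apply caseJ h p q (by linarith) hp2 hq2
      · intro x hx
        rcases le_total x x0 with h1 | h1
        · exact hp3 x hx.1 h1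
        · exact hq3 x h1 hx.2
      · intro h0
        have := (hl.null p q h0 x0 ⟨hp1, hq1⟩).1
        linarith
    · apply Concl.refl
      apply caseL h.refl (-q)
      · simpa [eval_comp] using hq2
      · intro x hx
        simp only [eval_comp, eval_neg, eval_X]
        rcases le_total (-x) x0 with h1 | h1
        · exact hle _ h1
        · exact hq3 _ h1 (by linarith)
      · intro h0
        have h1 := h.left0 q h0
        have := hl.W0_left q h1 x0 hq1
        linarith
  · rcases left_end A x0 hx0 with ⟨p, hp1, hp2, hp3⟩ | hle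
    · apply caseL h p hp2
      · intro x hx
        rcases le_total x x0 with h1 | h1
        · exact hp3 x hx h1
        · exact hr x h1
      · intro h0
        have := hl.W0_right p h0 x0 hp1
        linarith
    · apply caseH h
      · intro x
        rcases le_total x x0 with h1 | h1
        · exact hle x h1
        · exact hr x h1
      · intro h0
        have := hl.W0_right (x0 - 1) (measure_mono_null (subset_univ _) h0) x0 (by linarith)
        linarith

end Kr
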