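import Pool.Agent.H859R3.KrSys
set_option autoImplicit false
open MeasureTheory Polynomial Set Filter Topology
namespace Kr

/-- reflected measure -/
noncomputable def Rm (μ : Measure ℝ) : Measure ℝ := μ.map (fun x => -x)

lemma neg_emb : MeasurableEmbedding (fun x : ℝ => -x) := (MeasurableEquiv.neg ℝ).measurableEmbedding

lemma Rm_int (μ : Measure ℝ) (f : ℝ → ℝ) : ∫ x, f x ∂(Rm μ) = ∫ x, f (-x) ∂μ :=
  neg_emb.integral_map f

lemma Rm_apply (μ : Measure ℝ) (s : Set ℝ) : Rm μ s = μ ((fun x => -x) ⁻¹' s) :=
  neg_emb.map_apply μ s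

lemma Rm_pow (μ : Measure ℝ) (k : ℕ) (h : Integrable (fun x : ℝ => x^k) μ) :
    Integrable (fun x : ℝ => x^k) (Rm μ) := by
  rw [Rm, neg_emb.integrable_map_iff]
  have e : ((fun x : ℝ => x^k) ∘ fun x => -x) = fun x : ℝ => (-1)^k * x^k := by
    ext x; simp only [Function.comp]; rw [neg_pow]
  rw [e]
  exact h.const_mul _

theorem Sys.refl {φ ψ η : Measure ℝ} {A b E G : ℝ[X]} (h : Sys φ ψ η A b E G) :
    Sys (Rm φ) (Rm ψ) (Rm η) (A.comp (-X)) (-(b.comp (-X))) (E.comp (-X)) (-(G.comp (-X))) := by
  have hd : ∀ P : ℝ[X], (P.comp (-X)).natDegree = P.natDegree := by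
    intro P; rw [natDegree_comp]; simp
  refine ⟨fun k => Rm_pow φ k (h.mφ k), fun k => Rm_pow ψ k (h.mψ k), fun k => Rm_pow η k (h.mη k),
    ?_, by rw [hd]; exact h.dA, by rw [natDegree_neg, hd]; exact h.db, by rw [hd]; exact h.dE,
    by rw [natDegree_neg, hd]; exact h.dG, ?_, ?_, ?_, ?_, ?_⟩
  · intro h0
    apply h.hη
    rw [← Measure.measure_univ_eq_zero] at h0 ⊢
    rw [Rm_apply] at h0
    simpa using h0
  · intro g
    rw [Rm_int, Rm_int]
    have := h.I1 (g.comp (-X))
    simp only [eval_comp, eval_mul, eval_neg, eval_X] at this ⊢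
    simpa using this
  · intro g
    rw [Rm_int, Rm_int]
    have := h.I2 (g.comp (-X))
    simp only [derivative_comp, derivative_neg, derivative_X, eval_comp, eval_mul, eval_neg, eval_X, eval_one] at this ⊢
    simp only [neg_mul, one_mul, neg_neg, integral_neg] at this ⊢
    linarith
  · intro g
    rw [Rm_int, Rm_int]
    have := h.I3 (g.comp (-X))
    simp only [derivative_comp, derivative_neg, derivative_X, eval_comp, eval_mul, eval_neg, eval_X, eval_one] at this ⊢
    simp only [neg_mul, one_mul, neg_neg, integral_neg] at this ⊢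
    linarith
  · intro g
    rw [Rm_int, Rm_int]
    have := h.I4 (g.comp (-X))
    simp only [derivative_comp, derivative_neg, derivative_X, eval_comp, eval_mul, eval_add, eval_neg, eval_X, eval_one] at this ⊢
    simp only [neg_mul, one_mul, neg_neg, mul_neg] at this ⊢
    exact this
  · have e : Qp (A.comp (-X)) (-(b.comp (-X))) (E.comp (-X)) (-(G.comp (-X))) = - ((Qp A b E G).comp (-X)) := by
      simp only [Qp, derivative_comp, derivative_neg, derivative_X, derivative_mul, derivative_one, add_comp, sub_comp, mul_comp, pow_comp, ofNat_comp]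
      ring
    rw [e, h.star]; simp

theorem deg_bound {A b E G : ℝ[X]} (dA : A.natDegree ≤ 4) (db : b.natDegree ≤ 3) (dE : E.natDegree ≤ 2)
    (dG : G.natDegree ≤ 1) (star : Qp A b E G = 0) (hle : A.natDegree ≤ b.natDegree) :
    (A.natDegree = 0 ∧ b.natDegree ≤ 1) ∨ (A.natDegree = 1 ∧ b.natDegree = 1) ∨
      (A.natDegree = 2 ∧ b.natDegree = 2) := by
  by_cases hb0 : b = 0
  · subst hb0
    simp only [natDegree_zero, nonpos_iff_eq_zero] at hle
    left; exact ⟨hle, by simp⟩
  have hA' : derivative A = 0 ∨ (derivative A).natDegree < b.natDegree := by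
    by_cases hA0 : A.natDegree = 0
    · left
      rw [eq_C_of_natDegree_eq_zero hA0]; simp
    · right
      have := natDegree_derivative_lt hA0
      omega
  have h1 : (b - derivative A).natDegree = b.natDegree ∧ b - derivative A ≠ 0 := by
    rcases hA' with h | h
    · rw [h]; simp [hb0]
    · have e := natDegree_sub_eq_left_of_natDegree_lt h
      refine ⟨e, fun h0 => ?_⟩
      rw [h0, natDegree_zero] at e; omega
  have h2 : (b - 2 * derivative A).natDegree = b.natDegree ∧ b - 2 * derivative A ≠ 0 := by
    rcases hA' with h | h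
    · rw [h]; simp [hb0]
    · have hlt : (2 * derivative A).natDegree < b.natDegree := by
        refine lt_of_le_of_lt natDegree_mul_le ?_
        simpa using h
      have e := natDegree_sub_eq_left_of_natDegree_lt hlt
      refine ⟨e, fun h0 => ?_⟩
      rw [h0, natDegree_zero] at e; omega
  have h3 : (b * (b - derivative A) * (b - 2 * derivative A)).natDegree = 3 * b.natDegree := by
    rw [natDegree_mul (mul_ne_zero hb0 h1.2) h2.2, natDegree_mul hb0 h1.2, h1.1, h2.1]; ring
  have e : b * (b - derivative A) * (b - 2 * derivative A) =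
      - (A^2 * (G - derivative E + derivative (derivative b)) +
    A * ((b - derivative A) * (2 * derivative b - E) + b * (derivative b - derivative (derivative A)))) := by
    rw [Qp] at star; linear_combination star
  have hE' : (derivative E).natDegree ≤ 1 := (natDegree_derivative_le E).trans (by omega)
  have hb' : (derivative b).natDegree ≤ 2 := (natDegree_derivative_le b).trans (by omega)
  have hb'' : (derivative (derivative b)).natDegree ≤ 1 := (natDegree_derivative_le _).trans (by omega)
  have hA1 : (derivative A).natDegree ≤ 3 := (natDegree_derivative_le A).trans (by omega)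
  have hA2 : (derivative (derivative A)).natDegree ≤ 2 := (natDegree_derivative_le _).trans (by omega)
  have d1 : (A^2 * (G - derivative E + derivative (derivative b))).natDegree ≤ 2 * A.natDegree + 1 := by
    refine natDegree_mul_le.trans (add_le_add natDegree_pow_le ?_)
    refine (natDegree_add_le _ _).trans (max_le ?_ hb'')
    exact (natDegree_sub_le _ _).trans (max_le dG hE')
  have d2 : (A * ((b - derivative A) * (2 * derivative b - E) + b * (derivative b - derivative (derivative A)))).natDegree
      ≤ A.natDegree + (b.natDegree + 2) := by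
    refine natDegree_mul_le.trans (add_le_add le_rfl ?_)
    refine (natDegree_add_le _ _).trans (max_le ?_ ?_)
    · refine natDegree_mul_le.trans (add_le_add h1.1.le ?_)
      refine (natDegree_sub_le _ _).trans (max_le ?_ dE)
      refine natDegree_mul_le.trans ?_
      simpa using hb'
    · refine natDegree_mul_le.trans (add_le_add le_rfl ?_)
      exact (natDegree_sub_le _ _).trans (max_le hb' hA2)
  have h4 : 3 * b.natDegree ≤ max (2 * A.natDegree + 1) (A.natDegree + (b.natDegree + 2)) := by
    rw [← h3, e, natDegree_neg]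
    exact (natDegree_add_le _ _).trans (max_le_max d1 d2)
  omega

end Kr
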