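import Pool.Agent.H859R3.KrCl
import Pool.Agent.H859R3.KrRefl
set_option autoImplicit false
open MeasureTheory Polynomial Set Filter Topology
namespace Kr

variable {φ ψ η : Measure ℝ} {A b E G : ℝ[X]} {W Y V : ℝ → ℝ}

lemma star_at (star : Qp A b E G = 0) (p : ℝ) (A2 b1 : ℝ[X]) (hA : A = (X - C p)^2 * A2) (hb : b = (X - C p) * b1) :
    (b1.eval p - 2 * A2.eval p) * (b1.eval p^2 - A2.eval p * b1.eval p - A2.eval p * E.eval p) = 0 := by
  set s : ℝ[X] := X - C p with hs
  have hs' : derivative s = 1 := by rw [hs]; simp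
  have e : Qp A b E G = s^3 * (s * A2^2 * (G - derivative E + derivative (derivative b))
      + A2 * ((b1 - 2*A2 - s * derivative A2) * (2 * b1 + 2 * s * derivative b1 - E)
        + b1 * (b1 + s * derivative b1 - 2 * A2 - 4 * s * derivative A2 - s^2 * derivative (derivative A2)))
      + b1 * (b1 - 2*A2 - s * derivative A2) * (b1 - 4*A2 - 2 * s * derivative A2)) := by
    rw [Qp, hA, hb]
    simp only [pow_two, derivative_mul, derivative_add, hs', derivative_one]
    ring
  rw [e] at star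
  have hs0 : s^3 ≠ 0 := pow_ne_zero _ (X_sub_C_ne_zero p)
  have h1 := (mul_eq_zero.1 star).resolve_left hs0
  have h2 := congrArg (fun P : ℝ[X] => P.eval p) h1
  simp only [eval_add, eval_mul, eval_sub, eval_pow, eval_zero, hs, eval_X, eval_C, eval_ofNat] at h2
  linear_combination h2

lemma b_zero (star : Qp A b E G = 0) (p : ℝ) (hA : A.eval p = 0) (hA' : (derivative A).eval p = 0) : b.eval p = 0 := by
  have h2 := congrArg (fun P : ℝ[X] => P.eval p) star
  simp only [Qp, eval_add, eval_mul, eval_sub, eval_pow, eval_zero, eval_ofNat, hA, hA'] at h2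
  have : (b.eval p)^3 = 0 := by linear_combination h2
  exact pow_eq_zero_iff (by norm_num) |>.1 this

lemma Loc.ratio (h : Loc φ A b E G W Y V) (s : Set ℝ) (hs : IsOpen s) (hs' : s.OrdConnected)
    (hA : ∀ x ∈ s, 0 < A.eval x) (Φ : ℝ → ℝ) (hΦ : ∀ x ∈ s, 0 < Φ x)
    (hΦ' : ∀ x ∈ s, HasDerivAt Φ (Φ x * (b.eval x / A.eval x)) x) (x0 : ℝ) (h0 : x0 ∈ s) :
    ∀ x ∈ s, W x = W x0 / Φ x0 * Φ x := by
  intro x hx
  have hd : ∀ y ∈ s, HasDerivAt (fun y => W y / Φ y) 0 y := by
    intro y hy
    have := (h.Wderiv y (hA y hy)).div (hΦ' y hy) (hΦ y hy).ne'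
    convert! this using 1
    have h1 := (hA y hy).ne'
    have h2 := (hΦ y hy).ne'
    field_simp
    ring
  have := hs.is_const_of_deriv_eq_zero hs'.isPreconnected
    (fun x hx => (hd x hx).differentiableAt.differentiableWithinAt) (fun x hx => (hd x hx).deriv) h0 hx
  have this' : W x0 / Φ x0 = W x / Φ x := this
  rw [this', div_mul_cancel₀ _ (hΦ x hx).ne']

lemma Loc.mass (h : Loc φ A b E G W Y V) (star : Qp A b E G = 0) (p δ δ' : ℝ) (hδ : 0 < δ) (hδ' : 0 < δ')
    (hJ : φ (Ioo (p - δ') p) = 0) (A2 b1 : ℝ[X]) (hA : A = (X - C p)^2 * A2) (hb : b = (X - C p) * b1)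
    (hA2 : 0 < A2.eval p) (β : ℝ) (hβ : b1.eval p = β * A2.eval p) (H : ℝ → ℝ) (hH : ContinuousAt H p)
    (hH0 : 0 < H p) (hpos : ∀ x ∈ Ioo p (p+δ), 0 < A.eval x)
    (hW : ∀ x ∈ Ioo p (p+δ), W x = (x - p)^β * H x) :
    1 < β ∧ (φ.real {p} ≠ 0 → β = 2 ∧ E.eval p = 0) := by
  have hfin := h.fin
  obtain ⟨hW0, hY0, hV0, hbM⟩ := h.start p δ' hδ' hJ
  have hAe : ∀ x, A.eval x = (x - p)^2 * A2.eval x := by intro x; rw [hA]; simp
  have hβ1 : 1 < β := by
    set c0 := H p / A2.eval p / 2 with hc0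
    have hc0p : 0 < c0 := by positivity
    have hev : ∀ᶠ x in 𝓝 p, c0 < H x / A2.eval x :=
      (hH.div A2.continuous.continuousAt hA2.ne').eventually (lt_mem_nhds (show c0 < H p / A2.eval p by
        rw [hc0]; exact half_lt_self (by positivity)))
    have hev2 : ∀ᶠ x in 𝓝 p, 0 < A2.eval x := A2.continuous.continuousAt.eventually (lt_mem_nhds hA2)
    obtain ⟨δ2, hδ2, hball⟩ := Metric.eventually_nhds_iff_ball.1 (hev.and hev2)
    set ε := min δ δ2 with hε
    have hε0 : 0 < ε := by positivity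
    have hεδ : ε ≤ δ := min_le_left _ _
    have hεδ2 : ε ≤ δ2 := min_le_right _ _
    have hpos' : ∀ x ∈ Ioo p (p+ε), 0 < A.eval x := fun x hx => hpos x ⟨hx.1, by linarith [hx.2]⟩
    have hi := h.siff (Ioo p (p+ε)) measurableSet_Ioo hpos' (fun _ => 1) (integrableOn_const (measure_ne_top _ _))
    have hi2 : IntegrableOn (fun x => (x - p)^(β - 2)) (Ioo p (p+ε)) := by
      refine Integrable.mono' (hi.const_mul c0⁻¹) (by
        apply Measurable.aestronglyMeasurable; fun_prop) ?_
      rw [ae_restrict_iff' measurableSet_Ioo]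
      refine Eventually.of_forall fun x hx => ?_
      have hxp : 0 < x - p := by linarith [hx.1]
      have hb2 := hball x (by rw [Metric.mem_ball, Real.dist_eq, abs_lt]; constructor <;> linarith [hx.1, hx.2])
      have h3 : W x / A.eval x * 1 = (x - p)^(β-2) * (H x / A2.eval x) := by
        rw [hW x ⟨hx.1, by linarith [hx.2]⟩, hAe, Real.rpow_sub hxp]
        have : (x - p)^(2:ℝ) = (x-p)^2 := by norm_cast
        rw [this]
        have := hb2.2.ne'
        field_simp
      rw [h3, Real.norm_eq_abs, abs_of_pos (by positivity)]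
      have h4 : 0 < (x-p)^(β-2) := by positivity
      have h5 : 1 ≤ c0⁻¹ * (H x / A2.eval x) := by
        rw [inv_mul_eq_div, le_div_iff₀ hc0p]; linarith [hb2.1]
      calc (x-p)^(β-2) = (x-p)^(β-2) * 1 := by ring
        _ ≤ (x-p)^(β-2) * (c0⁻¹ * (H x / A2.eval x)) := by gcongr
        _ = _ := by ring
    have hi3 : IntervalIntegrable (fun x => (x - p)^(β - 2)) volume p (p+ε) := by
      rw [intervalIntegrable_iff_integrableOn_Ioo_of_le (by linarith)]; exact hi2
    have hi4 := hi3.comp_add_right p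
    simp only [add_sub_cancel_right, sub_self, add_sub_cancel_left] at hi4
    rw [intervalIntegrable_iff_integrableOn_Ioo_of_le hε0.le, intervalIntegral.integrableOn_Ioo_rpow_iff hε0] at hi4
    linarith
  refine ⟨hβ1, fun hM => ?_⟩
  -- Y p = 0
  have hYp : Y p = 0 := by
    have hpos2 : ∀ x, x ≤ p + δ/2 → ∀ y ∈ Ioc p x, 0 < A.eval y := fun x hx y hy => hpos y ⟨hy.1, by linarith [hy.2]⟩
    set g : ℝ → ℝ := fun y => V y + W y / A.eval y * E.eval y with hg
    have hgi : IntegrableOn g (Ioc p (p+δ/2)) :=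
      h.Vint.integrableOn.add (h.siff _ measurableSet_Ioc (hpos2 _ le_rfl) _ (int_poly h.mφ E).integrableOn)
    have hgi' : IntegrableOn g (Icc p (p+δ/2)) := (integrableOn_Icc_iff_integrableOn_Ioc (by finiteness)).2 hgi
    have hYx : ∀ x ∈ Icc p (p+δ/2), Y x = Y p + ∫ y in Ioc p x, g y := by
      intro x hx
      have h1 := h.Ydiff p x hx.1
      rw [h.sint _ measurableSet_Ioc (hpos2 x hx.2)] at h1
      have h2 : ∫ y in Ioc p x, g y = (∫ y in Ioc p x, V y) + ∫ y in Ioc p x, W y / A.eval y * E.eval y :=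
        integral_add h.Vint.integrableOn (h.siff _ measurableSet_Ioc (hpos2 x hx.2) _ (int_poly h.mφ E).integrableOn)
      rw [h2]; linarith
    have hYc : ContinuousWithinAt Y (Icc p (p+δ/2)) p := by
      have h1 := (intervalIntegral.continuousOn_primitive hgi') p ⟨le_rfl, by linarith⟩
      have h2 : ContinuousWithinAt (fun x => Y p + ∫ y in Ioc p x, g y) (Icc p (p+δ/2)) p :=
        continuousWithinAt_const.add h1
      exact h2.congr hYx (hYx p ⟨le_rfl, by linarith⟩)
    have hYc' : ContinuousWithinAt Y (Ioi p) p := by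
      exact hYc.mono_of_mem_nhdsWithin (Icc_mem_nhdsGT (show p < p + δ/2 by linarith))
    have hd : HasDerivWithinAt (fun u => ∫ x in p..u, Y x) (Y p) (Ici p) p :=
      intervalIntegral.integral_hasDerivWithinAt_right (t := Ioi p) (by simp)
        h.Ym.stronglyMeasurable.stronglyMeasurableAtFilter hYc'
    have hd2 : HasDerivWithinAt W (Y p) (Ici p) p := by
      refine hd.congr (fun x hx => ?_) ?_
      · have h1 := h.Wdiff p x hx
        rw [hW0, sub_zero] at h1
        rw [h1, intervalIntegral.integral_of_le hx]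
      · rw [hW0]; simp
    rw [hasDerivWithinAt_iff_tendsto_slope, Ici_sdiff_left] at hd2
    have hl : Tendsto (slope W p) (𝓝[>] p) (𝓝 0) := by
      have h1 : Tendsto (fun x => (x - p)^(β-1) * H x) (𝓝[>] p) (𝓝 ((p - p)^(β-1) * H p)) := by
        apply Tendsto.mul
        · have : ContinuousAt (fun x : ℝ => (x - p)^(β-1)) p :=
            ((continuous_id.sub continuous_const).continuousAt).rpow_const (Or.inr (by linarith))
          exact this.mono_left nhdsWithin_le_nhds
        · exact hH.mono_left nhdsWithin_le_nhds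
      rw [sub_self, Real.zero_rpow (by linarith), zero_mul] at h1
      refine h1.congr' ?_
      filter_upwards [Ioo_mem_nhdsGT (show p < p + δ by linarith)] with x hx
      have hxp : 0 < x - p := by linarith [hx.1]
      rw [slope_def_field, hW0, hW x hx, Real.rpow_sub_one hxp.ne']
      ring
    exact tendsto_nhds_unique hd2 hl
  rw [hYp] at hY0
  have hE : E.eval p = 0 := (mul_eq_zero.1 hY0.symm).resolve_right hM
  refine ⟨?_, hE⟩
  have hst := star_at star p A2 b1 hA hb
  rw [hβ, hE] at hst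
  have h5 : A2.eval p * A2.eval p * A2.eval p * ((β - 2) * (β * (β - 1))) = 0 := by linear_combination hst
  have h6 : (β - 2) * (β * (β - 1)) = 0 := (mul_eq_zero.1 h5).resolve_left (by positivity)
  rcases mul_eq_zero.1 h6 with h7 | h7
  · linarith
  · rcases mul_eq_zero.1 h7 with h8 | h8 <;> linarith

lemma Loc.split (h : Loc φ A b E G W Y V) (Z : Finset ℝ) (hZ : ∀ x, A.eval x = 0 ↔ x ∈ Z) (f : ℝ[X]) :
    IntegrableOn (fun x => W x / A.eval x * f.eval x) {x | 0 < A.eval x} ∧
    ∫ x, f.eval x ∂φ = (∫ x in {x | 0 < A.eval x}, W x / A.eval x * f.eval x) + ∑ c ∈ Z, φ.real {c} * f.eval c := by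
  have hfin := h.fin
  have hU : MeasurableSet {x | 0 < A.eval x} := measurableSet_lt measurable_const (eval_meas A)
  have hi := int_poly h.mφ f
  refine ⟨h.siff _ hU (fun x hx => hx) _ hi.integrableOn, ?_⟩
  rw [← integral_add_compl hU hi, h.sint _ hU (fun x hx => hx)]
  congr 1
  have h1 : ∫ x in {x | 0 < A.eval x}ᶜ, f.eval x ∂φ = ∫ x in (Z : Set ℝ), f.eval x ∂φ := by
    apply setIntegral_congr_set
    have hn := h.neg
    rw [ae_iff] at hn
    rw [eventuallyEq_set, ae_iff]
    refine measure_mono_null ?_ hn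
    intro x hx
    simp only [mem_setOf_eq, mem_compl_iff, not_lt, Finset.mem_coe, not_le] at hx ⊢
    rw [← hZ x] at hx
    by_contra hlt
    apply hx
    have : 0 ≤ A.eval x := not_lt.1 hlt
    constructor
    · intro h2; linarith
    · intro h2; linarith
  rw [h1, setIntegral_finset _ hi.integrableOn]
  simp

/-- right unbounded component. -/
lemma Sys.UB' (h : Sys φ ψ η A b E G) (r : ℝ) (hpos : ∀ x, r < x → 0 < A.eval x) (m : ℕ)
    (hb : ∀ᶠ x in atTop, 0 ≤ m * A.eval x + x * b.eval x) : φ (Ioi r) = 0 := by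
  obtain ⟨W, Y, V, hl⟩ := h.loc
  obtain ⟨N0, hN0⟩ := eventually_atTop.1 hb
  set N := max N0 (max (r+1) 1) with hN
  have hNr : r < N := by
    have : r + 1 ≤ N := (le_max_left _ _).trans (le_max_right _ _)
    linarith
  have hN1 : 0 < N := by
    have : 1 ≤ N := (le_max_right _ _).trans (le_max_right _ _)
    linarith
  have hW := hl.UB N hN1 m (fun x hx => hpos x (by linarith)) (fun x hx => hN0 x ((le_max_left _ _).trans hx))
  apply hl.Wz _ measurableSet_Ioi (fun x hx => hpos x hx)
  intro x hx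
  exact hl.zero_prop (Ioi r) isOpen_Ioi ordConnected_Ioi (fun x hx => hpos x hx) N x hNr hx (hW N le_rfl)

lemma Sys.UBpos (h : Sys φ ψ η A b E G) (r : ℝ) (hpos : ∀ x, r < x → 0 < A.eval x)
    (hb : ∀ᶠ x in atTop, 0 ≤ b.eval x) : φ (Ioi r) = 0 := by
  apply h.UB' r hpos 0
  filter_upwards [hb, eventually_ge_atTop 0] with x hx hx0
  have := mul_nonneg hx0 hx
  simpa using this

lemma Sys.UBdeg (h : Sys φ ψ η A b E G) (r : ℝ) (hpos : ∀ x, r < x → 0 < A.eval x)
    (hd : b.natDegree < A.natDegree) : φ (Ioi r) = 0 := by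
  have hA0 : A ≠ 0 := by rintro rfl; simp at hd
  have hdeg : (X * b).degree ≤ A.degree := by
    rw [degree_eq_natDegree hA0]
    refine degree_le_natDegree.trans ?_
    have : (X * b).natDegree ≤ A.natDegree := by
      refine natDegree_mul_le.trans ?_
      simp only [natDegree_X]; omega
    exact_mod_cast this
  have hO := Polynomial.isBigO_of_degree_le (X * b) A hdeg
  obtain ⟨c, hc⟩ := hO.bound
  obtain ⟨m, hm⟩ := exists_nat_ge c
  apply h.UB' r hpos m
  filter_upwards [hc, eventually_gt_atTop r] with x hx hxr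
  have hAx := hpos x hxr
  rw [Real.norm_eq_abs, Real.norm_eq_abs, abs_of_pos hAx] at hx
  simp only [eval_mul, eval_X] at hx
  have h1 := neg_abs_le (x * b.eval x)
  nlinarith

end Kr
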