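import Pool.Agent.H859R3.KrAlg
import Pool.Agent.H859R3.KrMB
set_option autoImplicit false
open MeasureTheory Polynomial Set
namespace Kr

structure Sys (φ ψ η : Measure ℝ) (A b E G : ℝ[X]) : Prop where
  mφ : ∀ k : ℕ, Integrable (fun x : ℝ => x ^ k) φ
  mψ : ∀ k : ℕ, Integrable (fun x : ℝ => x ^ k) ψ
  mη : ∀ k : ℕ, Integrable (fun x : ℝ => x ^ k) η
  hη : η ≠ 0
  dA : A.natDegree ≤ 4
  db : b.natDegree ≤ 3
  dE : E.natDegree ≤ 2
  dG : G.natDegree ≤ 1
  I1 : ∀ g : ℝ[X], ∫ x, g.eval x ∂η = ∫ x, (A * g).eval x ∂φ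
  I2 : ∀ g : ℝ[X], ∫ x, (derivative g).eval x ∂η = - ∫ x, (b * g).eval x ∂φ
  I3 : ∀ g : ℝ[X], ∫ x, (derivative g).eval x ∂ψ = ∫ x, (G * g).eval x ∂φ
  I4 : ∀ g : ℝ[X], ∫ x, g.eval x ∂ψ = - ∫ x, (b * derivative g + E * g).eval x ∂φ
  star : Qp A b E G = 0

/-- moments functional. -/
noncomputable def Lf (μ : Measure ℝ) (h : ∀ k : ℕ, Integrable (fun x : ℝ => x ^ k) μ) : ℝ[X] →ₗ[ℝ] ℝ where
  toFun f := ∫ x, f.eval x ∂μ
  map_add' f g := by
    simp only [eval_add]
    exact integral_add (int_poly h f) (int_poly h g)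
  map_smul' c f := by
    simp only [eval_smul, smul_eq_mul, RingHom.id_apply]
    exact integral_const_mul _ _

theorem exists_sys (φ ψ η : Measure ℝ) (p : ℕ → ℝ[X])
    (mφ : ∀ k : ℕ, Integrable (fun x : ℝ => x ^ k) φ)
    (mψ : ∀ k : ℕ, Integrable (fun x : ℝ => x ^ k) ψ)
    (mη : ∀ k : ℕ, Integrable (fun x : ℝ => x ^ k) η)
    (hφ : ∀ s : Finset ℝ, φ ((↑s : Set ℝ)ᶜ) ≠ 0) (hη : η ≠ 0)
    (hp : ∀ n, (p n).degree = ((n : ℕ) : WithBot ℕ))
    (h1 : ∀ n m : ℕ, n ≠ m → ∫ x, (p n).eval x * (p m).eval x ∂φ = 0)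
    (h2 : ∀ n : ℕ, ∫ x, (p n).eval x * (p n).eval x ∂φ ≠ 0)
    (h3 : ∀ n m : ℕ, n ≠ m →
      (∫ x, (p n).eval x * (p m).eval x ∂φ)
        + (∫ x, (Polynomial.derivative (p n)).eval x
              * (Polynomial.derivative (p m)).eval x ∂ψ)
        + (∫ x, (Polynomial.derivative (Polynomial.derivative (p n))).eval x
              * (Polynomial.derivative (Polynomial.derivative (p m))).eval x ∂η) = 0) :
    ∃ A b E G : ℝ[X], Sys φ ψ η A b E G := by
  have ev : ∀ (μ : Measure ℝ) (h : ∀ k : ℕ, Integrable (fun x : ℝ => x ^ k) μ) (f g : ℝ[X]),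
      Lf μ h (f * g) = ∫ x, f.eval x * g.eval x ∂μ := by
    intro μ h f g
    show ∫ x, (f*g).eval x ∂μ = _
    simp only [eval_mul]
  obtain ⟨A, b, E, G, dA, db, dE, dG, I1, I2, I3, I4⟩ := alg (Lf φ mφ) (Lf ψ mψ) (Lf η mη) p hp
    (fun n m hnm => by rw [ev]; exact h1 n m hnm) (fun n => by rw [ev]; exact h2 n)
    (fun n m hnm => by rw [B, ev, ev, ev]; exact h3 n m hnm)
  refine ⟨A, b, E, G, mφ, mψ, mη, hη, dA, db, dE, dG, I1, I2, I3, I4, ?_⟩
  have hQ := uQ (Lf φ mφ) (Lf ψ mψ) (Lf η mη) A b E G I1 I2 I3 I4 (Qp A b E G)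
  by_contra hne
  rw [ev] at hQ
  have h0 : (fun x => (Qp A b E G).eval x * (Qp A b E G).eval x) =ᵐ[φ] 0 := by
    rw [← integral_eq_zero_iff_of_nonneg (fun x => mul_self_nonneg _)]
    · exact hQ
    · have := int_poly mφ (Qp A b E G * Qp A b E G)
      simpa only [eval_mul] using this
  apply hφ (Qp A b E G).roots.toFinset
  rw [Filter.EventuallyEq, ae_iff] at h0
  refine measure_mono_null (fun x hx => ?_) h0
  simp only [mem_compl_iff, Finset.mem_coe, Multiset.mem_toFinset, mem_roots hne, IsRoot.def] at hx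
  simp [hx]

/-- moment growth for `φ`. -/
theorem Sys.growth {φ ψ η : Measure ℝ} {A b E G : ℝ[X]} (h : Sys φ ψ η A b E G) : EB φ := by
  have hfin : IsFiniteMeasure φ := by
    have := h.mφ 0
    simp only [pow_zero] at this
    exact (integrable_const_iff_isFiniteMeasure one_ne_zero).1 this
  have hA0 : A ≠ 0 := by
    rintro rfl
    have h1 := h.I1 1
    simp at h1
    have hf : IsFiniteMeasure η := by
      have := h.mη 0
      simp only [pow_zero] at this
      exact (integrable_const_iff_isFiniteMeasure one_ne_zero).1 this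
    apply h.hη
    rw [← Measure.measure_univ_eq_zero]
    rw [measureReal_def, ENNReal.toReal_eq_zero_iff] at h1
    rcases h1 with h1 | h1
    · exact h1
    · exact absurd h1 (measure_ne_top _ _)
  set m : ℕ → ℝ := fun n => ∫ x, x^n ∂φ with hm
  -- the recursion
  have hrec : ∀ n : ℕ, 1 ≤ n → ∑ j ∈ Finset.range 4, (b.coeff j + n * A.coeff (j+1)) * m (n+j)
      + n * A.coeff 0 * m (n-1) = 0 := by
    intro n hn
    have h1 := h.I1 (derivative (X^n))
    have h2 := h.I2 (X^n)
    rw [h1] at h2
    have ib := int_poly h.mφ (b * X^n)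
    have iA := int_poly h.mφ (A * derivative (X^n))
    have e1 : ∫ x, (b * X^n).eval x ∂φ = ∑ j ∈ Finset.range 4, b.coeff j * m (n+j) := by
      have : (fun x => (b * X^n).eval x) = fun x => ∑ j ∈ Finset.range 4, b.coeff j * x^(n+j) := by
        ext x
        rw [eval_mul, Polynomial.eval_eq_sum_range' (show b.natDegree < 4 by have := h.db; omega),
          Finset.sum_mul]
        apply Finset.sum_congr rfl
        intro j _
        simp only [eval_pow, eval_X]
        ring
      rw [this, integral_finsetSum _ (fun j _ => (h.mφ (n+j)).const_mul _)]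
      apply Finset.sum_congr rfl
      intro j _
      rw [integral_const_mul]
    have e2 : ∫ x, (A * derivative (X^n)).eval x ∂φ = ∑ j ∈ Finset.range 5, n * A.coeff j * m (n-1+j) := by
      have : (fun x => (A * derivative (X^n)).eval x) = fun x => ∑ j ∈ Finset.range 5, n * A.coeff j * x^(n-1+j) := by
        ext x
        rw [eval_mul, Polynomial.eval_eq_sum_range' (show A.natDegree < 5 by have := h.dA; omega),
          Finset.sum_mul]
        apply Finset.sum_congr rfl
        intro j _
        simp only [derivative_X_pow, eval_mul, eval_pow, eval_X, eval_C]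
        ring
      rw [this, integral_finsetSum _ (fun j _ => (h.mφ (n-1+j)).const_mul _)]
      apply Finset.sum_congr rfl
      intro j _
      rw [integral_const_mul]
    rw [e1, e2] at h2
    rw [Finset.sum_range_succ' (fun j => n * A.coeff j * m (n-1+j)) 4] at h2
    have e3 : ∀ j ∈ Finset.range 4, (n:ℝ) * A.coeff (j+1) * m (n-1+(j+1)) = n * A.coeff (j+1) * m (n+j) := by
      intro j _
      congr 2; omega
    rw [Finset.sum_congr rfl e3] at h2
    simp only [add_mul, Finset.sum_add_distrib]
    simp only [add_zero] at h2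
    linarith
  have hb0 : b ≠ 0 := by
    rintro rfl
    have h1 := h.I2 X
    simp at h1
    have hf : IsFiniteMeasure η := by
      have := h.mη 0
      simp only [pow_zero] at this
      exact (integrable_const_iff_isFiniteMeasure one_ne_zero).1 this
    apply h.hη
    rw [← Measure.measure_univ_eq_zero]
    rw [measureReal_def, ENNReal.toReal_eq_zero_iff] at h1
    rcases h1 with h1 | h1
    · exact h1
    · exact absurd h1 (measure_ne_top _ _)
  classical
  set P : ℕ → Prop := fun j => b.coeff j ≠ 0 ∨ A.coeff (j+1) ≠ 0 with hP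
  set d := Nat.findGreatest P 3 with hd
  have hPd : P d := Nat.findGreatest_spec (m := b.natDegree) h.db (Or.inl (by
    rw [Polynomial.coeff_natDegree]; exact Polynomial.leadingCoeff_ne_zero.2 hb0))
  have hd3 : d ≤ 3 := Nat.findGreatest_le 3
  have hgt : ∀ j, d < j → j ≤ 3 → b.coeff j = 0 ∧ A.coeff (j+1) = 0 := by
    intro j h1 h2
    have := Nat.findGreatest_is_greatest h1 h2
    simp only [hP, not_or, not_not] at this
    exact this
  obtain ⟨δ, n0, hδ, hlow⟩ : ∃ (δ : ℝ) (n0 : ℕ), 0 < δ ∧ ∀ n : ℕ, n0 ≤ n → δ ≤ |b.coeff d + n * A.coeff (d+1)| := by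
    by_cases hA' : A.coeff (d+1) = 0
    · refine ⟨|b.coeff d|, 0, ?_, ?_⟩
      · rcases hPd with h1 | h1
        · exact abs_pos.2 h1
        · exact absurd hA' h1
      · intro n _; simp [hA']
    · have hApos : 0 < |A.coeff (d+1)| := abs_pos.2 hA'
      obtain ⟨n0, hn0⟩ := exists_nat_gt ((|b.coeff d| + 1) / |A.coeff (d+1)|)
      refine ⟨1, n0, one_pos, fun n hn => ?_⟩
      have h1 : (|b.coeff d| + 1) < n * |A.coeff (d+1)| := by
        rw [div_lt_iff₀ hApos] at hn0
        have : (n0:ℝ) ≤ n := by exact_mod_cast hn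
        nlinarith
      have h2 : |(n:ℝ) * A.coeff (d+1)| ≤ |b.coeff d + n * A.coeff (d+1)| + |b.coeff d| := by
        have := abs_sub (b.coeff d + n * A.coeff (d+1)) (b.coeff d)
        simpa using this
      rw [abs_mul, Nat.abs_cast] at h2
      linarith
  set S : ℝ := ∑ j ∈ Finset.range 4, (|b.coeff j| + |A.coeff (j+1)|) + |A.coeff 0| with hS
  have hS0 : 0 ≤ S := add_nonneg (Finset.sum_nonneg fun j _ => by positivity) (abs_nonneg _)
  set n1 := max n0 1 with hn1
  set K : ℝ := 1 + S/δ + ∑ k ∈ Finset.range (n1 + d), |m k| with hK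
  have hsum0 : 0 ≤ ∑ k ∈ Finset.range (n1 + d), |m k| := Finset.sum_nonneg fun k _ => abs_nonneg _
  have hSδ : 0 ≤ S/δ := by positivity
  have hK1 : 1 ≤ K := by linarith
  have hKS : S ≤ K * δ := by
    have : S/δ ≤ K := by linarith
    rwa [div_le_iff₀ hδ] at this
  have key : ∀ N : ℕ, |m N| ≤ K^(N+1) * N.factorial := by
    intro N
    induction N using Nat.strong_induction_on with
    | _ N ih =>
      by_cases hN : N < n1 + d
      · have h1 : |m N| ≤ ∑ k ∈ Finset.range (n1 + d), |m k| :=
          Finset.single_le_sum (f := fun k => |m k|) (fun k _ => abs_nonneg _) (Finset.mem_range.2 hN)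
        have h2 : K ≤ K^(N+1) := by
          calc K = K^1 := (pow_one K).symm
            _ ≤ K^(N+1) := pow_le_pow_right₀ hK1 (by omega)
        have h3 : (1:ℝ) ≤ N.factorial := by exact_mod_cast Nat.factorial_pos N
        have h4 : 0 ≤ K^(N+1) := by positivity
        nlinarith
      · obtain ⟨n, rfl⟩ : ∃ n, N = n + d := ⟨N - d, by omega⟩
        have hn : n1 ≤ n := by omega
        have hn0 : n0 ≤ n := (le_max_left _ _).trans hn
        have hn1' : 1 ≤ n := (le_max_right _ _).trans hn
        have hr := hrec n hn1'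
        have hnR : (1:ℝ) ≤ n := by exact_mod_cast hn1'
        set T : ℝ := K^(n+d) * (n+d-1).factorial with hT
        have hT0 : 0 ≤ T := by positivity
        have hkT : ∀ k, k < n + d → |m k| ≤ T := by
          intro k hk
          refine (ih k hk).trans ?_
          rw [hT]
          have h1 : K^(k+1) ≤ K^(n+d) := pow_le_pow_right₀ hK1 (by omega)
          have h2 : ((k.factorial : ℕ) : ℝ) ≤ ((n+d-1).factorial : ℕ) := by
            exact_mod_cast Nat.factorial_le (by omega)
          have h3 : (0:ℝ) ≤ k.factorial := by positivity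
          have h4 : 0 ≤ K^(n+d) := by positivity
          exact mul_le_mul h1 h2 h3 h4
        rw [← Finset.add_sum_erase _ _ (Finset.mem_range.2 (show d < 4 by omega))] at hr
        have hterm : ∀ j ∈ (Finset.range 4).erase d,
            |(b.coeff j + n * A.coeff (j+1)) * m (n+j)| ≤ (|b.coeff j| + |A.coeff (j+1)|) * (n * T) := by
          intro j hj
          rw [Finset.mem_erase, Finset.mem_range] at hj
          rcases lt_or_gt_of_ne hj.1 with h1 | h1
          · rw [abs_mul]
            have h2 : |b.coeff j + n * A.coeff (j+1)| ≤ (|b.coeff j| + |A.coeff (j+1)|) * n := by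
              calc |b.coeff j + n * A.coeff (j+1)| ≤ |b.coeff j| + |n * A.coeff (j+1)| := abs_add_le _ _
                _ = |b.coeff j| + n * |A.coeff (j+1)| := by rw [abs_mul, Nat.abs_cast]
                _ ≤ _ := by nlinarith [abs_nonneg (b.coeff j)]
            calc _ ≤ ((|b.coeff j| + |A.coeff (j+1)|) * n) * T :=
                  mul_le_mul h2 (hkT _ (by omega)) (abs_nonneg _) (by positivity)
              _ = _ := by ring
          · have := hgt j h1 (by omega)
            rw [this.1, this.2]
            simp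
        have h5 : |(b.coeff d + n * A.coeff (d+1)) * m (n+d)| ≤ S * (n * T) := by
          have : (b.coeff d + n * A.coeff (d+1)) * m (n+d) =
            - (∑ j ∈ (Finset.range 4).erase d, (b.coeff j + n * A.coeff (j+1)) * m (n+j)
              + n * A.coeff 0 * m (n-1)) := by linarith
          rw [this, abs_neg]
          calc _ ≤ |∑ j ∈ (Finset.range 4).erase d, (b.coeff j + n * A.coeff (j+1)) * m (n+j)|
                + |n * A.coeff 0 * m (n-1)| := abs_add_le _ _
            _ ≤ ∑ j ∈ (Finset.range 4).erase d, (|b.coeff j| + |A.coeff (j+1)|) * (n * T)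
                + |A.coeff 0| * (n * T) := by
                apply add_le_add
                · exact (Finset.abs_sum_le_sum_abs _ _).trans (Finset.sum_le_sum hterm)
                · rw [abs_mul, abs_mul, Nat.abs_cast]
                  have := hkT (n-1) (by omega)
                  have h6 : 0 ≤ (n:ℝ) * |A.coeff 0| := by positivity
                  nlinarith
            _ ≤ ∑ j ∈ Finset.range 4, (|b.coeff j| + |A.coeff (j+1)|) * (n * T)
                + |A.coeff 0| * (n * T) := by
                gcongr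
                exact Finset.erase_subset _ _
            _ = _ := by rw [hS, add_mul, Finset.sum_mul]
        rw [abs_mul] at h5
        have h6 := hlow n hn0
        have h7 : δ * |m (n+d)| ≤ S * (n * T) := by
          refine le_trans ?_ h5
          exact mul_le_mul_of_nonneg_right h6 (abs_nonneg _)
        have h8 : (n:ℝ) * T ≤ K^(n+d) * (n+d).factorial := by
          have h9 : ((n+d).factorial : ℝ) = (n+d) * (n+d-1).factorial := by
            have := Nat.mul_factorial_pred (show n + d ≠ 0 by omega)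
            rw [← this]; push_cast; ring
          rw [hT, h9]
          have h10 : (0:ℝ) ≤ d := by positivity
          have h11 : (0:ℝ) ≤ K^(n+d) * (n+d-1).factorial := by positivity
          nlinarith
        have h12 : δ * |m (n+d)| ≤ δ * (K^(n+d+1) * (n+d).factorial) := by
          calc δ * |m (n+d)| ≤ S * (n * T) := h7
            _ ≤ (K * δ) * (K^(n+d) * (n+d).factorial) := by
                apply mul_le_mul hKS h8 (by positivity) (by positivity)
            _ = _ := by ring
        exact le_of_mul_le_mul_left h12 hδ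
  refine ⟨K, hK1, fun n => ?_⟩
  rw [← ofReal_integral_eq_lintegral_ofReal (h.mφ (2*n)) (Filter.Eventually.of_forall fun x => by
    show 0 ≤ x^(2*n)
    rw [pow_mul]; positivity)]
  apply ENNReal.ofReal_le_ofReal
  exact (le_abs_self _).trans (key (2*n))

lemma EB.MB {μ : Measure ℝ} (h : EB μ) : MB μ := by
  obtain ⟨K, hK, h⟩ := h
  have hL : K ≤ 4 * K^2 := by nlinarith
  refine ⟨4 * K^2, by nlinarith, fun n => ?_⟩
  rcases Nat.even_or_odd' n with ⟨k, rfl | rfl⟩
  · have e : ∀ x : ℝ, |x|^(2*k) = x^(2*k) := by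
      intro x; rw [pow_mul, pow_mul, sq_abs]
    simp only [e]
    refine (h k).trans (ENNReal.ofReal_le_ofReal ?_)
    gcongr
  · have e : ∀ x : ℝ, |x|^(2*k+1) ≤ x^(2*k) + x^(2*(k+1)) := by
      intro x
      have e1 : x^(2*k) = |x|^(2*k) := by rw [pow_mul, pow_mul, sq_abs]
      have e2 : x^(2*(k+1)) = |x|^(2*(k+1)) := by rw [pow_mul, pow_mul, sq_abs]
      rw [e1, e2]
      have h0 : 0 ≤ |x|^(2*k) := by positivity
      have : |x|^(2*k) + |x|^(2*(k+1)) - |x|^(2*k+1) = |x|^(2*k) * (1 + |x|^2 - |x|) := by ring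
      have h1 : 0 ≤ 1 + |x|^2 - |x| := by nlinarith [sq_nonneg (|x| - 1), abs_nonneg x]
      nlinarith [mul_nonneg h0 h1]
    calc ∫⁻ x, ENNReal.ofReal (|x|^(2*k+1)) ∂μ ≤ ∫⁻ x, (ENNReal.ofReal (x^(2*k)) + ENNReal.ofReal (x^(2*(k+1)))) ∂μ := by
          apply lintegral_mono
          intro x
          show ENNReal.ofReal (|x|^(2*k+1)) ≤ ENNReal.ofReal (x^(2*k)) + ENNReal.ofReal (x^(2*(k+1)))
          rw [← ENNReal.ofReal_add (by rw [pow_mul]; positivity) (by rw [pow_mul]; positivity)]
          exact ENNReal.ofReal_le_ofReal (e x)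
      _ ≤ ENNReal.ofReal (K^(2*k+1) * (2*k).factorial) + ENNReal.ofReal (K^(2*(k+1)+1) * (2*(k+1)).factorial) := by
          rw [lintegral_add_left (by fun_prop)]
          exact add_le_add (h k) (h (k+1))
      _ = ENNReal.ofReal (K^(2*k+1) * (2*k).factorial + K^(2*(k+1)+1) * (2*(k+1)).factorial) := by
          rw [ENNReal.ofReal_add (by positivity) (by positivity)]
      _ ≤ _ := by
          apply ENNReal.ofReal_le_ofReal
          have f1 : ((2*k).factorial : ℝ) ≤ (2*k+1).factorial := by
            exact_mod_cast Nat.factorial_le (by omega)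
          have f2 : ((2*(k+1)).factorial : ℝ) = (2*k+2) * (2*k+1).factorial := by
            rw [show 2*(k+1) = (2*k+1)+1 by ring, Nat.factorial_succ]; push_cast; ring
          have f3 : ((2*k+2 : ℝ)) ≤ 2^(2*k+2) := by
            have := (Nat.lt_two_pow_self (n := 2*k+2)).le
            have h3 : ((2*k+2 : ℕ):ℝ) ≤ ((2^(2*k+2) : ℕ):ℝ) := by exact_mod_cast this
            push_cast at h3
            linarith
          have f4 : (1:ℝ) ≤ 2^(2*k+2) := one_le_pow₀ (by norm_num)
          have f5 : K^(2*k+1) ≤ K^(2*(2*k+2)) := pow_le_pow_right₀ hK (by omega)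
          have f6 : K^(2*(k+1)+1) ≤ K^(2*(2*k+2)) := pow_le_pow_right₀ hK (by omega)
          have f7 : (2:ℝ)^(2*k+2) + 2^(2*k+2) ≤ 4^(2*k+2) := by
            have : (4:ℝ)^(2*k+2) = 2^(2*k+2) * 2^(2*k+2) := by rw [← mul_pow]; norm_num
            rw [this]
            have : (2:ℝ) ≤ 2^(2*k+2) := by
              calc (2:ℝ) = 2^1 := by norm_num
                _ ≤ 2^(2*k+2) := pow_le_pow_right₀ (by norm_num) (by omega)
            nlinarith
          set N := ((2*k+1).factorial : ℝ) with hN
          have hN0 : 0 ≤ N := by positivity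
          have hK0 : 0 ≤ K^(2*(2*k+2)) := by positivity
          rw [f2]
          calc K^(2*k+1) * (2*k).factorial + K^(2*(k+1)+1) * ((2*k+2) * N)
              ≤ K^(2*(2*k+2)) * (1 * N) + K^(2*(2*k+2)) * ((2^(2*k+2)) * N) := by
                gcongr
                linarith
            _ = K^(2*(2*k+2)) * N * (1 + 2^(2*k+2)) := by ring
            _ ≤ K^(2*(2*k+2)) * N * 4^(2*k+2) := by
                apply mul_le_mul_of_nonneg_left _ (by positivity)
                linarith
            _ = (4*K^2)^(2*k+1+1) * N := by rw [mul_pow, ← pow_mul]; ring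

end Kr
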