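import Pool.Agent.H859R3.KrLem
import Pool.Agent.H859R3.KrSys
set_option autoImplicit false
open MeasureTheory Polynomial Set
namespace Kr

lemma wd_real (m : Measure ℝ) (f : ℝ → ℝ) (hf : Integrable f m) (s : Set ℝ) (hs : MeasurableSet s) :
    (m.withDensity (fun x => ENNReal.ofReal (f x))).real s
      - (m.withDensity (fun x => ENNReal.ofReal (-f x))).real s = ∫ x in s, f x ∂m := by
  rw [measureReal_def, measureReal_def, withDensity_apply _ hs, withDensity_apply _ hs,
    integral_eq_lintegral_pos_part_sub_lintegral_neg_part hf.integrableOn]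

lemma wd_mom (m : Measure ℝ) (P : ℝ[X]) (hm : ∀ k : ℕ, Integrable (fun x : ℝ => x ^ k) m) (n : ℕ) :
    ∫ x, x^n ∂(m.withDensity (fun x => ENNReal.ofReal (P.eval x)))
      - ∫ x, x^n ∂(m.withDensity (fun x => ENNReal.ofReal (-P.eval x))) = ∫ x, (P * X^n).eval x ∂m := by
  have hP : Measurable fun x : ℝ => P.eval x := P.continuous.measurable
  rw [integral_withDensity_eq_integral_toReal_smul (by fun_prop) (by simp),
    integral_withDensity_eq_integral_toReal_smul (by fun_prop) (by simp)]
  simp only [ENNReal.toReal_ofReal', smul_eq_mul]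
  have hi := int_poly hm (P * X^n)
  have i1 : Integrable (fun x => max (P.eval x) 0 * x^n) m := by
    refine hi.mono (by fun_prop) (Filter.Eventually.of_forall fun x => ?_)
    simp only [eval_mul, eval_pow, eval_X]
    rw [norm_mul, norm_mul]
    apply mul_le_mul_of_nonneg_right _ (norm_nonneg _)
    rw [Real.norm_eq_abs, Real.norm_eq_abs, abs_of_nonneg (le_max_right _ _)]
    exact max_le (le_abs_self _) (abs_nonneg _)
  have i2 : Integrable (fun x => max (-P.eval x) 0 * x^n) m := by
    refine hi.mono (by fun_prop) (Filter.Eventually.of_forall fun x => ?_)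
    simp only [eval_mul, eval_pow, eval_X]
    rw [norm_mul, norm_mul]
    apply mul_le_mul_of_nonneg_right _ (norm_nonneg _)
    rw [Real.norm_eq_abs, Real.norm_eq_abs, abs_of_nonneg (le_max_right _ _)]
    exact max_le (neg_le_abs _) (abs_nonneg _)
  rw [← integral_sub i1 i2]
  congr 1; ext x
  simp only [eval_mul, eval_pow, eval_X]
  rcases le_total (P.eval x) 0 with h | h
  · rw [max_eq_right h, max_eq_left (by linarith)]; ring
  · rw [max_eq_left h, max_eq_right (by linarith)]; ring

lemma pos_of (m β : Measure ℝ) (f : ℝ → ℝ) (hf : Measurable f)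
    (h : β + m.withDensity (fun x => ENNReal.ofReal (-f x)) = m.withDensity (fun x => ENNReal.ofReal (f x))) :
    (∀ᵐ x ∂m, 0 ≤ f x) ∧ β = m.withDensity (fun x => ENNReal.ofReal (f x)) := by
  have hs : MeasurableSet {x | f x < 0} := measurableSet_lt hf measurable_const
  have h1 : (m.withDensity (fun x => ENNReal.ofReal (f x))) {x | f x < 0} = 0 := by
    rw [withDensity_apply _ hs]
    rw [setLIntegral_congr_fun hs (g := fun _ => 0) (fun x hx => ENNReal.ofReal_of_nonpos (le_of_lt hx))]
    simp
  have h2 : (m.withDensity (fun x => ENNReal.ofReal (-f x))) {x | f x < 0} = 0 := by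
    rw [← h] at h1
    simp only [Measure.coe_add, Pi.add_apply, add_eq_zero] at h1
    exact h1.2
  rw [withDensity_apply _ hs, lintegral_eq_zero_iff (by fun_prop)] at h2
  have h3 : ∀ᵐ x ∂m, 0 ≤ f x := by
    rw [Filter.EventuallyEq, ae_restrict_iff' hs] at h2
    filter_upwards [h2] with x hx
    by_contra hlt
    have hlt' : f x < 0 := not_le.1 hlt
    have := hx hlt'
    simp only [Pi.zero_apply, ENNReal.ofReal_eq_zero] at this
    linarith
  refine ⟨h3, ?_⟩
  have h4 : m.withDensity (fun x => ENNReal.ofReal (-f x)) = 0 := by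
    rw [withDensity_eq_zero_iff (by fun_prop)]
    filter_upwards [h3] with x hx
    simp only [Pi.zero_apply, ENNReal.ofReal_eq_zero]; linarith
  rw [h4, add_zero] at h
  exact h

structure Loc (φ : Measure ℝ) (A b E G : ℝ[X]) (W Y V : ℝ → ℝ) : Prop where
  mφ : ∀ k : ℕ, Integrable (fun x : ℝ => x ^ k) φ
  neg : ∀ᵐ x ∂φ, 0 ≤ A.eval x
  Wint : ∀ n : ℕ, Integrable (fun x => x^n * W x)
  Wm : Measurable W
  Ym : Measurable Y
  Vm : Measurable V
  Yint : Integrable Y
  Vint : Integrable V
  W0 : ∀ᵐ x, 0 ≤ W x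
  Wne : volume.withDensity (fun x => ENNReal.ofReal (W x)) ≠ 0
  R1 : φ.withDensity (fun x => ENNReal.ofReal (A.eval x)) = volume.withDensity (fun x => ENNReal.ofReal (W x))
  R2 : ∀ x, W x = ∫ y in Iic x, b.eval y ∂φ
  R3 : ∀ s, MeasurableSet s → ∫ y in s, b.eval y ∂φ = ∫ y in s, Y y
  R4 : ∀ x, Y x = (∫ y in Iic x, V y) + ∫ y in Iic x, E.eval y ∂φ
  R5 : ∀ x, V x = - ∫ y in Iic x, G.eval y ∂φ

lemma eval_meas (P : ℝ[X]) : Measurable fun x : ℝ => P.eval x := P.continuous.measurable

theorem Sys.loc {φ ψ η : Measure ℝ} {A b E G : ℝ[X]} (h : Sys φ ψ η A b E G) :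
    ∃ W Y V : ℝ → ℝ, Loc φ A b E G W Y V := by
  have hMB : MB φ := h.growth.MB
  have := hMB.finite
  have wMB : ∀ P : ℝ[X], P.natDegree ≤ 4 → MB (φ.withDensity (fun x => ENNReal.ofReal (P.eval x))) := by
    intro P hP
    obtain ⟨c, hc, hg⟩ := poly_growth P hP
    exact hMB.weight _ (eval_meas P) c hc (fun x => (le_abs_self _).trans (hg x))
  have wMB' : ∀ P : ℝ[X], P.natDegree ≤ 4 → MB (φ.withDensity (fun x => ENNReal.ofReal (-P.eval x))) := by
    intro P hP
    obtain ⟨c, hc, hg⟩ := poly_growth P hP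
    exact hMB.weight _ (eval_meas P).neg c hc (fun x => (neg_le_abs _).trans (hg x))
  have hb4 : b.natDegree ≤ 4 := h.db.trans (by norm_num)
  have hE4 : E.natDegree ≤ 4 := h.dE.trans (by norm_num)
  have hG4 : G.natDegree ≤ 4 := h.dG.trans (by norm_num)
  have hpow : ∀ n : ℕ, derivative (X^(n+1) : ℝ[X]) = C ((n:ℝ)+1) * X^n := by
    intro n; rw [derivative_X_pow]; simp
  -- M1
  have M1 : η + φ.withDensity (fun x => ENNReal.ofReal (-A.eval x)) = φ.withDensity (fun x => ENNReal.ofReal (A.eval x)) := by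
    symm
    apply uniq (wMB A h.dA).EB
    · intro n
      exact (h.mη n).add_measure ((wMB' A h.dA).int_pow n)
    · intro n
      rw [integral_add_measure (h.mη n) ((wMB' A h.dA).int_pow n)]
      have h1 := wd_mom φ A h.mφ n
      have h2 := h.I1 (X^n)
      simp only [eval_pow, eval_X] at h2
      linarith
  obtain ⟨A0, M1'⟩ := pos_of φ η _ (eval_meas A) M1
  -- M2
  have h00 : MB (0 : Measure ℝ) := ⟨1, le_rfl, fun n => by simp⟩
  obtain ⟨Wint, Wm, _, M2⟩ := lem _ _ η 0 (wMB b hb4) (wMB' b hb4) h00 h.mη (by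
      have h1 := wd_real φ (fun x => b.eval x) (int_poly h.mφ b) univ MeasurableSet.univ
      have h2 := h.I2 1
      simp only [derivative_one, eval_zero, integral_zero, mul_one] at h2
      rw [Measure.restrict_univ] at h1
      linarith) (by
      intro n
      have h1 := wd_mom φ b h.mφ (n+1)
      have h2 := h.I2 (X^(n+1))
      rw [h1, hpow] at *
      simp only [eval_mul, eval_C, eval_pow, eval_X, integral_const_mul] at h2 ⊢
      simp only [integral_zero_measure, sub_zero]
      have : (n:ℝ) + 1 ≠ 0 := by positivity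
      field_simp
      linarith) (fun x => ∫ y in Iic x, b.eval y ∂φ) (fun x => (wd_real φ (fun x => b.eval x) (int_poly h.mφ b) (Iic x) measurableSet_Iic).symm)
  rw [zero_add] at M2
  obtain ⟨W0, M2'⟩ := pos_of volume η _ Wm M2
  -- M3
  obtain ⟨Vint, Vm, VMB, M3⟩ := lem _ _ ψ 0 (wMB' G hG4) (wMB G hG4) h00 h.mψ (by
      have h1 := wd_real φ (fun x => G.eval x) (int_poly h.mφ G) univ MeasurableSet.univ
      have h2 := h.I3 1
      simp only [derivative_one, eval_zero, integral_zero, mul_one] at h2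
      rw [Measure.restrict_univ] at h1
      linarith) (by
      intro n
      have h1 := wd_mom φ G h.mφ (n+1)
      have h2 := h.I3 (X^(n+1))
      rw [hpow] at h2
      simp only [eval_mul, eval_C, eval_pow, eval_X, integral_const_mul] at h1 h2 ⊢
      simp only [integral_zero_measure, sub_zero]
      have : (n:ℝ) + 1 ≠ 0 := by positivity
      field_simp
      linarith) (fun x => - ∫ y in Iic x, G.eval y ∂φ) (fun x => by
        have := (wd_real φ (fun x => G.eval x) (int_poly h.mφ G) (Iic x) measurableSet_Iic)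
        rw [← this]; ring)
  rw [zero_add] at M3
  obtain ⟨V0, M3'⟩ := pos_of volume ψ _ Vm M3
  have ψMB : MB ψ := by rw [M3']; exact VMB
  have := ψMB.finite
  -- M4
  have Vint0 : Integrable (fun x => - ∫ y in Iic x, G.eval y ∂φ) := by simpa using Vint 0
  have hψr : ∀ x, ψ.real (Iic x) = ∫ y in Iic x, (- ∫ z in Iic y, G.eval z ∂φ) := by
    intro x
    have h1 := wd_real volume _ Vint0 (Iic x) measurableSet_Iic
    rw [← M3'] at h1
    have h4 : volume.withDensity (fun x => ENNReal.ofReal (-(- ∫ y in Iic x, G.eval y ∂φ))) = 0 := by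
      rw [withDensity_eq_zero_iff (by exact Vm.neg.ennreal_ofReal.aemeasurable)]
      filter_upwards [V0] with x hx
      simp only [Pi.zero_apply, ENNReal.ofReal_eq_zero]; linarith
    rw [h4] at h1
    simp at h1
    rw [h1]
  have hadd : ∀ s, (ψ + φ.withDensity (fun x => ENNReal.ofReal (E.eval x))).real s = ψ.real s +
      (φ.withDensity (fun x => ENNReal.ofReal (E.eval x))).real s := by
    intro s
    have := (wMB E hE4).finite
    exact measureReal_add_apply
  obtain ⟨Yint, Ym, _, M4⟩ := lem (ψ + φ.withDensity (fun x => ENNReal.ofReal (E.eval x))) _ _ _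
      (ψMB.add (wMB E hE4)) (wMB' E hE4) (wMB' b hb4) (fun n => (wMB b hb4).int_pow n) (by
      have h1 := wd_real φ (fun x => E.eval x) (int_poly h.mφ E) univ MeasurableSet.univ
      have h2 := h.I4 1
      simp only [derivative_one, eval_one, integral_const, smul_eq_mul, mul_one, mul_zero, zero_add] at h2
      rw [Measure.restrict_univ] at h1
      rw [hadd]
      linarith) (by
      intro n
      have h1 := wd_mom φ E h.mφ (n+1)
      have h0 := wd_mom φ b h.mφ n
      have h2 := h.I4 (X^(n+1))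
      rw [hpow] at h2
      rw [h0, integral_add_measure (h.mψ (n+1)) ((wMB E hE4).int_pow (n+1))]
      have e1 : ∫ x, (b * (C ((n:ℝ)+1) * X^n) + E * X^(n+1)).eval x ∂φ
          = ((n:ℝ)+1) * ∫ x, (b * X^n).eval x ∂φ + ∫ x, (E * X^(n+1)).eval x ∂φ := by
        rw [← integral_const_mul, ← integral_add ((int_poly h.mφ _).const_mul _) (int_poly h.mφ _)]
        congr 1; ext x
        simp only [eval_mul, eval_C, eval_pow, eval_X, eval_add]; ring
      rw [e1] at h2
      simp only [eval_pow, eval_X] at h2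
      have : (n:ℝ) + 1 ≠ 0 := by positivity
      rw [eq_neg_iff_add_eq_zero, ← eq_neg_iff_add_eq_zero]
      field_simp
      linarith) (fun x => (∫ y in Iic x, (- ∫ z in Iic y, G.eval z ∂φ)) + ∫ y in Iic x, E.eval y ∂φ) (fun x => by
        have h1 := (wd_real φ (fun x => E.eval x) (int_poly h.mφ E) (Iic x) measurableSet_Iic)
        rw [hadd, ← hψr]; linarith)
  refine ⟨_, _, _, ⟨h.mφ, A0, Wint, Wm, Ym, Vm, by simpa using Yint 0, Vint0, W0, ?_, ?_, fun x => rfl, ?_, fun x => rfl, fun x => rfl⟩⟩
  · rw [← M2']; exact h.hη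
  · rw [← M1', ← M2']
  · intro s hs
    have Yint0 := Yint 0
    simp only [pow_zero, one_mul] at Yint0
    have h1 := wd_real φ (fun x => b.eval x) (int_poly h.mφ b) s hs
    have h2 := wd_real volume _ Yint0 s hs
    rw [← h1, ← h2]
    have f1 := (wMB b hb4).finite
    have f2 := (wMB' b hb4).finite
    have f3 : IsFiniteMeasure (volume.withDensity (fun x => ENNReal.ofReal ((∫ y in Iic x, (- ∫ z in Iic y, G.eval z ∂φ)) + ∫ y in Iic x, E.eval y ∂φ))) :=
      isFiniteMeasure_withDensity_ofReal Yint0.2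
    have f4 : IsFiniteMeasure (volume.withDensity (fun x => ENNReal.ofReal (-((∫ y in Iic x, (- ∫ z in Iic y, G.eval z ∂φ)) + ∫ y in Iic x, E.eval y ∂φ)))) :=
      isFiniteMeasure_withDensity_ofReal Yint0.neg.2
    have h5 := congrArg (fun μ : Measure ℝ => μ.real s) M4
    try simp only at h5
    rw [measureReal_add_apply, measureReal_add_apply] at h5
    linarith

end Kr
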