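import Mathlib
set_option autoImplicit false
open MeasureTheory Polynomial ProbabilityTheory
namespace Kr

/-- factorial growth of the absolute moments -/
def MB (μ : Measure ℝ) : Prop := ∃ K : ℝ, 1 ≤ K ∧
  ∀ n : ℕ, ∫⁻ x, ENNReal.ofReal (|x|^n) ∂μ ≤ ENNReal.ofReal (K^(n+1) * n.factorial)

/-- factorial growth of even moments -/
def EB (μ : Measure ℝ) : Prop := ∃ K : ℝ, 1 ≤ K ∧
  ∀ n : ℕ, ∫⁻ x, ENNReal.ofReal (x^(2*n)) ∂μ ≤ ENNReal.ofReal (K^(2*n+1) * (2*n).factorial)

lemma MB.EB {μ : Measure ℝ} (h : MB μ) : EB μ := by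
  obtain ⟨K, hK, h⟩ := h
  refine ⟨K, hK, fun n => ?_⟩
  have := h (2*n)
  have e : ∀ x : ℝ, |x|^(2*n) = x^(2*n) := by
    intro x; rw [pow_mul, pow_mul, sq_abs]
  simp only [e] at this
  exact this

lemma EB.cosh {μ : Measure ℝ} (h : EB μ) : ∃ δ : ℝ, 0 < δ ∧ ∀ t : ℝ, |t| < δ →
    ∫⁻ x, ENNReal.ofReal (Real.cosh (t*x)) ∂μ < ⊤ := by
  obtain ⟨K, hK, h⟩ := h
  have hK0 : 0 < K := by linarith
  refine ⟨1/K, by positivity, fun t ht => ?_⟩
  have htK : |t| * K < 1 := by
    rw [lt_div_iff₀ hK0] at ht; exact ht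
  have e1 : ∀ x : ℝ, ENNReal.ofReal (Real.cosh (t*x)) =
      ∑' n : ℕ, ENNReal.ofReal (t^(2*n) / (2*n).factorial) * ENNReal.ofReal (x^(2*n)) := by
    intro x
    rw [Real.cosh_eq_tsum, ENNReal.ofReal_tsum_of_nonneg]
    · congr 1; ext n
      rw [← ENNReal.ofReal_mul]
      · congr 1; rw [mul_pow]; ring
      · have : 0 ≤ t^(2*n) := by rw [pow_mul]; positivity
        positivity
    · intro n
      have : 0 ≤ (t*x)^(2*n) := by rw [pow_mul]; positivity
      positivity
    · exact (Real.hasSum_cosh (t*x)).summable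
  simp only [e1]
  rw [lintegral_tsum]
  · have e2 : ∀ n : ℕ, ∫⁻ x, ENNReal.ofReal (t^(2*n) / (2*n).factorial) * ENNReal.ofReal (x^(2*n)) ∂μ
        ≤ ENNReal.ofReal (K * ((abs t * K)^2)^n) := by
      intro n
      have h0 : 0 ≤ t^(2*n) := by rw [pow_mul]; positivity
      rw [lintegral_const_mul _ (by fun_prop)]
      calc ENNReal.ofReal (t^(2*n) / (2*n).factorial) * ∫⁻ x, ENNReal.ofReal (x^(2*n)) ∂μ
          ≤ ENNReal.ofReal (t^(2*n) / (2*n).factorial) * ENNReal.ofReal (K^(2*n+1) * (2*n).factorial) := by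
            gcongr; exact h n
        _ = ENNReal.ofReal (K * ((abs t * K)^2)^n) := by
            rw [← ENNReal.ofReal_mul (by positivity)]
            congr 1
            have : ((2*n).factorial : ℝ) ≠ 0 := by positivity
            rw [mul_pow, sq_abs, mul_pow, ← pow_mul, ← pow_mul]
            field_simp
            ring
    calc ∑' n : ℕ, ∫⁻ x, ENNReal.ofReal (t^(2*n) / (2*n).factorial) * ENNReal.ofReal (x^(2*n)) ∂μ
        ≤ ∑' n : ℕ, ENNReal.ofReal (K * ((abs t * K)^2)^n) := ENNReal.tsum_le_tsum e2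
      _ = ENNReal.ofReal (∑' n : ℕ, K * ((abs t * K)^2)^n) := by
          rw [ENNReal.ofReal_tsum_of_nonneg]
          · intro n; positivity
          · apply Summable.mul_left
            apply summable_geometric_of_lt_one (by positivity)
            have : 0 ≤ |t| * K := by positivity
            nlinarith
      _ < ⊤ := ENNReal.ofReal_lt_top
  · intro n; fun_prop

lemma EB.expInt {μ : Measure ℝ} (h : EB μ) :
    (0:ℝ) ∈ interior (integrableExpSet id μ) := by
  obtain ⟨δ, hδ, h⟩ := h.cosh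
  rw [mem_interior]
  refine ⟨Set.Ioo (-δ) δ, ?_, isOpen_Ioo, by simp [hδ]⟩
  intro t ht
  have ht' : |t| < δ := abs_lt.2 ht
  have h1 := h t ht'
  have h2 : Integrable (fun x : ℝ => Real.cosh (t*x)) μ := by
    refine ⟨by fun_prop, ?_⟩
    rw [hasFiniteIntegral_iff_ofReal]
    · exact h1
    · exact Filter.Eventually.of_forall (fun x => (Real.cosh_pos _).le)
  show Integrable (fun x => Real.exp (t * id x)) μ
  refine Integrable.mono' (h2.const_mul 2) (by fun_prop) (Filter.Eventually.of_forall fun x => ?_)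
  simp only [id]
  rw [Real.norm_eq_abs, abs_of_pos (Real.exp_pos _), Real.cosh_eq]
  have := Real.exp_pos (-(t*x))
  linarith

lemma EB.finite {μ : Measure ℝ} (h : EB μ) : IsFiniteMeasure μ := by
  obtain ⟨K, hK, h⟩ := h
  have := h 0
  constructor
  simp at this
  exact lt_of_le_of_lt this ENNReal.ofReal_lt_top

theorem uniq {μ ν : Measure ℝ} (h1 : EB μ) (h2 : ∀ n : ℕ, Integrable (fun x : ℝ => x^n) ν)
    (hm : ∀ n : ℕ, ∫ x, x^n ∂μ = ∫ x, x^n ∂ν) : μ = ν := by
  have h2' : EB ν := by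
    obtain ⟨K, hK, h⟩ := h1
    have hint : ∀ n : ℕ, Integrable (fun x : ℝ => x^(2*n)) μ := by
      intro n
      refine ⟨by fun_prop, ?_⟩
      rw [hasFiniteIntegral_iff_ofReal]
      · exact lt_of_le_of_lt (h n) ENNReal.ofReal_lt_top
      · exact Filter.Eventually.of_forall (fun x => by
          show 0 ≤ x^(2*n)
          rw [pow_mul]; positivity)
    refine ⟨K, hK, fun n => ?_⟩
    have e1 : ∀ x : ℝ, 0 ≤ x^(2*n) := fun x => by rw [pow_mul]; positivity
    rw [← ofReal_integral_eq_lintegral_ofReal (h2 (2*n)) (Filter.Eventually.of_forall e1), ← hm,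
      ofReal_integral_eq_lintegral_ofReal (hint n) (Filter.Eventually.of_forall e1)]
    exact h n
  have := h1.finite
  have := h2'.finite
  have i1 := h1.expInt
  have i2 := h2'.expInt
  -- mgf agree near 0
  have hmgf : ∀ᶠ t in nhds (0:ℝ), mgf id μ t = mgf id ν t := by
    have p1 := hasFPowerSeriesAt_mgf i1
    have p2 := hasFPowerSeriesAt_mgf i2
    have : (FormalMultilinearSeries.ofScalars ℝ
        (fun n ↦ (∫ ω, (id ω : ℝ) ^ n * Real.exp (0 * id ω) ∂μ : ℝ) / (n.factorial : ℝ)))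
        = (FormalMultilinearSeries.ofScalars ℝ
        (fun n ↦ (∫ ω, (id ω : ℝ) ^ n * Real.exp (0 * id ω) ∂ν : ℝ) / (n.factorial : ℝ))) := by
      congr 1; ext n
      simp [hm n]
    rw [this] at p1
    have := p1.eventually_hasSum_sub
    have h' := p2.eventually_hasSum_sub
    filter_upwards [this, h'] with t ha hb
    exact ha.unique hb
  -- complex mgf on the strip
  apply Measure.ext_of_charFun
  ext t
  rw [← complexMGF_id_mul_I, ← complexMGF_id_mul_I]
  obtain ⟨δ, hδ, hball⟩ := Metric.isOpen_iff.1 (isOpen_interior.inter isOpen_interior) 0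
    (show (0:ℝ) ∈ interior (integrableExpSet id μ) ∩ interior (integrableExpSet id ν) from ⟨i1, i2⟩)
  set U : Set ℂ := {z : ℂ | z.re ∈ Metric.ball (0:ℝ) δ} with hU
  have hUc : IsPreconnected U := by
    have : Convex ℝ U := by
      have := (convex_ball (0:ℝ) δ).is_linear_preimage (f := Complex.re) (by
        exact ⟨fun x y => Complex.add_re x y, fun c x => by simp⟩)
      exact this
    exact this.isPreconnected
  have a1 : AnalyticOnNhd ℂ (complexMGF id μ) U := fun z hz => analyticAt_complexMGF (hball hz).1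
  have a2 : AnalyticOnNhd ℂ (complexMGF id ν) U := fun z hz => analyticAt_complexMGF (hball hz).2
  have h0 : (0:ℂ) ∈ U := by simp [hU, hδ]
  have hfr : ∃ᶠ z in nhdsWithin (0:ℂ) {0}ᶜ, complexMGF id μ z = complexMGF id ν z := by
    have hr : ∃ᶠ s : ℝ in nhdsWithin (0:ℝ) {0}ᶜ, complexMGF id μ (s:ℂ) = complexMGF id ν (s:ℂ) := by
      apply Filter.Eventually.frequently
      have := hmgf.filter_mono (nhdsWithin_le_nhds (s := {0}ᶜ))
      filter_upwards [this] with s hs
      rw [complexMGF_ofReal, complexMGF_ofReal, hs]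
    have ht : Filter.Tendsto (fun s : ℝ => (s:ℂ)) (nhdsWithin (0:ℝ) {0}ᶜ) (nhdsWithin (0:ℂ) {0}ᶜ) := by
      apply tendsto_nhdsWithin_of_tendsto_nhds_of_eventually_within
      · have : Filter.Tendsto (fun s : ℝ => (s:ℂ)) (nhds 0) (nhds ((0:ℝ):ℂ)) :=
          Complex.continuous_ofReal.tendsto 0
        simpa using this.mono_left nhdsWithin_le_nhds
      · filter_upwards [self_mem_nhdsWithin] with s hs
        simpa using hs
    exact ht.frequently hr
  have := a1.eqOn_of_preconnected_of_frequently_eq a2 hUc h0 hfr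
  apply this
  simp [hU, hδ]

end Kr
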