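import Mathlib
import Pool.Agent.H862R3.Prim.Stmts2
import Pool.Agent.H948R3.PV_TaskG

set_option autoImplicit false
set_option linter.style.haveILetI false

namespace Pool.Agent.H859R3.PV

open Pool.Agent.H862R3.Prim Pool.Agent.H948R3.PV
open scoped IsMulCommutative

/-- A complemented subgroup of a commutative subgroup is a retract. -/
theorem exists_retract2 {G : Type} [Group G] (N H Q : Subgroup G) (hNQ : N ≤ Q) (hHQ : H ≤ Q)
    (hQ : Comm Q) (hsup : N ⊔ H = Q) (hinf : N ⊓ H = ⊥) :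
    ∃ π : Q →* N, ∀ n : N, π ⟨n, hNQ n.2⟩ = n := by
  haveI : IsMulCommutative Q := ⟨⟨fun a b => Subtype.ext (hQ a a.2 b b.2)⟩⟩
  let HQ : Subgroup Q := H.subgroupOf Q
  haveI : HQ.Normal := inferInstance
  let f : N →* Q ⧸ HQ := (QuotientGroup.mk' HQ).comp (Subgroup.inclusion hNQ)
  have hinj : Function.Injective f := by
    rw [injective_iff_map_eq_one]
    intro n hn
    have h1 : (Subgroup.inclusion hNQ n) ∈ HQ := (QuotientGroup.eq_one_iff _).1 hn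
    have h2 : (n : G) ∈ H := Subgroup.mem_subgroupOf.1 h1
    have h3 : (n : G) ∈ N ⊓ H := ⟨n.2, h2⟩
    rw [hinf, Subgroup.mem_bot] at h3
    exact Subtype.ext h3
  have hsurj : Function.Surjective f := by
    intro y
    obtain ⟨x, rfl⟩ := QuotientGroup.mk'_surjective HQ y
    have hx : (x : G) ∈ N ⊔ H := by rw [hsup]; exact x.2
    have hx' : ∃ a ∈ N, ∃ b ∈ H, a * b = (x : G) := by
      have hle : N ⊔ H ≤ Q := sup_le hNQ hHQ
      refine Subgroup.closure_induction (k := (N : Set G) ∪ H)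
        (p := fun g _ => ∃ a ∈ N, ∃ b ∈ H, a * b = g) ?_ ?_ ?_ ?_
        (by rw [← Subgroup.sup_eq_closure]; exact hx)
      · rintro g (hg | hg)
        · exact ⟨g, hg, 1, H.one_mem, mul_one _⟩
        · exact ⟨1, N.one_mem, g, hg, one_mul _⟩
      · exact ⟨1, N.one_mem, 1, H.one_mem, mul_one _⟩
      · rintro _ _ _ _ ⟨a, ha, b, hb, rfl⟩ ⟨c, hc, d, hd, rfl⟩
        refine ⟨a * c, N.mul_mem ha hc, b * d, H.mul_mem hb hd, ?_⟩
        have := hQ b (hHQ hb) c (hNQ hc)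
        calc a * c * (b * d) = a * (c * b) * d := by simp only [mul_assoc]
          _ = a * (b * c) * d := by rw [this]
          _ = a * b * (c * d) := by simp only [mul_assoc]
      · rintro _ _ ⟨a, ha, b, hb, rfl⟩
        refine ⟨a⁻¹, N.inv_mem ha, b⁻¹, H.inv_mem hb, ?_⟩
        rw [hQ a⁻¹ (hNQ (N.inv_mem ha)) b⁻¹ (hHQ (H.inv_mem hb)), mul_inv_rev]
    obtain ⟨a, ha, b, hb, hab⟩ := hx'
    refine ⟨⟨a, ha⟩, ?_⟩
    show QuotientGroup.mk' HQ (Subgroup.inclusion hNQ ⟨a, ha⟩) = QuotientGroup.mk' HQ x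
    rw [QuotientGroup.mk'_eq_mk']
    exact ⟨⟨b, hHQ hb⟩, Subgroup.mem_subgroupOf.2 hb, Subtype.ext hab⟩
  let e : N ≃* Q ⧸ HQ := MulEquiv.ofBijective f ⟨hinj, hsurj⟩
  refine ⟨e.symm.toMonoidHom.comp (QuotientGroup.mk' HQ), fun n => ?_⟩
  show e.symm (QuotientGroup.mk' HQ ⟨n, hNQ n.2⟩) = n
  exact e.symm_apply_apply n

open Classical in
/-- Gaschütz's theorem for an abelian Sylow subgroup in which `N` has a complement. -/
theorem taskG2 : TaskG2 := by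
  intro G _ _ N Q H q hq hN hHQ hsup hinf hQ hpow hcop
  haveI := hN
  have hNQ : N ≤ Q := hsup ▸ le_sup_left
  haveI : IsMulCommutative N := ⟨⟨fun a b => Subtype.ext (hQ a (hNQ a.2) b (hNQ b.2))⟩⟩
  obtain ⟨π, hπ⟩ := exists_retract2 N H Q hNQ hHQ hQ hsup hinf
  obtain ⟨F, hF⟩ := exists_comp N Q π
  have hconjQ : ∀ v ∈ Q, ∀ n : N, MulAut.conjNormal v n = n := by
    intro v hv n
    apply Subtype.ext
    rw [MulAut.conjNormal_apply, hQ v hv n (hNQ n.2)]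
    simp
  -- the cocycle pieces
  let δ : G → G → N := fun w g => MulAut.conjNormal w (F (w⁻¹ * g) * (F w⁻¹)⁻¹)
  have hδQ : ∀ (w g : G) (v : Q), δ (w * v) g = δ w g := by
    intro w g v
    show MulAut.conjNormal (w * (v : G)) (F ((w * v)⁻¹ * g) * (F (w * v)⁻¹)⁻¹) =
      MulAut.conjNormal w (F (w⁻¹ * g) * (F w⁻¹)⁻¹)
    have e1 : F ((w * (v : G))⁻¹ * g) = π v⁻¹ * F (w⁻¹ * g) := by
      rw [← hF]; congr 1; simp [mul_assoc]
    have e2 : F ((w * (v : G))⁻¹) = π v⁻¹ * F (w⁻¹) := by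
      rw [← hF]; congr 1; simp
    rw [e1, e2, map_mul (MulAut.conjNormal) w (v : G), MulAut.mul_apply, hconjQ v v.2]
    congr 1
    rw [mul_inv_rev, mul_comm (F w⁻¹)⁻¹ _, mul_comm (π v⁻¹), ← mul_assoc]
    simp
  have hδout : ∀ (w g : G), δ ((w : G ⧸ Q).out) g = δ w g := by
    intro w g
    obtain ⟨h, hh⟩ := QuotientGroup.mk_out_eq_mul Q w
    rw [hh, hδQ]
  have hδN : ∀ (w : G) (n : N), δ w n = n := by
    intro w n
    have e : F (w⁻¹ * n) = MulAut.conjNormal w⁻¹ n * F w⁻¹ := by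
      have h1 := hF ⟨MulAut.conjNormal w⁻¹ n, hNQ (MulAut.conjNormal w⁻¹ n).2⟩ w⁻¹
      rw [hπ] at h1
      rw [← h1]
      congr 1
      simp [mul_assoc]
    show MulAut.conjNormal w (F (w⁻¹ * n) * (F w⁻¹)⁻¹) = n
    rw [e, mul_inv_cancel_right, ← MulAut.mul_apply, ← map_mul]
    simp
  have hδmul : ∀ (w g₁ g₂ : G), δ w (g₁ * g₂) =
      δ w g₁ * MulAut.conjNormal g₁ (δ (g₁⁻¹ * w) g₂) := by
    intro w g₁ g₂
    show MulAut.conjNormal w (F (w⁻¹ * (g₁ * g₂)) * (F w⁻¹)⁻¹) =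
      MulAut.conjNormal w (F (w⁻¹ * g₁) * (F w⁻¹)⁻¹) * MulAut.conjNormal g₁
        (MulAut.conjNormal (g₁⁻¹ * w) (F ((g₁⁻¹ * w)⁻¹ * g₂) * (F (g₁⁻¹ * w)⁻¹)⁻¹))
    rw [← MulAut.mul_apply, ← map_mul, mul_inv_cancel_left, ← map_mul]
    congr 1
    have e1 : (g₁⁻¹ * w)⁻¹ * g₂ = w⁻¹ * (g₁ * g₂) := by group
    have e2 : (g₁⁻¹ * w)⁻¹ = w⁻¹ * g₁ := by group
    rw [e1, e2, mul_comm (F (w⁻¹ * g₁) * (F w⁻¹)⁻¹)]
    group
  haveI : Fintype (G ⧸ Q) := Fintype.ofFinite _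
  let Δ : G → N := fun g => ∏ c : G ⧸ Q, δ c.out g
  have hΔmul : ∀ g₁ g₂ : G, Δ (g₁ * g₂) = Δ g₁ * MulAut.conjNormal g₁ (Δ g₂) := by
    intro g₁ g₂
    show ∏ c : G ⧸ Q, δ c.out (g₁ * g₂) = (∏ c : G ⧸ Q, δ c.out g₁) *
      MulAut.conjNormal g₁ (∏ c : G ⧸ Q, δ c.out g₂)
    rw [map_prod, ← Equiv.prod_comp (MulAction.toPerm (g₁⁻¹ : G) : Equiv.Perm (G ⧸ Q))
      (fun c => MulAut.conjNormal g₁ (δ c.out g₂)), ← Finset.prod_mul_distrib]
    apply Finset.prod_congr rfl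
    intro c _
    rw [hδmul]
    congr 2
    show δ (g₁⁻¹ * c.out) g₂ = δ ((g₁⁻¹ • c).out) g₂
    rw [← hδout]
    congr 2
    conv_rhs => rw [← QuotientGroup.out_eq' c]
    rfl
  have hΔN : ∀ n : N, Δ n = n ^ Q.index := by
    intro n
    show ∏ c : G ⧸ Q, δ c.out n = n ^ Q.index
    rw [Finset.prod_congr rfl (fun c _ => hδN c.out n), Finset.prod_const, Finset.card_univ,
      Subgroup.index, Nat.card_eq_fintype_card]
  -- normalise
  have hcopN : Nat.Coprime Q.index (Nat.card N) := by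
    haveI : Fact q.Prime := ⟨hq⟩
    have hp : IsPGroup q N := fun n => by
      obtain ⟨k, hk⟩ := hpow n (hNQ n.2)
      exact ⟨k, Subtype.ext hk⟩
    obtain ⟨j, hj⟩ := IsPGroup.iff_card.1 hp
    rw [hj]
    exact (Nat.Coprime.pow_left j hcop).symm
  let k : ℤ := Nat.gcdA Q.index (Nat.card N)
  let D : G → N := fun g => Δ g ^ k
  have hDmul : ∀ g₁ g₂ : G, D (g₁ * g₂) = D g₁ * MulAut.conjNormal g₁ (D g₂) := by
    intro g₁ g₂
    show Δ (g₁ * g₂) ^ k = Δ g₁ ^ k * MulAut.conjNormal g₁ (Δ g₂ ^ k)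
    rw [hΔmul, mul_zpow, map_zpow]
  have hDN : ∀ n : N, D n = n := by
    intro n
    show Δ n ^ k = n
    have hb : ((Q.index : ℤ)) * k + (Nat.card N : ℤ) * Nat.gcdB Q.index (Nat.card N) = 1 := by
      have := Nat.gcd_eq_gcd_ab Q.index (Nat.card N)
      rw [hcopN.gcd_eq_one] at this
      exact_mod_cast this.symm
    have h1 : n ^ ((Nat.card N : ℤ) * Nat.gcdB Q.index (Nat.card N)) = 1 := by
      rw [zpow_mul, zpow_natCast, pow_card_eq_one', one_zpow]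
    rw [hΔN, ← zpow_natCast, ← zpow_mul]
    calc n ^ ((Q.index : ℤ) * k) = n ^ ((Q.index : ℤ) * k) *
          n ^ ((Nat.card N : ℤ) * Nat.gcdB Q.index (Nat.card N)) := by rw [h1, mul_one]
      _ = n ^ (1 : ℤ) := by rw [← zpow_add, hb]
      _ = n := zpow_one n
  have hD1 : D 1 = 1 := by
    have := hDN 1
    simpa using this
  let K : Subgroup G :=
    { carrier := {g | D g = 1}
      one_mem' := hD1
      mul_mem' := by
        intro a b ha hb
        show D (a * b) = 1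
        rw [hDmul, show D a = 1 from ha, show D b = 1 from hb, map_one, one_mul]
      inv_mem' := by
        intro a ha
        have h1 : D (a * a⁻¹) = 1 := by rw [mul_inv_cancel, hD1]
        rw [hDmul, show D a = 1 from ha, one_mul] at h1
        exact (MulEquiv.map_eq_one_iff _).1 h1 }
  refine ⟨K, Subgroup.isComplement'_of_disjoint_and_mul_eq_univ ?_ ?_⟩
  · rw [Subgroup.disjoint_def]
    intro x hx hxK
    have h1 := hDN ⟨x, hx⟩
    have h2 : D x = 1 := hxK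
    have h3 : (⟨x, hx⟩ : N) = 1 := by rw [← h1]; exact h2
    exact congrArg Subtype.val h3
  · rw [Set.eq_univ_iff_forall]
    intro g
    refine Set.mem_mul.2 ⟨(D g : G), (D g).2, (D g : G)⁻¹ * g, ?_, by simp⟩
    show D ((D g : G)⁻¹ * g) = 1
    rw [hDmul, hconjQ _ (hNQ (N.inv_mem (D g).2))]
    have := hDN (D g)⁻¹
    have e : (((D g)⁻¹ : N) : G) = (D g : G)⁻¹ := rfl
    rw [e] at this
    rw [this, inv_mul_cancel]

end Pool.Agent.H859R3.PV
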